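import Mathlib
import Pool.Graph.R_seed8.W262.RK.AT1
import Pool.Graph.R_seed8.W505.RK.LS
import Pool.Graph.R_seed8.W655.RK.Full

/-!
# Twisted Euler products on average over the conductor, by the large sieve
-/

set_option autoImplicit false

namespace Pool.Agent.H64.PM

open Finset Pool.Agent.W262.RK

/-- the defect -/
noncomputable def Df (g γ : ℕ → ℝ) (z y : ℕ) (t : Bool) (r : ℕ) : ℝ :=
  ∑ p ∈ PS z y, (g p - γ p * (Jr p r * x4 t p))

/-- the dyadic sum -/
noncomputable def Sj (γ : ℕ → ℝ) (z y : ℕ) (t : Bool) (j r : ℕ) : ℝ :=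
  ∑ p ∈ (PS z y).filter (fun p => 2 ^ j < p ∧ p ≤ 2 ^ (j + 1)), γ p * (Jr p r * x4 t p)

lemma Sj_sq {γ : ℕ → ℝ} {z y : ℕ} (hγ : ∀ p : ℕ, p.Prime → z < p → |γ p| ≤ 1 / (2 * (p : ℝ)))
    (t : Bool) {a j : ℕ} (hj : 3 * a + 2 ≤ j) (D : Finset ℕ)
    (hD : ∀ r ∈ D, Odd r ∧ Squarefree r ∧ r < 2 ^ (a + 1)) (hDc : D.card ≤ 2 ^ a) :
    ∑ r ∈ D, (Sj γ z y t j r) ^ 2 ≤ 1 := by
  classical
  set F := (PS z y).filter (fun p => 2 ^ j < p ∧ p ≤ 2 ^ (j + 1)) with hF
  set c : ℕ → ℝ := fun l => if l ∈ F then γ l * x4 t l else 0 with hc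
  have hls := Pool.Agent.W505.RK.ls D (2 ^ (j + 1) + 1) (2 ^ (a + 1)) c
    (fun d hd => ⟨(hD d hd).1, (hD d hd).2.1, (hD d hd).2.2.le⟩)
  have hsub : F ⊆ range (2 ^ (j + 1) + 1) := by
    intro p hp
    rw [hF, mem_filter] at hp
    rw [mem_range]
    omega
  have e1 : ∀ r, ∑ l ∈ range (2 ^ (j + 1) + 1), c l * Jr l r = Sj γ z y t j r := by
    intro r
    rw [← sum_subset hsub]
    · unfold Sj
      rw [← hF]
      refine sum_congr rfl fun p hp => ?_
      simp only [hc, if_pos hp]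
      ring
    · intro p _ hp
      simp only [hc, if_neg hp, zero_mul]
  have e2 : ∑ l ∈ range (2 ^ (j + 1) + 1), c l ^ 2 = ∑ l ∈ F, c l ^ 2 := by
    symm
    apply sum_subset hsub
    intro p _ hp
    simp [hc, if_neg hp]
  have e3 : ∀ p ∈ F, c p ^ 2 ≤ (1 / 4) * (1 / 4) ^ j := by
    intro p hp
    have hp' := hp
    rw [hF, mem_filter, mem_PS] at hp'
    obtain ⟨⟨⟨h1, h2⟩, h3⟩, h4, h5⟩ := hp'
    have h6 : |c p| ≤ 1 / (2 * 2 ^ j) := by
      simp only [hc, if_pos hp]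
      rw [abs_mul]
      have h7 := hγ p h3 h1
      have h8 := abs_x4_le t p
      have h9 : (2 : ℝ) ^ j < p := by exact_mod_cast h4
      calc |γ p| * |x4 t p| ≤ 1 / (2 * (p : ℝ)) * 1 :=
            mul_le_mul h7 h8 (abs_nonneg _) (by positivity)
        _ ≤ 1 / (2 * 2 ^ j) := by
            rw [mul_one]
            apply one_div_le_one_div_of_le (by positivity)
            linarith
    calc c p ^ 2 = |c p| ^ 2 := (sq_abs _).symm
      _ ≤ (1 / (2 * 2 ^ j)) ^ 2 := pow_le_pow_left₀ (abs_nonneg _) h6 2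
      _ = (1 / 4) * (1 / 4) ^ j := by
          rw [div_pow, mul_pow, one_pow, ← pow_mul, mul_comm j 2, pow_mul, one_div_pow]
          norm_num
          ring
  have e4 : (F.card : ℝ) ≤ 2 ^ j := by
    have h1 : F ⊆ Ioc (2 ^ j) (2 ^ (j + 1)) := by
      intro p hp
      rw [hF, mem_filter] at hp
      exact mem_Ioc.2 hp.2
    have h2 := card_le_card h1
    rw [Nat.card_Ioc] at h2
    have h3 : 2 ^ (j + 1) - 2 ^ j = 2 ^ j := by rw [pow_succ]; omega
    rw [h3] at h2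
    exact_mod_cast h2
  have e5 : ∑ l ∈ F, c l ^ 2 ≤ 2 ^ j * ((1 / 4) * (1 / 4) ^ j) := by
    calc ∑ l ∈ F, c l ^ 2 ≤ ∑ _l ∈ F, (1 / 4 : ℝ) * (1 / 4) ^ j := sum_le_sum e3
      _ = F.card * ((1 / 4) * (1 / 4) ^ j) := by rw [sum_const, nsmul_eq_mul]
      _ ≤ _ := mul_le_mul_of_nonneg_right e4 (by positivity)
  have e6 : ((2 ^ (j + 1) + 1 : ℕ) : ℝ) + D.card * ((2 ^ (a + 1) : ℕ) : ℝ) ^ 2 ≤ 4 * 2 ^ j := by
    have h1 : 2 ^ (j + 1) + 1 + D.card * (2 ^ (a + 1)) ^ 2 ≤ 4 * 2 ^ j := by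
      have h2 : D.card * (2 ^ (a + 1)) ^ 2 ≤ 2 ^ j := by
        calc D.card * (2 ^ (a + 1)) ^ 2 ≤ 2 ^ a * (2 ^ (a + 1)) ^ 2 := Nat.mul_le_mul_right _ hDc
          _ = 2 ^ (3 * a + 2) := by rw [← pow_mul, ← pow_add]; congr 1; ring
          _ ≤ 2 ^ j := Nat.pow_le_pow_right (by norm_num) hj
      have h3 : 1 ≤ 2 ^ j := Nat.one_le_two_pow
      have h4 : 2 ^ (j + 1) = 2 * 2 ^ j := by rw [pow_succ, mul_comm]
      omega
    exact_mod_cast h1
  simp only [e1] at hls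
  rw [e2] at hls
  refine hls.trans ?_
  calc (((2 ^ (j + 1) + 1 : ℕ) : ℝ) + D.card * ((2 ^ (a + 1) : ℕ) : ℝ) ^ 2) * ∑ l ∈ F, c l ^ 2
      ≤ (4 * 2 ^ j) * (2 ^ j * ((1 / 4) * (1 / 4) ^ j)) :=
        mul_le_mul e6 e5 (sum_nonneg fun _ _ => sq_nonneg _) (by positivity)
    _ = (2 * 2 * (1 / 4)) ^ j := by rw [mul_pow, mul_pow]; ring
    _ = 1 := by norm_num

/-- sums over the dyadic blocks -/
lemma blocks (P : Finset ℕ) (f : ℕ → ℝ) {a b : ℕ} (h : a ≤ b) :
    ∑ p ∈ P.filter (fun p => 2 ^ a < p ∧ p ≤ 2 ^ b), f p =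
      ∑ j ∈ Ico a b, ∑ p ∈ P.filter (fun p => 2 ^ j < p ∧ p ≤ 2 ^ (j + 1)), f p := by
  induction b, h using Nat.le_induction with
  | base =>
    rw [Ico_self, sum_empty]
    apply sum_eq_zero
    intro p hp
    have := (mem_filter.1 hp).2
    omega
  | succ b hb ih =>
    rw [sum_Ico_succ_top hb, ← ih, ← sum_union]
    · apply sum_congr _ (fun _ _ => rfl)
      ext p
      simp only [mem_union, mem_filter]
      have h1 : 2 ^ a ≤ 2 ^ b := Nat.pow_le_pow_right (by norm_num) hb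
      have h2 : 2 ^ (b + 1) = 2 * 2 ^ b := by rw [pow_succ, mul_comm]
      constructor
      · rintro ⟨h3, h4, h5⟩
        rcases Nat.lt_or_ge (2 ^ b) p with h | h
        · exact Or.inr ⟨h3, h, h5⟩
        · exact Or.inl ⟨h3, h4, h⟩
      · rintro (⟨h3, h4, h5⟩ | ⟨h3, h4, h5⟩)
        · exact ⟨h3, h4, by omega⟩
        · exact ⟨h3, by omega, h5⟩
    · rw [disjoint_left]
      intro p hp hp'
      have h1 := (mem_filter.1 hp).2
      have h2 := (mem_filter.1 hp').2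
      omega

lemma chi_le (t : Bool) (p r : ℕ) : |Jr p r * x4 t p| ≤ 1 := by
  rw [abs_mul]
  exact mul_le_one₀ (abs_Jr_le _ _) (abs_nonneg _) (abs_x4_le _ _)

lemma df_term {g γ : ℕ → ℝ} {p : ℕ} (h : |γ p| ≤ g p) (t : Bool) (r : ℕ) :
    0 ≤ g p - γ p * (Jr p r * x4 t p) := by
  have h1 : γ p * (Jr p r * x4 t p) ≤ |γ p| := by
    calc γ p * (Jr p r * x4 t p) ≤ |γ p * (Jr p r * x4 t p)| := le_abs_self _
      _ = |γ p| * |Jr p r * x4 t p| := abs_mul _ _
      _ ≤ |γ p| * 1 := mul_le_mul_of_nonneg_left (chi_le t p r) (abs_nonneg _)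
      _ = |γ p| := mul_one _
  linarith

lemma Df_nonneg {g γ : ℕ → ℝ} {z y : ℕ} (h : ∀ p : ℕ, p.Prime → z < p → |γ p| ≤ g p) (t : Bool)
    (r : ℕ) : 0 ≤ Df g γ z y t r :=
  sum_nonneg fun p hp => df_term (h p (mem_PS.1 hp).2 (mem_PS.1 hp).1.1) t r

lemma Df_ge {g γ : ℕ → ℝ} {z y : ℕ} (h : ∀ p : ℕ, p.Prime → z < p → |γ p| ≤ g p) (t : Bool)
    {r a b : ℕ} (hab : a ≤ b) :
    ∑ p ∈ PS z (min y (2 ^ b)), g p - ∑ p ∈ PS z (2 ^ a), g p -
      ∑ j ∈ Ico a b, |Sj γ z y t j r| ≤ Df g γ z y t r := by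
  classical
  have hg : ∀ p : ℕ, p.Prime → z < p → 0 ≤ g p := fun p hp hz => (abs_nonneg _).trans (h p hp hz)
  have h1 : ∑ p ∈ (PS z y).filter (fun p => 2 ^ a < p ∧ p ≤ 2 ^ b),
      (g p - γ p * (Jr p r * x4 t p)) ≤ Df g γ z y t r :=
    sum_le_sum_of_subset_of_nonneg (filter_subset _ _) fun p hp _ =>
      df_term (h p (mem_PS.1 hp).2 (mem_PS.1 hp).1.1) t r
  rw [sum_sub_distrib, blocks (PS z y) (fun p => γ p * (Jr p r * x4 t p)) hab] at h1
  have h2 : ∑ j ∈ Ico a b, ∑ p ∈ (PS z y).filter (fun p => 2 ^ j < p ∧ p ≤ 2 ^ (j + 1)),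
      γ p * (Jr p r * x4 t p) ≤ ∑ j ∈ Ico a b, |Sj γ z y t j r| :=
    sum_le_sum fun j _ => le_abs_self _
  have h3 : ∑ p ∈ PS z (min y (2 ^ b)), g p ≤ ∑ p ∈ PS z (2 ^ a), g p +
      ∑ p ∈ (PS z y).filter (fun p => 2 ^ a < p ∧ p ≤ 2 ^ b), g p := by
    rw [← sum_union]
    · refine sum_le_sum_of_subset_of_nonneg ?_ fun p hp _ => ?_
      · intro p hp
        rw [mem_PS] at hp
        obtain ⟨⟨h4, h5⟩, h6⟩ := hp
        rw [mem_union, mem_filter, mem_PS, mem_PS]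
        rcases Nat.lt_or_ge (2 ^ a) p with h7 | h7
        · right
          exact ⟨⟨⟨h4, h5.trans (min_le_left _ _)⟩, h6⟩, h7, h5.trans (min_le_right _ _)⟩
        · left
          exact ⟨⟨h4, h7⟩, h6⟩
      · rw [mem_union, mem_filter, mem_PS, mem_PS] at hp
        rcases hp with hp | hp
        · exact hg p hp.2 hp.1.1
        · exact hg p hp.1.2 hp.1.1.1
    · rw [disjoint_left]
      intro p hp hp'
      have h4 := (mem_PS.1 hp).1.2
      have h5 := (mem_filter.1 hp').2.1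
      omega
  linarith

/-- few bad conductors -/
lemma bad_card {γ : ℕ → ℝ} {z y : ℕ} (hγ : ∀ p : ℕ, p.Prime → z < p → |γ p| ≤ 1 / (2 * (p : ℝ)))
    (t : Bool) {a b : ℕ} (D : Finset ℕ)
    (hD : ∀ r ∈ D, Odd r ∧ Squarefree r ∧ r < 2 ^ (a + 1)) (hDc : D.card ≤ 2 ^ a) :
    ((D.filter (fun r => 1 < ∑ j ∈ Ico (3 * a + 2) b, |Sj γ z y t j r|)).card : ℝ) ≤
      (b : ℝ) ^ 2 := by
  set Z : ℕ → ℝ := fun r => ∑ j ∈ Ico (3 * a + 2) b, |Sj γ z y t j r| with hZ
  have hb : ((Ico (3 * a + 2) b).card : ℝ) ≤ b := by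
    rw [Nat.card_Ico]
    exact_mod_cast Nat.sub_le _ _
  have h1 : ∑ r ∈ D, Z r ^ 2 ≤ (b : ℝ) ^ 2 := by
    calc ∑ r ∈ D, Z r ^ 2 ≤ ∑ r ∈ D, (b : ℝ) * ∑ j ∈ Ico (3 * a + 2) b, (Sj γ z y t j r) ^ 2 := by
          refine sum_le_sum fun r _ => ?_
          have h2 : Z r ^ 2 ≤ (Ico (3 * a + 2) b).card *
              ∑ j ∈ Ico (3 * a + 2) b, |Sj γ z y t j r| ^ 2 := sq_sum_le_card_mul_sum_sq
          simp only [sq_abs] at h2
          refine h2.trans (mul_le_mul_of_nonneg_right hb (sum_nonneg fun _ _ => sq_nonneg _))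
      _ = (b : ℝ) * ∑ j ∈ Ico (3 * a + 2) b, ∑ r ∈ D, (Sj γ z y t j r) ^ 2 := by
          rw [← mul_sum, sum_comm]
      _ ≤ (b : ℝ) * ∑ _j ∈ Ico (3 * a + 2) b, (1 : ℝ) := by
          apply mul_le_mul_of_nonneg_left _ (Nat.cast_nonneg b)
          refine sum_le_sum fun j hj => ?_
          exact Sj_sq hγ t (mem_Ico.1 hj).1 D hD hDc
      _ ≤ (b : ℝ) * b := by
          apply mul_le_mul_of_nonneg_left _ (Nat.cast_nonneg b)
          rw [sum_const, nsmul_eq_mul, mul_one]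
          exact hb
      _ = (b : ℝ) ^ 2 := by ring
  refine le_trans ?_ h1
  calc ((D.filter (fun r => 1 < Z r)).card : ℝ) = ∑ _r ∈ D.filter (fun r => 1 < Z r), (1 : ℝ) := by
        rw [sum_const, nsmul_eq_mul, mul_one]
    _ ≤ ∑ r ∈ D.filter (fun r => 1 < Z r), Z r ^ 2 := by
        refine sum_le_sum fun r hr => ?_
        have := (mem_filter.1 hr).2
        nlinarith
    _ ≤ _ := sum_le_sum_of_subset_of_nonneg (filter_subset _ _) fun _ _ _ => sq_nonneg _

lemma log_five_le : Real.log 5 ≤ 2 := by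
  rw [Real.log_le_iff_le_exp (by norm_num)]
  have h := Real.exp_one_gt_d9
  have h2 : Real.exp 2 = Real.exp 1 * Real.exp 1 := by rw [← Real.exp_add]; norm_num
  rw [h2]
  nlinarith

lemma loglog_two : -1 ≤ Real.log (Real.log 2) := by
  rw [Real.le_log_iff_exp_le (Real.log_pos (by norm_num))]
  have := Real.log_two_gt_d9
  have h4 : Real.exp (-1) ≤ 0.5 := by
    rw [Real.exp_neg]
    have := Real.exp_one_gt_d9
    rw [inv_le_comm₀ (Real.exp_pos 1) (by norm_num)]
    norm_num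
    linarith
  linarith

lemma one_le_log {z y : ℕ} (hz : 2 ≤ z) (hy : z < y) : 1 ≤ Real.log y := by
  have h3 : 3 ≤ y := by omega
  rw [Real.le_log_iff_exp_le (by exact_mod_cast (by omega : 0 < y))]
  have h1 : (3 : ℝ) ≤ y := by exact_mod_cast h3
  have h2 := Real.exp_one_lt_d9
  linarith

/-- the exponent of the number of blocks -/
def jb (a : ℕ) : ℕ := 2 ^ (a / 4 + 1)

lemma jb_sq (a : ℕ) : ((jb a : ℕ) : ℝ) ^ 2 ≤ 4 * Real.exp (a / 2 * Real.log 2) := by
  unfold jb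
  have h1 : ((2 ^ (a / 4 + 1) : ℕ) : ℝ) = 2 * Real.exp ((a / 4 : ℕ) * Real.log 2) := by
    rw [← Real.log_pow, Real.exp_log (by positivity)]
    push_cast
    ring
  rw [h1, mul_pow, ← Real.exp_nat_mul]
  norm_num
  have h2 : ((a / 4 : ℕ) : ℝ) ≤ a / 4 := Nat.cast_div_le
  have h3 := Real.log_two_gt_d9
  nlinarith

lemma loglog_jb (a : ℕ) : a / 4 * Real.log 2 - 1 ≤ Real.log (Real.log ((2 ^ jb a : ℕ) : ℝ)) := by
  have h0 : (0 : ℝ) < Real.log 2 := Real.log_pos (by norm_num)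
  have h1 : Real.log ((2 ^ jb a : ℕ) : ℝ) = jb a * Real.log 2 := by
    push_cast
    rw [Real.log_pow]
  have h2 : (0 : ℝ) < jb a := by unfold jb; positivity
  rw [h1, Real.log_mul h2.ne' h0.ne']
  have h3 : (a : ℝ) / 4 * Real.log 2 ≤ Real.log (jb a) := by
    unfold jb
    push_cast
    rw [Real.log_pow]
    apply mul_le_mul_of_nonneg_right _ h0.le
    have h4 : a < 4 * (a / 4 + 1) := by omega
    have h5 : (a : ℝ) < 4 * ((a / 4 : ℕ) + 1) := by exact_mod_cast h4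
    push_cast
    linarith
  have := loglog_two
  linarith

/-- the average of the twisted Euler products over the conductors -/
theorem lsx (δ : ℝ) (hδ : 0 < δ) (hδ1 : δ ≤ 1) (A M : ℕ) (hA : 1 ≤ A) (hM : 1 ≤ M) : ∃ ε0 : ℝ, 0 < ε0 ∧
    ∀ (ε : ℝ), ε ≤ ε0 → ∀ (z : ℕ) (g γ : ℕ → ℝ) (C0 : ℝ), 2 ≤ z →
    (∀ p : ℕ, p.Prime → z < p → |γ p| ≤ g p ∧ g p ≤ 1 / (2 * (p : ℝ))) →
    (∀ x : ℕ, 3 ≤ x → δ * Real.log (Real.log x) - C0 ≤ ∑ p ∈ PS z x, g p) →
    ∃ C : ℝ, 0 ≤ C ∧ ∀ (y : ℕ) (t : Bool), z < y →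
      ∑ r ∈ (PP z y).divisors.filter (fun r => 1 < r ∧ r ≤ (AT.VV A (Real.log y)) ^ M),
        (r : ℝ) ^ (-1 + ε) * Real.exp (-(Df g γ z y t r)) ≤ C := by
  classical
  obtain ⟨C1, hC1, hmer⟩ := Pool.Agent.W655.RK.mertens
  have hl2 : (0 : ℝ) < Real.log 2 := Real.log_pos (by norm_num)
  have hA' : (1 : ℝ) ≤ A := by exact_mod_cast hA
  have hM' : (1 : ℝ) ≤ M := by exact_mod_cast hM
  set κ : ℝ := δ * (Real.log 2 / (4 * (M * A))) with hκ
  have hκ0 : 0 < κ := by positivity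
  refine ⟨min (1 / 4) (κ / 2), by positivity, fun ε hε z g γ C0 hz hγ hlow => ?_⟩
  have hε1 : ε ≤ 1 / 4 := hε.trans (min_le_left _ _)
  have hε2 : ε ≤ κ / 2 := hε.trans (min_le_right _ _)
  set C3 : ℝ := |C0| + C1 + 1 + δ * 3 with hC3
  set u : ℕ → ℝ := fun a => Real.exp C3 * ((3 * a + 2) * Real.exp (-(κ / 2)) ^ a) +
    4 * Real.exp (-(1 / 4 * Real.log 2)) ^ a with hu
  have hq1 : Real.exp (-(κ / 2)) < 1 := by rw [Real.exp_lt_one_iff]; linarith
  have hq2 : Real.exp (-(1 / 4 * Real.log 2)) < 1 := by rw [Real.exp_lt_one_iff]; linarith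
  have hsum : Summable u := by
    apply Summable.add
    · apply Summable.mul_left
      have h1 : Summable (fun a : ℕ => (a : ℝ) ^ 1 * Real.exp (-(κ / 2)) ^ a) :=
        summable_pow_mul_geometric_of_norm_lt_one 1 (by
          rw [Real.norm_of_nonneg (Real.exp_pos _).le]; exact hq1)
      have h2 : Summable (fun a : ℕ => Real.exp (-(κ / 2)) ^ a) :=
        summable_geometric_of_lt_one (Real.exp_pos _).le hq1
      refine ((h1.mul_left 3).add (h2.mul_left 2)).congr fun a => ?_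
      ring
    · apply Summable.mul_left
      exact summable_geometric_of_lt_one (Real.exp_pos _).le hq2
  have hu0 : ∀ a, 0 ≤ u a := fun a => by
    simp only [hu]
    positivity
  refine ⟨∑' a, u a, tsum_nonneg hu0, fun y t hy => ?_⟩
  have hγ1 : ∀ p : ℕ, p.Prime → z < p → |γ p| ≤ g p := fun p hp hz => (hγ p hp hz).1
  have hγ2 : ∀ p : ℕ, p.Prime → z < p → |γ p| ≤ 1 / (2 * (p : ℝ)) := fun p hp hz =>
    (hγ p hp hz).1.trans (hγ p hp hz).2
  have hly := one_le_log hz hy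
  set l := Real.log y with hl
  have hl0 : 0 < l := by linarith
  set R := (PP z y).divisors.filter (fun r => 1 < r ∧ r ≤ (AT.VV A l) ^ M) with hR
  set f : ℕ → ℝ := fun r => (r : ℝ) ^ (-1 + ε) * Real.exp (-(Df g γ z y t r)) with hf
  set N := PP z y + 1 with hN
  have hmaps : ∀ r ∈ R, Nat.log 2 r ∈ range N := by
    intro r hr
    rw [hR, mem_filter, Nat.mem_divisors] at hr
    rw [mem_range, hN]
    have h1 := Nat.le_of_dvd (Nat.pos_of_ne_zero (PP_ne_zero z y)) hr.1.1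
    have h2 := Nat.log_le_self 2 r
    omega
  rw [← sum_fiberwise_of_maps_to hmaps]
  refine le_trans ?_ (hsum.sum_le_tsum (range N) fun a _ => hu0 a)
  refine sum_le_sum fun a _ => ?_
  set D := R.filter (fun r => Nat.log 2 r = a) with hD
  rcases D.eq_empty_or_nonempty with h0 | h0
  · rw [h0, sum_empty]
    exact hu0 a
  have hDr : ∀ r ∈ D, Odd r ∧ Squarefree r ∧ r < 2 ^ (a + 1) ∧ 2 ^ a ≤ r := by
    intro r hr
    rw [hD, mem_filter, hR, mem_filter] at hr
    obtain ⟨⟨h1, h2, h3⟩, h4⟩ := hr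
    refine ⟨dv_odd hz h1, dv_squarefree h1, ?_, ?_⟩
    · rw [← h4]; exact Nat.lt_pow_succ_log_self (by norm_num) r
    · rw [← h4]; exact Nat.pow_log_le_self 2 (by omega)
  have hDc : D.card ≤ 2 ^ a := by
    have h1 : D ⊆ Ico (2 ^ a) (2 ^ (a + 1)) := fun r hr => by
      have := hDr r hr
      exact mem_Ico.2 ⟨this.2.2.2, this.2.2.1⟩
    have h2 := card_le_card h1
    rw [Nat.card_Ico] at h2
    have h3 : 2 ^ (a + 1) - 2 ^ a = 2 ^ a := by rw [pow_succ]; omega
    omega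
  have hbad := bad_card (y := y) hγ2 t (b := jb a) D (fun r hr => ⟨(hDr r hr).1, (hDr r hr).2.1,
    (hDr r hr).2.2.1⟩) hDc
  set Z : ℕ → ℝ := fun r => ∑ j ∈ Ico (3 * a + 2) (jb a), |Sj γ z y t j r| with hZ
  -- size of `y`
  have hyl : κ / δ * a - 2 ≤ Real.log l := by
    obtain ⟨r, hr⟩ := h0
    have h1 := (hDr r hr).2.2.2
    rw [hD, mem_filter, hR, mem_filter] at hr
    have h2 : 2 ^ a ≤ (AT.VV A l) ^ M := h1.trans hr.1.2.2
    have h3 : (2 : ℝ) ^ a ≤ (5 * l ^ A) ^ M := by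
      have h4 : (2 : ℝ) ^ a ≤ ((AT.VV A l : ℕ) : ℝ) ^ M := by exact_mod_cast h2
      exact h4.trans (pow_le_pow_left₀ (by positivity) (AT.VV_le hly) M)
    have h4 : (a : ℝ) * Real.log 2 ≤ M * (Real.log 5 + A * Real.log l) := by
      have h5 := Real.log_le_log (by positivity) h3
      rw [Real.log_pow, Real.log_pow, Real.log_mul (by norm_num) (by positivity),
        Real.log_pow] at h5
      exact h5
    have h5 : κ / δ * a = a * Real.log 2 / (4 * (M * A)) := by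
      rw [hκ]; field_simp
    rw [h5]
    have h6 : (a : ℝ) * Real.log 2 / (4 * (M * A)) ≤ a * Real.log 2 / (M * A) := by
      apply div_le_div_of_nonneg_left (by positivity) (by positivity)
      nlinarith [mul_pos (show (0 : ℝ) < M by linarith) (show (0 : ℝ) < A by linarith)]
    have h7 : (a : ℝ) * Real.log 2 / (M * A) ≤ 2 + Real.log l := by
      rw [div_le_iff₀ (by positivity)]
      have h8 := log_five_le
      have h9 : (M : ℝ) * Real.log 5 ≤ 2 * (M * A) := by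
        have : (M : ℝ) * Real.log 5 ≤ M * 2 := mul_le_mul_of_nonneg_left h8 (by linarith)
        nlinarith
      nlinarith
    linarith
  have hκδ : κ / δ ≤ Real.log 2 / 4 := by
    have h5 : κ / δ = Real.log 2 / (4 * (M * A)) := by
      rw [hκ]; field_simp
    rw [h5]
    apply div_le_div_of_nonneg_left hl2.le (by norm_num)
    nlinarith [mul_pos (show (0 : ℝ) < M by linarith) (show (0 : ℝ) < A by linarith)]
  have ha0 : (0 : ℝ) ≤ a := Nat.cast_nonneg a
  have h3a : (1 : ℝ) ≤ 3 * a + 2 := by linarith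
  have hlog3 : Real.log (Real.log ((2 ^ (3 * a + 2) : ℕ) : ℝ)) ≤ Real.log (3 * a + 2) := by
    push_cast
    rw [Real.log_pow]
    apply Real.log_le_log (by push_cast; positivity)
    push_cast
    have : Real.log 2 ≤ 1 := by have := Real.log_two_lt_d9; linarith
    nlinarith
  have hlog3' : 0 ≤ Real.log (3 * a + 2) := Real.log_nonneg h3a
  have hjb := loglog_jb a
  have hκa : κ * a ≤ δ * (a / 4 * Real.log 2) := by
    have h1 : κ = δ * (κ / δ) := by field_simp
    rw [h1, mul_assoc]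
    apply mul_le_mul_of_nonneg_left _ hδ.le
    have := mul_le_mul_of_nonneg_right hκδ ha0
    linarith
  have hgood : ∀ r ∈ D, ¬ 1 < Z r → Real.exp (-(Df g γ z y t r)) ≤
      Real.exp C3 * ((3 * a + 2) * Real.exp (-κ * a)) := by
    intro r hr hZr
    have hZr' : Z r ≤ 1 := not_lt.1 hZr
    have hexp : Real.exp C3 * ((3 * a + 2) * Real.exp (-κ * a)) =
        Real.exp (C3 + Real.log (3 * a + 2) - κ * a) := by
      have e1 : (3 * (a : ℝ) + 2) = Real.exp (Real.log (3 * a + 2)) :=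
        (Real.exp_log (by linarith)).symm
      conv_lhs => rw [e1]
      rw [← Real.exp_add, ← Real.exp_add]
      congr 1
      ring
    rw [hexp, Real.exp_le_exp]
    have hC0 := neg_abs_le C0
    have hC0' := le_abs_self C0
    have hC0n := abs_nonneg C0
    rcases Nat.lt_or_ge (jb a) (3 * a + 2) with hlt | hge
    · -- the trivial bound
      have h1 := Df_nonneg hγ1 t r (z := z) (y := y)
      have h2 : Real.log (Real.log ((2 ^ jb a : ℕ) : ℝ)) ≤
          Real.log (Real.log ((2 ^ (3 * a + 2) : ℕ) : ℝ)) := by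
        have hj1 : 1 ≤ jb a := Nat.one_le_two_pow
        have h4 : 2 ≤ 2 ^ jb a := by
          calc 2 = 2 ^ 1 := rfl
            _ ≤ 2 ^ jb a := Nat.pow_le_pow_right (by norm_num) hj1
        apply Real.log_le_log
        · apply Real.log_pos
          exact_mod_cast (by omega : 1 < 2 ^ jb a)
        · apply Real.log_le_log
          · exact_mod_cast (by omega : 0 < 2 ^ jb a)
          · exact_mod_cast Nat.pow_le_pow_right (by norm_num) hlt.le
      have h3 : κ * a ≤ δ * (1 + Real.log (3 * a + 2)) :=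
        hκa.trans (mul_le_mul_of_nonneg_left (by linarith) hδ.le)
      have h4 : δ * Real.log (3 * a + 2) ≤ 1 * Real.log (3 * a + 2) :=
        mul_le_mul_of_nonneg_right hδ1 hlog3'
      rw [hC3]
      nlinarith
    · have hge' := Df_ge hγ1 t (r := r) (z := z) (y := y) hge
      have hj1 : 1 ≤ a / 4 + 1 := by omega
      have hj2 : 2 ≤ jb a := by
        calc 2 = 2 ^ 1 := rfl
          _ ≤ 2 ^ (a / 4 + 1) := Nat.pow_le_pow_right (by norm_num) hj1
      have hj3 : 4 ≤ 2 ^ jb a := by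
        calc 4 = 2 ^ 2 := rfl
          _ ≤ 2 ^ jb a := Nat.pow_le_pow_right (by norm_num) hj2
      have hmin : 3 ≤ min y (2 ^ jb a) := le_min (by omega) (by omega)
      have h1 := hlow _ hmin
      have h2 : κ / δ * a - 2 ≤ Real.log (Real.log ((min y (2 ^ jb a) : ℕ) : ℝ)) := by
        rcases min_choice y (2 ^ jb a) with h | h
        · rw [h]; exact hyl
        · rw [h]
          have := mul_le_mul_of_nonneg_right hκδ ha0
          linarith
      have h3 : ∑ p ∈ PS z (2 ^ (3 * a + 2)), g p ≤ 1 / 2 * (Real.log (3 * a + 2) + C1) := by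
        calc ∑ p ∈ PS z (2 ^ (3 * a + 2)), g p ≤ ∑ p ∈ PS z (2 ^ (3 * a + 2)), 1 / 2 * (1 / (p : ℝ)) := by
              refine sum_le_sum fun p hp => ?_
              have := (hγ p (mem_PS.1 hp).2 (mem_PS.1 hp).1.1).2
              refine this.trans (le_of_eq ?_)
              ring
          _ = 1 / 2 * ∑ p ∈ PS z (2 ^ (3 * a + 2)), 1 / (p : ℝ) := by rw [mul_sum]
          _ ≤ 1 / 2 * (Real.log (3 * a + 2) + C1) := by
              apply mul_le_mul_of_nonneg_left _ (by norm_num)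
              have h5 : 2 ≤ 2 ^ (3 * a + 2) := by
                calc 2 = 2 ^ 1 := rfl
                  _ ≤ 2 ^ (3 * a + 2) := Nat.pow_le_pow_right (by norm_num) (by omega)
              have := hmer z (2 ^ (3 * a + 2)) h5
              linarith
      have h4 : δ * (κ / δ * a - 2) ≤ δ * Real.log (Real.log ((min y (2 ^ jb a) : ℕ) : ℝ)) :=
        mul_le_mul_of_nonneg_left h2 hδ.le
      have h5 : δ * (κ / δ * a - 2) = κ * a - 2 * δ := by field_simp
      rw [hC3]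
      simp only [hZ] at hZr'
      linarith
  -- the sum over the block
  set w : ℝ := Real.exp (a * Real.log 2 * (-1 + ε)) with hw
  have hrw : ∀ r ∈ D, (r : ℝ) ^ (-1 + ε) ≤ w := by
    intro r hr
    have h1 := (hDr r hr).2.2.2
    have h2 : (2 : ℝ) ^ a ≤ r := by exact_mod_cast h1
    have h3 : (r : ℝ) ^ (-1 + ε) ≤ ((2 : ℝ) ^ a) ^ (-1 + ε) :=
      Real.rpow_le_rpow_of_nonpos (by positivity) h2 (by linarith)
    refine h3.trans (le_of_eq ?_)
    rw [hw, Real.rpow_def_of_pos (by positivity), Real.log_pow]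
  have hw0 : 0 < w := Real.exp_pos _
  set B := D.filter (fun r => 1 < Z r) with hB
  have hsplit : ∑ r ∈ D, f r = ∑ r ∈ D.filter (fun r => ¬ 1 < Z r), f r + ∑ r ∈ B, f r := by
    rw [hB, add_comm]
    exact (sum_filter_add_sum_filter_not D _ f).symm
  have hg1 : ∑ r ∈ D.filter (fun r => ¬ 1 < Z r), f r ≤
      Real.exp C3 * ((3 * a + 2) * Real.exp (-(κ / 2)) ^ a) := by
    calc ∑ r ∈ D.filter (fun r => ¬ 1 < Z r), f r
        ≤ ∑ _r ∈ D.filter (fun r => ¬ 1 < Z r), w * (Real.exp C3 * ((3 * a + 2) *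
            Real.exp (-κ * a))) := by
          refine sum_le_sum fun r hr => ?_
          rw [mem_filter] at hr
          exact mul_le_mul (hrw r hr.1) (hgood r hr.1 hr.2) (Real.exp_pos _).le hw0.le
      _ = ((D.filter (fun r => ¬ 1 < Z r)).card : ℝ) * (w * (Real.exp C3 * ((3 * a + 2) *
            Real.exp (-κ * a)))) := by rw [sum_const, nsmul_eq_mul]
      _ ≤ (2 : ℝ) ^ a * (w * (Real.exp C3 * ((3 * a + 2) * Real.exp (-κ * a)))) := by
          apply mul_le_mul_of_nonneg_right _ (by positivity)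
          have : (D.filter (fun r => ¬ 1 < Z r)).card ≤ 2 ^ a := (card_filter_le _ _).trans hDc
          exact_mod_cast this
      _ = Real.exp C3 * ((3 * a + 2) * ((2 : ℝ) ^ a * w * Real.exp (-κ * a))) := by ring
      _ ≤ _ := by
          apply mul_le_mul_of_nonneg_left _ (Real.exp_pos _).le
          apply mul_le_mul_of_nonneg_left _ (by positivity)
          have h2a : (2 : ℝ) ^ a = Real.exp (a * Real.log 2) := by
            rw [← Real.log_pow, Real.exp_log (by positivity)]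
          rw [h2a, hw, ← Real.exp_add, ← Real.exp_add, ← Real.exp_nat_mul, Real.exp_le_exp]
          have h6 : ε * Real.log 2 ≤ κ / 2 := by
            have h7 : Real.log 2 ≤ 1 := by have := Real.log_two_lt_d9; linarith
            rcases le_or_gt 0 ε with h8 | h8
            · nlinarith
            · nlinarith
          have h9 := mul_le_mul_of_nonneg_left h6 ha0
          linarith
  have hb1 : ∑ r ∈ B, f r ≤ 4 * Real.exp (-(1 / 4 * Real.log 2)) ^ a := by
    calc ∑ r ∈ B, f r ≤ ∑ _r ∈ B, w := by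
          refine sum_le_sum fun r hr => ?_
          rw [hB, mem_filter] at hr
          have h1 : Real.exp (-(Df g γ z y t r)) ≤ 1 := by
            rw [Real.exp_le_one_iff]
            have := Df_nonneg hγ1 t r (z := z) (y := y)
            linarith
          calc f r ≤ w * 1 := mul_le_mul (hrw r hr.1) h1 (Real.exp_pos _).le hw0.le
            _ = w := mul_one w
      _ = (B.card : ℝ) * w := by rw [sum_const, nsmul_eq_mul]
      _ ≤ (4 * Real.exp (a / 2 * Real.log 2)) * w := by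
          apply mul_le_mul_of_nonneg_right _ hw0.le
          exact hbad.trans (jb_sq a)
      _ ≤ _ := by
          rw [hw, mul_assoc, ← Real.exp_add, ← Real.exp_nat_mul]
          apply mul_le_mul_of_nonneg_left _ (by norm_num)
          rw [Real.exp_le_exp]
          have h6 := mul_le_mul_of_nonneg_left (mul_le_mul_of_nonneg_left hε1 hl2.le) ha0
          linarith
  calc ∑ r ∈ R.filter (fun r => Nat.log 2 r = a), (r : ℝ) ^ (-1 + ε) *
        Real.exp (-(Df g γ z y t r)) = ∑ r ∈ D, f r := rfl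
    _ = _ := hsplit
    _ ≤ u a := add_le_add hg1 hb1

end Pool.Agent.H64.PM
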