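import Mathlib
import Pool.Graph.R_seed8.W262.RK.AT4
import Pool.Graph.R_seed8.W655.RK.Full
import Pool.Graph.R_seed8.W655.RK.Blw
import Pool.Agent.H64.PM.LSX

/-!
# The abstract bound for linked variables with general weights: preparations
-/

set_option autoImplicit false

namespace Pool.Agent.H64.PM

open Finset Pool.Agent.W262.RK

/-- the multiplicative extension to squarefree numbers -/
noncomputable def gq (γ : ℕ → ℝ) (d : ℕ) : ℝ := ∏ p ∈ d.primeFactors, γ p

/-- the size of the full sum -/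
noncomputable def Lam (g : ℕ → ℝ) (z y : ℕ) : ℝ := Real.exp (∑ p ∈ PS z y, g p)

lemma gq_one (γ : ℕ → ℝ) : gq γ 1 = 1 := by simp [gq]

/-- the weights: small, with a majorant -/
def Wt (z : ℕ) (γ g : ℕ → ℝ) : Prop :=
  ∀ p : ℕ, p.Prime → z < p → |γ p| ≤ g p ∧ g p ≤ 1 / (2 * (p : ℝ))

lemma Wt.nn {z : ℕ} {γ g : ℕ → ℝ} (h : Wt z γ g) {p : ℕ} (hp : p.Prime) (hz : z < p) :
    0 ≤ g p := (abs_nonneg _).trans (h p hp hz).1

lemma gq_nonneg {z y d : ℕ} {γ g : ℕ → ℝ} (h : Wt z γ g) (hd : d ∈ (PP z y).divisors) :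
    0 ≤ gq g d :=
  prod_nonneg fun p hp => h.nn (Nat.prime_of_mem_primeFactors hp)
    (dv_prime hd (Nat.prime_of_mem_primeFactors hp) (Nat.dvd_of_mem_primeFactors hp)).1

lemma abs_gq_le {z y d : ℕ} {γ g : ℕ → ℝ} (h : Wt z γ g) (hd : d ∈ (PP z y).divisors) :
    |gq γ d| ≤ gq g d := by
  unfold gq
  rw [abs_prod]
  refine prod_le_prod (fun p _ => abs_nonneg _) fun p hp => ?_
  have hpp := Nat.prime_of_mem_primeFactors hp
  exact (h p hpp (dv_prime hd hpp (Nat.dvd_of_mem_primeFactors hp)).1).1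

lemma gq_le_gw {z y d : ℕ} {γ g : ℕ → ℝ} (h : Wt z γ g) (hd : d ∈ (PP z y).divisors) :
    gq g d ≤ gw (1 / 2) 0 d := by
  unfold gq gw
  refine prod_le_prod (fun p hp => ?_) fun p hp => ?_
  · exact h.nn (Nat.prime_of_mem_primeFactors hp)
      (dv_prime hd (Nat.prime_of_mem_primeFactors hp) (Nat.dvd_of_mem_primeFactors hp)).1
  · have hpp := Nat.prime_of_mem_primeFactors hp
    refine ((h p hpp (dv_prime hd hpp (Nat.dvd_of_mem_primeFactors hp)).1).2).trans (le_of_eq ?_)
    push_cast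
    rw [sub_zero]
    ring

lemma gq_le {z y d : ℕ} {γ g : ℕ → ℝ} (h : Wt z γ g) (hd : d ∈ (PP z y).divisors) :
    gq g d ≤ 1 / (d : ℝ) :=
  (gq_le_gw h hd).trans (gw_le (by norm_num) le_rfl (by omega) hd)

lemma gw_half_nn {z y d : ℕ} (hd : d ∈ (PP z y).divisors) : 0 ≤ gw (1 / 2) 0 d :=
  gw_nonneg (by norm_num) (Nat.zero_le _) hd

/-- `gq g d * hh d ≤ 1 / d` -/
lemma gq_hh_le {z y d : ℕ} {γ g : ℕ → ℝ} (h : Wt z γ g)
    (hd : d ∈ (PP z y).divisors) : gq g d * hh d ≤ 1 / (d : ℝ) := by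
  have hsq := dv_squarefree hd
  have h0 : (1 : ℝ) / d = ∏ p ∈ d.primeFactors, (1 / (p : ℝ)) := by
    rw [prod_div_distrib, prod_const_one]
    congr 1
    rw [← Nat.cast_prod, Nat.prod_primeFactors_of_squarefree hsq]
  rw [h0]
  unfold gq hh
  rw [← prod_mul_distrib]
  refine prod_le_prod (fun p hp => ?_) fun p hp => ?_
  · have hpp := Nat.prime_of_mem_primeFactors hp
    exact mul_nonneg (h.nn hpp (dv_prime hd hpp (Nat.dvd_of_mem_primeFactors hp)).1)
      (by positivity)
  · have hpp := Nat.prime_of_mem_primeFactors hp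
    have hzp := (dv_prime hd hpp (Nat.dvd_of_mem_primeFactors hp)).1
    have h1 := (h p hpp hzp).2
    have h2 : (2 : ℝ) ≤ p := by exact_mod_cast hpp.two_le
    calc g p * (1 + 2 / (p : ℝ)) ≤ 1 / (2 * (p : ℝ)) * 2 := by
          apply mul_le_mul h1 _ (by positivity) (by positivity)
          have : 2 / (p : ℝ) ≤ 1 := by rw [div_le_one (by linarith)]; exact h2
          linarith
      _ = 1 / (p : ℝ) := by field_simp

variable {ι : Type} [Fintype ι] [DecidableEq ι]

open Classical in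
/-- the summand -/
noncomputable def HG (γ : ι → ℕ → ℝ) (L : ι → ι → Bool) (d : ι → ℕ) : ℝ :=
  if (∀ i j, i ≠ j → (d i).Coprime (d j)) then (∏ i, gq (γ i) (d i)) * Sym L (fun _ => 1) d else 0

lemma total_eq (γ : ι → ℕ → ℝ) (L : ι → ι → Bool) (z y : ℕ) :
    ∑ d ∈ Tup ι z y, (∏ i, gq (γ i) (d i)) * Sym L (fun _ => 1) d =
      ∑ d ∈ Fintype.piFinset (fun _ : ι => (PP z y).divisors), HG γ L d := by
  unfold Tup HG
  rw [sum_filter]

lemma abs_HG_le {γ g : ι → ℕ → ℝ} {L : ι → ι → Bool} {z y : ℕ} (hw : ∀ i, Wt z (γ i) (g i))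
    {d : ι → ℕ} (hd : ∀ i, d i ∈ (PP z y).divisors) :
    |HG γ L d| ≤ ∏ i, gq (g i) (d i) := by
  have h0 : 0 ≤ ∏ i, gq (g i) (d i) := prod_nonneg fun i _ => gq_nonneg (hw i) (hd i)
  unfold HG
  split_ifs
  · rw [abs_mul, abs_prod]
    have h1 : ∏ i, |gq (γ i) (d i)| ≤ ∏ i, gq (g i) (d i) :=
      prod_le_prod (fun _ _ => abs_nonneg _) fun i _ => abs_gq_le (hw i) (hd i)
    calc (∏ i, |gq (γ i) (d i)|) * |Sym L (fun _ => 1) d| ≤ (∏ i, gq (g i) (d i)) * 1 :=
          mul_le_mul h1 (abs_Sym_le _ _ _) (abs_nonneg _) h0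
      _ = _ := mul_one _
  · simpa using h0

/-- trivial bound -/
lemma triv {γ g : ι → ℕ → ℝ} {L : ι → ι → Bool} {z y : ℕ} (hw : ∀ i, Wt z (γ i) (g i))
    {t : ι → Finset ℕ} (ht : ∀ i, t i ⊆ (PP z y).divisors) :
    |∑ d ∈ Fintype.piFinset t, HG γ L d| ≤ ∏ i, ∑ m ∈ t i, gq (g i) m := by
  rw [prod_univ_sum]
  refine (abs_sum_le_sum_abs _ _).trans (sum_le_sum fun d hd => ?_)
  rw [Fintype.mem_piFinset] at hd
  exact abs_HG_le hw fun i => ht i (hd i)

lemma Jr_one (n : ℕ) : Jr 1 n = 1 := by simp [Jr]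

/-- the summand as a function of one variable -/
lemma HG_update {γ : ι → ℕ → ℝ} {L : ι → ι → Bool} {z y : ℕ} (i : ι)
    (hL : L i i = false) (hz : 2 ≤ z) {e : ι → ℕ} (he : ∀ b, e b ∈ (PP z y).divisors) :
    (∀ m, HG γ L (Function.update e i m) = 0) ∨
      (∀ a b, a ≠ i → b ≠ i → a ≠ b → (e a).Coprime (e b)) ∧ ∃ t : Bool, ∀ m ∈ (PP z y).divisors,
      HG γ L (Function.update e i m) =
        if m.Coprime (∏ b ∈ univ.erase i, e b) then
          ((∏ b ∈ univ.erase i, gq (γ b) (e b)) * RR L (fun _ => 1) i e) *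
            (gq (γ i) m * (Jr m (lk L i e) * x4 t m)) else 0 := by
  classical
  by_cases hcop : ∀ a b, a ≠ i → b ≠ i → a ≠ b → (e a).Coprime (e b)
  · right
    refine ⟨hcop, ?_⟩
    obtain ⟨t, ht⟩ := XX_char L i e (fun b => dv_odd hz (he b))
    refine ⟨t, fun m hm => ?_⟩
    have hiff : m.Coprime (∏ b ∈ univ.erase i, e b) ↔ ∀ b, b ≠ i → m.Coprime (e b) := by
      rw [Nat.coprime_prod_right_iff]
      simp
    have hiff2 : (∀ a b, a ≠ b → (Function.update e i m a).Coprime (Function.update e i m b)) ↔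
        ∀ b, b ≠ i → m.Coprime (e b) := by
      constructor
      · intro h b hb
        have := h i b (Ne.symm hb)
        rwa [Function.update_self, Function.update_of_ne hb] at this
      · intro h a b hab
        by_cases ha : a = i
        · subst ha
          rw [Function.update_self, Function.update_of_ne (Ne.symm hab)]
          exact h b (Ne.symm hab)
        · by_cases hb : b = i
          · subst hb
            rw [Function.update_self, Function.update_of_ne ha]
            exact (h a ha).symm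
          · rw [Function.update_of_ne ha, Function.update_of_ne hb]
            exact hcop a b ha hb hab
    unfold HG
    by_cases h : ∀ b, b ≠ i → m.Coprime (e b)
    · rw [if_pos (hiff2.2 h), if_pos (hiff.2 h), sym_update L _ i hL, ht m (dv_odd hz hm) h,
        ← mul_prod_erase univ _ (mem_univ i), Function.update_self, Jr_one]
      have : ∏ b ∈ univ.erase i, gq (γ b) (Function.update e i m b) =
          ∏ b ∈ univ.erase i, gq (γ b) (e b) := by
        apply prod_congr rfl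
        intro b hb
        rw [Function.update_of_ne (mem_erase.1 hb).1]
      rw [this]
      ring
    · rw [if_neg (fun h' => h (hiff2.1 h')), if_neg (fun h' => h (hiff.1 h'))]
  · left
    intro m
    unfold HG
    rw [if_neg]
    intro h
    apply hcop
    intro a b ha hb hab
    have := h a b hab
    rwa [Function.update_of_ne ha, Function.update_of_ne hb] at this

/-- the Euler product -/
lemma euler {γ g : ℕ → ℝ} {z : ℕ} (hw : Wt z γ g) (y R r : ℕ) (t : Bool) (hR : R ≠ 0) :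
    |∑ d ∈ (PP z y).divisors.filter (fun d => d.Coprime R), gq γ d * (Jr d r * x4 t d)| ≤
      Lam g z y * Real.exp (-(Df g γ z y t r)) * hh R := by
  classical
  set S := (PS z y).filter (fun p => ¬ p ∣ R) with hS
  have hSp : ∀ p ∈ S, p.Prime := fun p hp => (mem_PS.1 (mem_filter.1 hp).1).2
  set χ : ℕ → ℝ := fun p => Jr p r * x4 t p with hχ
  have hχ1 : ∀ p, |χ p| ≤ 1 := fun p => chi_le t p r
  -- the divisors
  have hdiv : (PP z y).divisors.filter (fun d => d.Coprime R) = (∏ p ∈ S, p).divisors := by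
    ext d
    rw [mem_filter, Nat.mem_divisors, Nat.mem_divisors]
    have hS0 : ∏ p ∈ S, p ≠ 0 := prod_ne_zero_iff.2 fun p hp => (hSp p hp).ne_zero
    constructor
    · rintro ⟨⟨h1, h2⟩, h3⟩
      refine ⟨?_, hS0⟩
      have hd : d ∈ (PP z y).divisors := Nat.mem_divisors.2 ⟨h1, h2⟩
      rw [← Nat.prod_primeFactors_of_squarefree (dv_squarefree hd)]
      refine prod_dvd_prod_of_subset _ _ _ fun p hp => ?_
      have hpp := Nat.prime_of_mem_primeFactors hp
      rw [hS, mem_filter]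
      refine ⟨(prime_dvd_PP hpp).1 ((Nat.dvd_of_mem_primeFactors hp).trans h1), fun h4 => ?_⟩
      have := Nat.dvd_gcd (Nat.dvd_of_mem_primeFactors hp) h4
      rw [h3.gcd_eq_one] at this
      exact hpp.one_lt.ne' (Nat.dvd_one.1 this)
    · rintro ⟨h1, -⟩
      refine ⟨⟨h1.trans (prod_dvd_prod_of_subset _ _ _ (filter_subset _ _)), PP_ne_zero z y⟩, ?_⟩
      refine Nat.Coprime.coprime_dvd_left h1 ?_
      apply Nat.Coprime.prod_left
      intro p hp
      exact (Nat.Prime.coprime_iff_not_dvd (hSp p hp)).2 (mem_filter.1 hp).2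
  have hmul : ∀ d : ℕ, Squarefree d → Jr d r * x4 t d = ∏ p ∈ d.primeFactors, χ p := by
    intro d hd
    have h1 : ∀ T : Finset ℕ, Jr ((∏ p ∈ T, p : ℕ) : ℤ) r * x4 t (∏ p ∈ T, p) = ∏ p ∈ T, χ p := by
      intro T
      induction T using Finset.induction_on with
      | empty =>
        simp [Jr, x4, jacobiSym.one_left]
      | insert p T hp ih =>
        rw [prod_insert hp, prod_insert hp, ← ih]
        have h2 : Jr ((p * ∏ x ∈ T, x : ℕ) : ℤ) r = Jr p r * Jr ((∏ x ∈ T, x : ℕ) : ℤ) r := by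
          unfold Jr
          push_cast
          rw [jacobiSym.mul_left]
          push_cast
          rfl
        have h3 : x4 t (p * ∏ x ∈ T, x) = x4 t p * x4 t (∏ x ∈ T, x) := by
          unfold x4
          split_ifs
          · rw [Nat.cast_mul, map_mul]
            push_cast
            rfl
          · ring
        rw [h2, h3]
        simp only [hχ]
        ring
    have h2 := h1 d.primeFactors
    rwa [Nat.prod_primeFactors_of_squarefree hd] at h2
  have hsum : ∑ d ∈ (PP z y).divisors.filter (fun d => d.Coprime R), gq γ d * (Jr d r * x4 t d) =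
      ∏ p ∈ S, (1 + γ p * χ p) := by
    rw [hdiv, ← Pool.Agent.W655.RK.sum_mult S hSp (fun p => γ p * χ p)]
    refine sum_congr rfl fun d hd => ?_
    have hsq := (Pool.Agent.W655.RK.prod_primes_squarefree S hSp).squarefree_of_dvd
      (Nat.dvd_of_mem_divisors hd)
    rw [hmul d hsq]
    unfold gq
    rw [← prod_mul_distrib]
  have hb : ∀ p ∈ PS z y, |γ p * χ p| ≤ 1 / (2 * (p : ℝ)) := by
    intro p hp
    have h1 := hw p (mem_PS.1 hp).2 (mem_PS.1 hp).1.1
    rw [abs_mul]
    calc |γ p| * |χ p| ≤ |γ p| * 1 := mul_le_mul_of_nonneg_left (hχ1 p) (abs_nonneg _)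
      _ = |γ p| := mul_one _
      _ ≤ _ := h1.1.trans h1.2
  have hp4 : ∀ p ∈ PS z y, (0 : ℝ) < p ∧ 1 / (2 * (p : ℝ)) ≤ 1 / 4 := by
    intro p hp
    have h2 : (2 : ℝ) ≤ p := by exact_mod_cast (mem_PS.1 hp).2.two_le
    refine ⟨by linarith, ?_⟩
    rw [div_le_div_iff₀ (by linarith) (by norm_num)]
    linarith
  rw [hsum]
  have hnn : ∀ p ∈ S, 0 ≤ 1 + γ p * χ p := by
    intro p hp
    have h1 := (abs_le.1 (hb p (mem_filter.1 hp).1)).1
    have h2 := (hp4 p (mem_filter.1 hp).1).2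
    linarith
  rw [abs_of_nonneg (prod_nonneg hnn)]
  refine (Pool.Agent.W655.RK.prod_le_exp S (fun p => γ p * χ p) hnn).trans ?_
  -- the missing primes
  set T := (PS z y).filter (fun p => p ∣ R) with hT
  have hsplit : ∑ p ∈ S, γ p * χ p = ∑ p ∈ PS z y, γ p * χ p - ∑ p ∈ T, γ p * χ p := by
    have := sum_filter_add_sum_filter_not (PS z y) (fun p => p ∣ R) (fun p => γ p * χ p)
    rw [hS, hT]
    linarith
  have hTh : Real.exp (-∑ p ∈ T, γ p * χ p) ≤ hh R := by
    have h1 : Real.exp (-∑ p ∈ T, γ p * χ p) ≤ ∏ p ∈ T, (1 + 2 / (p : ℝ)) := by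
      rw [← sum_neg_distrib, Real.exp_sum]
      refine prod_le_prod (fun _ _ => (Real.exp_pos _).le) fun p hp => ?_
      have hpm := (mem_filter.1 hp).1
      have h1 := (abs_le.1 (hb p hpm)).1
      obtain ⟨h2, h3⟩ := hp4 p hpm
      have h4 : -(γ p * χ p) ≤ 1 / (2 * (p : ℝ)) := by linarith
      have h5 : Real.exp (-(γ p * χ p)) ≤ Real.exp (1 / (2 * (p : ℝ))) := Real.exp_le_exp.2 h4
      refine h5.trans ?_
      have h6 : |1 / (2 * (p : ℝ))| ≤ 1 := by
        rw [abs_of_nonneg (by positivity)]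
        linarith
      have h7 := Real.abs_exp_sub_one_sub_id_le h6
      have h8 : Real.exp (1 / (2 * (p : ℝ))) ≤ 1 + 1 / (2 * (p : ℝ)) + (1 / (2 * (p : ℝ))) ^ 2 := by
        have := (abs_le.1 h7).2
        linarith
      have h9 : (1 / (2 * (p : ℝ))) ^ 2 ≤ 1 / (2 * (p : ℝ)) := by
        have h10 : 0 ≤ 1 / (2 * (p : ℝ)) := by positivity
        nlinarith
      have h10 : 2 / (p : ℝ) = 4 * (1 / (2 * (p : ℝ))) := by field_simp; norm_num
      rw [h10]
      have h11 : 0 ≤ 1 / (2 * (p : ℝ)) := by positivity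
      linarith
    refine h1.trans ?_
    unfold hh
    have hsub : T ⊆ R.primeFactors := by
      intro p hp
      rw [hT, mem_filter] at hp
      exact Nat.mem_primeFactors.2 ⟨(mem_PS.1 hp.1).2, hp.2, hR⟩
    rw [← prod_sdiff hsub]
    have h2 : (1 : ℝ) ≤ ∏ p ∈ R.primeFactors \ T, (1 + 2 / (p : ℝ)) := by
      calc (1 : ℝ) = ∏ p ∈ R.primeFactors \ T, (1 : ℝ) := by simp
        _ ≤ _ := prod_le_prod (fun _ _ => zero_le_one) fun p _ => by
          have : (0 : ℝ) ≤ 2 / (p : ℝ) := by positivity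
          linarith
    exact le_mul_of_one_le_left (prod_nonneg fun p _ => by positivity) h2
  rw [hsplit, sub_eq_add_neg, Real.exp_add]
  have hexp : Real.exp (∑ p ∈ PS z y, γ p * χ p) = Lam g z y * Real.exp (-(Df g γ z y t r)) := by
    unfold Lam Df
    rw [← Real.exp_add]
    congr 1
    rw [sum_sub_distrib]
    ring
  rw [hexp]
  exact mul_le_mul_of_nonneg_left hTh (mul_nonneg (Real.exp_pos _).le (Real.exp_pos _).le)

end Pool.Agent.H64.PM
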