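import Mathlib
import Pool.Agent.H64.PM.AG1

/-!
# The abstract bound for linked variables with general weights: one and two large variables
-/

set_option autoImplicit false
set_option linter.unusedSectionVars false

namespace Pool.Agent.H64.PM

open Finset Pool.Agent.W262.RK

variable {ι : Type} [Fintype ι] [DecidableEq ι]

/-- the bounds used (for fixed `z`) -/
structure BdG (γ g : ι → ℕ → ℝ) (z : ℕ) (C : ℝ) : Prop where
  z2 : 2 ≤ z
  C1 : 1 ≤ C
  wt : ∀ i, Wt z (γ i) (g i)
  F0 : ∀ y : ℕ, z < y → ∑ d ∈ (PP z y).divisors, gw (1 / 2) 0 d * hh d ≤ C * Real.log y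
  F1 : ∀ (i : ι) (y : ℕ), z < y → ∑ d ∈ (PP z y).divisors, gq (g i) d * hh d ≤ C * Lam (g i) z y
  F2 : ∀ (y V : ℕ), z < y → 3 ≤ V →
    ∑ d ∈ (PP z y).divisors.filter (fun d => d ≤ V), gw (1 / 2) 0 d * hh d ≤ C * Real.log V
  F3 : ∀ (y Y : ℕ), z < y → 1 ≤ Y →
    ∑ d ∈ (PP z y).divisors.filter (fun d => Y < d), gw (1 / 2) 0 d * hh d ≤
      C * Real.exp (-(Real.log Y / Real.log y)) * (Real.log y) ^ 2

lemma rpow_half_le {x : ℝ} (hx : 1 ≤ x) : x ^ (1 / 2 : ℝ) ≤ x := by
  calc x ^ (1 / 2 : ℝ) ≤ x ^ (1 : ℝ) := Real.rpow_le_rpow_of_exponent_le hx (by norm_num)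
    _ = x := Real.rpow_one x

lemma f1 : ∃ K : ℝ, 0 ≤ K ∧ ∀ (z y : ℕ) (γ g : ℕ → ℝ), Wt z γ g →
    ∑ d ∈ (PP z y).divisors, gq g d * hh d ≤ Real.exp K * Lam g z y := by
  obtain ⟨K, hK, hsq⟩ := Pool.Agent.W655.RK.sum_inv_sq
  refine ⟨K, hK, fun z y γ g hw => ?_⟩
  have e1 : ∀ d, gq g d * hh d = ∏ p ∈ d.primeFactors, g p * (1 + 2 / (p : ℝ)) := by
    intro d
    unfold gq hh
    rw [← prod_mul_distrib]
  simp only [e1]
  have hnn : ∀ p ∈ PS z y, 0 ≤ 1 + g p * (1 + 2 / (p : ℝ)) := by
    intro p hp
    have := hw.nn (mem_PS.1 hp).2 (mem_PS.1 hp).1.1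
    positivity
  have h1 := Pool.Agent.W655.RK.sum_mult (PS z y) (fun p hp => (mem_PS.1 hp).2)
    (fun p => g p * (1 + 2 / (p : ℝ)))
  have h2 : PP z y = ∏ p ∈ PS z y, p := rfl
  rw [h2, h1]
  refine (Pool.Agent.W655.RK.prod_le_exp (PS z y) (fun p => g p * (1 + 2 / (p : ℝ))) hnn).trans ?_
  unfold Lam
  rw [← Real.exp_add, Real.exp_le_exp]
  calc ∑ p ∈ PS z y, g p * (1 + 2 / (p : ℝ)) ≤ ∑ p ∈ PS z y, (g p + 1 / (p : ℝ) ^ 2) := by
        refine sum_le_sum fun p hp => ?_
        have h3 := (hw p (mem_PS.1 hp).2 (mem_PS.1 hp).1.1).2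
        have h4 : (0 : ℝ) < p := by exact_mod_cast (mem_PS.1 hp).2.pos
        have h5 : g p * (2 / (p : ℝ)) ≤ 1 / (2 * (p : ℝ)) * (2 / (p : ℝ)) :=
          mul_le_mul_of_nonneg_right h3 (by positivity)
        have h6 : 1 / (2 * (p : ℝ)) * (2 / (p : ℝ)) = 1 / (p : ℝ) ^ 2 := by field_simp
        rw [mul_add, mul_one]
        linarith
    _ = ∑ p ∈ PS z y, g p + ∑ p ∈ PS z y, 1 / (p : ℝ) ^ 2 := sum_add_distrib
    _ ≤ K + ∑ p ∈ PS z y, g p := by
        have := hsq (PS z y)
        linarith

lemma bdG_unif : ∃ z0 : ℕ, ∀ z, z0 ≤ z → ∀ (ι : Type) (γ g : ι → ℕ → ℝ),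
    (∀ i, Wt z (γ i) (g i)) → ∃ C : ℝ, BdG γ g z C := by
  obtain ⟨K, hK, h1⟩ := f1
  obtain ⟨z0, hz0⟩ := Pool.Agent.W655.RK.full (1 / 2) 0 (by norm_num) le_rfl
  refine ⟨z0 + 2, fun z hz ι γ g hw => ?_⟩
  obtain ⟨C, hCa, hCb, hCc⟩ := hz0 z (by omega)
  have hC : C ≤ |C| := le_abs_self C
  have hCn := abs_nonneg C
  have hK1 : 1 ≤ Real.exp K := Real.one_le_exp hK
  refine ⟨|C| + Real.exp K, ⟨by omega, by linarith, hw, ?_, ?_, ?_, ?_⟩⟩
  · intro y hy
    have hly := one_le_log (by omega : 2 ≤ z) hy
    refine (hCa y hy).trans ?_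
    calc C * (Real.log y) ^ (1 / 2 : ℝ) ≤ |C| * (Real.log y) ^ (1 / 2 : ℝ) :=
          mul_le_mul_of_nonneg_right hC (by positivity)
      _ ≤ |C| * Real.log y := mul_le_mul_of_nonneg_left (rpow_half_le hly) hCn
      _ ≤ _ := mul_le_mul_of_nonneg_right (by linarith) (by linarith)
  · intro i y _
    refine (h1 z y (γ i) (g i) (hw i)).trans ?_
    exact mul_le_mul_of_nonneg_right (by linarith) (Real.exp_pos _).le
  · intro y V hy hV
    have hlV : 1 ≤ Real.log V := one_le_log (z := 2) le_rfl (by omega)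
    refine (hCb y V hy (by omega)).trans ?_
    calc C * (Real.log V) ^ (1 / 2 : ℝ) ≤ |C| * (Real.log V) ^ (1 / 2 : ℝ) :=
          mul_le_mul_of_nonneg_right hC (by positivity)
      _ ≤ |C| * Real.log V := mul_le_mul_of_nonneg_left (rpow_half_le hlV) hCn
      _ ≤ _ := mul_le_mul_of_nonneg_right (by linarith) (by linarith)
  · intro y Y hy hY
    refine (hCc y Y hy hY).trans ?_
    apply mul_le_mul_of_nonneg_right _ (by positivity)
    apply mul_le_mul_of_nonneg_right _ (Real.exp_pos _).le
    linarith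

variable {γ g : ι → ℕ → ℝ} {L : ι → ι → Bool} {z : ℕ} {C : ℝ}

lemma gq_le_hh (hB : BdG γ g z C) (i : ι) {y m : ℕ} (hm : m ∈ (PP z y).divisors) :
    gq (g i) m ≤ gq (g i) m * hh m :=
  le_mul_of_one_le_right (gq_nonneg (hB.wt i) hm) (one_le_hh m)

lemma gh_nn (hB : BdG γ g z C) (i : ι) {y m : ℕ} (hm : m ∈ (PP z y).divisors) :
    0 ≤ gq (g i) m * hh m := mul_nonneg (gq_nonneg (hB.wt i) hm) (hh_nonneg _)

lemma gh_le_half (hB : BdG γ g z C) (i : ι) {y m : ℕ} (hm : m ∈ (PP z y).divisors) :
    gq (g i) m * hh m ≤ gw (1 / 2) 0 m * hh m :=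
  mul_le_mul_of_nonneg_right (gq_le_gw (hB.wt i) hm) (hh_nonneg _)

/-- the defects of both signs -/
noncomputable def EE (g γ : ℕ → ℝ) (z y r : ℕ) : ℝ :=
  Real.exp (-(Df g γ z y false r)) + Real.exp (-(Df g γ z y true r))

lemma EE_pos (g γ : ℕ → ℝ) (z y r : ℕ) : 0 < EE g γ z y r := by unfold EE; positivity

lemma EE_ge (g γ : ℕ → ℝ) (z y r : ℕ) (t : Bool) :
    Real.exp (-(Df g γ z y t r)) ≤ EE g γ z y r := by
  unfold EE
  cases t
  · have := Real.exp_pos (-(Df g γ z y true r)); linarith
  · have := Real.exp_pos (-(Df g γ z y false r)); linarith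

/-- the sum over one large variable -/
lemma inner (hB : BdG γ g z C) (i : ι) (hL : L i i = false) {y V Y : ℕ} (hy : z < y) (hV : 3 ≤ V)
    (hVY : V ≤ Y) {e : ι → ℕ} (he : ∀ b, e b ∈ (PP z y).divisors) :
    |∑ m ∈ AT.lg z y V Y, HG γ L (Function.update e i m)| ≤
      (∏ b ∈ univ.erase i, gq (g b) (e b) * hh (e b)) *
        (Lam (g i) z y * EE (g i) (γ i) z y (lk L i e) + C * Real.log V +
          C * Real.exp (-(Real.log Y / Real.log y)) * (Real.log y) ^ 2) := by
  classical
  have hC0 : 0 ≤ C := zero_le_one.trans hB.C1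
  have hV' : 0 ≤ Real.log V := Real.log_natCast_nonneg V
  have hP0 : 0 ≤ ∏ b ∈ univ.erase i, gq (g b) (e b) * hh (e b) :=
    prod_nonneg fun b _ => gh_nn hB b (he b)
  have hLam : 0 < Lam (g i) z y := Real.exp_pos _
  have hEE := EE_pos (g i) (γ i) z y (lk L i e)
  have hB0 : 0 ≤ Lam (g i) z y * EE (g i) (γ i) z y (lk L i e) + C * Real.log V +
      C * Real.exp (-(Real.log Y / Real.log y)) * (Real.log y) ^ 2 := by positivity
  rcases HG_update (γ := γ) i hL hB.z2 he with h | ⟨hcop, t, ht⟩
  · rw [sum_eq_zero fun m _ => h m, abs_zero]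
    exact mul_nonneg hP0 hB0
  · set R := ∏ b ∈ univ.erase i, e b with hR
    set P := ∏ b ∈ univ.erase i, gq (γ b) (e b) with hP
    set f : ℕ → ℝ := fun m => gq (γ i) m * (Jr m (lk L i e) * x4 t m) with hf
    have hRne : R ≠ 0 := prod_ne_zero_iff.2 fun b _ => dv_ne_zero (he b)
    have h1 : ∑ m ∈ AT.lg z y V Y,
        HG γ L (Function.update e i m) =
        P * RR L (fun _ => 1) i e *
          ∑ m ∈ ((PP z y).divisors.filter (fun m => m.Coprime R)).filter
          (fun m => V < m ∧ m ≤ Y), f m := by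
      unfold AT.lg
      rw [filter_filter, mul_sum]
      have h2 : (PP z y).divisors.filter (fun m => m.Coprime R ∧ V < m ∧ m ≤ Y) =
          ((PP z y).divisors.filter (fun m => V < m ∧ m ≤ Y)).filter (fun m => m.Coprime R) := by
        rw [filter_filter]
        apply filter_congr
        intro m _
        tauto
      rw [h2]
      symm
      rw [sum_filter]
      apply sum_congr rfl
      intro m hm
      rw [ht m (mem_filter.1 hm).1]
    set D := (PP z y).divisors.filter (fun m => m.Coprime R) with hD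
    have hDs : D ⊆ (PP z y).divisors := filter_subset _ _
    have h3 : ∑ m ∈ D.filter (fun m => V < m ∧ m ≤ Y), f m =
        ∑ m ∈ D, f m - ∑ m ∈ D.filter (fun m => m ≤ V), f m - ∑ m ∈ D.filter (fun m => Y < m), f m := by
      have e1 : ∑ m ∈ D.filter (fun m => V < m ∧ m ≤ Y), f m + ∑ m ∈ D.filter (fun m => Y < m), f m =
          ∑ m ∈ D.filter (fun m => ¬ m ≤ V), f m := by
        rw [← sum_union]
        · apply sum_congr _ (fun _ _ => rfl)
          ext m
          simp only [mem_union, mem_filter]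
          constructor
          · rintro (⟨h1, h2, h3⟩ | ⟨h1, h2⟩)
            · exact ⟨h1, by omega⟩
            · exact ⟨h1, by omega⟩
          · rintro ⟨h1, h2⟩
            by_cases h3 : m ≤ Y
            · exact Or.inl ⟨h1, by omega, h3⟩
            · exact Or.inr ⟨h1, by omega⟩
        · rw [disjoint_filter]
          intro m _ h1 h2
          omega
      have e2 := sum_filter_add_sum_filter_not D (fun m => m ≤ V) f
      linarith
    have hfa : ∀ m ∈ (PP z y).divisors, |f m| ≤ gw (1 / 2) 0 m * hh m := by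
      intro m hm
      rw [hf]
      simp only
      rw [abs_mul]
      have h4 := chi_le t m (lk L i e)
      calc |gq (γ i) m| * |Jr m (lk L i e) * x4 t m| ≤ gq (g i) m * 1 :=
            mul_le_mul (abs_gq_le (hB.wt i) hm) h4 (abs_nonneg _) (gq_nonneg (hB.wt i) hm)
        _ = gq (g i) m := mul_one _
        _ ≤ gq (g i) m * hh m := gq_le_hh hB i hm
        _ ≤ _ := gh_le_half hB i hm
    have hnn : ∀ m ∈ (PP z y).divisors, 0 ≤ gw (1 / 2) 0 m * hh m := fun m hm =>
      mul_nonneg (gw_half_nn hm) (hh_nonneg _)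
    have h4 : |∑ m ∈ D.filter (fun m => m ≤ V), f m| ≤ C * Real.log V := by
      refine (abs_sum_le_sum_abs _ _).trans ?_
      refine le_trans ?_ (hB.F2 y V hy hV)
      calc ∑ m ∈ D.filter (fun m => m ≤ V), |f m| ≤ ∑ m ∈ D.filter (fun m => m ≤ V),
            gw (1 / 2) 0 m * hh m := sum_le_sum fun m hm => hfa m (hDs (mem_filter.1 hm).1)
        _ ≤ _ := sum_le_sum_of_subset_of_nonneg (filter_subset_filter _ hDs)
          fun m hm _ => hnn m (mem_filter.1 hm).1
    have h5 : |∑ m ∈ D.filter (fun m => Y < m), f m| ≤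
        C * Real.exp (-(Real.log Y / Real.log y)) * (Real.log y) ^ 2 := by
      refine (abs_sum_le_sum_abs _ _).trans ?_
      refine le_trans ?_ (hB.F3 y Y hy (by omega))
      calc ∑ m ∈ D.filter (fun m => Y < m), |f m| ≤ ∑ m ∈ D.filter (fun m => Y < m),
            gw (1 / 2) 0 m * hh m := sum_le_sum fun m hm => hfa m (hDs (mem_filter.1 hm).1)
        _ ≤ _ := sum_le_sum_of_subset_of_nonneg (filter_subset_filter _ hDs)
          fun m hm _ => hnn m (mem_filter.1 hm).1
    have h6 : |∑ m ∈ D, f m| ≤ Lam (g i) z y * EE (g i) (γ i) z y (lk L i e) * hh R := by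
      refine (euler (hB.wt i) y R (lk L i e) t hRne).trans ?_
      apply mul_le_mul_of_nonneg_right _ (hh_nonneg _)
      exact mul_le_mul_of_nonneg_left (EE_ge _ _ _ _ _ t) hLam.le
    have h7 : hh R ≤ ∏ b ∈ univ.erase i, hh (e b) :=
      AT.hh_prod_le _ _ fun b _ => dv_ne_zero (he b)
    have h8 : (1 : ℝ) ≤ ∏ b ∈ univ.erase i, hh (e b) := by
      calc (1 : ℝ) = ∏ b ∈ univ.erase i, (1 : ℝ) := by simp
        _ ≤ _ := prod_le_prod (fun _ _ => zero_le_one) fun b _ => one_le_hh _
    have hRR := abs_RR_le L (fun _ => 1) i e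
    have hPabs : |P| ≤ ∏ b ∈ univ.erase i, gq (g b) (e b) := by
      rw [hP, abs_prod]
      exact prod_le_prod (fun _ _ => abs_nonneg _) fun b _ => abs_gq_le (hB.wt b) (he b)
    have hPn : 0 ≤ ∏ b ∈ univ.erase i, gq (g b) (e b) := (abs_nonneg _).trans hPabs
    rw [h1, abs_mul, abs_mul, prod_mul_distrib]
    set H := ∏ b ∈ univ.erase i, hh (e b) with hH
    have h9 : |∑ m ∈ D.filter (fun m => V < m ∧ m ≤ Y), f m| ≤
        H * (Lam (g i) z y * EE (g i) (γ i) z y (lk L i e) + C * Real.log V +
          C * Real.exp (-(Real.log Y / Real.log y)) * (Real.log y) ^ 2) := by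
      rw [h3]
      have a1 : |∑ m ∈ D, f m - ∑ m ∈ D.filter (fun m => m ≤ V), f m -
          ∑ m ∈ D.filter (fun m => Y < m), f m| ≤ |∑ m ∈ D, f m| +
          |∑ m ∈ D.filter (fun m => m ≤ V), f m| + |∑ m ∈ D.filter (fun m => Y < m), f m| := by
        refine (abs_sub _ _).trans ?_
        have := abs_sub (∑ m ∈ D, f m) (∑ m ∈ D.filter (fun m => m ≤ V), f m)
        linarith
      have b1 : 0 ≤ Lam (g i) z y * EE (g i) (γ i) z y (lk L i e) := by positivity
      have b2 : 0 ≤ C * Real.log V := by positivity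
      have b3 : 0 ≤ C * Real.exp (-(Real.log Y / Real.log y)) * (Real.log y) ^ 2 := by positivity
      have a2 : |∑ m ∈ D, f m| ≤ H * (Lam (g i) z y * EE (g i) (γ i) z y (lk L i e)) := by
        refine h6.trans ?_
        rw [mul_comm]
        exact mul_le_mul_of_nonneg_right h7 b1
      have a3 := le_mul_of_one_le_left b2 h8
      have a4 := le_mul_of_one_le_left b3 h8
      calc _ ≤ _ := a1
        _ ≤ H * (Lam (g i) z y * EE (g i) (γ i) z y (lk L i e)) + H * (C * Real.log V) +
            H * (C * Real.exp (-(Real.log Y / Real.log y)) * (Real.log y) ^ 2) := by linarith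
        _ = _ := by ring
    calc |P| * |RR L (fun _ => 1) i e| * |∑ m ∈ D.filter (fun m => V < m ∧ m ≤ Y), f m|
        ≤ (∏ b ∈ univ.erase i, gq (g b) (e b)) * 1 *
          (H * (Lam (g i) z y * EE (g i) (γ i) z y (lk L i e) + C * Real.log V +
          C * Real.exp (-(Real.log Y / Real.log y)) * (Real.log y) ^ 2)) := by
          apply mul_le_mul (mul_le_mul hPabs hRR (abs_nonneg _) hPn) h9 (abs_nonneg _)
          positivity
      _ = _ := by ring

/-- the summand as a function of two linked variables -/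
lemma HG_pair (hB : BdG γ g z C) {i j : ι} (hij : i ≠ j) (hLi : L i i = false)
    (hL1 : L i j = true) (hL2 : L j i = false) {y : ℕ} {e : ι → ℕ}
    (he : ∀ b, e b ∈ (PP z y).divisors) :
    ∃ (q : ℝ) (a b : ℕ → ℝ), |q| ≤ ∏ k ∈ (univ.erase i).erase j, gq (g k) (e k) ∧
      (∀ m, |a m| ≤ 1) ∧ (∀ m, |b m| ≤ 1) ∧
      ∀ m ∈ (PP z y).divisors, ∀ n ∈ (PP z y).divisors,
        HG γ L (Function.update (Function.update e j n) i m) =
          q * (gq (γ i) m * a m) * (gq (γ j) n * b n) * Jr m n := by
  classical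
  have hjm : j ∈ univ.erase i := mem_erase.2 ⟨hij.symm, mem_univ j⟩
  set q : ℝ := if (∀ a b, a ≠ i → b ≠ i → a ≠ j → b ≠ j → a ≠ b → (e a).Coprime (e b)) then
    ∏ k ∈ (univ.erase i).erase j, gq (γ k) (e k) else 0 with hq
  set X' : ℕ → ℝ := fun m => ∏ b ∈ (univ.erase i).erase j,
    (if L i b then Jr m (e b) else 1) * (if L b i then Jr (e b) m else 1) with hX'
  set a : ℕ → ℝ := fun m => if (∀ b, b ≠ i → b ≠ j → m.Coprime (e b)) then X' m else 0
    with ha
  set b : ℕ → ℝ := fun n => if (∀ b, b ≠ i → b ≠ j → n.Coprime (e b)) then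
    RR L (fun _ => 1) i (Function.update e j n) else 0 with hb
  have hP0 : 0 ≤ ∏ k ∈ (univ.erase i).erase j, gq (g k) (e k) :=
    prod_nonneg fun k _ => gq_nonneg (hB.wt k) (he k)
  refine ⟨q, a, b, ?_, ?_, ?_, ?_⟩
  · rw [hq]
    split_ifs
    · rw [abs_prod]
      exact prod_le_prod (fun _ _ => abs_nonneg _) fun k _ => abs_gq_le (hB.wt k) (he k)
    · simpa using hP0
  · intro m
    rw [ha]
    simp only
    split_ifs
    · rw [hX']
      apply abs_prod_le_one
      intro k _
      rw [abs_mul]
      exact mul_le_one₀ (abs_ite_Jr _ _ _) (abs_nonneg _) (abs_ite_Jr _ _ _)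
    · simp
  · intro n
    rw [hb]
    simp only
    split_ifs
    · exact abs_RR_le _ _ _ _
    · simp
  · intro m hm n hn
    have hm0 := dv_ne_zero hm
    have hn0 := dv_ne_zero hn
    by_cases hmn : m.Coprime n
    · have hXX : XX L i (Function.update e j n) m = Jr m n * X' m := by
        unfold XX
        rw [← mul_prod_erase _ _ hjm, Function.update_self, hL1, hL2]
        simp only [if_true, Bool.false_eq_true, if_false, mul_one]
        rw [hX']
        congr 1
        apply prod_congr rfl
        intro k hk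
        rw [Function.update_of_ne (mem_erase.1 hk).1]
      have hgw : ∏ k, gq (γ k) (Function.update (Function.update e j n) i m k) =
          gq (γ i) m * (gq (γ j) n * ∏ k ∈ (univ.erase i).erase j, gq (γ k) (e k)) := by
        rw [← mul_prod_erase univ _ (mem_univ i), Function.update_self]
        congr 1
        rw [← mul_prod_erase _ _ hjm, Function.update_of_ne hij.symm, Function.update_self]
        congr 1
        apply prod_congr rfl
        intro k hk
        have h1 := mem_erase.1 hk
        rw [Function.update_of_ne (mem_erase.1 h1.2).1, Function.update_of_ne h1.1]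
      have hcond : (∀ k l, k ≠ l → (Function.update (Function.update e j n) i m k).Coprime
          (Function.update (Function.update e j n) i m l)) ↔
          (∀ a b, a ≠ i → b ≠ i → a ≠ j → b ≠ j → a ≠ b → (e a).Coprime (e b)) ∧
          (∀ b, b ≠ i → b ≠ j → m.Coprime (e b)) ∧ (∀ b, b ≠ i → b ≠ j → n.Coprime (e b)) := by
        constructor
        · intro h
          refine ⟨?_, ?_, ?_⟩
          · intro k l h1 h2 h3 h4 h5
            have := h k l h5
            rwa [Function.update_of_ne h1, Function.update_of_ne h3, Function.update_of_ne h2,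
              Function.update_of_ne h4] at this
          · intro k h1 h2
            have := h i k h1.symm
            rwa [Function.update_self, Function.update_of_ne h1, Function.update_of_ne h2] at this
          · intro k h1 h2
            have := h j k h2.symm
            rwa [Function.update_of_ne hij.symm, Function.update_self, Function.update_of_ne h1,
              Function.update_of_ne h2] at this
        · rintro ⟨h1, h2, h3⟩ k l hkl
          by_cases hk : k = i
          · subst hk
            rw [Function.update_self, Function.update_of_ne hkl.symm]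
            by_cases hl : l = j
            · subst hl
              rw [Function.update_self]
              exact hmn
            · rw [Function.update_of_ne hl]
              exact h2 l hkl.symm hl
          · rw [Function.update_of_ne hk]
            by_cases hl : l = i
            · subst hl
              rw [Function.update_self]
              by_cases hk' : k = j
              · subst hk'
                rw [Function.update_self]
                exact hmn.symm
              · rw [Function.update_of_ne hk']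
                exact (h2 k hk hk').symm
            · rw [Function.update_of_ne hl]
              by_cases hk' : k = j
              · subst hk'
                rw [Function.update_self, Function.update_of_ne hkl.symm]
                exact h3 l hl hkl.symm
              · rw [Function.update_of_ne hk']
                by_cases hl' : l = j
                · subst hl'
                  rw [Function.update_self]
                  exact (h3 k hk hk').symm
                · rw [Function.update_of_ne hl']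
                  exact h1 k l hk hl hk' hl' hkl
      unfold HG
      rw [sym_update L (fun _ => 1) i hLi, hXX, hgw, Jr_one]
      by_cases c1 : ∀ a b, a ≠ i → b ≠ i → a ≠ j → b ≠ j → a ≠ b → (e a).Coprime (e b)
      · by_cases c2 : ∀ b, b ≠ i → b ≠ j → m.Coprime (e b)
        · by_cases c3 : ∀ b, b ≠ i → b ≠ j → n.Coprime (e b)
          · rw [if_pos (hcond.2 ⟨c1, c2, c3⟩), hq, if_pos c1, ha, hb]
            simp only
            rw [if_pos c2, if_pos c3]
            ring
          · rw [if_neg (fun h => c3 (hcond.1 h).2.2), hb]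
            simp only
            rw [if_neg c3]
            ring
        · rw [if_neg (fun h => c2 (hcond.1 h).2.1), ha]
          simp only
          rw [if_neg c2]
          ring
      · rw [if_neg (fun h => c1 (hcond.1 h).1), hq, if_neg c1]
        ring
    · rw [Jr_eq_zero hn0 hmn, mul_zero]
      unfold HG
      rw [if_neg]
      intro h
      have := h i j hij
      rw [Function.update_self, Function.update_of_ne hij.symm, Function.update_self] at this
      exact hmn this

lemma pair_inner (hB : BdG γ g z C) {C2 : ℝ} {E2 : ℕ} (h2 : AT.BW C2 E2) {i j : ι} (hij : i ≠ j)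
    (hLi : L i i = false) (hL1 : L i j = true) (hL2 : L j i = false) {y V Y : ℕ} (hV : 2 ≤ V)
    (hVY : V ≤ Y) {e : ι → ℕ} (he : ∀ b, e b ∈ (PP z y).divisors) :
    |∑ n ∈ AT.lg z y V Y, ∑ m ∈ AT.lg z y V Y,
        HG γ L (Function.update (Function.update e j n) i m)| ≤
      (∏ k ∈ (univ.erase i).erase j, gq (g k) (e k)) *
        (C2 * (Real.log Y) ^ E2 * (V : ℝ) ^ (-(1 / 6 : ℝ))) := by
  classical
  obtain ⟨q, a, b, hq, ha, hb, h⟩ := HG_pair (L := L) hB hij hLi hL1 hL2 he
  have hP0 : 0 ≤ ∏ k ∈ (univ.erase i).erase j, gq (g k) (e k) :=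
    prod_nonneg fun k _ => gq_nonneg (hB.wt k) (he k)
  set a' : ℕ → ℝ := fun m => if m ∈ AT.lg z y V Y then gq (γ i) m * a m else 0 with ha'
  set b' : ℕ → ℝ := fun m => if m ∈ AT.lg z y V Y then gq (γ j) m * b m else 0 with hb'
  have hsub : AT.lg z y V Y ⊆ Ioc V Y := by
    intro m hm
    rw [mem_Ioc]
    exact (mem_filter.1 hm).2
  have hDv : ∀ m ∈ AT.lg z y V Y, m ∈ (PP z y).divisors := fun m hm => (mem_filter.1 hm).1
  have bd : ∀ (k : ι) (f : ℕ → ℝ), (∀ m, |f m| ≤ 1) → ∀ m,
      |if m ∈ AT.lg z y V Y then gq (γ k) m * f m else 0| ≤ 1 / (m : ℝ) := by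
    intro k f hf m
    split_ifs with hm
    · have g0 := gq_nonneg (hB.wt k) (hDv m hm)
      rw [abs_mul]
      calc |gq (γ k) m| * |f m| ≤ gq (g k) m * 1 :=
            mul_le_mul (abs_gq_le (hB.wt k) (hDv m hm)) (hf m) (abs_nonneg _) g0
        _ = gq (g k) m := mul_one _
        _ ≤ _ := gq_le (hB.wt k) (hDv m hm)
    · simp
  have od : ∀ (k : ι) (f : ℕ → ℝ) (m : ℕ),
      (if m ∈ AT.lg z y V Y then gq (γ k) m * f m else 0) ≠ 0 → Odd m ∧ Squarefree m := by
    intro k f m hm
    by_cases h1 : m ∈ AT.lg z y V Y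
    · exact ⟨dv_odd hB.z2 (hDv m h1), dv_squarefree (hDv m h1)⟩
    · rw [if_neg h1] at hm
      exact absurd rfl hm
  have hmain := h2 V Y hV hVY a' b' (bd i a ha) (bd j b hb) (od i a) (od j b)
  have heq : ∑ n ∈ AT.lg z y V Y, ∑ m ∈ AT.lg z y V Y,
      HG γ L (Function.update (Function.update e j n) i m) =
      q * ∑ m ∈ Ioc V Y, ∑ n ∈ Ioc V Y, a' m * b' n * Jr m n := by
    rw [sum_comm]
    have e1 : ∑ m ∈ Ioc V Y, ∑ n ∈ Ioc V Y, a' m * b' n * Jr m n =
        ∑ m ∈ AT.lg z y V Y, ∑ n ∈ AT.lg z y V Y, a' m * b' n * Jr m n := by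
      rw [← sum_subset hsub]
      · apply sum_congr rfl
        intro m _
        rw [← sum_subset hsub]
        intro n _ hn
        rw [hb']
        simp only
        rw [if_neg hn]
        ring
      · intro m _ hm
        apply sum_eq_zero
        intro n _
        rw [ha']
        simp only
        rw [if_neg hm]
        ring
    rw [e1, mul_sum]
    apply sum_congr rfl
    intro m hm
    rw [mul_sum]
    apply sum_congr rfl
    intro n hn
    rw [h m (hDv m hm) n (hDv n hn), ha', hb']
    simp only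
    rw [if_pos hm, if_pos hn]
    ring
  rw [heq, abs_mul]
  exact mul_le_mul hq hmain (abs_nonneg _) hP0

/-- two linked large variables -/
lemma pair_case (hB : BdG γ g z C) {C2 : ℝ} {E2 : ℕ} (hC2 : 0 ≤ C2) (h2 : AT.BW C2 E2) {i j : ι}
    (hij : i ≠ j) (hLi : L i i = false) (hL1 : L i j = true) (hL2 : L j i = false)
    {y V Y : ℕ} (hy : z < y) (hV : 2 ≤ V) (hVY : V ≤ Y) {t : ι → Finset ℕ}
    (ht : ∀ b, t b ⊆ (PP z y).divisors) (hti : t i = AT.lg z y V Y) (htj : t j = AT.lg z y V Y) :
    |∑ d ∈ Fintype.piFinset t, HG γ L d| ≤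
      (C * Real.log y) ^ (Fintype.card ι) * (C2 * (Real.log Y) ^ E2 * (V : ℝ) ^ (-(1 / 6 : ℝ))) := by
  classical
  have hC0 : 0 ≤ C := zero_le_one.trans hB.C1
  have hly : 1 ≤ Real.log y := one_le_log hB.z2 hy
  have hlY : 0 ≤ Real.log Y := Real.log_natCast_nonneg Y
  rw [sum_update t i, sum_update (Function.update t i {1}) j, Function.update_of_ne hij.symm, hti, htj]
  refine (abs_sum_le_sum_abs _ _).trans ?_
  have hQ : 0 ≤ C2 * (Real.log Y) ^ E2 * (V : ℝ) ^ (-(1 / 6 : ℝ)) := by positivity
  have hstep : ∀ e ∈ Fintype.piFinset (Function.update (Function.update t i {1}) j {1}),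
      |∑ n ∈ AT.lg z y V Y, ∑ m ∈ AT.lg z y V Y,
        HG γ L (Function.update (Function.update e j n) i m)| ≤
      (∏ k ∈ univ.erase j, (if k = i then 1 else gq (g k) (e k))) *
        (C2 * (Real.log Y) ^ E2 * (V : ℝ) ^ (-(1 / 6 : ℝ))) := by
    intro e he
    have he' : ∀ b, e b ∈ (PP z y).divisors := by
      intro b
      have := Fintype.mem_piFinset.1 he b
      by_cases hb : b = j
      · subst hb
        rw [Function.update_self, mem_singleton] at this
        rw [this]
        exact one_mem_dv z y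
      · rw [Function.update_of_ne hb] at this
        by_cases hb' : b = i
        · subst hb'
          rw [Function.update_self, mem_singleton] at this
          rw [this]
          exact one_mem_dv z y
        · rw [Function.update_of_ne hb'] at this
          exact ht b this
    refine (pair_inner hB h2 hij hLi hL1 hL2 hV hVY he').trans ?_
    apply mul_le_mul_of_nonneg_right _ hQ
    apply le_of_eq
    have him : i ∈ univ.erase j := mem_erase.2 ⟨hij, mem_univ i⟩
    rw [← mul_prod_erase _ _ him, if_pos rfl, one_mul]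
    have : (univ.erase i).erase j = (univ.erase j).erase i := by
      ext k
      simp only [mem_erase, mem_univ, and_true]
      tauto
    rw [this]
    apply prod_congr rfl
    intro k hk
    rw [if_neg (mem_erase.1 hk).1]
  refine (sum_le_sum hstep).trans ?_
  rw [← sum_mul, AT.sum_others j (Function.update t i {1})
    (fun k m => if k = i then 1 else gq (g k) m)]
  apply mul_le_mul_of_nonneg_right _ hQ
  have hCl : 1 ≤ C * Real.log y := by nlinarith [hB.C1]
  have hf : ∀ k ∈ univ.erase j, ∑ m ∈ Function.update t i {1} k,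
      (if k = i then 1 else gq (g k) m) ≤ C * Real.log y := by
    intro k _
    by_cases hk : k = i
    · subst hk
      rw [Function.update_self]
      simpa using hCl
    · rw [Function.update_of_ne hk]
      simp only [if_neg hk]
      calc ∑ m ∈ t k, gq (g k) m ≤ ∑ m ∈ (PP z y).divisors, gq (g k) m :=
            sum_le_sum_of_subset_of_nonneg (ht k) fun m hm _ => gq_nonneg (hB.wt k) hm
        _ ≤ ∑ m ∈ (PP z y).divisors, gw (1 / 2) 0 m * hh m := sum_le_sum fun m hm =>
            (gq_le_hh hB k hm).trans (gh_le_half hB k hm)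
        _ ≤ C * Real.log y := hB.F0 y hy
  have hf0 : ∀ k ∈ univ.erase j, 0 ≤ ∑ m ∈ Function.update t i {1} k,
      (if k = i then 1 else gq (g k) m) := by
    intro k _
    apply sum_nonneg
    intro m hm
    by_cases hk : k = i
    · rw [if_pos hk]; exact zero_le_one
    · rw [if_neg hk]
      rw [Function.update_of_ne hk] at hm
      exact gq_nonneg (hB.wt k) (ht k hm)
  calc ∏ k ∈ univ.erase j, ∑ m ∈ Function.update t i {1} k, (if k = i then 1 else gq (g k) m)
      ≤ ∏ k ∈ univ.erase j, (C * Real.log y) := prod_le_prod hf0 hf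
    _ = (C * Real.log y) ^ (univ.erase j).card := by rw [prod_const]
    _ ≤ (C * Real.log y) ^ (Fintype.card ι) := by
      apply pow_le_pow_right₀ hCl
      exact (card_le_card (erase_subset _ _)).trans (le_of_eq card_univ)

end Pool.Agent.H64.PM
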