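import Mathlib
import Pool.Agent.H64.PM.AG2

/-!
# The abstract bound for linked variables with general weights: the easy patterns
-/

set_option autoImplicit false
set_option linter.unusedSectionVars false

namespace Pool.Agent.H64.PM

open Finset Pool.Agent.W262.RK
open Pool.Agent.W262.RK.AT (VV YY cell cell_sub cell_zero cell_one cell_two cell_three lg)

variable {ι : Type} [Fintype ι] [DecidableEq ι]

variable {γ g : ι → ℕ → ℝ} {L : ι → ι → Bool} {z : ℕ} {C : ℝ}

/-- every cell -/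
lemma cs_any (hB : BdG γ g z C) {y : ℕ} (hy : z < y) (V Y : ℕ) (k : ι) (r : Fin 4) :
    ∑ m ∈ cell z y V Y r, gq (g k) m * hh m ≤ C * Real.log y := by
  calc ∑ m ∈ cell z y V Y r, gq (g k) m * hh m ≤ ∑ m ∈ (PP z y).divisors, gq (g k) m * hh m :=
        sum_le_sum_of_subset_of_nonneg (cell_sub _ _ _ _ _) fun m hm _ => gh_nn hB k hm
    _ ≤ ∑ m ∈ (PP z y).divisors, gw (1 / 2) 0 m * hh m := sum_le_sum fun m hm => gh_le_half hB k hm
    _ ≤ C * Real.log y := hB.F0 y hy

lemma cs_all (hB : BdG γ g z C) {y : ℕ} (hy : z < y) (V Y : ℕ) (k : ι) (r : Fin 4) :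
    ∑ m ∈ cell z y V Y r, gq (g k) m * hh m ≤ C * Lam (g k) z y := by
  calc ∑ m ∈ cell z y V Y r, gq (g k) m * hh m ≤ ∑ m ∈ (PP z y).divisors, gq (g k) m * hh m :=
        sum_le_sum_of_subset_of_nonneg (cell_sub _ _ _ _ _) fun m hm _ => gh_nn hB k hm
    _ ≤ C * Lam (g k) z y := hB.F1 k y hy

/-- the cells of the kinds 0, 1 -/
lemma cs_small (hB : BdG γ g z C) {y : ℕ} (hy : z < y) {V Y : ℕ} (hV : 3 ≤ V) (k : ι) {r : Fin 4}
    (hr : r = 0 ∨ r = 1) : ∑ m ∈ cell z y V Y r, gq (g k) m * hh m ≤ C * Real.log V := by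
  have hsub : cell z y V Y r ⊆ (PP z y).divisors.filter (fun d => d ≤ V) := by
    intro m hm
    rw [mem_filter]
    refine ⟨cell_sub _ _ _ _ _ hm, ?_⟩
    rcases hr with h | h
    · subst h
      have := cell_zero hm
      omega
    · subst h
      exact (cell_one hm).2
  calc ∑ m ∈ cell z y V Y r, gq (g k) m * hh m
      ≤ ∑ m ∈ (PP z y).divisors.filter (fun d => d ≤ V), gq (g k) m * hh m :=
        sum_le_sum_of_subset_of_nonneg hsub fun m hm _ => gh_nn hB k (mem_filter.1 hm).1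
    _ ≤ ∑ m ∈ (PP z y).divisors.filter (fun d => d ≤ V), gw (1 / 2) 0 m * hh m :=
        sum_le_sum fun m hm => gh_le_half hB k (mem_filter.1 hm).1
    _ ≤ C * Real.log V := hB.F2 y V hy hV

lemma small_or {r : Fin 4} (h2 : r ≠ 2) (h3 : r ≠ 3) : r = 0 ∨ r = 1 := by
  revert h2 h3
  revert r
  decide

/-- product of the sums over cells of kinds 0, 1, 2 -/
lemma prod_low (hB : BdG γ g z C) {y : ℕ} (hy : z < y) {V Y : ℕ} (hV : 3 ≤ V) (π : ι → Fin 4)
    (s : Finset ι) (hs : ∀ k ∈ s, π k ≠ 3) :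
    ∏ k ∈ s, ∑ m ∈ cell z y V Y (π k), gq (g k) m * hh m ≤
      C ^ (Fintype.card ι) * (∏ k ∈ s.filter (fun k => π k = 2), Lam (g k) z y) *
        (Real.log V) ^ (Fintype.card ι) := by
  have hC0 : 0 ≤ C := zero_le_one.trans hB.C1
  have hlV : 1 ≤ Real.log V := one_le_log (z := 2) le_rfl (by omega)
  have hL0 : ∀ k, 0 < Lam (g k) z y := fun k => Real.exp_pos _
  have hcard : s.card ≤ Fintype.card ι := (card_le_card (subset_univ s)).trans (le_of_eq card_univ)
  calc ∏ k ∈ s, ∑ m ∈ cell z y V Y (π k), gq (g k) m * hh m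
      ≤ ∏ k ∈ s, (C * (if π k = 2 then Lam (g k) z y else Real.log V)) := by
        apply prod_le_prod
        · intro k _
          exact sum_nonneg fun m hm => gh_nn hB k (cell_sub _ _ _ _ _ hm)
        · intro k hk
          split_ifs with h
          · exact cs_all hB hy V Y k (π k)
          · exact cs_small hB hy hV k (small_or h (hs k hk))
    _ = C ^ s.card * ((∏ k ∈ s.filter (fun k => π k = 2), Lam (g k) z y) *
          ∏ k ∈ s.filter (fun k => ¬ π k = 2), Real.log V) := by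
        rw [prod_mul_distrib, prod_const, prod_ite]
    _ ≤ C ^ (Fintype.card ι) * ((∏ k ∈ s.filter (fun k => π k = 2), Lam (g k) z y) *
          (Real.log V) ^ (Fintype.card ι)) := by
        apply mul_le_mul (pow_le_pow_right₀ hB.C1 hcard) _ _ (by positivity)
        · apply mul_le_mul le_rfl _ _ (prod_nonneg fun k _ => (hL0 k).le)
          · rw [prod_const]
            exact pow_le_pow_right₀ hlV ((card_filter_le _ _).trans hcard)
          · positivity
        · apply mul_nonneg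
          · exact prod_nonneg fun k _ => (hL0 k).le
          · exact prod_nonneg fun _ _ => by positivity
    _ = _ := by ring

/-- the set of the large variables -/
def U2 (π : ι → Fin 4) : Finset ι := univ.filter (fun k => π k = 2)

lemma mem_U2 {π : ι → Fin 4} {k : ι} : k ∈ U2 π ↔ π k = 2 := by simp [U2]

/-- the pattern sum -/
noncomputable def PSum (γ : ι → ℕ → ℝ) (L : ι → ι → Bool) (z : ℕ) (A : ℕ) (π : ι → Fin 4)
    (y : ℕ) : ℝ :=
  ∑ d ∈ Fintype.piFinset (fun b => cell z y (VV A (Real.log y)) (YY A (Real.log y)) (π b)),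
    HG γ L d

/-- the unlinked sets -/
def Unl (L : ι → ι → Bool) (U : Finset ι) : Prop := ∀ i ∈ U, ∀ j ∈ U, L i j = L j i

/-- a huge variable -/
lemma tail_case (hB : BdG γ g z C) (A : ℕ) (π : ι → Fin 4) {k : ι}
    (hk : π k = 3) : ∃ C' : ℝ, 0 ≤ C' ∧ ∀ y, z < y → |PSum γ L z A π y| ≤ C' := by
  have hC0 : 0 ≤ C := zero_le_one.trans hB.C1
  refine ⟨C ^ (Fintype.card ι + 1) * (Fintype.card ι + 2).factorial, by positivity, fun y hy => ?_⟩
  have hly := one_le_log hB.z2 hy
  have hly0 : 0 < Real.log y := by linarith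
  unfold PSum
  set l := Real.log y with hl
  set V := VV A l with hV
  set Y := YY A l with hY
  refine (triv hB.wt fun i => cell_sub _ _ _ _ _).trans ?_
  have h1 : ∏ i, ∑ m ∈ cell z y V Y (π i), gq (g i) m ≤
      ∏ i, ∑ m ∈ cell z y V Y (π i), gq (g i) m * hh m := by
    apply prod_le_prod
    · intro i _
      exact sum_nonneg fun m hm => gq_nonneg (hB.wt i) (cell_sub _ _ _ _ _ hm)
    · intro i _
      exact sum_le_sum fun m hm => gq_le_hh hB i (cell_sub _ _ _ _ _ hm)
  refine h1.trans ?_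
  rw [← mul_prod_erase univ _ (mem_univ k), hk]
  have h2 : ∑ m ∈ cell z y V Y 3, gq (g k) m * hh m ≤ C * Real.exp (-l) * l ^ 2 := by
    have hV3 := AT.three_le_VV A l
    have hVY := AT.VV_le_YY A l
    calc ∑ m ∈ cell z y V Y 3, gq (g k) m * hh m
        ≤ ∑ m ∈ (PP z y).divisors.filter (fun d => Y < d), gq (g k) m * hh m := by
          apply sum_le_sum_of_subset_of_nonneg
          · intro m hm
            rw [mem_filter]
            exact ⟨cell_sub _ _ _ _ _ hm, cell_three hm⟩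
          · intro m hm _
            exact gh_nn hB k (mem_filter.1 hm).1
      _ ≤ ∑ m ∈ (PP z y).divisors.filter (fun d => Y < d), gw (1 / 2) 0 m * hh m :=
          sum_le_sum fun m hm => gh_le_half hB k (mem_filter.1 hm).1
      _ ≤ C * Real.exp (-(Real.log Y / Real.log y)) * (Real.log y) ^ 2 :=
          hB.F3 y Y hy (by omega)
      _ ≤ C * Real.exp (-l) * l ^ 2 := by
          apply mul_le_mul_of_nonneg_right _ (by positivity)
          apply mul_le_mul_of_nonneg_left _ hC0
          apply Real.exp_le_exp.2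
          rw [neg_le_neg_iff, le_div_iff₀ hly0]
          have := AT.log_YY_ge A l
          nlinarith
  have h3 : ∏ b ∈ univ.erase k, ∑ m ∈ cell z y V Y (π b), gq (g b) m * hh m ≤
      (C * l) ^ (Fintype.card ι) := by
    have hCl : 1 ≤ C * l := by nlinarith [hB.C1]
    calc _ ≤ ∏ b ∈ univ.erase k, (C * l) := by
          apply prod_le_prod
          · intro b _
            exact sum_nonneg fun m hm => gh_nn hB b (cell_sub _ _ _ _ _ hm)
          · intro b _
            exact cs_any hB hy V Y b (π b)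
      _ = (C * l) ^ (univ.erase k).card := by rw [prod_const]
      _ ≤ _ := by
          apply pow_le_pow_right₀ hCl
          exact (card_le_card (erase_subset _ _)).trans (le_of_eq card_univ)
  have h5 := AT.exp_neg_pow (Fintype.card ι + 2) hly
  calc _ ≤ C * Real.exp (-l) * l ^ 2 * (C * l) ^ (Fintype.card ι) := by
        apply mul_le_mul h2 h3 _ (by positivity)
        exact prod_nonneg fun b _ => sum_nonneg fun m hm => gh_nn hB b (cell_sub _ _ _ _ _ hm)
    _ = C ^ (Fintype.card ι + 1) * (Real.exp (-l) * l ^ (Fintype.card ι + 2)) := by ring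
    _ ≤ C ^ (Fintype.card ι + 1) * (Fintype.card ι + 2).factorial :=
        mul_le_mul_of_nonneg_left h5 (by positivity)

/-- two linked large variables -/
lemma link_case (hB : BdG γ g z C) {C2 : ℝ} {E2 : ℕ} (hC2 : 0 ≤ C2) (h2 : AT.BW C2 E2)
    (hL : ∀ i, L i i = false) {A : ℕ} (hA : 6 * (Fintype.card ι + 2 * E2) ≤ A)
    (π : ι → Fin 4) {i j : ι} (hi : π i = 2) (hj : π j = 2) (hij : L i j ≠ L j i) :
    ∃ C' : ℝ, 0 ≤ C' ∧ ∀ y, z < y → |PSum γ L z A π y| ≤ C' := by
  have hC0 : 0 ≤ C := zero_le_one.trans hB.C1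
  refine ⟨C ^ (Fintype.card ι) * C2 * (A + 3) ^ E2, by positivity, fun y hy => ?_⟩
  have hly := one_le_log hB.z2 hy
  have hly0 : 0 < Real.log y := by linarith
  unfold PSum
  set l := Real.log y with hl
  set V := VV A l with hV
  set Y := YY A l with hY
  have hV3 : 3 ≤ V := AT.three_le_VV A l
  have hVY : V ≤ Y := AT.VV_le_YY A l
  have hne : i ≠ j := by rintro rfl; exact hij rfl
  have hc2 : ∀ b, π b = 2 → cell z y V Y (π b) = lg z y V Y := fun b hb => by
    rw [hb]; exact cell_two (by omega)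
  have hmain : |∑ d ∈ Fintype.piFinset (fun b => cell z y V Y (π b)), HG γ L d| ≤
      (C * l) ^ (Fintype.card ι) * (C2 * (Real.log Y) ^ E2 * (V : ℝ) ^ (-(1 / 6 : ℝ))) := by
    rcases h1 : L i j with _ | _
    · rcases h1' : L j i with _ | _
      · rw [h1, h1'] at hij; exact absurd rfl hij
      · exact pair_case hB hC2 h2 hne.symm (hL j) h1' h1 hy (by omega) hVY
          (fun b => cell_sub _ _ _ _ _) (hc2 j hj) (hc2 i hi)
    · rcases h1' : L j i with _ | _
      · exact pair_case hB hC2 h2 hne (hL i) h1 h1' hy (by omega) hVY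
          (fun b => cell_sub _ _ _ _ _) (hc2 i hi) (hc2 j hj)
      · rw [h1, h1'] at hij; exact absurd rfl hij
  refine hmain.trans ?_
  have h3 : Real.log Y ≤ (A + 3) * l ^ 2 := AT.log_YY_le hly
  have h3' : 0 ≤ Real.log Y := Real.log_natCast_nonneg Y
  have h4 : (V : ℝ) ^ (-(1 / 6 : ℝ)) ≤ (l ^ (Fintype.card ι + 2 * E2))⁻¹ := by
    have h5 : l ^ (6 * (Fintype.card ι + 2 * E2)) ≤ V :=
      (pow_le_pow_right₀ hly hA).trans (AT.VV_ge A l)
    have h6 : (0 : ℝ) < l ^ (6 * (Fintype.card ι + 2 * E2)) := by positivity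
    have h7 : (V : ℝ) ^ (-(1 / 6 : ℝ)) ≤ (l ^ (6 * (Fintype.card ι + 2 * E2))) ^ (-(1 / 6 : ℝ)) :=
      Real.rpow_le_rpow_of_nonpos h6 h5 (by norm_num)
    refine h7.trans (le_of_eq ?_)
    rw [← Real.rpow_natCast l, ← Real.rpow_mul hly0.le, ← Real.rpow_natCast l,
      ← Real.rpow_neg hly0.le]
    congr 1
    push_cast
    ring
  calc (C * l) ^ (Fintype.card ι) * (C2 * (Real.log Y) ^ E2 * (V : ℝ) ^ (-(1 / 6 : ℝ)))
      ≤ (C * l) ^ (Fintype.card ι) * (C2 * ((A + 3) * l ^ 2) ^ E2 *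
          (l ^ (Fintype.card ι + 2 * E2))⁻¹) := by
        apply mul_le_mul_of_nonneg_left _ (by positivity)
        apply mul_le_mul _ h4 (by positivity) (by positivity)
        exact mul_le_mul_of_nonneg_left (pow_le_pow_left₀ h3' h3 _) hC2
    _ = C ^ (Fintype.card ι) * C2 * (A + 3) ^ E2 := by
        rw [mul_pow, mul_pow, ← pow_mul, pow_add]
        field_simp

/-- the lower bound for the sizes -/
lemma Lam_ge {g : ℕ → ℝ} {z y : ℕ} {δ C0 : ℝ}
    (h : δ * Real.log (Real.log y) - C0 ≤ ∑ p ∈ PS z y, g p) (hl : 0 < Real.log y) :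
    Real.exp (-C0) * (Real.log y) ^ δ ≤ Lam g z y := by
  unfold Lam
  rw [Real.rpow_def_of_pos hl, ← Real.exp_add, Real.exp_le_exp]
  linarith

/-- unlinked large variables which do not form a maximal unlinked set: the trivial bound -/
lemma triv_case (hB : BdG γ g z C) (A : ℕ) (π : ι → Fin 4) (h3 : ∀ k, π k ≠ 3) {δ C0 C4 : ℝ}
    (hδ : 0 < δ) {K : ℕ → ℝ} (j : ι)
    (hj : π j ≠ 2) (hlow : ∀ x : ℕ, 3 ≤ x → δ * Real.log (Real.log x) - C0 ≤ ∑ p ∈ PS z x, g j p)
    (hK : ∀ y, z < y → ∏ i ∈ insert j (U2 π), Lam (g i) z y ≤ C4 * K y)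
    (hC4 : 0 ≤ C4) :
    ∃ C' : ℝ, 0 ≤ C' ∧ ∀ y, z < y → |PSum γ L z A π y| ≤ C' * K y := by
  have hC0 : 0 ≤ C := zero_le_one.trans hB.C1
  obtain ⟨C1, hC1, h1⟩ := AT.log_VV_pow_le A (Fintype.card ι) hδ
  refine ⟨C ^ (Fintype.card ι) * C1 * Real.exp C0 * C4, by positivity, fun y hy => ?_⟩
  have hly := one_le_log hB.z2 hy
  have hly0 : 0 < Real.log y := by linarith
  have hLg := Lam_ge (hlow y (by have := hB.z2; omega)) hly0
  unfold PSum
  set l := Real.log y with hl
  set V := VV A l with hV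
  set Y := YY A l with hY
  refine (triv hB.wt fun i => cell_sub _ _ _ _ _).trans ?_
  have e1 : ∏ i, ∑ m ∈ cell z y V Y (π i), gq (g i) m ≤
      ∏ i, ∑ m ∈ cell z y V Y (π i), gq (g i) m * hh m := by
    apply prod_le_prod
    · intro i _
      exact sum_nonneg fun m hm => gq_nonneg (hB.wt i) (cell_sub _ _ _ _ _ hm)
    · intro i _
      exact sum_le_sum fun m hm => gq_le_hh hB i (cell_sub _ _ _ _ _ hm)
  refine e1.trans ((prod_low hB hy (AT.three_le_VV A l) π univ fun k _ => h3 k).trans ?_)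
  have hins := hK y hy
  rw [prod_insert (by rw [mem_U2]; exact hj)] at hins
  set T := ∏ i ∈ U2 π, Lam (g i) z y with hT
  have hT' : ∏ k ∈ univ.filter (fun k => π k = 2), Lam (g k) z y = T := rfl
  rw [hT']
  have hT0 : 0 ≤ T := prod_nonneg fun i _ => (Real.exp_pos _).le
  have h5 : T * l ^ δ ≤ Real.exp C0 * (C4 * K y) := by
    have h6 : Real.exp (-C0) * l ^ δ * T ≤ C4 * K y :=
      (mul_le_mul_of_nonneg_right hLg hT0).trans hins
    have h7 : Real.exp C0 * Real.exp (-C0) = 1 := by rw [← Real.exp_add]; simp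
    calc T * l ^ δ = Real.exp C0 * Real.exp (-C0) * (l ^ δ * T) := by rw [h7]; ring
      _ = Real.exp C0 * (Real.exp (-C0) * l ^ δ * T) := by ring
      _ ≤ _ := mul_le_mul_of_nonneg_left h6 (Real.exp_pos _).le
  calc C ^ (Fintype.card ι) * T * (Real.log V) ^ (Fintype.card ι)
      ≤ C ^ (Fintype.card ι) * T * (C1 * l ^ δ) :=
        mul_le_mul_of_nonneg_left (h1 l hly) (by positivity)
    _ = C ^ (Fintype.card ι) * C1 * (T * l ^ δ) := by ring
    _ ≤ C ^ (Fintype.card ι) * C1 * (Real.exp C0 * (C4 * K y)) :=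
        mul_le_mul_of_nonneg_left h5 (by positivity)
    _ = _ := by ring

/-- all variables are 1 or large and unlinked -/
lemma diag_case (hB : BdG γ g z C) (A : ℕ) (π : ι → Fin 4)
    (h3 : ∀ k, π k = 0 ∨ π k = 2) {K : ℕ → ℝ} {C4 : ℝ}
    (hK : ∀ y, z < y → ∏ i ∈ U2 π, Lam (g i) z y ≤ C4 * K y) (hC4 : 0 ≤ C4) :
    ∃ C' : ℝ, 0 ≤ C' ∧ ∀ y, z < y → |PSum γ L z A π y| ≤ C' * K y := by
  have hC0 : 0 ≤ C := zero_le_one.trans hB.C1
  refine ⟨C ^ (Fintype.card ι) * C4, by positivity, fun y hy => ?_⟩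
  have hly := one_le_log hB.z2 hy
  unfold PSum
  set l := Real.log y with hl
  set V := VV A l with hV
  set Y := YY A l with hY
  refine (triv hB.wt fun i => cell_sub _ _ _ _ _).trans ?_
  have e1 : ∀ k ∈ (univ : Finset ι), ∑ m ∈ cell z y V Y (π k), gq (g k) m ≤
      C * (if π k = 2 then Lam (g k) z y else 1) := by
    intro k _
    rcases h3 k with h | h
    · rw [h, if_neg (by decide)]
      calc ∑ m ∈ cell z y V Y 0, gq (g k) m ≤ ∑ m ∈ ({1} : Finset ℕ), gq (g k) m := by
            apply sum_le_sum_of_subset_of_nonneg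
            · intro m hm
              rw [mem_singleton]
              exact cell_zero hm
            · intro m hm _
              rw [mem_singleton] at hm
              rw [hm, gq_one]
              exact zero_le_one
        _ ≤ C * 1 := by
            rw [sum_singleton, gq_one, mul_one]
            exact hB.C1
    · rw [if_pos h]
      exact (sum_le_sum fun m hm => gq_le_hh hB k (cell_sub _ _ _ _ _ hm)).trans
        (cs_all hB hy V Y k (π k))
  calc ∏ k, ∑ m ∈ cell z y V Y (π k), gq (g k) m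
      ≤ ∏ k, (C * (if π k = 2 then Lam (g k) z y else 1)) := by
        apply prod_le_prod _ e1
        intro k _
        exact sum_nonneg fun m hm => gq_nonneg (hB.wt k) (cell_sub _ _ _ _ _ hm)
    _ = C ^ (Fintype.card ι) * (∏ i ∈ U2 π, Lam (g i) z y) := by
        rw [prod_mul_distrib, prod_const, prod_ite, prod_const_one, mul_one, card_univ]
        rfl
    _ ≤ C ^ (Fintype.card ι) * (C4 * K y) :=
        mul_le_mul_of_nonneg_left (hK y hy) (by positivity)
    _ = _ := by ring

end Pool.Agent.H64.PM
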