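import Mathlib
import Pool.Agent.H64.PM.AG3

/-!
# The abstract bound for linked variables with general weights: a maximal unlinked set of large
variables and a small variable
-/

set_option autoImplicit false
set_option linter.unusedSectionVars false

namespace Pool.Agent.H64.PM

open Finset Pool.Agent.W262.RK
open Pool.Agent.W262.RK.AT (VV YY cell cell_sub cell_zero cell_one cell_two cell_three lg)

lemma tau_le {M : ℕ} {ε1 : ℝ} {z y r : ℕ} (hz : (2 : ℝ) ^ M ≤ (z : ℝ) ^ ε1) (hε : 0 ≤ ε1)
    (hr : r ∈ (PP z y).divisors) : ((r.divisors.card : ℕ) : ℝ) ^ M ≤ (r : ℝ) ^ ε1 := by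
  have hsq := dv_squarefree hr
  have h1 : r.divisors.card = 2 ^ r.primeFactors.card := by
    have h2 := Pool.Agent.W655.RK.sum_divisors r.primeFactors
      (fun p hp => Nat.prime_of_mem_primeFactors hp) (fun _ => 1)
    rw [Nat.prod_primeFactors_of_squarefree hsq] at h2
    simp only [sum_const, nsmul_eq_mul, mul_one, card_powerset] at h2
    exact_mod_cast h2
  rw [h1]
  push_cast
  have h3 : (r : ℝ) = ∏ p ∈ r.primeFactors, (p : ℝ) := by
    conv_lhs => rw [← Nat.prod_primeFactors_of_squarefree hsq]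
    push_cast
    rfl
  rw [h3, ← Real.finsetProd_rpow _ _ (fun i _ => Nat.cast_nonneg _), ← pow_mul, mul_comm, pow_mul,
    ← prod_const]
  refine prod_le_prod (fun _ _ => by positivity) fun p hp => ?_
  have hp1 := (dv_prime hr (Nat.prime_of_mem_primeFactors hp) (Nat.dvd_of_mem_primeFactors hp)).1
  exact hz.trans (Real.rpow_le_rpow (Nat.cast_nonneg _) (by exact_mod_cast hp1.le) hε)

variable {ι : Type} [Fintype ι] [DecidableEq ι]

variable {γ g : ι → ℕ → ℝ} {L : ι → ι → Bool} {z : ℕ} {C : ℝ}

/-- the product of the small variables -/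
def PR (π : ι → Fin 4) (d : ι → ℕ) : ℕ := ∏ b ∈ univ.filter (fun b => π b = 1), d b

lemma lk_pos (L : ι → ι → Bool) (i : ι) {d : ι → ℕ} (hd : ∀ b, 1 ≤ d b) : 1 ≤ lk L i d :=
  Nat.pos_of_ne_zero (prod_ne_zero_iff.2 fun b _ => by have := hd b; omega)

/-- one of the linked products is large -/
lemma exists_large {π : ι → Fin 4} {j0 : ι} (hj0 : π j0 = 1)
    (hmax : ∀ j, π j = 1 → ∃ i, π i = 2 ∧ L i j ≠ L j i) {d : ι → ℕ} (hd : ∀ b, 1 ≤ d b) :
    ∃ i, π i = 2 ∧ PR π d ≤ (lk L i d) ^ Fintype.card ι := by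
  classical
  set S := univ.filter (fun b => π b = 1) with hS
  have hex : ∀ b, ∃ i, b ∈ S → (π i = 2 ∧ L i b ≠ L b i) := by
    intro b
    by_cases h : b ∈ S
    · obtain ⟨i, hi⟩ := hmax b (mem_filter.1 h).2
      exact ⟨i, fun _ => hi⟩
    · exact ⟨b, fun h' => absurd h' h⟩
  choose φ hφ using hex
  have hmaps : ∀ b ∈ S, φ b ∈ U2 π := fun b hb => mem_U2.2 (hφ b hb).1
  have h1 : PR π d ≤ ∏ i ∈ U2 π, lk L i d := by
    unfold PR
    rw [← hS, ← prod_fiberwise_of_maps_to hmaps]
    refine prod_le_prod' fun i _ => ?_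
    unfold lk
    refine prod_le_prod_of_subset_of_one_le' ?_ fun b _ _ => hd b
    intro b hb
    rw [mem_filter] at hb
    have h2 := hφ b hb.1
    rw [hb.2] at h2
    rw [mem_filter, mem_erase]
    refine ⟨⟨?_, mem_univ _⟩, h2.2⟩
    rintro rfl
    exact h2.2 rfl
  have hne : (U2 π).Nonempty := by
    obtain ⟨i, hi, _⟩ := hmax j0 hj0
    exact ⟨i, mem_U2.2 hi⟩
  obtain ⟨i, hi, hmx⟩ := exists_max_image (U2 π) (fun i => lk L i d) hne
  refine ⟨i, mem_U2.1 hi, h1.trans ?_⟩
  calc ∏ i ∈ U2 π, lk L i d ≤ ∏ _k ∈ U2 π, lk L i d := prod_le_prod' fun k hk => hmx k hk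
    _ = (lk L i d) ^ (U2 π).card := by rw [prod_const]
    _ ≤ _ := Nat.pow_le_pow_right (lk_pos L i hd)
        ((card_le_card (subset_univ _)).trans (le_of_eq card_univ))

/-- the choice of the variable -/
def prd (L : ι → ι → Bool) (π : ι → Fin 4) (d : ι → ℕ) (i : ι) : Prop :=
  π i = 2 ∧ PR π d ≤ (lk L i d) ^ Fintype.card ι

lemma prd_update {π : ι → Fin 4} (hun : ∀ i k, π i = 2 → π k = 2 → L i k = L k i)
    {i : ι} (hi : π i = 2) (e : ι → ℕ) (m : ℕ) :
    prd L π (Function.update e i m) = prd L π e := by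
  funext i'
  unfold prd
  by_cases hi' : π i' = 2
  · have h1 : PR π (Function.update e i m) = PR π e := by
      unfold PR
      refine prod_congr rfl fun b hb => ?_
      rw [Function.update_of_ne]
      rintro rfl
      rw [mem_filter, hi] at hb
      exact absurd hb.2 (by decide)
    have h2 : lk L i' (Function.update e i m) = lk L i' e := by
      unfold lk
      refine prod_congr rfl fun b hb => ?_
      rw [Function.update_of_ne]
      rintro rfl
      exact (mem_filter.1 hb).2 (hun i' b hi' hi)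
    rw [h1, h2]
  · apply propext
    constructor
    · rintro ⟨h, _⟩; exact absurd h hi'
    · rintro ⟨h, _⟩; exact absurd h hi'

/-- the conductors -/
noncomputable def RC (z y A M : ℕ) : Finset ℕ :=
  (PP z y).divisors.filter (fun r => 1 < r ∧ r ≤ (VV A (Real.log y)) ^ M)

open Classical in
/-- the sum over the small variables -/
lemma small_sum (hB : BdG γ g z C) {A : ℕ} {π : ι → Fin 4} (h3 : ∀ k, π k ≠ 3)
    (hun : ∀ i k, π i = 2 → π k = 2 → L i k = L k i) {i : ι} (hi : π i = 2)
    {j0 : ι} (hj0 : π j0 = 1) {η Cη : ℝ} (hη : 0 < η)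
    (hCη : ∀ S : Finset ℕ, ∑ m ∈ S, (1 / (m : ℝ)) * (m : ℝ) ^ (-η) ≤ Cη) {y : ℕ} (hy : z < y) :
    ∑ e ∈ (Fintype.piFinset (Function.update (fun b => cell z y (VV A (Real.log y))
        (YY A (Real.log y)) (π b)) i {1})).filter (fun e => prd L π e i ∧
          ∀ a b, a ≠ i → b ≠ i → a ≠ b → (e a).Coprime (e b)),
      (∏ b ∈ univ.erase i, gq (g b) (e b) * hh (e b)) * EE (g i) (γ i) z y (lk L i e) ≤
    (C + Cη + 1) ^ (Fintype.card ι) * (∏ b ∈ (U2 π).erase i, Lam (g b) z y) *
      ∑ r ∈ RC z y A (Fintype.card ι), ((r.divisors.card : ℕ) : ℝ) ^ (Fintype.card ι) *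
        ((r : ℝ) ^ (-1 + Fintype.card ι * η) * EE (g i) (γ i) z y r) := by
  classical
  set M := Fintype.card ι with hM
  set l := Real.log y with hl
  set V := VV A l with hV
  set Y := YY A l with hY
  set t : ι → Finset ℕ := fun b => cell z y V Y (π b) with ht
  set B := (univ.erase i).filter (fun b => L i b ≠ L b i) with hBd
  set φ : ι → ℕ → ℝ := fun b m => gq (g b) m * hh m * (if π b = 1 then (m : ℝ) ^ (-η) else 1)
    with hφ
  set f : ℕ → ι → ℕ → ℝ := fun r b m => if L i b ≠ L b i then (if m ∣ r then 1 else 0) else φ b m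
    with hf
  set H : ℕ → ℝ := fun r => (r : ℝ) ^ (-1 + M * η) * EE (g i) (γ i) z y r with hH
  have hC0 : 0 ≤ C := zero_le_one.trans hB.C1
  have hCη0 : 0 ≤ Cη := by have := hCη ∅; simpa using this
  have hH0 : ∀ r, 0 ≤ H r := fun r => mul_nonneg (by positivity) (EE_pos _ _ _ _ _).le
  have htd : ∀ b, t b ⊆ (PP z y).divisors := fun b => cell_sub _ _ _ _ _
  have hφ0 : ∀ b, ∀ m ∈ t b, 0 ≤ φ b m := by
    intro b m hm
    refine mul_nonneg (gh_nn hB b (htd b hm)) ?_
    split_ifs
    · positivity
    · exact zero_le_one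
  have hf0 : ∀ r b, ∀ m ∈ t b, 0 ≤ f r b m := by
    intro r b m hm
    simp only [hf]
    split_ifs
    · exact zero_le_one
    · exact le_rfl
    · exact hφ0 b m hm
  -- the pointwise bound
  have hpt : ∀ e ∈ (Fintype.piFinset (Function.update t i {1})).filter (fun e => prd L π e i ∧
      ∀ a b, a ≠ i → b ≠ i → a ≠ b → (e a).Coprime (e b)),
      (∏ b ∈ univ.erase i, gq (g b) (e b) * hh (e b)) * EE (g i) (γ i) z y (lk L i e) ≤
      ∑ r ∈ RC z y A M, H r * ∏ b ∈ univ.erase i, f r b (e b) := by
    intro e he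
    rw [mem_filter] at he
    obtain ⟨he, hprd, hcop⟩ := he
    have hmem : ∀ b, b ≠ i → e b ∈ t b := by
      intro b hb
      have := Fintype.mem_piFinset.1 he b
      rwa [Function.update_of_ne hb] at this
    have hei : e i = 1 := by
      have := Fintype.mem_piFinset.1 he i
      rwa [Function.update_self, mem_singleton] at this
    have hdiv : ∀ b, e b ∈ (PP z y).divisors := by
      intro b
      by_cases hb : b = i
      · rw [hb, hei]; exact one_mem_dv z y
      · exact htd b (hmem b hb)
    have hpos : ∀ b, 1 ≤ e b := fun b => dv_pos (hdiv b)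
    set r0 := lk L i e with hr0
    have hr0pos : 1 ≤ r0 := lk_pos L i hpos
    have hP1 : 1 < PR π e := by
      have hj : j0 ∈ univ.filter (fun b => π b = 1) := mem_filter.2 ⟨mem_univ _, hj0⟩
      have hji : j0 ≠ i := by rintro rfl; rw [hi] at hj0; exact absurd hj0 (by decide)
      have h1 : 1 < e j0 := by
        have := hmem j0 hji
        simp only [ht, hj0] at this
        exact (cell_one this).1
      unfold PR
      rw [← mul_prod_erase _ _ hj]
      have h2 : 1 ≤ ∏ b ∈ (univ.filter (fun b => π b = 1)).erase j0, e b :=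
        Nat.pos_of_ne_zero (prod_ne_zero_iff.2 fun b _ => by have := hpos b; omega)
      nlinarith
    have hr1 : 1 < r0 := by
      rcases Nat.lt_or_ge 1 r0 with h | h
      · exact h
      · have h2 : r0 = 1 := by omega
        have h4 : PR π e ≤ r0 ^ M := hprd.2
        rw [h2, one_pow] at h4
        omega
    have hBs : ∀ b ∈ B, π b = 0 ∨ π b = 1 := by
      intro b hb
      rw [hBd, mem_filter] at hb
      exact small_or (fun h => hb.2 (hun i b hi h)) (h3 b)
    have hrV : r0 ≤ V ^ M := by
      have h1 : ∀ b ∈ B, e b ≤ V := by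
        intro b hb
        have hbi : b ≠ i := by
          rw [hBd, mem_filter, mem_erase] at hb
          exact hb.1.1
        have h2 := hmem b hbi
        rcases hBs b hb with h | h
        · simp only [ht, h] at h2
          rw [cell_zero h2]
          have := AT.three_le_VV A l
          omega
        · simp only [ht, h] at h2
          exact (cell_one h2).2
      calc r0 = ∏ b ∈ B, e b := rfl
        _ ≤ ∏ _b ∈ B, V := prod_le_prod' h1
        _ = V ^ B.card := by rw [prod_const]
        _ ≤ V ^ M := Nat.pow_le_pow_right (by have := AT.three_le_VV A l; omega)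
            ((card_le_card (subset_univ _)).trans (le_of_eq card_univ))
    have hrd : r0 ∣ PP z y := by
      apply Finset.prod_dvd_of_isRelPrime
      · intro a ha b hb hab
        have ha' := mem_erase.1 (mem_filter.1 (mem_coe.1 ha)).1
        have hb' := mem_erase.1 (mem_filter.1 (mem_coe.1 hb)).1
        exact Nat.coprime_iff_isRelPrime.1 (hcop a b ha'.1 hb'.1 hab)
      · intro b _
        exact Nat.dvd_of_mem_divisors (hdiv b)
    have hrR : r0 ∈ RC z y A M := by
      unfold RC
      rw [mem_filter, Nat.mem_divisors]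
      exact ⟨⟨hrd, PP_ne_zero z y⟩, hr1, hrV⟩
    have hterm : ∀ r ∈ RC z y A M, 0 ≤ H r * ∏ b ∈ univ.erase i, f r b (e b) := by
      intro r _
      refine mul_nonneg (hH0 r) (prod_nonneg fun b hb => ?_)
      exact hf0 r b _ (hmem b (mem_erase.1 hb).1)
    refine le_trans ?_ (single_le_sum hterm hrR)
    -- the values of `f`
    have hfv : ∏ b ∈ univ.erase i, f r0 b (e b) =
        ∏ b ∈ (univ.erase i).filter (fun b => ¬ L i b ≠ L b i), φ b (e b) := by
      rw [prod_filter]
      refine prod_congr rfl fun b hb => ?_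
      by_cases h : L i b ≠ L b i
      · have hdv : e b ∣ r0 := dvd_prod_of_mem e (mem_filter.2 ⟨hb, h⟩)
        simp [hf, h, hdv]
      · simp [hf, h]
    have hFs : ∏ b ∈ univ.erase i, gq (g b) (e b) * hh (e b) =
        (∏ b ∈ B, gq (g b) (e b) * hh (e b)) *
          ∏ b ∈ (univ.erase i).filter (fun b => ¬ L i b ≠ L b i), gq (g b) (e b) * hh (e b) :=
      (prod_filter_mul_prod_filter_not _ _ _).symm
    have hBle : ∏ b ∈ B, gq (g b) (e b) * hh (e b) ≤ 1 / (r0 : ℝ) := by
      have h1 : (1 : ℝ) / r0 = ∏ b ∈ B, 1 / (e b : ℝ) := by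
        have : (r0 : ℝ) = ∏ b ∈ B, (e b : ℝ) := by
          rw [hr0]
          unfold lk
          push_cast
          rfl
        rw [this, prod_div_distrib, prod_const_one]
      rw [h1]
      exact prod_le_prod (fun b _ => gh_nn hB b (hdiv b)) fun b _ => gq_hh_le (hB.wt b) (hdiv b)
    set A' := (univ.erase i).filter (fun b => ¬ L i b ≠ L b i) with hA'
    have hA0 : 0 ≤ ∏ b ∈ A', gq (g b) (e b) * hh (e b) :=
      prod_nonneg fun b _ => gh_nn hB b (hdiv b)
    have hr0r : (1 : ℝ) ≤ r0 := by exact_mod_cast hr0pos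
    have hφA : ∏ b ∈ A', gq (g b) (e b) * hh (e b) ≤
        (r0 : ℝ) ^ ((M : ℝ) * η) * ∏ b ∈ A', φ b (e b) := by
      simp only [hφ]
      rw [prod_mul_distrib (f := fun b => gq (g b) (e b) * hh (e b))]
      have h1 : 1 ≤ (r0 : ℝ) ^ ((M : ℝ) * η) *
          ∏ b ∈ A', (if π b = 1 then (e b : ℝ) ^ (-η) else 1) := by
        have h2 : ∏ b ∈ A', (if π b = 1 then (e b : ℝ) ^ (-η) else 1) =
            ((∏ b ∈ A'.filter (fun b => π b = 1), e b : ℕ) : ℝ) ^ (-η) := by
          rw [← prod_filter]
          push_cast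
          rw [Real.finsetProd_rpow _ _ (fun i _ => Nat.cast_nonneg _)]
        have h4 : ∏ b ∈ A'.filter (fun b => π b = 1), e b ≤ r0 ^ M := by
          refine le_trans ?_ hprd.2
          unfold PR
          refine prod_le_prod_of_subset_of_one_le' ?_ fun b _ _ => hpos b
          intro b hb
          rw [mem_filter] at hb ⊢
          exact ⟨mem_univ _, hb.2⟩
        have h5 : 1 ≤ ∏ b ∈ A'.filter (fun b => π b = 1), e b :=
          Nat.pos_of_ne_zero (prod_ne_zero_iff.2 fun b _ => by have := hpos b; omega)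
        rw [h2, Real.rpow_mul (by linarith), Real.rpow_natCast]
        set Q := ∏ b ∈ A'.filter (fun b => π b = 1), e b with hQ
        have h6 : (Q : ℝ) ≤ (r0 : ℝ) ^ M := by exact_mod_cast h4
        have h7 : (0 : ℝ) < Q := by exact_mod_cast h5
        rw [Real.rpow_neg h7.le]
        have h8 : (Q : ℝ) ^ η ≤ ((r0 : ℝ) ^ M) ^ η := Real.rpow_le_rpow h7.le h6 hη.le
        have h9 : 0 < (Q : ℝ) ^ η := by positivity
        rw [← div_eq_mul_inv, one_le_div h9]
        exact h8
      calc ∏ b ∈ A', gq (g b) (e b) * hh (e b)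
          ≤ (∏ b ∈ A', gq (g b) (e b) * hh (e b)) * ((r0 : ℝ) ^ ((M : ℝ) * η) *
            ∏ b ∈ A', (if π b = 1 then (e b : ℝ) ^ (-η) else 1)) := le_mul_of_one_le_right hA0 h1
        _ = _ := by ring
    have hEE := (EE_pos (g i) (γ i) z y r0).le
    rw [hfv, hFs]
    calc (∏ b ∈ B, gq (g b) (e b) * hh (e b)) * (∏ b ∈ A', gq (g b) (e b) * hh (e b)) *
          EE (g i) (γ i) z y r0
        ≤ (1 / (r0 : ℝ)) * ((r0 : ℝ) ^ ((M : ℝ) * η) * ∏ b ∈ A', φ b (e b)) *
          EE (g i) (γ i) z y r0 := by
          apply mul_le_mul_of_nonneg_right _ hEE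
          exact mul_le_mul hBle hφA hA0 (by positivity)
      _ = H r0 * ∏ b ∈ A', φ b (e b) := by
          simp only [hH]
          rw [Real.rpow_add (by linarith), Real.rpow_neg_one, one_div]
          ring
  -- the sum over one variable
  have hone : ∀ r ∈ RC z y A M, ∀ b ∈ univ.erase i, ∑ m ∈ t b, f r b m ≤
      (C + Cη + 1) * ((r.divisors.card : ℕ) : ℝ) * (if π b = 2 then Lam (g b) z y else 1) := by
    intro r hr b hb
    have hbi := (mem_erase.1 hb).1
    have hr0 : r ≠ 0 := by
      unfold RC at hr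
      rw [mem_filter] at hr
      omega
    have hτ : (1 : ℝ) ≤ ((r.divisors.card : ℕ) : ℝ) := by
      have : 0 < r.divisors.card := card_pos.2 ⟨1, Nat.one_mem_divisors.2 hr0⟩
      exact_mod_cast this
    have hLam0 : 0 < Lam (g b) z y := Real.exp_pos _
    have key : ∀ x : ℝ, 0 ≤ x → x ≤ C + Cη + 1 → x ≤ (C + Cη + 1) * ((r.divisors.card : ℕ) : ℝ) :=
      fun x h1 h2 => h2.trans (le_mul_of_one_le_right (by linarith) hτ)
    by_cases h : L i b ≠ L b i
    · have hπ : π b ≠ 2 := fun h' => h (hun i b hi h')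
      rw [if_neg hπ, mul_one]
      have h1 : ∑ m ∈ t b, f r b m = (((t b).filter (fun m => m ∣ r)).card : ℝ) := by
        have : ∀ m ∈ t b, f r b m = if m ∣ r then 1 else 0 := fun m _ => by simp [hf, h]
        rw [sum_congr rfl this, ← sum_filter, sum_const, nsmul_eq_mul, mul_one]
      rw [h1]
      have h2 : (t b).filter (fun m => m ∣ r) ⊆ r.divisors := by
        intro m hm
        exact Nat.mem_divisors.2 ⟨(mem_filter.1 hm).2, hr0⟩
      have h4 : (((t b).filter (fun m => m ∣ r)).card : ℝ) ≤ ((r.divisors.card : ℕ) : ℝ) := by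
        exact_mod_cast card_le_card h2
      refine h4.trans (le_mul_of_one_le_left (by linarith) (by linarith))
    · have h1 : ∀ m ∈ t b, f r b m = φ b m := fun m _ => by simp [hf, h]
      rw [sum_congr rfl h1]
      by_cases h2 : π b = 2
      · rw [if_pos h2]
        have h4 : ∑ m ∈ t b, φ b m ≤ C * Lam (g b) z y := by
          have h5 : ∀ m ∈ t b, φ b m = gq (g b) m * hh m := fun m _ => by
            simp only [hφ, h2]
            rw [if_neg (by decide), mul_one]
          rw [sum_congr rfl h5]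
          exact cs_all hB hy V Y b (π b)
        refine h4.trans (mul_le_mul_of_nonneg_right ?_ hLam0.le)
        exact key C hC0 (by linarith)
      · rw [if_neg h2, mul_one]
        rcases small_or h2 (h3 b) with h4 | h4
        · have h5 : ∑ m ∈ t b, φ b m ≤ 1 := by
            have h6 : ∀ m ∈ t b, φ b m = gq (g b) m * hh m := fun m _ => by
              simp only [hφ, h4]
              rw [if_neg (by decide), mul_one]
            rw [sum_congr rfl h6]
            calc ∑ m ∈ t b, gq (g b) m * hh m ≤ ∑ m ∈ ({1} : Finset ℕ), gq (g b) m * hh m := by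
                  apply sum_le_sum_of_subset_of_nonneg
                  · intro m hm
                    rw [mem_singleton]
                    simp only [ht, h4] at hm
                    exact cell_zero hm
                  · intro m hm _
                    rw [mem_singleton] at hm
                    rw [hm, gq_one, hh_one]
                    norm_num
              _ = 1 := by rw [sum_singleton, gq_one, hh_one, mul_one]
          refine h5.trans (key 1 zero_le_one (by linarith))
        · have h5 : ∑ m ∈ t b, φ b m ≤ Cη := by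
            refine le_trans ?_ (hCη (t b))
            refine sum_le_sum fun m hm => ?_
            simp only [hφ, h4, if_true]
            exact mul_le_mul_of_nonneg_right (gq_hh_le (hB.wt b) (htd b hm)) (by positivity)
          refine h5.trans (key Cη hCη0 (by linarith))
  have hLamE : ∏ b ∈ univ.erase i, (if π b = 2 then Lam (g b) z y else 1) =
      ∏ b ∈ (U2 π).erase i, Lam (g b) z y := by
    rw [← prod_filter]
    refine prod_congr ?_ fun _ _ => rfl
    ext b
    simp only [mem_filter, mem_erase, mem_univ, and_true, mem_U2]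
  have hLamE0 : 0 ≤ ∏ b ∈ (U2 π).erase i, Lam (g b) z y :=
    prod_nonneg fun b _ => (Real.exp_pos _).le
  calc _ ≤ ∑ e ∈ (Fintype.piFinset (Function.update t i {1})).filter (fun e => prd L π e i ∧
          ∀ a b, a ≠ i → b ≠ i → a ≠ b → (e a).Coprime (e b)),
          ∑ r ∈ RC z y A M, H r * ∏ b ∈ univ.erase i, f r b (e b) := sum_le_sum hpt
    _ ≤ ∑ e ∈ Fintype.piFinset (Function.update t i {1}),
          ∑ r ∈ RC z y A M, H r * ∏ b ∈ univ.erase i, f r b (e b) := by
        refine sum_le_sum_of_subset_of_nonneg (filter_subset _ _) fun e he _ => ?_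
        refine sum_nonneg fun r _ => mul_nonneg (hH0 r) (prod_nonneg fun b hb => ?_)
        have hbi := (mem_erase.1 hb).1
        have := Fintype.mem_piFinset.1 he b
        rw [Function.update_of_ne hbi] at this
        exact hf0 r b _ this
    _ = ∑ r ∈ RC z y A M, H r * ∏ b ∈ univ.erase i, ∑ m ∈ t b, f r b m := by
        rw [sum_comm]
        refine sum_congr rfl fun r _ => ?_
        rw [← mul_sum, AT.sum_others i t (f r)]
    _ ≤ ∑ r ∈ RC z y A M, H r * (((C + Cη + 1) * ((r.divisors.card : ℕ) : ℝ)) ^ M *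
          ∏ b ∈ (U2 π).erase i, Lam (g b) z y) := by
        refine sum_le_sum fun r hr => mul_le_mul_of_nonneg_left ?_ (hH0 r)
        have hr0 : r ≠ 0 := by
          unfold RC at hr
          rw [mem_filter] at hr
          omega
        have hτ : (1 : ℝ) ≤ ((r.divisors.card : ℕ) : ℝ) := by
          have : 0 < r.divisors.card := card_pos.2 ⟨1, Nat.one_mem_divisors.2 hr0⟩
          exact_mod_cast this
        have hx1 : 1 ≤ (C + Cη + 1) * ((r.divisors.card : ℕ) : ℝ) := by nlinarith
        calc ∏ b ∈ univ.erase i, ∑ m ∈ t b, f r b m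
            ≤ ∏ b ∈ univ.erase i, ((C + Cη + 1) * ((r.divisors.card : ℕ) : ℝ) *
                (if π b = 2 then Lam (g b) z y else 1)) := by
              refine prod_le_prod (fun b hb => ?_) (hone r hr)
              exact sum_nonneg fun m hm => hf0 r b m hm
          _ = ((C + Cη + 1) * ((r.divisors.card : ℕ) : ℝ)) ^ (univ.erase i).card *
                ∏ b ∈ (U2 π).erase i, Lam (g b) z y := by
              rw [prod_mul_distrib, prod_const, hLamE]
          _ ≤ _ := by
              apply mul_le_mul_of_nonneg_right _ hLamE0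
              exact pow_le_pow_right₀ hx1 ((card_le_card (erase_subset _ _)).trans
                (le_of_eq card_univ))
    _ = _ := by
        rw [mul_sum]
        refine sum_congr rfl fun r _ => ?_
        rw [mul_pow]
        simp only [hH]
        ring

/-- the sum over the conductors is bounded -/
def LSb (g γ : ι → ℕ → ℝ) (z A : ℕ) (η C5 : ℝ) : Prop := ∀ (i : ι) (y : ℕ), z < y →
  ∑ r ∈ RC z y A (Fintype.card ι), ((r.divisors.card : ℕ) : ℝ) ^ (Fintype.card ι) *
        ((r : ℝ) ^ (-1 + Fintype.card ι * η) * EE (g i) (γ i) z y r) ≤ C5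

/-- maximal unlinked large variables and a small variable different from 1 -/
lemma max_case (hB : BdG γ g z C) (hL : ∀ i, L i i = false) {A : ℕ} {π : ι → Fin 4}
    (h3 : ∀ k, π k ≠ 3) (hun : ∀ i k, π i = 2 → π k = 2 → L i k = L k i) {j0 : ι}
    (hj0 : π j0 = 1) (hmax : ∀ j, π j = 1 → ∃ i, π i = 2 ∧ L i j ≠ L j i) {δ C0 C4 : ℝ}
    (hδ : 0 < δ) {K : ℕ → ℝ}
    (hlow : ∀ i, ∀ x : ℕ, 3 ≤ x → δ * Real.log (Real.log x) - C0 ≤ ∑ p ∈ PS z x, g i p)
    (hK : ∀ y, z < y → ∏ i ∈ U2 π, Lam (g i) z y ≤ C4 * K y)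
    {η C5 : ℝ} (hη : 0 < η) (hls : LSb g γ z A η C5) :
    ∃ C' : ℝ, ∀ y, z < y → |PSum γ L z A π y| ≤ C' * K y := by
  classical
  have : Nonempty ι := ⟨j0⟩
  have hC0 : 0 ≤ C := zero_le_one.trans hB.C1
  set M := Fintype.card ι with hM
  obtain ⟨Cη, hCη⟩ : ∃ Cη : ℝ, ∀ S : Finset ℕ, ∑ m ∈ S, (1 / (m : ℝ)) * (m : ℝ) ^ (-η) ≤ Cη := by
    have hs : Summable (fun m : ℕ => 1 / (m : ℝ) ^ (1 + η)) :=
      Real.summable_one_div_nat_rpow.2 (by linarith)
    refine ⟨∑' m : ℕ, 1 / (m : ℝ) ^ (1 + η), fun S => ?_⟩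
    refine le_trans (sum_le_sum fun m _ => ?_) (hs.sum_le_tsum S fun m _ => by positivity)
    rcases Nat.eq_zero_or_pos m with h | h
    · subst h
      have : (0 : ℝ) ≤ 1 / ((0 : ℕ) : ℝ) ^ (1 + η) := by positivity
      simpa using this
    · have h1 : (0 : ℝ) < m := by exact_mod_cast h
      rw [Real.rpow_add h1, Real.rpow_one, Real.rpow_neg h1.le]
      refine le_of_eq ?_
      field_simp
  have hCη0 : 0 ≤ Cη := by have := hCη ∅; simpa using this
  obtain ⟨C1, hC1, h1⟩ := AT.log_VV_pow_le A (M + 1) hδ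
  obtain ⟨i1, hi1, _⟩ := hmax j0 hj0
  -- the constant for one `i`
  set Ca : ℝ := (C + Cη + 1) ^ M * |C5| with hCa
  set Cb : ℝ := C ^ M * (C * 3) * C1 * Real.exp C0 with hCb
  have hCa0 : 0 ≤ Ca := by positivity
  have hCb0 : 0 ≤ Cb := by positivity
  refine ⟨(U2 π).card * ((Ca + Cb) * C4), fun y hy => ?_⟩
  have hly := one_le_log hB.z2 hy
  have hly0 : 0 < Real.log y := by linarith
  unfold PSum
  set l := Real.log y with hl
  set V := VV A l with hV
  set Y := YY A l with hY
  have hV3 : 3 ≤ V := AT.three_le_VV A l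
  have hVY : V ≤ Y := AT.VV_le_YY A l
  have hlV : 1 ≤ Real.log V := AT.one_le_log_VV A l
  set t : ι → Finset ℕ := fun b => cell z y V Y (π b) with ht
  have htd : ∀ b, t b ⊆ (PP z y).divisors := fun b => cell_sub _ _ _ _ _
  set ch : (ι → ℕ) → ι := fun d => Classical.epsilon (prd L π d) with hch
  have hch1 : ∀ d : ι → ℕ, (∀ b, 1 ≤ d b) → prd L π d (ch d) := fun d hd =>
    Classical.epsilon_spec (exists_large hj0 hmax hd)
  have hmaps : ∀ d ∈ Fintype.piFinset t, ch d ∈ U2 π := by
    intro d hd
    rw [mem_U2]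
    exact (hch1 d fun b => dv_pos (htd b (Fintype.mem_piFinset.1 hd b))).1
  have hTn : 0 ≤ ∏ i ∈ U2 π, Lam (g i) z y := prod_nonneg fun i _ => (Real.exp_pos _).le
  -- the bound for one `i`
  have hone : ∀ i ∈ U2 π, |∑ d ∈ (Fintype.piFinset t).filter (fun d => ch d = i), HG γ L d| ≤
      (Ca + Cb) * ∏ i ∈ U2 π, Lam (g i) z y := by
    intro i hiU
    have hi := mem_U2.1 hiU
    have hchu : ∀ (e : ι → ℕ) (m : ℕ), ch (Function.update e i m) = ch e := by
      intro e m
      simp only [hch]
      rw [prd_update hun hi]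
    rw [sum_filter, sum_update t i]
    have hti : t i = lg z y V Y := by
      simp only [ht, hi]
      exact cell_two (by omega)
    have hLi : 0 < Lam (g i) z y := Real.exp_pos _
    set W : ℝ := C * Real.log V + C * Real.exp (-(Real.log Y / Real.log y)) * (Real.log y) ^ 2
      with hW
    have hW0 : 0 ≤ W := by positivity
    have hstep : ∀ e ∈ Fintype.piFinset (Function.update t i {1}),
        |∑ m ∈ t i, (if ch (Function.update e i m) = i then HG γ L (Function.update e i m) else 0)| ≤
        (if (prd L π e i ∧ ∀ a b, a ≠ i → b ≠ i → a ≠ b → (e a).Coprime (e b)) then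
          (∏ b ∈ univ.erase i, gq (g b) (e b) * hh (e b)) * EE (g i) (γ i) z y (lk L i e) else 0) *
            Lam (g i) z y + (∏ b ∈ univ.erase i, gq (g b) (e b) * hh (e b)) * W := by
      intro e he
      have hdiv : ∀ b, e b ∈ (PP z y).divisors := by
        intro b
        have := Fintype.mem_piFinset.1 he b
        by_cases hb : b = i
        · subst hb
          rw [Function.update_self, mem_singleton] at this
          rw [this]
          exact one_mem_dv z y
        · rw [Function.update_of_ne hb] at this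
          exact htd b this
      have hFn : 0 ≤ ∏ b ∈ univ.erase i, gq (g b) (e b) * hh (e b) :=
        prod_nonneg fun b _ => gh_nn hB b (hdiv b)
      have hEn := (EE_pos (g i) (γ i) z y (lk L i e)).le
      have hn1 : 0 ≤ (if (prd L π e i ∧ ∀ a b, a ≠ i → b ≠ i → a ≠ b → (e a).Coprime (e b)) then
          (∏ b ∈ univ.erase i, gq (g b) (e b) * hh (e b)) * EE (g i) (γ i) z y (lk L i e) else 0) *
            Lam (g i) z y + (∏ b ∈ univ.erase i, gq (g b) (e b) * hh (e b)) * W := by
        have : 0 ≤ (if (prd L π e i ∧ ∀ a b, a ≠ i → b ≠ i → a ≠ b → (e a).Coprime (e b)) then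
          (∏ b ∈ univ.erase i, gq (g b) (e b) * hh (e b)) * EE (g i) (γ i) z y (lk L i e)
            else 0) := by
          split_ifs
          · positivity
          · exact le_rfl
        positivity
      simp only [hchu]
      by_cases hc : ch e = i
      · simp only [hc, if_true]
        rcases HG_update (γ := γ) i (hL i) hB.z2 hdiv with h0 | ⟨hcop, _⟩
        · rw [sum_eq_zero fun m _ => h0 m, abs_zero]
          exact hn1
        · have hp : prd L π e i := by
            have := hch1 e fun b => dv_pos (hdiv b)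
            rwa [hc] at this
          rw [if_pos ⟨hp, hcop⟩, hti]
          refine (inner hB i (hL i) hy hV3 hVY hdiv).trans (le_of_eq ?_)
          rw [hW]
          ring
      · simp only [hc, if_false, sum_const_zero, abs_zero]
        exact hn1
    refine (abs_sum_le_sum_abs _ _).trans ((sum_le_sum hstep).trans ?_)
    rw [sum_add_distrib, ← sum_mul, ← sum_mul, ← sum_filter]
    have hs1 := small_sum (L := L) hB (A := A) h3 hun hi hj0 hη hCη hy
    have hs2 := hls i y hy
    have hU : (∏ b ∈ (U2 π).erase i, Lam (g b) z y) * Lam (g i) z y =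
        ∏ i ∈ U2 π, Lam (g i) z y := prod_erase_mul (U2 π) (fun b => Lam (g b) z y) hiU
    have hUn : 0 ≤ ∏ b ∈ (U2 π).erase i, Lam (g b) z y := prod_nonneg fun b _ => (Real.exp_pos _).le
    have hp1 : (∑ e ∈ (Fintype.piFinset (Function.update t i {1})).filter (fun e => prd L π e i ∧
          ∀ a b, a ≠ i → b ≠ i → a ≠ b → (e a).Coprime (e b)),
        (∏ b ∈ univ.erase i, gq (g b) (e b) * hh (e b)) * EE (g i) (γ i) z y (lk L i e)) *
        Lam (g i) z y ≤ Ca * ∏ i ∈ U2 π, Lam (g i) z y := by
      calc _ ≤ ((C + Cη + 1) ^ M * (∏ b ∈ (U2 π).erase i, Lam (g b) z y) * |C5|) *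
            Lam (g i) z y := by
            apply mul_le_mul_of_nonneg_right _ hLi.le
            refine hs1.trans ?_
            exact mul_le_mul_of_nonneg_left (hs2.trans (le_abs_self _)) (by positivity)
        _ = Ca * ((∏ b ∈ (U2 π).erase i, Lam (g b) z y) * Lam (g i) z y) := by
            rw [hCa]; ring
        _ = _ := by rw [hU]
    have hp2 : (∑ e ∈ Fintype.piFinset (Function.update t i {1}),
        ∏ b ∈ univ.erase i, gq (g b) (e b) * hh (e b)) * W ≤ Cb * ∏ i ∈ U2 π, Lam (g i) z y := by
      rw [AT.sum_others i t (fun b m => gq (g b) m * hh m)]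
      have hPL := prod_low hB hy (V := V) (Y := Y) hV3 π (univ.erase i) fun k _ => h3 k
      have hfil : (univ.erase i).filter (fun k => π k = 2) = (U2 π).erase i := by
        ext k
        simp only [mem_filter, mem_erase, mem_univ, and_true, mem_U2]
      rw [hfil] at hPL
      have hlY : l ≤ Real.log Y / l := by
        rw [le_div_iff₀ hly0]
        have := AT.log_YY_ge A l
        nlinarith
      have hbr : W ≤ (C * 3) * Real.log V := by
        have e3 : Real.exp (-(Real.log Y / l)) * l ^ 2 ≤ 2 := by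
          have a1 : Real.exp (-(Real.log Y / l)) ≤ Real.exp (-l) := Real.exp_le_exp.2 (by linarith)
          have a2 := AT.exp_neg_pow 2 hly
          have a3 : ((Nat.factorial 2 : ℕ) : ℝ) = 2 := by norm_num [Nat.factorial]
          rw [a3] at a2
          exact (mul_le_mul_of_nonneg_right a1 (by positivity)).trans a2
        have b1 : C * (Real.exp (-(Real.log Y / l)) * l ^ 2) ≤ C * 2 :=
          mul_le_mul_of_nonneg_left e3 hC0
        have b2 : C * 2 ≤ C * 2 * Real.log V := le_mul_of_one_le_right (by positivity) hlV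
        rw [hW]
        calc C * Real.log V + C * Real.exp (-(Real.log Y / l)) * l ^ 2
            = C * Real.log V + C * (Real.exp (-(Real.log Y / l)) * l ^ 2) := by ring
          _ ≤ C * Real.log V + C * 2 * Real.log V := by linarith
          _ = _ := by ring
      have hVp := h1 l hly
      have hLg : l ^ δ ≤ Real.exp C0 * Lam (g i) z y := by
        have h6 := Lam_ge (hlow i y (by have := hB.z2; omega)) hly0
        have h7 : Real.exp C0 * Real.exp (-C0) = 1 := by rw [← Real.exp_add]; simp
        calc l ^ δ = Real.exp C0 * (Real.exp (-C0) * l ^ δ) := by rw [← mul_assoc, h7, one_mul]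
          _ ≤ _ := mul_le_mul_of_nonneg_left h6 (Real.exp_pos _).le
      calc (∏ b ∈ univ.erase i, ∑ m ∈ t b, gq (g b) m * hh m) * W
          ≤ (C ^ M * (∏ b ∈ (U2 π).erase i, Lam (g b) z y) * (Real.log V) ^ M) *
            ((C * 3) * Real.log V) := by
            exact mul_le_mul hPL hbr hW0 (by positivity)
        _ = C ^ M * (C * 3) * (∏ b ∈ (U2 π).erase i, Lam (g b) z y) * (Real.log V) ^ (M + 1) := by
            ring
        _ ≤ C ^ M * (C * 3) * (∏ b ∈ (U2 π).erase i, Lam (g b) z y) *
            (C1 * (Real.exp C0 * Lam (g i) z y)) := by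
            apply mul_le_mul_of_nonneg_left _ (by positivity)
            exact hVp.trans (mul_le_mul_of_nonneg_left hLg hC1)
        _ = Cb * ((∏ b ∈ (U2 π).erase i, Lam (g b) z y) * Lam (g i) z y) := by
            rw [hCb]; ring
        _ = _ := by rw [hU]
    calc _ ≤ Ca * ∏ i ∈ U2 π, Lam (g i) z y + Cb * ∏ i ∈ U2 π, Lam (g i) z y :=
          add_le_add hp1 hp2
      _ = _ := by ring
  rw [← sum_fiberwise_of_maps_to hmaps]
  calc |∑ i ∈ U2 π, ∑ d ∈ (Fintype.piFinset t).filter (fun d => ch d = i), HG γ L d|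
      ≤ ∑ i ∈ U2 π, |∑ d ∈ (Fintype.piFinset t).filter (fun d => ch d = i), HG γ L d| :=
        abs_sum_le_sum_abs _ _
    _ ≤ ∑ _i ∈ U2 π, (Ca + Cb) * ∏ i ∈ U2 π, Lam (g i) z y := sum_le_sum hone
    _ = (U2 π).card * ((Ca + Cb) * ∏ i ∈ U2 π, Lam (g i) z y) := by
        rw [sum_const, nsmul_eq_mul]
    _ ≤ (U2 π).card * ((Ca + Cb) * (C4 * K y)) := by
        apply mul_le_mul_of_nonneg_left _ (Nat.cast_nonneg _)
        exact mul_le_mul_of_nonneg_left (hK y hy) (by positivity)
    _ = _ := by ring

end Pool.Agent.H64.PM
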