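import Mathlib
import Pool.Graph.R_seed8.W37.RK.BL2
import Pool.Agent.H64.PM.AG4

/-!
# The abstract bound for linked variables with general weights
-/

set_option autoImplicit false
set_option linter.unusedSectionVars false

namespace Pool.Agent.H64.PM

open Finset Pool.Agent.W262.RK
open Pool.Agent.W262.RK.AT (VV YY cell cell_sub cell_zero cell_one cell_two cell_three lg)

variable {ι : Type} [Fintype ι] [DecidableEq ι]

variable {γ g : ι → ℕ → ℝ} {L : ι → ι → Bool} {z : ℕ} {C : ℝ}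

/-- all patterns -/
lemma pat (hB : BdG γ g z C) {C2 : ℝ} {E2 : ℕ} (hC2 : 0 ≤ C2) (h2 : AT.BW C2 E2)
    (hL : ∀ i, L i i = false) {A : ℕ} (hA : 6 * (Fintype.card ι + 2 * E2) ≤ A) {δ C0 C4 : ℝ}
    (hδ : 0 < δ) {K : ℕ → ℝ} (hK0 : ∀ y, 0 ≤ K y)
    (hlow : ∀ i, ∀ x : ℕ, 3 ≤ x → δ * Real.log (Real.log x) - C0 ≤ ∑ p ∈ PS z x, g i p)
    (hC4 : 0 ≤ C4)
    (hK : ∀ U : Finset ι, Unl L U → ∀ y, z < y → ∏ i ∈ U, Lam (g i) z y ≤ C4 * K y)
    {η C5 : ℝ} (hη : 0 < η) (hls : LSb g γ z A η C5) (π : ι → Fin 4) :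
    ∃ C' : ℝ, ∀ y, z < y → |PSum γ L z A π y| ≤ C' * K y := by
  have hK1 : ∀ y, z < y → 1 ≤ C4 * K y := by
    intro y hy
    have := hK ∅ (by intro i hi; exact absurd hi (by simp)) y hy
    simpa using this
  have hconst : ∀ C' : ℝ, 0 ≤ C' → (∀ y, z < y → |PSum γ L z A π y| ≤ C') →
      ∃ C' : ℝ, ∀ y, z < y → |PSum γ L z A π y| ≤ C' * K y := by
    intro C' hC' h
    refine ⟨C' * C4, fun y hy => (h y hy).trans ?_⟩
    rw [mul_assoc]
    exact le_mul_of_one_le_right hC' (hK1 y hy)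
  by_cases h3 : ∃ k, π k = 3
  · obtain ⟨k, hk⟩ := h3
    obtain ⟨C', hC', h⟩ := tail_case (L := L) hB A π hk
    exact hconst C' hC' h
  push Not at h3
  by_cases hl : ∃ i j, π i = 2 ∧ π j = 2 ∧ L i j ≠ L j i
  · obtain ⟨i, j, hi, hj, hij⟩ := hl
    obtain ⟨C', hC', h⟩ := link_case hB hC2 h2 hL hA π hi hj hij
    exact hconst C' hC' h
  push Not at hl
  have hun : Unl L (U2 π) := fun i hi j hj => hl i j (mem_U2.1 hi) (mem_U2.1 hj)
  by_cases hj : ∃ j, π j ≠ 2 ∧ Unl L (insert j (U2 π))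
  · obtain ⟨j, hj1, hj2⟩ := hj
    obtain ⟨C', _, h⟩ := triv_case (L := L) hB A π h3 hδ j hj1 (hlow j)
      (fun y hy => hK _ hj2 y hy) hC4
    exact ⟨C', h⟩
  push Not at hj
  have hmax : ∀ j, π j ≠ 2 → ∃ i, π i = 2 ∧ L i j ≠ L j i := by
    intro j hj2
    by_contra hcon
    push Not at hcon
    apply hj j hj2
    intro a ha b hb
    rw [mem_insert] at ha hb
    rcases ha with rfl | ha
    · rcases hb with rfl | hb
      · rfl
      · exact (hcon b (mem_U2.1 hb)).symm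
    · rcases hb with rfl | hb
      · exact hcon a (mem_U2.1 ha)
      · exact hun a ha b hb
  by_cases h1 : ∃ j, π j = 1
  · obtain ⟨j0, hj0⟩ := h1
    exact max_case hB hL h3 (fun i k hi hk => hl i k hi hk) hj0
      (fun j hj => hmax j (by rw [hj]; decide)) hδ hlow (fun y hy => hK _ hun y hy) hη hls
  · push Not at h1
    obtain ⟨C', _, h⟩ := diag_case (L := L) hB A π (fun k => by
      have a1 := h1 k
      have a3 := h3 k
      revert a1 a3
      generalize π k = r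
      revert r
      decide) (fun y hy => hK _ hun y hy) hC4
    exact ⟨C', h⟩

end Pool.Agent.H64.PM

namespace Pool.Agent.H64.PM

open Finset Pool.Agent.W262.RK

/-- **The abstract bound** -/
theorem atg (ι : Type) [Fintype ι] [DecidableEq ι] (L : ι → ι → Bool)
    (hL : ∀ i, L i i = false) (δ : ℝ) (hδ : 0 < δ) (hδ1 : δ ≤ 1) :
    ∃ z0 : ℕ, ∀ z, z0 ≤ z → ∀ (γ g : ι → ℕ → ℝ) (K : ℕ → ℝ), (∀ i, Wt z (γ i) (g i)) →
    (∀ i, ∃ C0 : ℝ, ∀ x : ℕ, 3 ≤ x → δ * Real.log (Real.log x) - C0 ≤ ∑ p ∈ PS z x, g i p) →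
    (∀ y, 0 ≤ K y) →
    (∀ U : Finset ι, Unl L U → ∃ C : ℝ, ∀ y, z < y → ∏ i ∈ U, Lam (g i) z y ≤ C * K y) →
    ∃ C : ℝ, ∀ y, z < y →
      |∑ d ∈ Tup ι z y, (∏ i, gq (γ i) (d i)) * Sym L (fun _ => 1) d| ≤ C * K y := by
  classical
  obtain ⟨C2, E2, h2⟩ := Pool.Agent.W655.RK.blw_of (_root_.W37.RK.bl_of Pool.Agent.W505.RK.ls)
  have h2' : AT.BW |C2| E2 := fun V Y hV hVY a b ha hb ha' hb' =>
    (h2 V Y hV hVY a b ha hb ha' hb').trans (by
      apply mul_le_mul_of_nonneg_right _ (by positivity)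
      exact mul_le_mul_of_nonneg_right (le_abs_self C2)
        (pow_nonneg (Real.log_natCast_nonneg Y) _))
  set M := Fintype.card ι with hM
  set A := 6 * (M + 2 * E2) + 1 with hA
  obtain ⟨ε0, hε0, hlsx⟩ := lsx δ hδ hδ1 A (M + 1) (by omega) (by omega)
  set η : ℝ := ε0 / (2 * (M + 1)) with hη
  have hη0 : 0 < η := by positivity
  have hMη : (M : ℝ) * η ≤ ε0 / 2 := by
    rw [hη]
    have h1 : (M : ℝ) * (ε0 / (2 * (M + 1))) = (ε0 / 2) * (M / (M + 1)) := by field_simp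
    rw [h1]
    have h2 : (M : ℝ) / (M + 1) ≤ 1 := by
      rw [div_le_one (by positivity)]
      linarith
    nlinarith
  -- large `z`
  obtain ⟨z1, hz1⟩ : ∃ z1 : ℕ, ∀ z : ℕ, z1 ≤ z → (2 : ℝ) ^ M ≤ (z : ℝ) ^ (ε0 / 2) := by
    have ht : Filter.Tendsto (fun z : ℕ => (z : ℝ) ^ (ε0 / 2)) Filter.atTop Filter.atTop :=
      (tendsto_rpow_atTop (by positivity)).comp tendsto_natCast_atTop_atTop
    obtain ⟨z1, hz1⟩ := Filter.eventually_atTop.1 (ht.eventually_ge_atTop ((2 : ℝ) ^ M))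
    exact ⟨z1, hz1⟩
  -- the bounds with `w = 1/2`
  obtain ⟨K1, hK1, hf1⟩ := f1
  obtain ⟨z2, hz2⟩ := bdG_unif
  refine ⟨z1 + z2 + 2, fun z hz γ g K hw hlow hK0 hK => ?_⟩
  obtain ⟨C, hB⟩ := hz2 z (by omega) ι γ g hw
  choose C0 hC0 using hlow
  set C0' : ℝ := ∑ i, |C0 i| with hC0'
  have hlow' : ∀ i, ∀ x : ℕ, 3 ≤ x → δ * Real.log (Real.log x) - C0' ≤ ∑ p ∈ PS z x, g i p := by
    intro i x hx
    have h1 := hC0 i x hx
    have h2 : |C0 i| ≤ C0' := single_le_sum (f := fun i => |C0 i|) (fun j _ => abs_nonneg _)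
      (mem_univ i)
    have h3 := le_abs_self (C0 i)
    linarith
  have hKex : ∀ U : Finset ι, ∃ C : ℝ, 0 ≤ C ∧ (Unl L U → ∀ y, z < y →
      ∏ i ∈ U, Lam (g i) z y ≤ C * K y) := by
    intro U
    by_cases hU : Unl L U
    · obtain ⟨C, hC⟩ := hK U hU
      exact ⟨|C|, abs_nonneg _, fun _ y hy => (hC y hy).trans
        (mul_le_mul_of_nonneg_right (le_abs_self C) (hK0 y))⟩
    · exact ⟨0, le_rfl, fun h => absurd h hU⟩
  choose CU hCU0 hCU using hKex
  set C4 : ℝ := ∑ U, CU U with hC4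
  have hC40 : 0 ≤ C4 := sum_nonneg fun U _ => hCU0 U
  have hK' : ∀ U : Finset ι, Unl L U → ∀ y, z < y → ∏ i ∈ U, Lam (g i) z y ≤ C4 * K y := by
    intro U hU y hy
    refine (hCU U hU y hy).trans (mul_le_mul_of_nonneg_right ?_ (hK0 y))
    exact single_le_sum (f := CU) (fun j _ => hCU0 j) (mem_univ U)
  -- the large sieve bound
  have hls0 : ∀ i, ∃ C : ℝ, 0 ≤ C ∧ ∀ (y : ℕ) (t : Bool), z < y →
      ∑ r ∈ (PP z y).divisors.filter (fun r => 1 < r ∧ r ≤ (AT.VV A (Real.log y)) ^ (M + 1)),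
        (r : ℝ) ^ (-1 + ε0) * Real.exp (-(Df (g i) (γ i) z y t r)) ≤ C := fun i =>
    hlsx ε0 le_rfl z (g i) (γ i) (C0 i) (by omega) (hw i) (hC0 i)
  choose Cl hCl0 hCl using hls0
  have hLSb : LSb g γ z A η (∑ i, 2 * Cl i) := by
    intro i y hy
    have hsub : RC z y A M ⊆ (PP z y).divisors.filter
        (fun r => 1 < r ∧ r ≤ (AT.VV A (Real.log y)) ^ (M + 1)) := by
      intro r hr
      unfold RC at hr
      rw [mem_filter] at hr ⊢
      refine ⟨hr.1, hr.2.1, hr.2.2.trans ?_⟩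
      exact Nat.pow_le_pow_right (by have := AT.three_le_VV A (Real.log y); omega) (by omega)
    calc ∑ r ∈ RC z y A M, ((r.divisors.card : ℕ) : ℝ) ^ M *
          ((r : ℝ) ^ (-1 + M * η) * EE (g i) (γ i) z y r)
        ≤ ∑ r ∈ RC z y A M, ((r : ℝ) ^ (-1 + ε0) * Real.exp (-(Df (g i) (γ i) z y false r)) +
            (r : ℝ) ^ (-1 + ε0) * Real.exp (-(Df (g i) (γ i) z y true r))) := by
          refine sum_le_sum fun r hr => ?_
          have hr' := hr
          unfold RC at hr'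
          rw [mem_filter] at hr'
          have hr1 : (1 : ℝ) ≤ r := by exact_mod_cast hr'.2.1.le
          have h3 := tau_le (hz1 z (by omega)) (by positivity) hr'.1
          have h4 : ((r.divisors.card : ℕ) : ℝ) ^ M * (r : ℝ) ^ (-1 + M * η) ≤
              (r : ℝ) ^ (-1 + ε0) := by
            calc ((r.divisors.card : ℕ) : ℝ) ^ M * (r : ℝ) ^ (-1 + M * η)
                ≤ (r : ℝ) ^ (ε0 / 2) * (r : ℝ) ^ (-1 + M * η) :=
                  mul_le_mul_of_nonneg_right h3 (by positivity)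
              _ = (r : ℝ) ^ (ε0 / 2 + (-1 + M * η)) := (Real.rpow_add (by linarith) _ _).symm
              _ ≤ _ := Real.rpow_le_rpow_of_exponent_le hr1 (by linarith)
          rw [← mul_add, ← mul_assoc]
          exact mul_le_mul_of_nonneg_right h4 (EE_pos _ _ _ _ _).le
      _ ≤ Cl i + Cl i := by
          rw [sum_add_distrib]
          refine add_le_add ?_ ?_
          · exact (sum_le_sum_of_subset_of_nonneg hsub fun r _ _ => by positivity).trans
              (hCl i y false hy)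
          · exact (sum_le_sum_of_subset_of_nonneg hsub fun r _ _ => by positivity).trans
              (hCl i y true hy)
      _ = 2 * Cl i := by ring
      _ ≤ _ := single_le_sum (f := fun i => 2 * Cl i)
          (fun j _ => mul_nonneg (by norm_num) (hCl0 j)) (mem_univ i)
  choose C' hC' using fun π : ι → Fin 4 => pat hB (abs_nonneg C2) h2' hL (A := A)
    (by omega) hδ hK0 hlow' hC40 hK' hη0 hLSb π
  refine ⟨∑ π, C' π, fun y hy => ?_⟩
  rw [total_eq, AT.patterns z y (AT.VV A (Real.log y)) (AT.YY A (Real.log y)), sum_mul]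
  exact (abs_sum_le_sum_abs _ _).trans (sum_le_sum fun π _ => hC' π y hy)

end Pool.Agent.H64.PM
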