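import Mathlib
import Pool.Agent.H64.MM.EXPk
import Pool.Agent.H64.PM.AG5

/-!
# Expansion of sums of general local functions into symbols; splitting of the variables
-/

set_option autoImplicit false
set_option linter.unusedSectionVars false

namespace Pool.Agent.H64.PM

open Finset Pool.Agent.W262.RK Pool.Agent.W108.RK Pool.Agent.W762.RK2
open Pool.Agent.H64.MM (Vk par Ik Lk sx E1 E2 Sk c1 c2 vl fgk DP)

/-- the product of the weights over a labelling -/
lemma prod_gq {ι : Type} [Fintype ι] [DecidableEq ι] {z y : ℕ} (γ : ι → ℕ → ℝ)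
    (l : Pr z y → Option ι) :
    ∏ i, gq (γ i) (Dl l i) = ∏ p : Pr z y, (l p).elim 1 fun i => γ i p := by
  have h1 : ∀ i, gq (γ i) (Dl l i) = ∏ p : Pr z y, if l p = some i then γ i p else 1 := by
    intro i
    unfold gq Dl
    rw [prod_pf _ fun p : ℕ => γ i p]
    simp only [decide_eq_true_eq]
  rw [Finset.prod_congr rfl fun i _ => h1 i, Finset.prod_comm]
  refine Finset.prod_congr rfl fun p _ => ?_
  cases h : l p with
  | none => simp
  | some j => simp

section split

/-- forget the copy -/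
def fgs {ι : Type} {N : ℕ} (x : Option (ι × Fin N)) : Option ι := x.map Prod.fst

/-- splitting every variable into `N` variables -/
theorem split_vars {ι : Type} [Fintype ι] [DecidableEq ι] (L : ι → ι → Bool) (γ : ι → ℕ → ℝ)
    (N : ℕ) (hN : 1 ≤ N) (z y : ℕ) :
    ∑ d ∈ Tup ι z y, (∏ i, gq (γ i) (d i)) * Pool.Agent.W262.RK.Sym L (fun _ => 1) d =
      ∑ d ∈ Tup (ι × Fin N) z y, (∏ i, gq (fun p => γ i.1 p / N) (d i)) *
        Pool.Agent.W262.RK.Sym (fun a b : ι × Fin N => L a.1 b.1) (fun _ => 1) d := by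
  classical
  have hN0 : (N : ℝ) ≠ 0 := by exact_mod_cast (by omega : N ≠ 0)
  rw [sum_Tup, sum_Tup, ← Finset.sum_fiberwise univ
    (fun (l : Pr z y → Option (ι × Fin N)) => fun p => fgs (l p))]
  refine Finset.sum_congr rfl fun ξ _ => ?_
  have h1 : (univ.filter fun l : Pr z y → Option (ι × Fin N) => (fun p => fgs (l p)) = ξ) =
      Fintype.piFinset (fun p => univ.filter (fun x : Option (ι × Fin N) => fgs x = ξ p)) := by
    ext l
    simp only [Finset.mem_filter, Finset.mem_univ, true_and, Fintype.mem_piFinset, funext_iff]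
  -- the local sums
  have h2 : ∀ p : Pr z y, (ξ p).elim 1 (fun i => γ i p) =
      ∑ x ∈ univ.filter (fun x : Option (ι × Fin N) => fgs x = ξ p),
        x.elim 1 (fun i => γ i.1 p / N) := by
    intro p
    rw [Finset.sum_filter, Fintype.sum_option]
    cases hx : ξ p with
    | none => simp [fgs]
    | some j =>
      have h0 : (if fgs (none : Option (ι × Fin N)) = some j then
          (none : Option (ι × Fin N)).elim 1 (fun i => γ i.1 (p : ℕ) / N) else 0) = 0 := by
        rw [if_neg]
        simp [fgs]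
      rw [h0, zero_add, Fintype.sum_prod_type, Finset.sum_eq_single j]
      · have h3 : ∀ x : Fin N, (if fgs (some (j, x)) = some j then
            (some (j, x)).elim 1 (fun i : ι × Fin N => γ i.1 (p : ℕ) / N) else 0) = γ j p / N := by
          intro x
          simp [fgs]
        rw [Finset.sum_congr rfl fun x _ => h3 x, Finset.sum_const, card_univ, Fintype.card_fin,
          nsmul_eq_mul]
        simp only [Option.elim]
        field_simp
      · intro j' _ hj'
        refine Finset.sum_eq_zero fun x _ => ?_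
        rw [if_neg]
        simp [fgs, hj']
      · intro h
        exact absurd (Finset.mem_univ _) h
  have h3 : ∀ l ∈ Fintype.piFinset (fun p =>
      univ.filter (fun x : Option (ι × Fin N) => fgs x = ξ p)),
      (∏ i, gq (fun p => γ i.1 p / N) (Dl l i)) *
        Pool.Agent.W262.RK.Sym (fun a b : ι × Fin N => L a.1 b.1) (fun _ => 1) (Dl l) =
      (∏ p : Pr z y, (l p).elim 1 fun i => γ i.1 p / N) *
        Pool.Agent.W262.RK.Sym L (fun _ => 1) (Dl ξ) := by
    intro l hl
    rw [Fintype.mem_piFinset] at hl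
    have hl' : ∀ p, fgs (l p) = ξ p := fun p => (Finset.mem_filter.1 (hl p)).2
    rw [prod_gq, Sym_Dl, Sym_Dl]
    congr 2
    · refine Finset.prod_congr rfl fun p _ => Finset.prod_congr rfl fun q _ => ?_
      refine if_congr ?_ rfl rfl
      rw [← hl' p, ← hl' q]
      cases l q <;> cases l p <;> rfl
    · refine Finset.prod_congr rfl fun p _ => ?_
      rw [← hl' p]
      cases l p <;> rfl
  rw [h1, Finset.sum_congr rfl h3, ← Finset.sum_mul, prod_gq, Finset.prod_congr rfl fun p _ => h2 p,
    Finset.prod_univ_sum]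

end split

section expand

variable {z y k : ℕ}

/-- the type of the local functions -/
abbrev LF (k : ℕ) : Type := ℕ → Vk k → (Fin k → Bool) → (Fin k → Bool) → ℝ

/-- product of the local functions -/
noncomputable def loc (Φ : LF k) (s : ℕ) (d : Fin k → ℕ × ℕ) : ℝ :=
  ∏ p ∈ s.primeFactors, Φ p (fun l => (dv p (d l).1, dv p (d l).2)) (fun l => sgn p (d l).1)
    (fun l => sgn p (d l).2)

/-- the sum over the divisors -/
noncomputable def Gs (Φ : LF k) (s : ℕ) : ℝ :=
  ∑ d ∈ Fintype.piFinset (fun _ : Fin k => s.divisors ×ˢ s.divisors), loc Φ s d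

/-- the local term -/
noncomputable def Tmq (Φ : LF k) (ξ : Pr z y → Option (Unit × Vk k)) (p : Pr z y) : ℝ :=
  (ξ p).elim 1 fun a => Φ p a.2 (fun l => sgn p (E1 ξ l)) (fun l => sgn p (E2 ξ l))

lemma unit_sum (F : ℕ → ℝ) : ∑ s ∈ (PP z y).divisors, F s = ∑ s ∈ Tup Unit z y, F (∏ j, s j) := by
  refine Finset.sum_bij' (fun s _ => fun _ => s) (fun s _ => s ()) ?_ ?_ ?_ ?_ ?_
  · intro s hs
    rw [Pool.Agent.W108.RK.mem_Tup]
    exact ⟨fun _ => Nat.dvd_of_mem_divisors hs, fun i j hij => absurd (Subsingleton.elim i j) hij⟩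
  · intro s hs
    rw [Pool.Agent.W108.RK.mem_Tup] at hs
    exact Nat.mem_divisors.2 ⟨hs.1 (), Pool.Agent.W108.RK.PP_ne_zero z y⟩
  · intro s _
    rfl
  · intro s _
    funext u
    rfl
  · intro s _
    simp

lemma lhs_eqq (Φ : LF k) : ∑ s ∈ (PP z y).divisors, Gs Φ s =
      ∑ ξ : Pr z y → Option (Unit × Vk k), ∏ p, Tmq Φ ξ p := by
  rw [unit_sum]
  have h0 := Pool.Agent.H64.MM.sum_bigk (J := Unit) (z := z) (y := y) (k := k)
    (fun s d => loc Φ (∏ j, s j) d)
  unfold DP at h0
  unfold Gs
  rw [h0]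
  refine Finset.sum_congr rfl fun ξ _ => ?_
  have h3 : ∏ j, Sk ξ j = nb fun p => ((ξ p).map Prod.fst).isSome := prod_Dl _
  unfold loc
  rw [h3, prod_pf _ fun p => Φ p (fun l => (dv p (E1 ξ l : ℤ), dv p (E2 ξ l : ℤ)))
    (fun l => sgn p (E1 ξ l)) (fun l => sgn p (E2 ξ l))]
  refine Finset.prod_congr rfl fun p _ => ?_
  unfold Tmq
  cases hx : ξ p with
  | none => simp
  | some a =>
    have e1 : ∀ l, dv p (E1 ξ l : ℤ) = (a.2 l).1 := by
      intro l
      have : c1 l (ξ p) = (a.2 l).1 := by rw [hx]; rfl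
      rw [← this]
      unfold dv
      rw [Bool.eq_iff_iff, decide_eq_true_iff, Int.natCast_dvd_natCast]
      exact dvd_nb _ p
    have e2 : ∀ l, dv p (E2 ξ l : ℤ) = (a.2 l).2 := by
      intro l
      have : c2 l (ξ p) = (a.2 l).2 := by rw [hx]; rfl
      rw [← this]
      unfold dv
      rw [Bool.eq_iff_iff, decide_eq_true_iff, Int.natCast_dvd_natCast]
      exact dvd_nb _ p
    simp only [e1, e2]
    simp only [Option.map_some, Option.isSome_some, if_true, Option.elim]

/-- the local factor -/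
noncomputable def Gq (Cf : ℕ → Vk k → Vk k → ℝ)
    (ξ : Pr z y → Option (Unit × Vk k)) (p : Pr z y) (x : Option (Ik Unit k)) : ℝ :=
  x.elim 1 fun i => Cf p i.1.2.1 i.1.2.2 *
    ∏ l, (sx (i.1.2.2 l).1 (sgn p (E1 ξ l)) * sx (i.1.2.2 l).2 (sgn p (E2 ξ l)))

lemma sum_Gq {Φ : LF k} {Cf : ℕ → Vk k → Vk k → ℝ}
    (ξ : Pr z y → Option (Unit × Vk k)) (p : Pr z y)
    (hΦ : ∀ v h g, Φ p v h g = ∑ x : Vk k, if par v x = false then
      Cf p v x * ∏ l, (sx (x l).1 (h l) * sx (x l).2 (g l)) else 0) :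
    ∑ x ∈ univ.filter (fun x : Option (Ik Unit k) => fgk x = ξ p), Gq Cf ξ p x =
      Tmq Φ ξ p := by
  rw [Finset.sum_filter, Fintype.sum_option]
  unfold Tmq
  cases hx : ξ p with
  | none => simp [fgk, Gq]
  | some a =>
    obtain ⟨j, v⟩ := a
    have h0 : (if fgk (none : Option (Ik Unit k)) = some (j, v) then Gq Cf ξ p none else 0) = 0 := by
      rw [if_neg]
      simp [fgk]
    rw [h0, zero_add]
    set F : Unit × Vk k × Vk k → ℝ := fun r : Unit × Vk k × Vk k =>
          if r.1 = j ∧ r.2.1 = v then Cf p r.2.1 r.2.2 *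
            ∏ l, (sx (r.2.2 l).1 (sgn p (E1 ξ l)) * sx (r.2.2 l).2 (sgn p (E2 ξ l))) else 0
      with hF
    have h1 : ∀ i : Ik Unit k, (if fgk (some i) = some (j, v) then Gq Cf ξ p (some i) else 0) =
        F i.1 := by
      intro i
      refine if_congr ?_ rfl rfl
      simp only [fgk, Option.map_some, Option.some.injEq, Prod.mk.injEq]
    refine (Finset.sum_congr rfl fun i _ => h1 i).trans
      ((Pool.Agent.H64.MM.sum_Ik F).trans ?_)
    rw [Fintype.sum_prod_type, Finset.sum_eq_single j]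
    · rw [Fintype.sum_prod_type, Finset.sum_eq_single v]
      · show _ = Φ p v (fun l => sgn p (E1 ξ l)) (fun l => sgn p (E2 ξ l))
        rw [hΦ]
        refine Finset.sum_congr rfl fun x _ => ?_
        simp only [hF, and_self, if_true]
      · intro v' _ hv'
        refine Finset.sum_eq_zero fun x _ => ?_
        simp [hF, hv']
      · intro h
        exact absurd (Finset.mem_univ _) h
    · intro j' _ hj'
      exact absurd (Subsingleton.elim j' j) hj'
    · intro h
      exact absurd (Finset.mem_univ _) h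

lemma rhs_termq (Cf : ℕ → Vk k → Vk k → ℝ)
    (ξ : Pr z y → Option (Unit × Vk k)) (l : Pr z y → Option (Ik Unit k))
    (h : ∀ p, fgk (l p) = ξ p) :
    (∏ i, gq (fun p => Cf p i.1.2.1 i.1.2.2) (Dl l i)) *
      Pool.Agent.W262.RK.Sym (Lk (J := Unit)) (fun _ => 1) (Dl l) =
      ∏ p, Gq Cf ξ p (l p) := by
  rw [prod_gq, Sym_Dl, ← Finset.prod_mul_distrib, ← Finset.prod_mul_distrib]
  refine Finset.prod_congr rfl fun p _ => ?_
  cases hl : l p with
  | none =>
    have h0 : ∀ q, Pool.Agent.W762.RK2.lk (Lk (J := Unit) (k := k)) (l q) none = false := by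
      intro q
      cases l q <;> rfl
    simp [h0, Gq]
  | some i =>
    have h1 : ∀ q, Pool.Agent.W762.RK2.lk (Lk (J := Unit)) (l q) (some i) =
        par (vl (ξ q)) i.1.2.2 := by
      intro q
      rw [← h q]
      cases hq : l q with
      | none =>
        have : vl (fgk (none : Option (Ik Unit k))) = fun _ => (false, false) := rfl
        rw [this, Pool.Agent.H64.MM.par_zero]
        rfl
      | some i' => rfl
    have h2 : ∏ q : Pr z y, (if Pool.Agent.W762.RK2.lk (Lk (J := Unit)) (l q) (some i) = true then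
        Jr (q : ℕ) p else 1) =
        ∏ m, (sx (i.1.2.2 m).1 (sgn p (E1 ξ m)) * sx (i.1.2.2 m).2 (sgn p (E2 ξ m))) := by
      have h3 : ∀ a : Bool, ∀ b : Pr z y → Bool, sx a (sgn p (nb b : ℤ)) =
          ∏ q : Pr z y, if a = true then (if q ≠ p ∧ b q = true then Jr (q : ℕ) p else 1)
            else 1 := by
        intro a b
        unfold sx
        cases a
        · simp
        · simp only [if_true]
          exact sgn_nb b p
      unfold E1 E2
      simp only [h3]
      simp only [← Finset.prod_mul_distrib]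
      rw [Finset.prod_comm]
      refine Finset.prod_congr rfl fun q _ => ?_
      rw [h1]
      refine Pool.Agent.H64.MM.bits_eqk q p _ _ fun hqp => ?_
      rw [hqp, ← h p, hl]
      exact i.2
    rw [h2]
    simp only [Gq, Option.elim, Jr_one, mul_one]

/-- **Expansion into symbols.** -/
theorem expq (Φ : LF k) (Cf : ℕ → Vk k → Vk k → ℝ)
    (hΦ : ∀ p ∈ PS z y, ∀ v h g, Φ p v h g = ∑ x : Vk k, if par v x = false then
      Cf p v x * ∏ l, (sx (x l).1 (h l) * sx (x l).2 (g l)) else 0) :
    ∑ s ∈ (PP z y).divisors, Gs Φ s =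
      ∑ d ∈ Tup (Ik Unit k) z y, (∏ i, gq (fun p => Cf p i.1.2.1 i.1.2.2) (d i)) *
        Pool.Agent.W262.RK.Sym (Lk (J := Unit)) (fun _ => 1) d := by
  classical
  rw [lhs_eqq, sum_Tup, ← Finset.sum_fiberwise univ
    (fun (l : Pr z y → Option (Ik Unit k)) => fun p => fgk (l p))]
  refine Finset.sum_congr rfl fun ξ _ => ?_
  have h1 : (univ.filter fun l : Pr z y → Option (Ik Unit k) => (fun p => fgk (l p)) = ξ) =
      Fintype.piFinset (fun p => univ.filter (fun x : Option (Ik Unit k) => fgk x = ξ p)) := by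
    ext l
    simp only [Finset.mem_filter, Finset.mem_univ, true_and, Fintype.mem_piFinset, funext_iff]
  rw [h1, Finset.prod_congr rfl fun p _ => (sum_Gq ξ p (hΦ p p.2)).symm, Finset.prod_univ_sum]
  refine Finset.sum_congr rfl fun l hl => ?_
  rw [Fintype.mem_piFinset] at hl
  exact (rhs_termq Cf ξ l fun p => (Finset.mem_filter.1 (hl p)).2).symm

end expand

end Pool.Agent.H64.PM
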