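import Mathlib
import Pool.Agent.H64.PM.EXQ

/-!
# The average of a function with local factors
-/

set_option autoImplicit false

namespace Pool.Agent.H64.PM

open Finset Pool.Agent.W262.RK
open Pool.Agent.H64.MM (Vk par Ik Lk sx)

/-- the average -/
theorem avq (k : ℕ) (B δ : ℝ) (hδ : 0 < δ) : ∃ z0 : ℕ, ∀ z : ℕ, z0 ≤ z → ∀ (Φ : LF k)
    (Cf : ℕ → Vk k → Vk k → ℝ) (g : Ik Unit k → ℕ → ℝ) (K : ℕ → ℝ),
    (∀ i : Ik Unit k, ∀ p : ℕ, p.Prime → z < p →
      |Cf p i.1.2.1 i.1.2.2| ≤ g i p ∧ g i p ≤ B / p) →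
    (∀ i, ∃ C0 : ℝ, ∀ x : ℕ, 3 ≤ x →
      δ * Real.log (Real.log x) - C0 ≤ ∑ p ∈ PS z x, g i p) →
    (∀ y, 0 ≤ K y) →
    (∀ U : Finset (Ik Unit k), Unl Lk U →
      ∃ C : ℝ, ∀ y, z < y → ∏ i ∈ U, Lam (g i) z y ≤ C * K y) →
    (∀ p : ℕ, p.Prime → z < p → ∀ v h h', Φ p v h h' = ∑ x : Vk k, if par v x = false then
      Cf p v x * ∏ l, (sx (x l).1 (h l) * sx (x l).2 (h' l)) else 0) →
    ∃ C : ℝ, ∀ y, z < y → ∑ s ∈ (PP z y).divisors, Gs Φ s ≤ C * K y := by
  classical
  obtain ⟨N, hN⟩ := exists_nat_ge (2 * B)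
  set M : ℕ := N + 1 with hM
  have hM1 : 1 ≤ M := by omega
  have hMr : (0 : ℝ) < M := by exact_mod_cast hM1
  have hMB : 2 * B ≤ M := by
    rw [hM]
    push_cast
    linarith
  set δ' : ℝ := min (δ / M) 1 with hδ'
  have hδ0 : 0 < δ' := lt_min (by positivity) one_pos
  obtain ⟨z0, hz0⟩ := atg (Ik Unit k × Fin M) (fun a b => Lk a.1 b.1) (fun a => a.1.2) δ' hδ0
    (min_le_right _ _)
  refine ⟨z0, fun z hz Φ Cf g K hCf hlow hK hU hΦ => ?_⟩
  have hgnn : ∀ i, ∀ p : ℕ, p.Prime → z < p → 0 ≤ g i p := fun i p hp hzp =>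
    (abs_nonneg _).trans (hCf i p hp hzp).1
  obtain ⟨C, hC⟩ := hz0 z hz (fun a p => Cf p a.1.1.2.1 a.1.1.2.2 / M) (fun a p => g a.1 p / M) K
    (fun a p hp hzp => by
      obtain ⟨h1, h2⟩ := hCf a.1 p hp hzp
      have hp0 : (0 : ℝ) < p := by exact_mod_cast hp.pos
      constructor
      · rw [abs_div, abs_of_pos hMr]
        exact div_le_div_of_nonneg_right h1 hMr.le
      · rw [div_le_div_iff₀ hMr (by positivity)]
        rw [le_div_iff₀ hp0] at h2
        nlinarith)
    (fun a => by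
      obtain ⟨C0, hC0⟩ := hlow a.1
      refine ⟨|C0| / M + 1 * |Real.log (Real.log 3)|, fun x hx => ?_⟩
      have h1 := hC0 x hx
      have hxr : (3 : ℝ) ≤ x := by exact_mod_cast hx
      have hl3 : 1 < Real.log 3 := by
        rw [Real.lt_log_iff_exp_lt (by norm_num)]
        have := Real.exp_one_lt_d9
        linarith
      have hl : Real.log 3 ≤ Real.log x := Real.log_le_log (by norm_num) hxr
      have hll : 0 ≤ Real.log (Real.log x) := Real.log_nonneg (by linarith)
      have h2 : δ' * Real.log (Real.log x) ≤ δ / M * Real.log (Real.log x) :=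
        mul_le_mul_of_nonneg_right (min_le_left _ _) hll
      have h3 : ∑ p ∈ PS z x, g a.1 p / M = (∑ p ∈ PS z x, g a.1 p) / M := by
        rw [sum_div]
      rw [h3, le_div_iff₀ hMr]
      have h4 : |C0| / M * M = |C0| := by field_simp
      have h5 : δ / M * Real.log (Real.log x) * M = δ * Real.log (Real.log x) := by field_simp
      have h6 := le_abs_self C0
      have h7 : 0 ≤ |Real.log (Real.log 3)| * M := by positivity
      nlinarith)
    hK
    (fun U hUn => by
      set V : Finset (Ik Unit k) := U.image Prod.fst with hV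
      have hVn : Unl Lk V := by
        intro i hi j hj
        rw [hV, mem_image] at hi hj
        obtain ⟨a, ha, rfl⟩ := hi
        obtain ⟨b, hb, rfl⟩ := hj
        exact hUn a ha b hb
      obtain ⟨C, hC⟩ := hU V hVn
      refine ⟨C, fun y hy => le_trans ?_ (hC y hy)⟩
      unfold Lam
      rw [← Real.exp_sum, ← Real.exp_sum]
      apply Real.exp_le_exp.2
      have h1 : ∀ a ∈ U, a.1 ∈ V := fun a ha => mem_image_of_mem _ ha
      rw [← sum_fiberwise_of_maps_to h1]
      refine sum_le_sum fun i _ => ?_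
      have h2 : ∑ a ∈ U.filter (fun a => a.1 = i), ∑ p ∈ PS z y, g a.1 p / M =
          (U.filter (fun a => a.1 = i)).card * ((∑ p ∈ PS z y, g i p) / M) := by
        rw [← nsmul_eq_mul, ← sum_const]
        refine sum_congr rfl fun a ha => ?_
        rw [(mem_filter.1 ha).2, sum_div]
      have h3 : (U.filter (fun a => a.1 = i)).card ≤ M := by
        have h4 : (U.filter (fun a => a.1 = i)) ⊆ (univ : Finset (Fin M)).image (fun x => (i, x)) := by
          intro a ha
          rw [mem_image]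
          exact ⟨a.2, mem_univ _, by rw [← (mem_filter.1 ha).2]⟩
        refine (card_le_card h4).trans (card_image_le.trans ?_)
        simp
      have h5 : 0 ≤ ∑ p ∈ PS z y, g i p := sum_nonneg fun p hp =>
        hgnn i p (mem_PS.1 hp).2 (mem_PS.1 hp).1.1
      rw [h2]
      calc ((U.filter (fun a => a.1 = i)).card : ℝ) * ((∑ p ∈ PS z y, g i p) / M)
          ≤ M * ((∑ p ∈ PS z y, g i p) / M) := by
            refine mul_le_mul_of_nonneg_right ?_ (div_nonneg h5 hMr.le)
            exact_mod_cast h3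
        _ = ∑ p ∈ PS z y, g i p := by field_simp)
  refine ⟨C, fun y hy => ?_⟩
  have h1 := expq (z := z) (y := y) Φ Cf (fun p hp v h h' =>
    hΦ p (mem_PS.1 hp).2 (mem_PS.1 hp).1.1 v h h')
  have h2 := split_vars (Lk (J := Unit) (k := k))
    (fun (i : Ik Unit k) p => Cf p i.1.2.1 i.1.2.2) M hM1 z y
  rw [h1, h2]
  exact (le_abs_self _).trans (hC y hy)

end Pool.Agent.H64.PM
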