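import Mathlib
import Pool.Graph.R_seed8.W405.RK2.RS
import Pool.Graph.R_seed8.W591.RK2.RVRU
import Pool.Graph.R_seed8.W262.RK.NT3

/-!
# Sums over the small, square and medium parts for one variable with general normalisation
-/

set_option autoImplicit false

namespace Pool.Agent.H64.PM

open Finset Pool.Agent.W262.RK Pool.Agent.W405.RK2 Pool.Agent.W591.RK2

/-- the weight `A ^ ω(d) / d ^ m` -/
noncomputable def bw (A : ℝ) (m d : ℕ) : ℝ := A ^ d.primeFactors.card / (d : ℝ) ^ m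

lemma bw_nonneg {A : ℝ} (hA : 1 ≤ A) (m d : ℕ) : 0 ≤ bw A m d := by
  unfold bw
  positivity

lemma bw_eq {A : ℝ} (m : ℕ) {d : ℕ} (hd : Squarefree d) :
    bw A m d = ∏ p ∈ d.primeFactors, A / (p : ℝ) ^ m := by
  unfold bw
  rw [prod_div_distrib, prod_const, prod_pow, ← cast_eq hd]

lemma dvd_sqf {a b d : ℕ} (hd : d ∈ (PP a b).divisors) : Squarefree d := dv_squarefree hd

lemma rpow_eq {d : ℕ} (hd : Squarefree d) (δ : ℝ) :
    (d : ℝ) ^ δ = ∏ p ∈ d.primeFactors, (p : ℝ) ^ δ := by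
  conv_lhs => rw [cast_eq hd]
  rw [← Real.finsetProd_rpow _ _ (fun p _ => Nat.cast_nonneg _)]

/-- the main inequality -/
lemma main_q (z y : ℕ) (G : ℕ → ℝ) (δ A : ℝ) (hA : 1 ≤ A) (hδ : 0 ≤ δ) (hG : ∀ s, 0 ≤ G s)
    (hg : ∀ s e : ℕ, s * e ∣ PP z y → G (s * e) ≤ bw A 1 e * G s) :
    ∑ s ∈ (PP z y).divisors, G s * (s : ℝ) ^ δ ≤
      (∑ e ∈ (PP z y).divisors, bw A 1 e * HH δ e) * ∑ s ∈ (PP z y).divisors, G s := by
  classical
  set F : ℕ × ℕ → ℝ := fun x => (bw A 1 x.2 * HH δ x.2) * G x.1 with hF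
  have hR : (∑ e ∈ (PP z y).divisors, bw A 1 e * HH δ e) * ∑ s ∈ (PP z y).divisors, G s =
      ∑ x ∈ (PP z y).divisors ×ˢ (PP z y).divisors, F x := by
    rw [sum_mul_sum, sum_product, sum_comm]
  have hFn : ∀ x, 0 ≤ F x := fun x =>
    mul_nonneg (mul_nonneg (bw_nonneg hA _ _) (HH_nonneg hδ _)) (hG _)
  have hL : ∀ s ∈ (PP z y).divisors, G s * (s : ℝ) ^ δ = ∑ e ∈ s.divisors, G s * HH δ e := by
    intro s hs
    rw [← mul_sum, rpow_expand δ (dvd_sqf hs)]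
  rw [sum_congr rfl hL, sum_sigma', hR]
  have key : ∀ x ∈ (PP z y).divisors.sigma (fun s => s.divisors), x.2 ∣ x.1 ∧ x.1 ∣ PP z y := by
    intro x hx
    rw [mem_sigma] at hx
    exact ⟨Nat.dvd_of_mem_divisors hx.2, Nat.dvd_of_mem_divisors hx.1⟩
  set φ : (Σ _ : ℕ, ℕ) → ℕ × ℕ := fun x => (x.1 / x.2, x.2) with hφ
  have hinj : Set.InjOn φ ((PP z y).divisors.sigma (fun s => s.divisors) : Set _) := by
    intro x hx x' hx' hxx
    have k1 := key x (Finset.mem_coe.1 hx)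
    have k2 := key x' (Finset.mem_coe.1 hx')
    have e2 : x.2 = x'.2 := congrArg Prod.snd hxx
    have e1 : x.1 / x.2 = x'.1 / x'.2 := congrArg Prod.fst hxx
    have e3 : x.1 = x'.1 := by
      rw [← Nat.div_mul_cancel k1.1, ← Nat.div_mul_cancel k2.1, e1, e2]
    cases x; cases x'
    simp only at e2 e3
    subst e2; subst e3; rfl
  have hmaps : ∀ x ∈ (PP z y).divisors.sigma (fun s => s.divisors),
      φ x ∈ (PP z y).divisors ×ˢ (PP z y).divisors := by
    intro x hx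
    have k := key x hx
    rw [mem_product, Nat.mem_divisors, Nat.mem_divisors]
    exact ⟨⟨(Nat.div_dvd_of_dvd k.1).trans k.2, Pool.Agent.W262.RK.PP_ne_zero _ _⟩, k.1.trans k.2,
      Pool.Agent.W262.RK.PP_ne_zero _ _⟩
  have hterm : ∀ x ∈ (PP z y).divisors.sigma (fun s => s.divisors), G x.1 * HH δ x.2 ≤ F (φ x) := by
    intro x hx
    have k := key x hx
    have e0 : x.1 / x.2 * x.2 = x.1 := Nat.div_mul_cancel k.1
    have h1 := hg (x.1 / x.2) x.2 (by rw [e0]; exact k.2)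
    rw [e0] at h1
    calc G x.1 * HH δ x.2 ≤ (bw A 1 x.2 * G (x.1 / x.2)) * HH δ x.2 :=
          mul_le_mul_of_nonneg_right h1 (HH_nonneg hδ _)
      _ = F (φ x) := by simp only [hF, hφ]; ring
  calc ∑ x ∈ (PP z y).divisors.sigma (fun s => s.divisors), G x.1 * HH δ x.2
      ≤ ∑ x ∈ (PP z y).divisors.sigma (fun s => s.divisors), F (φ x) := sum_le_sum hterm
    _ = ∑ w ∈ ((PP z y).divisors.sigma (fun s => s.divisors)).image φ, F w := (sum_image hinj).symm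
    _ ≤ ∑ x ∈ (PP z y).divisors ×ˢ (PP z y).divisors, F x := by
        refine sum_le_sum_of_subset_of_nonneg ?_ fun x _ _ => hFn x
        intro w hw
        obtain ⟨x, hx, rfl⟩ := mem_image.1 hw
        exact hmaps x hx

lemma exp_sub_one_le' {x : ℝ} : Real.exp x - 1 ≤ x * Real.exp x := by
  have h1 := Real.add_one_le_exp (-x)
  have h2 : Real.exp (-x) * Real.exp x = 1 := by rw [← Real.exp_add]; simp
  nlinarith [Real.exp_pos x]

lemma prod_exp_le (S : Finset ℕ) (φ : ℕ → ℝ) (h : ∀ p ∈ S, 0 ≤ φ p) :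
    ∏ p ∈ S, (1 + φ p) ≤ Real.exp (∑ p ∈ S, φ p) :=
  Pool.Agent.W655.RK.prod_le_exp _ _ fun p hp => by linarith [h p hp]

/-- the bracket -/
lemma bracket_q (z : ℕ) (lam A : ℝ) (hA : 1 ≤ A) (hz : 2 ≤ z) (hlam : 0 ≤ lam) :
    ∃ E : ℝ, 0 ≤ E ∧ ∀ y : ℕ, z < y →
    ∑ e ∈ (PP z y).divisors, bw A 1 e * HH (lam / Real.log y) e ≤ E := by
  classical
  obtain ⟨C1, hC1⟩ := Pool.Agent.Helper256.KM.mertens_log
  set B : ℝ := A * (lam * Real.exp lam * (1 + |C1|)) with hB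
  have hB0 : 0 ≤ B := by positivity
  refine ⟨Real.exp B, by positivity, fun y hy => ?_⟩
  have hy3 : 3 ≤ y := by omega
  have hyr : (3 : ℝ) ≤ y := by exact_mod_cast hy3
  have hl1 : 1 < Real.log y := by
    rw [Real.lt_log_iff_exp_lt (by linarith)]
    have := Real.exp_one_lt_d9
    linarith
  set δ : ℝ := lam / Real.log y with hδd
  have hδ : 0 ≤ δ := div_nonneg hlam (by linarith)
  set ψ : ℕ → ℝ := fun p => A / (p : ℝ) ^ 1 * ((p : ℝ) ^ δ - 1) with hψ
  have h3 : ∑ d ∈ (PP z y).divisors, bw A 1 d * HH δ d = ∏ p ∈ PS z y, (1 + ψ p) := by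
    rw [← sum_dv z y ψ]
    refine sum_congr rfl fun d hd => ?_
    rw [bw_eq 1 (dvd_sqf hd)]
    simp only [hψ, HH]
    rw [← prod_mul_distrib]
  have hψn : ∀ p ∈ PS z y, 0 ≤ ψ p ∧ ψ p ≤ A * (δ * Real.exp lam) * (Real.log p / p) := by
    intro p hp
    have hpy := (mem_PS.1 hp).1.2
    have hpp := (mem_PS.1 hp).2
    have hp1' : (1 : ℝ) ≤ p := by exact_mod_cast hpp.one_lt.le
    have hp0 : (0:ℝ) < p := by linarith
    have hlogp : 0 ≤ Real.log p := Real.log_nonneg hp1'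
    have hlogy : Real.log p ≤ Real.log y := Real.log_le_log hp0 (by exact_mod_cast hpy)
    have hx : δ * Real.log p ≤ lam := by
      rw [hδd, div_mul_eq_mul_div, div_le_iff₀ (by linarith)]
      exact mul_le_mul_of_nonneg_left hlogy hlam
    have hge : 1 ≤ (p : ℝ) ^ δ := Real.one_le_rpow hp1' hδ
    have hle : (p : ℝ) ^ δ - 1 ≤ δ * Real.log p * Real.exp lam := by
      rw [Real.rpow_def_of_pos hp0, mul_comm (Real.log p) δ]
      refine exp_sub_one_le'.trans ?_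
      exact mul_le_mul_of_nonneg_left (Real.exp_le_exp.2 hx) (mul_nonneg hδ hlogp)
    constructor
    · simp only [hψ]
      exact mul_nonneg (by positivity) (by linarith)
    · simp only [hψ, pow_one]
      calc A / (p : ℝ) * ((p : ℝ) ^ δ - 1)
          ≤ A / p * (δ * Real.log p * Real.exp lam) :=
            mul_le_mul_of_nonneg_left hle (by positivity)
        _ = A * (δ * Real.exp lam) * (Real.log p / p) := by ring
  have h5 : ∑ p ∈ PS z y, ψ p ≤ B := by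
    have a1 : ∑ p ∈ PS z y, ψ p ≤ ∑ p ∈ PS z y, A * (δ * Real.exp lam) * (Real.log p / p) :=
      sum_le_sum fun p hp => (hψn p hp).2
    rw [← mul_sum] at a1
    have a2 : ∑ p ∈ PS z y, Real.log p / p ≤ ∑ p ∈ (Finset.Icc 1 y).filter Nat.Prime,
        Real.log p / p := by
      refine sum_le_sum_of_subset_of_nonneg ?_ fun p hp _ => ?_
      · intro p hp
        exact mem_filter.2 ⟨mem_Icc.2 ⟨(mem_PS.1 hp).2.one_lt.le,
          (mem_PS.1 hp).1.2⟩, (mem_PS.1 hp).2⟩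
      · have : (1 : ℝ) ≤ p := by exact_mod_cast (mem_filter.1 hp).2.one_lt.le
        exact div_nonneg (Real.log_nonneg this) (by linarith)
    have a3 := (abs_le.1 (hC1 y (by omega))).2
    have a4 : ∑ p ∈ PS z y, Real.log p / p ≤ Real.log y * (1 + |C1|) := by
      have := le_abs_self C1
      have := abs_nonneg C1
      nlinarith
    have a5 : 0 ≤ A * (δ * Real.exp lam) := by positivity
    calc ∑ p ∈ PS z y, ψ p ≤ A * (δ * Real.exp lam) * ∑ p ∈ PS z y, Real.log p / p := a1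
      _ ≤ A * (δ * Real.exp lam) * (Real.log y * (1 + |C1|)) := mul_le_mul_of_nonneg_left a4 a5
      _ = B := by
        have : δ * Real.log y = lam := by
          rw [hδd]
          exact div_mul_cancel₀ _ (by linarith)
        rw [hB]
        calc A * (δ * Real.exp lam) * (Real.log y * (1 + |C1|))
            = A * ((δ * Real.log y) * Real.exp lam * (1 + |C1|)) := by ring
          _ = _ := by rw [this]
  rw [h3]
  exact (prod_exp_le _ _ fun p hp => (hψn p hp).1).trans (Real.exp_le_exp.2 h5)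

/-- the sum over the small part -/
theorem rs_q (z : ℕ) (G : ℕ → ℝ) (K : ℕ → ℝ) (C' lam A : ℝ) (hA : 1 ≤ A) (hz : 2 ≤ z)
    (hlam : 0 ≤ lam) (hG : ∀ s, 0 ≤ G s)
    (hg : ∀ y, z < y → ∀ s e : ℕ, s * e ∣ PP z y → G (s * e) ≤ bw A 1 e * G s)
    (hS : ∀ y, z < y → ∑ s ∈ (PP z y).divisors, G s ≤ C' * K y) :
    ∃ C : ℝ, ∀ y, z < y →
      ∑ s ∈ (PP z y).divisors, G s * (s : ℝ) ^ (lam / Real.log y) ≤ C * K y := by
  obtain ⟨E, hE0, hE⟩ := bracket_q z lam A hA hz hlam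
  refine ⟨E * C', fun y hy => ?_⟩
  have hl1 : 1 ≤ Real.log y := by
    have hyr : (3 : ℝ) ≤ y := by exact_mod_cast (by omega : 3 ≤ y)
    rw [Real.le_log_iff_exp_le (by linarith)]
    have := Real.exp_one_lt_d9
    linarith
  have hδ : 0 ≤ lam / Real.log y := div_nonneg hlam (by linarith)
  have hm := main_q z y G (lam / Real.log y) A hA hδ hG (hg y hy)
  have hn : 0 ≤ ∑ s ∈ (PP z y).divisors, G s := sum_nonneg fun s _ => hG s
  calc _ ≤ _ := hm
    _ ≤ E * ∑ s ∈ (PP z y).divisors, G s := mul_le_mul_of_nonneg_right (hE y hy) hn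
    _ ≤ E * (C' * K y) := mul_le_mul_of_nonneg_left (hS y hy) hE0
    _ = E * C' * K y := by ring

/-- the sum over the square part -/
theorem rv_q (z : ℕ) (lam A : ℝ) (hA : 1 ≤ A) (hz : 2 ≤ z) (hlam : 0 ≤ lam) :
    ∃ C : ℝ, ∀ y, z < y →
    ∑ v ∈ (PP z y).divisors, bw A 2 v * (v : ℝ) ^ (lam / Real.log y) ≤ C := by
  refine ⟨Real.exp (A * Real.exp lam), fun y hy => ?_⟩
  have hy3 : 3 ≤ y := by omega
  have hyr : (3 : ℝ) ≤ y := by exact_mod_cast hy3
  have hl : 0 < Real.log y := Real.log_pos (by linarith)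
  set δ := lam / Real.log y with hδ
  have hδ0 : 0 ≤ δ := div_nonneg hlam hl.le
  set h : ℕ → ℝ := fun p => (A / (p : ℝ) ^ 2) * (p : ℝ) ^ δ with hh
  have hnn : ∀ p ∈ PS z y, 0 ≤ h p := by
    intro p _
    simp only [hh]
    positivity
  have e : ∀ v ∈ (PP z y).divisors, bw A 2 v * (v : ℝ) ^ δ = ∏ p ∈ v.primeFactors, h p := by
    intro v hv
    rw [bw_eq 2 (dvd_sqf hv), rpow_eq (dvd_sqf hv), ← prod_mul_distrib]
  rw [sum_congr rfl e, sum_dv]
  refine (prod_exp_le _ _ hnn).trans (Real.exp_le_exp.2 ?_)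
  have hb : ∀ p ∈ PS z y, h p ≤ A * Real.exp lam * (1 / (p : ℝ) ^ 2) := by
    intro p hp
    have h2 : (0 : ℝ) < p := by exact_mod_cast (mem_PS.1 hp).2.pos
    have h4 : (p : ℝ) ^ δ ≤ Real.exp lam := by
      have h5 : (p : ℝ) ≤ y := by exact_mod_cast (mem_PS.1 hp).1.2
      calc (p : ℝ) ^ δ ≤ (y : ℝ) ^ δ := Real.rpow_le_rpow h2.le h5 hδ0
        _ = Real.exp lam := by
          rw [Real.rpow_def_of_pos (by linarith), hδ]
          congr 1
          field_simp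
    calc h p ≤ (A / (p : ℝ) ^ 2) * Real.exp lam := mul_le_mul_of_nonneg_left h4 (by positivity)
      _ = _ := by ring
  calc ∑ p ∈ PS z y, h p ≤ ∑ p ∈ PS z y, A * Real.exp lam * (1 / (p : ℝ) ^ 2) := sum_le_sum hb
    _ = A * Real.exp lam * ∑ p ∈ PS z y, 1 / (p : ℝ) ^ 2 := by rw [mul_sum]
    _ ≤ A * Real.exp lam * 1 :=
        mul_le_mul_of_nonneg_left (sum_sq_le z y (by omega)) (by positivity)
    _ = _ := mul_one _

/-- the sum over the medium primes -/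
theorem ru_q (lam A : ℝ) (hA : 1 ≤ A) (hlam : 0 ≤ lam) : ∃ C : ℝ,
    ∀ y Y : ℕ, 3 ≤ y → Y ≤ (y + 1) ^ 2 →
    ∑ u ∈ (PP y Y).divisors, bw A 1 u * (u : ℝ) ^ (lam / Real.log y) ≤ C := by
  obtain ⟨C, hC⟩ := sum_inv_le
  refine ⟨Real.exp (A * Real.exp (3 * lam) * C), fun y Y hy hY => ?_⟩
  have hyr : (3 : ℝ) ≤ y := by exact_mod_cast hy
  have hl : 0 < Real.log y := Real.log_pos (by linarith)
  set δ := lam / Real.log y with hδ
  have hδ0 : 0 ≤ δ := div_nonneg hlam hl.le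
  set h : ℕ → ℝ := fun p => (A / (p : ℝ) ^ 1) * (p : ℝ) ^ δ with hh
  have hnn : ∀ p ∈ PS y Y, 0 ≤ h p := by
    intro p _
    simp only [hh]
    positivity
  have e : ∀ u ∈ (PP y Y).divisors, bw A 1 u * (u : ℝ) ^ δ = ∏ p ∈ u.primeFactors, h p := by
    intro u hu
    rw [bw_eq 1 (dvd_sqf hu), rpow_eq (dvd_sqf hu), ← prod_mul_distrib]
  rw [sum_congr rfl e, sum_dv]
  refine (prod_exp_le _ _ hnn).trans (Real.exp_le_exp.2 ?_)
  have hb : ∀ p ∈ PS y Y, h p ≤ A * Real.exp (3 * lam) * (1 / (p : ℝ)) := by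
    intro p hp
    have h2 : (0 : ℝ) < p := by exact_mod_cast (mem_PS.1 hp).2.pos
    have h4 : (p : ℝ) ^ δ ≤ Real.exp (3 * lam) := by
      have h5 : (p : ℝ) ≤ (((y + 1) ^ 2 : ℕ) : ℝ) := by
        exact_mod_cast (mem_PS.1 hp).1.2.trans hY
      calc (p : ℝ) ^ δ ≤ ((((y + 1) ^ 2 : ℕ) : ℝ)) ^ δ := Real.rpow_le_rpow h2.le h5 hδ0
        _ ≤ Real.exp (3 * lam) := by
          rw [Real.rpow_def_of_pos (by positivity)]
          refine Real.exp_le_exp.2 ?_
          calc Real.log (((y + 1) ^ 2 : ℕ) : ℝ) * δ ≤ 3 * Real.log y * δ :=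
                mul_le_mul_of_nonneg_right (log_bd y hy) hδ0
            _ = 3 * lam := by
                rw [hδ]
                field_simp
    simp only [hh, pow_one]
    calc A / (p : ℝ) * (p : ℝ) ^ δ ≤ (A / (p : ℝ)) * Real.exp (3 * lam) :=
          mul_le_mul_of_nonneg_left h4 (by positivity)
      _ = _ := by ring
  calc ∑ p ∈ PS y Y, h p ≤ ∑ p ∈ PS y Y, A * Real.exp (3 * lam) * (1 / (p : ℝ)) := sum_le_sum hb
    _ = A * Real.exp (3 * lam) * ∑ p ∈ PS y Y, 1 / (p : ℝ) := by rw [mul_sum]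
    _ ≤ A * Real.exp (3 * lam) * C := mul_le_mul_of_nonneg_left (hC y Y hy hY) (by positivity)

end Pool.Agent.H64.PM
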