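import Mathlib
import Pool.Graph.R_seed8.W125.RK2.SUB4
import Pool.Agent.H64.PM.AVQ
import Pool.Agent.H64.PM.NQ1

/-!
# The average over the types of the powers of the local count
-/

set_option autoImplicit false

namespace Pool.Agent.H64.PM

open Finset Pool.Agent.W262.RK Pool.Agent.W762.RK2
open Pool.Agent.H64.MM (Vk)

/-- local conditions depending on the type -/
abbrev LCt : Type := ℕ → ℕ × Bool → Bool → Bool → Bool → Bool → Prop

/-- the local function -/
noncomputable def PhG (k : ℕ) (Ty : ℕ → Finset (ℕ × Bool)) (w : ℕ → ℝ) (Lc : LCt) : LF k :=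
  fun p v h h' => ∑ τ ∈ Ty p, w p * ∏ l, ind (Lc p τ (v l).1 (v l).2 (h l) (h' l))

/-- the choices of the types -/
def CH (Ty : ℕ → Finset (ℕ × Bool)) (z y m : ℕ) : Finset (Pr z y → ℕ × Bool) :=
  Fintype.piFinset (fun p : Pr z y => if (p : ℕ) ∣ m then Ty p else {(0, false)})

/-- extension by a default value -/
def exq {z y : ℕ} (ε : Pr z y → ℕ × Bool) (p : ℕ) : ℕ × Bool :=
  if h : p ∈ PS z y then ε ⟨p, h⟩ else (0, false)

lemma exq_coe {z y : ℕ} (ε : Pr z y → ℕ × Bool) (p : Pr z y) : exq ε p = ε p := by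
  unfold exq
  rw [dif_pos p.2]

/-- the count as a sum of products -/
lemma NL_sum (m : ℕ) (L : ℕ → Bool → Bool → Bool → Bool → Prop) :
    (NL m L : ℝ) = ∑ d ∈ m.divisors ×ˢ m.divisors,
      ∏ p ∈ m.primeFactors, ind (L p (dv p d.1) (dv p d.2) (sgn p d.1) (sgn p d.2)) := by
  classical
  unfold NL
  rw [card_filter]
  push_cast
  refine sum_congr rfl fun d _ => ?_
  by_cases h : ∀ p ∈ m.primeFactors, L p (dv p d.1) (dv p d.2) (sgn p d.1) (sgn p d.2)
  · rw [if_pos h]
    symm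
    refine prod_eq_one fun p hp => ?_
    unfold ind
    rw [if_pos (h p hp)]
  · rw [if_neg h]
    push Not at h
    obtain ⟨p, hp, h⟩ := h
    symm
    refine prod_eq_zero hp ?_
    unfold ind
    rw [if_neg h]

/-- powers of the count -/
lemma NL_pow (k m : ℕ) (L : ℕ → Bool → Bool → Bool → Bool → Prop) :
    (NL m L : ℝ) ^ k = ∑ d ∈ Fintype.piFinset (fun _ : Fin k => m.divisors ×ˢ m.divisors),
      ∏ p ∈ m.primeFactors, ∏ l, ind (L p (dv p (d l).1) (dv p (d l).2) (sgn p (d l).1)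
        (sgn p (d l).2)) := by
  have h1 : (NL m L : ℝ) ^ k = ∏ _l : Fin k, (NL m L : ℝ) := by simp
  rw [h1, prod_congr rfl fun _ _ => NL_sum m L, Finset.prod_univ_sum]
  refine sum_congr rfl fun d _ => ?_
  rw [prod_comm]

lemma prod_split {z y m s : ℕ} (hm : m ∈ (PP z y).divisors) (hs : s ∣ m) (a b : ℕ → ℝ) :
    ∏ p : Pr z y, (if (p : ℕ) ∣ s then a p else if (p : ℕ) ∣ m then b p else 1) =
      (∏ p ∈ m.primeFactors \ s.primeFactors, b p) * ∏ p ∈ s.primeFactors, a p := by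
  have hm0 := dv_ne_zero hm
  have hs0 : s ≠ 0 := fun h => hm0 (by rw [h] at hs; exact Nat.eq_zero_of_zero_dvd hs)
  have h1 : ∏ p : Pr z y, (if (p : ℕ) ∣ s then a p else if (p : ℕ) ∣ m then b p else 1) =
      ∏ p ∈ PS z y, (if p ∣ s then a p else if p ∣ m then b p else 1) := by
    rw [← Finset.prod_coe_sort (PS z y) (fun p => (if p ∣ s then a p else if p ∣ m then b p else 1))]
  have h2 : m.primeFactors ⊆ PS z y := by
    rw [← PP_primeFactors]
    exact Nat.primeFactors_mono (Nat.dvd_of_mem_divisors hm) (PP_ne_zero z y)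
  have h3 : s.primeFactors ⊆ m.primeFactors := Nat.primeFactors_mono hs hm0
  rw [h1, ← prod_subset h2, ← prod_sdiff h3]
  · congr 1
    · refine prod_congr rfl fun p hp => ?_
      rw [mem_sdiff] at hp
      have hpp := Nat.prime_of_mem_primeFactors hp.1
      rw [if_neg, if_pos (Nat.dvd_of_mem_primeFactors hp.1)]
      exact fun h => hp.2 (Nat.mem_primeFactors.2 ⟨hpp, h, hs0⟩)
    · refine prod_congr rfl fun p hp => ?_
      rw [if_pos (Nat.dvd_of_mem_primeFactors hp)]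
  · intro p hp hpm
    have hpp := (mem_PS.1 hp).2
    have h4 : ¬ p ∣ m := fun h => hpm (Nat.mem_primeFactors.2 ⟨hpp, h, hm0⟩)
    rw [if_neg (fun h => h4 (h.trans hs)), if_neg h4]

/-- the main identity -/
theorem sum_CH (k : ℕ) (Ty : ℕ → Finset (ℕ × Bool)) (w : ℕ → ℝ) (Lc : LCt) {z y m s : ℕ}
    (hm : m ∈ (PP z y).divisors) (hs : s ∣ m) :
    ∑ ε ∈ CH Ty z y m, (∏ p ∈ m.primeFactors, w p) *
      (NL s (fun p => Lc p (exq ε p)) : ℝ) ^ k =
      (∏ p ∈ m.primeFactors \ s.primeFactors, ((Ty p).card : ℝ) * w p) *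
        Gs (PhG k Ty w Lc) s := by
  classical
  have hm0 := dv_ne_zero hm
  have h1 : ∀ ε ∈ CH Ty z y m, (∏ p ∈ m.primeFactors, w p) *
      (NL s (fun p => Lc p (exq ε p)) : ℝ) ^ k =
      ∑ d ∈ Fintype.piFinset (fun _ : Fin k => s.divisors ×ˢ s.divisors),
        ∏ p : Pr z y, ((if (p : ℕ) ∣ m then w p else 1) * if (p : ℕ) ∣ s then
          ∏ l, ind (Lc p (ε p) (dv p (d l).1) (dv p (d l).2) (sgn p (d l).1)
            (sgn p (d l).2)) else 1) := by
    intro ε _
    rw [NL_pow, mul_sum]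
    refine sum_congr rfl fun d _ => ?_
    rw [prod_mul_distrib]
    congr 1
    · have h2 := prod_split hm (dvd_refl m) w w
      rw [Finset.sdiff_self, prod_empty, one_mul] at h2
      rw [← h2]
      refine prod_congr rfl fun p _ => ?_
      by_cases h3 : (p : ℕ) ∣ m
      · simp only [if_pos h3]
      · simp only [if_neg h3]
    · have hsm : s ∈ (PP z y).divisors :=
        Nat.mem_divisors.2 ⟨hs.trans (Nat.dvd_of_mem_divisors hm), PP_ne_zero z y⟩
      set a : ℕ → ℝ := fun p => ∏ l, ind (Lc p (exq ε p) (dv p (d l).1) (dv p (d l).2)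
        (sgn p (d l).1) (sgn p (d l).2)) with ha
      have h2 := prod_split hsm (dvd_refl s) a a
      rw [Finset.sdiff_self, prod_empty, one_mul] at h2
      rw [← h2]
      refine prod_congr rfl fun p _ => ?_
      by_cases h3 : (p : ℕ) ∣ s
      · rw [if_pos h3, if_pos h3]
        simp only [ha, exq_coe]
      · rw [if_neg h3, if_neg h3, if_neg h3]
  rw [sum_congr rfl h1, sum_comm]
  unfold Gs
  rw [mul_sum]
  refine sum_congr rfl fun d _ => ?_
  unfold CH
  rw [← Finset.prod_univ_sum (fun p : Pr z y => if (p : ℕ) ∣ m then Ty p else {(0, false)})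
    (fun p τ => (if (p : ℕ) ∣ m then w p else 1) * if (p : ℕ) ∣ s then
          ∏ l, ind (Lc p τ (dv p (d l).1) (dv p (d l).2) (sgn p (d l).1)
            (sgn p (d l).2)) else 1)]
  unfold loc
  rw [← prod_split hm hs]
  refine prod_congr rfl fun p _ => ?_
  by_cases h3 : (p : ℕ) ∣ s
  · have h4 : (p : ℕ) ∣ m := h3.trans hs
    rw [if_pos h3, if_pos h4]
    unfold PhG
    refine sum_congr rfl fun τ _ => ?_
    rw [if_pos h4, if_pos h3]
  · rw [if_neg h3]
    by_cases h4 : (p : ℕ) ∣ m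
    · simp only [if_pos h4, if_neg h3, mul_one, sum_const, nsmul_eq_mul]
    · rw [if_neg h4, if_neg h4, sum_singleton, if_neg h4, if_neg h3, mul_one]

variable {k : ℕ} {Ty : ℕ → Finset (ℕ × Bool)} {w : ℕ → ℝ} {Lc : LCt}

/-- the sum over the types -/
lemma Gs_eq {z y s : ℕ} (hs : s ∈ (PP z y).divisors) : Gs (PhG k Ty w Lc) s =
    ∑ ε ∈ CH Ty z y s, (∏ p ∈ s.primeFactors, w p) *
      (NL s (fun p => Lc p (exq ε p)) : ℝ) ^ k := by
  have h := sum_CH k Ty w Lc hs (dvd_refl s)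
  rw [Finset.sdiff_self, prod_empty, one_mul] at h
  exact h.symm

/-- nonnegativity -/
lemma Gs_nonneg {z y s : ℕ} (hs : s ∈ (PP z y).divisors)
    (hw : ∀ p : ℕ, p.Prime → z < p → 0 ≤ w p) : 0 ≤ Gs (PhG k Ty w Lc) s := by
  rw [Gs_eq hs]
  refine sum_nonneg fun ε _ => mul_nonneg (prod_nonneg fun p hp => ?_) (by positivity)
  have hpp := Nat.prime_of_mem_primeFactors hp
  exact hw p hpp (dv_prime hs hpp (Nat.dvd_of_mem_primeFactors hp)).1

/-- the growth -/
theorem Gs_growth {z y s e : ℕ} (hse : s * e ∣ PP z y)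
    (hw : ∀ p : ℕ, p.Prime → z < p → 0 ≤ w p) {A : ℝ}
    (hA : ∀ p : ℕ, p.Prime → z < p → (4 : ℝ) ^ k * (((Ty p).card : ℝ) * w p) ≤ A / p)
    (hXC : ∀ p : ℕ, p.Prime → z < p → ∀ τ, XC (Lc p τ)) :
    Gs (PhG k Ty w Lc) (s * e) ≤ bw A 1 e * Gs (PhG k Ty w Lc) s := by
  classical
  have hm : s * e ∈ (PP z y).divisors := Nat.mem_divisors.2 ⟨hse, PP_ne_zero z y⟩
  have hsm : s ∈ (PP z y).divisors :=
    Nat.mem_divisors.2 ⟨(Dvd.intro _ rfl).trans hse, PP_ne_zero z y⟩
  have hem : e ∈ (PP z y).divisors :=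
    Nat.mem_divisors.2 ⟨(Dvd.intro_left _ rfl).trans hse, PP_ne_zero z y⟩
  have hsq := dv_squarefree hm
  have hcop := Nat.coprime_of_squarefree_mul hsq
  have hdif : (s * e).primeFactors \ s.primeFactors = e.primeFactors := by
    rw [Nat.primeFactors_mul (dv_ne_zero hsm) (dv_ne_zero hem), union_sdiff_left]
    exact sdiff_eq_self_of_disjoint hcop.disjoint_primeFactors.symm
  have h1 := sum_CH k Ty w Lc hm (Dvd.intro e rfl)
  rw [hdif] at h1
  have hpw : 0 ≤ ∏ p ∈ (s * e).primeFactors, w p := prod_nonneg fun p hp => by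
    have hpp := Nat.prime_of_mem_primeFactors hp
    exact hw p hpp (dv_prime hm hpp (Nat.dvd_of_mem_primeFactors hp)).1
  have hG0 : 0 ≤ Gs (PhG k Ty w Lc) s := Gs_nonneg hsm hw
  have h2 : ∀ ε ∈ CH Ty z y (s * e), (∏ p ∈ (s * e).primeFactors, w p) *
      (NL (s * e) (fun p => Lc p (exq ε p)) : ℝ) ^ k ≤
      (4 ^ k) ^ e.primeFactors.card * ((∏ p ∈ (s * e).primeFactors, w p) *
      (NL s (fun p => Lc p (exq ε p)) : ℝ) ^ k) := by
    intro ε _
    have h3 := Pool.Agent.W125.RK2.sub4 s e (fun p => Lc p (exq ε p)) hsq (fun p hp hps =>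
      hXC p hp (dv_prime hsm hp hps).1 _)
    have h4 : (NL (s * e) (fun p => Lc p (exq ε p)) : ℝ) ≤
        4 ^ e.primeFactors.card * (NL s (fun p => Lc p (exq ε p)) : ℝ) := by exact_mod_cast h3
    calc (∏ p ∈ (s * e).primeFactors, w p) * (NL (s * e) (fun p => Lc p (exq ε p)) : ℝ) ^ k
        ≤ (∏ p ∈ (s * e).primeFactors, w p) *
          (4 ^ e.primeFactors.card * (NL s (fun p => Lc p (exq ε p)) : ℝ)) ^ k := by
          refine mul_le_mul_of_nonneg_left ?_ hpw
          exact pow_le_pow_left₀ (Nat.cast_nonneg _) h4 k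
      _ = _ := by
          rw [mul_pow, ← pow_mul, ← pow_mul, mul_comm k]
          ring
  rw [Gs_eq hm]
  refine (sum_le_sum h2).trans ?_
  rw [← mul_sum, h1, ← mul_assoc]
  refine mul_le_mul_of_nonneg_right ?_ hG0
  rw [bw_eq 1 (dv_squarefree hem), ← prod_const, ← prod_mul_distrib]
  refine prod_le_prod (fun p hp => ?_) fun p hp => ?_
  · have hpp := Nat.prime_of_mem_primeFactors hp
    have := hw p hpp (dv_prime hem hpp (Nat.dvd_of_mem_primeFactors hp)).1
    positivity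
  · have hpp := Nat.prime_of_mem_primeFactors hp
    have h3 := hA p hpp (dv_prime hem hpp (Nat.dvd_of_mem_primeFactors hp)).1
    rwa [pow_one]

end Pool.Agent.H64.PM
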