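import Mathlib
import Pool.Graph.R_seed8.W262.RK.Bas
import Pool.Graph.R_seed8.H373R2.T7.Fund

/-!
# Upper bound sieve for a polynomial in a residue class
-/

set_option autoImplicit false

namespace Pool.Agent.H64.PM

open Finset Pool.Agent.W262.RK Polynomial
open Pool.Agent.H373R2.T7 (nuB PerB pz mem_pz sys_fund)

/-- the roots modulo `p` -/
noncomputable def Zr (f : ℤ[X]) (p : ℕ) : Finset ℕ :=
  (range p).filter (fun x : ℕ => (p : ℤ) ∣ f.eval (x : ℤ))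

/-- the number of the roots -/
noncomputable def rho (f : ℤ[X]) (p : ℕ) : ℕ := (Zr f p).card

lemma dvd_congr (f : ℤ[X]) {q a b : ℤ} (h : q ∣ a - b) : q ∣ f.eval a ↔ q ∣ f.eval b := by
  have h1 : q ∣ f.eval a - f.eval b := h.trans (Polynomial.sub_dvd_eval_sub a b f)
  exact ⟨fun h2 => by simpa using dvd_sub h2 h1, fun h2 => by simpa using dvd_add h2 h1⟩

/-- the sifting conditions -/
def QF (f : ℤ[X]) (z y : ℕ) (r m : ℤ) (p n : ℕ) : Prop :=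
  p ∈ PS z y ∧ ¬ (p : ℤ) ∣ m ∧ (p : ℤ) ∣ f.eval (r + m * ((n : ℤ) - 1))

lemma nu_QF (f : ℤ[X]) {z y p : ℕ} (r m : ℤ) (hp : p ∈ PS z y) (hm : ¬ (p : ℤ) ∣ m) :
    nuB (QF f z y r m) p = rho f p := by
  classical
  have hpp : p.Prime := (mem_PS.1 hp).2
  have : Fact p.Prime := ⟨hpp⟩
  have hm' : (m : ZMod p) ≠ 0 := fun h => hm ((ZMod.intCast_zmod_eq_zero_iff_dvd _ _).1 h)
  have key : ∀ a b : ℤ, (a : ZMod p) = (b : ZMod p) → (p : ℤ) ∣ a - b := by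
    intro a b h
    rw [← ZMod.intCast_zmod_eq_zero_iff_dvd]
    push_cast
    rw [h, sub_self]
  unfold nuB rho Zr
  refine card_nbij' (fun n : ℕ => (((r : ZMod p) + m * ((n : ZMod p) - 1))).val)
    (fun x : ℕ => ((1 : ZMod p) + (m : ZMod p)⁻¹ * ((x : ZMod p) - r)).val) ?_ ?_ ?_ ?_
  · intro n hn
    rw [mem_coe, mem_filter] at hn
    rw [mem_coe, mem_filter]
    refine ⟨mem_range.2 (ZMod.val_lt _), ?_⟩
    refine (dvd_congr f (key _ _ ?_)).1 hn.2.2.2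
    push_cast
    rw [ZMod.natCast_zmod_val]
  · intro x hx
    rw [mem_coe, mem_filter] at hx
    rw [mem_coe, mem_filter]
    refine ⟨mem_range.2 (ZMod.val_lt _), hp, hm, ?_⟩
    refine (dvd_congr f (key _ _ ?_)).1 hx.2
    push_cast
    rw [ZMod.natCast_zmod_val]
    field_simp
    ring
  · intro n hn
    rw [mem_coe, mem_filter, mem_range] at hn
    show ((1 : ZMod p) + (m : ZMod p)⁻¹ * (((((r : ZMod p) + m * ((n : ZMod p) - 1))).val : ZMod p)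
      - r)).val = n
    rw [ZMod.natCast_zmod_val]
    have : (1 : ZMod p) + (m : ZMod p)⁻¹ * ((r : ZMod p) + m * ((n : ZMod p) - 1) - r) = n := by
      field_simp
      ring
    rw [this]
    exact ZMod.val_natCast_of_lt hn.1
  · intro x hx
    rw [mem_coe, mem_filter, mem_range] at hx
    show ((r : ZMod p) + m * ((((1 : ZMod p) + (m : ZMod p)⁻¹ * ((x : ZMod p) - r)).val : ZMod p)
      - 1)).val = x
    rw [ZMod.natCast_zmod_val]
    have : (r : ZMod p) + m * ((1 : ZMod p) + (m : ZMod p)⁻¹ * ((x : ZMod p) - r) - 1) = x := by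
      field_simp
      ring
    rw [this]
    exact ZMod.val_natCast_of_lt hx.1

lemma nu_QF0 (f : ℤ[X]) {z y p : ℕ} (r m : ℤ) (hp : ¬ (p ∈ PS z y ∧ ¬ (p : ℤ) ∣ m)) :
    nuB (QF f z y r m) p = 0 := by
  classical
  unfold nuB
  rw [card_eq_zero, filter_eq_empty_iff]
  intro n _ hn
  exact hp ⟨hn.1, hn.2.1⟩

lemma QF_per (f : ℤ[X]) (z y : ℕ) (r m : ℤ) (p n : ℕ) :
    QF f z y r m p n ↔ QF f z y r m p (n % p) := by
  unfold QF
  refine and_congr_right fun _ => and_congr_right fun _ => dvd_congr f ?_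
  have h : ((n % p : ℕ) : ℤ) = (n : ℤ) - p * (n / p : ℕ) := by
    have := Nat.mod_add_div n p
    zify at this ⊢
    linarith
  rw [h]
  exact ⟨m * (n / p : ℕ), by ring⟩

open Classical in
lemma count_QF (f : ℤ[X]) (z y X m r : ℕ) :
    ((Icc 1 X).filter (fun t : ℕ => t ≡ r [MOD m] ∧ ∀ p ∈ PS z y, ¬ p ∣ m →
      ¬ (p : ℤ) ∣ f.eval (t : ℤ))).card ≤
      ((Icc 1 (X / m + 1)).filter
        (fun n : ℕ => ∀ p ∈ pz y, ¬ QF f z y ((r % m : ℕ) : ℤ) m p n)).card := by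
  apply card_le_card_of_injOn (fun t => t / m + 1)
  · intro t ht
    have ht' := Finset.mem_coe.1 ht
    have htX := mem_Icc.1 (mem_filter.1 ht').1
    obtain ⟨hmod, hnd⟩ := (mem_filter.1 ht').2
    rw [Finset.mem_coe, mem_filter, mem_Icc]
    refine ⟨⟨Nat.le_add_left 1 _, Nat.succ_le_succ (Nat.div_le_div_right htX.2)⟩, fun p _ hQ => ?_⟩
    obtain ⟨hpPS, hpm, hj⟩ := hQ
    have e : ((r % m : ℕ) : ℤ) + (m : ℤ) * (((t / m + 1 : ℕ) : ℤ) - 1) = (t : ℤ) := by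
      have h1 : t % m = r % m := hmod
      rw [← h1]
      have := Nat.mod_add_div t m
      push_cast
      zify at this
      linarith
    rw [e] at hj
    exact hnd p hpPS (fun h => hpm (Int.natCast_dvd_natCast.2 h)) hj
  · intro a ha b hb hab
    have ha' : a % m = r % m := (mem_filter.1 (Finset.mem_coe.1 ha)).2.1
    have hb' : b % m = r % m := (mem_filter.1 (Finset.mem_coe.1 hb)).2.1
    simp only at hab
    have h1 : a / m = b / m := by omega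
    rw [← Nat.mod_add_div a m, ← Nat.mod_add_div b m, ha', hb', h1]

/-- `1 - x ≥ e^{-2x}` -/
lemma one_sub_ge {x : ℝ} (h0 : 0 ≤ x) (h1 : x ≤ 1 / 2) : Real.exp (-(2 * x)) ≤ 1 - x := by
  have h2 : 1 + 2 * x ≤ Real.exp (2 * x) := by
    have := Real.add_one_le_exp (2 * x)
    linarith
  rw [Real.exp_neg, inv_le_comm₀ (Real.exp_pos _) (by linarith)]
  refine le_trans ?_ h2
  rw [inv_le_iff_one_le_mul₀ (by linarith)]
  nlinarith

/-- the harmonic bound -/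
lemma harm (z y : ℕ) (hy : 1 ≤ y) : ∑ p ∈ PS z y, 1 / (p : ℝ) ≤ 1 + Real.log y := by
  have h1 : ∑ p ∈ PS z y, 1 / (p : ℝ) ≤ ∑ p ∈ Icc 1 y, ((p : ℝ))⁻¹ := by
    simp only [one_div]
    refine sum_le_sum_of_subset_of_nonneg ?_ fun _ _ _ => by positivity
    intro p hp
    have h := mem_PS.1 hp
    exact mem_Icc.2 ⟨h.2.one_lt.le, h.1.2⟩
  have h2 := harmonic_le_one_add_log y
  rw [harmonic_eq_sum_Icc] at h2
  push_cast at h2
  exact h1.trans h2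

/-- the product over the primes is not too small -/
lemma prod_ge (f : ℤ[X]) {n z : ℕ} (hn : 2 * n + 2 ≤ z)
    (hρ : ∀ p : ℕ, p.Prime → z < p → rho f p ≤ n) {y : ℕ} (hy : 3 ≤ y) (S : Finset ℕ)
    (hS : S ⊆ PS z y) : ((y : ℝ) ^ (4 * n))⁻¹ ≤ ∏ p ∈ S, (1 - (rho f p : ℝ) / p) := by
  have hyr : (3 : ℝ) ≤ y := by exact_mod_cast hy
  have hl1 : 1 < Real.log y := by
    rw [Real.lt_log_iff_exp_lt (by linarith)]
    have := Real.exp_one_lt_d9
    linarith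
  have h1 : ∀ p ∈ S, Real.exp (-(2 * ((n : ℝ) / p))) ≤ 1 - (rho f p : ℝ) / p := by
    intro p hp
    have h2 := mem_PS.1 (hS hp)
    have hp0 : (0 : ℝ) < p := by exact_mod_cast h2.2.pos
    have h3 : (n : ℝ) / p ≤ 1 / 2 := by
      rw [div_le_div_iff₀ hp0 (by norm_num)]
      have : 2 * n ≤ p := by omega
      have h4 : (2 : ℝ) * n ≤ p := by exact_mod_cast this
      linarith
    refine (one_sub_ge (by positivity) h3).trans ?_
    have h5 : (rho f p : ℝ) ≤ n := by exact_mod_cast hρ p h2.2 h2.1.1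
    have h6 : (rho f p : ℝ) / p ≤ n / p := div_le_div_of_nonneg_right h5 hp0.le
    linarith
  refine le_trans ?_ (prod_le_prod (fun p _ => (Real.exp_pos _).le) h1)
  rw [← Real.exp_sum]
  have h2 : ((y : ℝ) ^ (4 * n))⁻¹ = Real.exp (-(4 * n * Real.log y)) := by
    rw [Real.exp_neg]
    congr 1
    rw [← Real.exp_log (show (0 : ℝ) < y by linarith), ← Real.exp_nat_mul, Real.log_exp]
    push_cast
    ring_nf
  rw [h2]
  apply Real.exp_le_exp.2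
  rw [sum_neg_distrib, neg_le_neg_iff, ← mul_sum]
  have h3 : ∑ p ∈ S, (n : ℝ) / p = n * ∑ p ∈ S, 1 / (p : ℝ) := by
    rw [mul_sum]
    refine sum_congr rfl fun p _ => ?_
    rw [mul_one_div]
  have h4 : ∑ p ∈ S, 1 / (p : ℝ) ≤ 2 * Real.log y := by
    have h5 : ∑ p ∈ S, 1 / (p : ℝ) ≤ ∑ p ∈ PS z y, 1 / (p : ℝ) :=
      sum_le_sum_of_subset_of_nonneg hS fun _ _ _ => by positivity
    have h6 := harm z y (by omega)
    linarith
  rw [h3]
  have hn0 : (0 : ℝ) ≤ n := Nat.cast_nonneg n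
  nlinarith

set_option maxHeartbeats 1000000 in
/-- upper bound sieve in a residue class -/
theorem svq (f : ℤ[X]) (n z : ℕ) (hn : 2 * n + 2 ≤ z)
    (hρ : ∀ p : ℕ, p.Prime → z < p → rho f p ≤ n) :
    ∃ (C : ℝ) (K y0 : ℕ), 0 ≤ C ∧ 1 ≤ K ∧ ∀ X y : ℕ, y0 ≤ y → z < y → y ^ K ≤ X →
    ∀ m r : ℕ, 1 ≤ m → m ^ 4 ≤ X →
    (((Icc 1 X).filter (fun t : ℕ => t ≡ r [MOD m] ∧ ∀ p ∈ PS z y, ¬ p ∣ m →
      ¬ (p : ℤ) ∣ f.eval (t : ℤ))).card : ℝ) ≤
      C * (X / m) * ∏ p ∈ (PS z y).filter (fun p => ¬ p ∣ m), (1 - (rho f p : ℝ) / p) := by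
  classical
  obtain ⟨K', x0', hK', hF⟩ := sys_fund (n + 1) (by omega) 1 one_pos
  refine ⟨5, 2 * (K' + 4 * n), max x0' 3, by norm_num, by omega,
    fun X y hy hzy hyX m r hm1 hmX4 => ?_⟩
  have hy0 : x0' ≤ y := (le_max_left _ _).trans hy
  have hy3 : 3 ≤ y := (le_max_right _ _).trans hy
  have hmpos : 0 < m := hm1
  have hr := count_QF f z y X m r
  have hPer : PerB (QF f z y ((r % m : ℕ) : ℤ) m) (n + 1) := by
    refine ⟨fun p k => QF_per f z y _ m p k, fun p _ => ?_⟩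
    by_cases h : p ∈ PS z y ∧ ¬ (p : ℤ) ∣ (m : ℤ)
    · rw [nu_QF f _ _ h.1 h.2]
      exact (hρ p (mem_PS.1 h.1).2 (mem_PS.1 h.1).1.1).trans (Nat.le_succ n)
    · rw [nu_QF0 f _ _ h]
      exact Nat.zero_le _
  have hfund := hF (y ^ K') y hy0 le_rfl (QF f z y ((r % m : ℕ) : ℤ) m) hPer (X / m + 1)
  have hprod : ∏ p ∈ pz y,
      (1 - ((nuB (QF f z y ((r % m : ℕ) : ℤ) m) p : ℕ) : ℝ) / p) =
      ∏ p ∈ (PS z y).filter (fun p => ¬ p ∣ m), (1 - (rho f p : ℝ) / p) := by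
    have h1 : ∏ p ∈ (PS z y).filter (fun p => ¬ p ∣ m),
        (1 - ((nuB (QF f z y ((r % m : ℕ) : ℤ) m) p : ℕ) : ℝ) / p) =
        ∏ p ∈ pz y, (1 - ((nuB (QF f z y ((r % m : ℕ) : ℤ) m) p : ℕ) : ℝ) / p) := by
      apply prod_subset
      · intro p hp
        rw [mem_filter, mem_PS] at hp
        exact mem_pz.2 ⟨hp.1.1.2, hp.1.2⟩
      · intro p _ hp
        rw [mem_filter] at hp
        rw [nu_QF0 f _ _ (fun h => hp ⟨h.1, fun h2 => h.2 (Int.natCast_dvd_natCast.2 h2)⟩)]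
        simp
    rw [← h1]
    refine prod_congr rfl fun p hp => ?_
    rw [mem_filter] at hp
    rw [nu_QF f _ _ hp.1 (fun h => hp.2 (Int.natCast_dvd_natCast.1 h))]
  rw [hprod] at hfund
  obtain ⟨A, hA⟩ : ∃ A : ℝ, A = ∏ p ∈ (PS z y).filter (fun p => ¬ p ∣ m),
      (1 - (rho f p : ℝ) / p) := ⟨_, rfl⟩
  rw [← hA] at hfund ⊢
  have hAge : ((y : ℝ) ^ (4 * n))⁻¹ ≤ A := by
    rw [hA]
    exact prod_ge f hn hρ hy3 _ (filter_subset _ _)
  have hyr : (3 : ℝ) ≤ y := by exact_mod_cast hy3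
  have hApos : 0 < A := lt_of_lt_of_le (by positivity) hAge
  have hmX : m * y ^ (K' + 4 * n) ≤ X := by
    have h1 : (m * y ^ (K' + 4 * n)) ^ 4 ≤ X ^ 4 := by
      calc (m * y ^ (K' + 4 * n)) ^ 4 = m ^ 4 * (y ^ (K' + 4 * n)) ^ 4 := by rw [mul_pow]
        _ ≤ m ^ 4 * (y ^ (K' + 4 * n)) ^ 6 := by
          apply Nat.mul_le_mul_left
          exact Nat.pow_le_pow_right (pow_pos (by omega) _) (by norm_num)
        _ = m ^ 4 * (y ^ (2 * (K' + 4 * n))) ^ 3 := by ring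
        _ ≤ X * X ^ 3 := Nat.mul_le_mul hmX4 (Nat.pow_le_pow_left hyX 3)
        _ = X ^ 4 := by ring
    exact (Nat.pow_le_pow_iff_left (by norm_num)).1 h1
  have hmX' : m ≤ X := by
    refine le_trans ?_ hmX
    exact Nat.le_mul_of_pos_right _ (pow_pos (by omega) _)
  have hmr : (0 : ℝ) < m := by exact_mod_cast hmpos
  have hcnt : (((Icc 1 X).filter (fun t : ℕ => t ≡ r [MOD m] ∧ ∀ p ∈ PS z y, ¬ p ∣ m →
      ¬ (p : ℤ) ∣ f.eval (t : ℤ))).card : ℝ) ≤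
      2 * (((X / m + 1 : ℕ) : ℝ) * A) + √((y ^ K' : ℕ) : ℝ) := by
    have h1 : (((Icc 1 X).filter (fun t : ℕ => t ≡ r [MOD m] ∧ ∀ p ∈ PS z y, ¬ p ∣ m →
        ¬ (p : ℤ) ∣ f.eval (t : ℤ))).card : ℝ) ≤
      (((Icc 1 (X / m + 1)).filter
        (fun k : ℕ => ∀ p ∈ pz y, ¬ QF f z y ((r % m : ℕ) : ℤ) m p k)).card : ℝ) := by
      exact_mod_cast hr
    have h2 := (abs_le.1 hfund).2
    rw [one_mul] at h2
    linarith
  have hX' : ((X / m + 1 : ℕ) : ℝ) ≤ 2 * (X / m) := by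
    have h1 : (X / m + 1) * m ≤ 2 * X := by
      have := Nat.div_mul_le_self X m
      rw [add_mul, one_mul]
      omega
    have h2 : ((X / m + 1 : ℕ) : ℝ) * m ≤ 2 * X := by exact_mod_cast h1
    rw [← mul_div_assoc, le_div_iff₀ hmr]
    exact h2
  have hsq : √((y ^ K' : ℕ) : ℝ) ≤ (X / m) * A := by
    have h1 : (1 : ℝ) ≤ ((y ^ K' : ℕ) : ℝ) := by
      exact_mod_cast Nat.one_le_iff_ne_zero.2 (pow_ne_zero _ (by omega))
    have h2 : √((y ^ K' : ℕ) : ℝ) ≤ ((y ^ K' : ℕ) : ℝ) := by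
      rw [Real.sqrt_le_left (by linarith)]
      nlinarith
    refine h2.trans ?_
    have h4 : (m : ℝ) * (y : ℝ) ^ (K' + 4 * n) ≤ X := by exact_mod_cast hmX
    have h5 : (y : ℝ) ^ (K' + 4 * n) ≤ X / m := by
      rw [le_div_iff₀ hmr, mul_comm]
      exact h4
    push_cast
    calc (y : ℝ) ^ K' = (y : ℝ) ^ (K' + 4 * n) * ((y : ℝ) ^ (4 * n))⁻¹ := by
          rw [pow_add, mul_assoc, mul_inv_cancel₀ (by positivity), mul_one]
      _ ≤ (X / m) * A := by gcongr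
  calc (((Icc 1 X).filter (fun t : ℕ => t ≡ r [MOD m] ∧ ∀ p ∈ PS z y, ¬ p ∣ m →
      ¬ (p : ℤ) ∣ f.eval (t : ℤ))).card : ℝ)
      ≤ 2 * (((X / m + 1 : ℕ) : ℝ) * A) + √((y ^ K' : ℕ) : ℝ) := hcnt
    _ ≤ 2 * ((2 * (X / m)) * A) + (X / m) * A := by gcongr
    _ = 5 * (X / m) * A := by ring

/-- the number of the residue classes -/
lemma card_crt (T : Finset ℕ) (e : ℕ → ℕ) (Ω : ℕ → Finset ℕ) (hT : ∀ p ∈ T, p.Prime) :
    ((range (∏ p ∈ T, p ^ e p)).filter (fun r => ∀ p ∈ T, r % p ^ e p ∈ Ω p)).card ≤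
      ∏ p ∈ T, (Ω p).card := by
  classical
  rw [← card_pi]
  refine card_le_card_of_injOn (fun r => fun p _ => r % p ^ e p) ?_ ?_
  · intro r hr
    rw [mem_coe, mem_filter] at hr
    rw [mem_coe, mem_pi]
    exact hr.2
  · intro a ha b hb hab
    rw [mem_coe, mem_filter, mem_range] at ha hb
    have h1 : ∀ p ∈ T, a ≡ b [MOD p ^ e p] := by
      intro p hp
      exact congrFun (congrFun hab p) hp
    have h2 : ((∏ p ∈ T, p ^ e p : ℕ) : ℤ) ∣ (a : ℤ) - b := by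
      rw [Nat.cast_prod]
      apply Finset.prod_dvd_of_coprime
      · intro p hp q hq hpq
        rw [Function.onFun, Nat.isCoprime_iff_coprime]
        exact Nat.Coprime.pow _ _ ((Nat.coprime_primes (hT p hp) (hT q hq)).2 hpq)
      · intro p hp
        exact (Nat.modEq_iff_dvd.1 (h1 p hp).symm)
    have h3 : b ≡ a [MOD ∏ p ∈ T, p ^ e p] := Nat.modEq_iff_dvd.2 h2
    exact (Nat.ModEq.eq_of_lt_of_lt h3 hb.1 ha.1).symm

/-- the count with prescribed residue classes -/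
theorem cntq (f : ℤ[X]) (n z : ℕ) (hn : 2 * n + 2 ≤ z)
    (hρ : ∀ p : ℕ, p.Prime → z < p → rho f p ≤ n) :
    ∃ (C : ℝ) (K y0 : ℕ), 0 ≤ C ∧ 1 ≤ K ∧ ∀ X y : ℕ, y0 ≤ y → z < y → y ^ K ≤ X →
    ∀ (T : Finset ℕ) (e : ℕ → ℕ) (Ω : ℕ → Finset ℕ), (∀ p ∈ T, p.Prime) → (∀ p ∈ T, 1 ≤ e p) →
    (∏ p ∈ T, p ^ e p) ^ 4 ≤ X →
    (((Icc 1 X).filter (fun t : ℕ => (∀ p ∈ T, t % p ^ e p ∈ Ω p) ∧ ∀ p ∈ PS z y, p ∉ T →
      ¬ (p : ℤ) ∣ f.eval (t : ℤ))).card : ℝ) ≤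
      C * X * (∏ p ∈ T, ((Ω p).card : ℝ) / (p : ℝ) ^ e p) *
        ∏ p ∈ (PS z y).filter (fun p => p ∉ T), (1 - (rho f p : ℝ) / p) := by
  classical
  obtain ⟨C, K, y0, hC, hK, h⟩ := svq f n z hn hρ
  refine ⟨C, K, y0, hC, hK, fun X y hy hzy hyX T e Ω hT he hX4 => ?_⟩
  set m := ∏ p ∈ T, p ^ e p with hm
  have hm0 : m ≠ 0 := prod_ne_zero_iff.2 fun p hp => pow_ne_zero _ (hT p hp).ne_zero
  have hm1 : 1 ≤ m := Nat.one_le_iff_ne_zero.2 hm0
  have hdiv : ∀ p : ℕ, p.Prime → (p ∣ m ↔ p ∈ T) := by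
    intro p hp
    constructor
    · intro hd
      obtain ⟨q, hq, hpq⟩ := (hp.prime.dvd_finsetProd_iff _).1 hd
      have := hp.dvd_of_dvd_pow hpq
      rwa [(Nat.prime_dvd_prime_iff_eq hp (hT q hq)).1 this]
    · intro hpT
      exact (dvd_pow_self p (by have := he p hpT; omega)).trans
        (dvd_prod_of_mem (fun p => p ^ e p) hpT)
  set R := (range m).filter (fun r => ∀ p ∈ T, r % p ^ e p ∈ Ω p) with hR
  set S := (Icc 1 X).filter (fun t : ℕ => (∀ p ∈ T, t % p ^ e p ∈ Ω p) ∧ ∀ p ∈ PS z y, p ∉ T →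
      ¬ (p : ℤ) ∣ f.eval (t : ℤ)) with hS
  set P : ℝ := ∏ p ∈ (PS z y).filter (fun p => p ∉ T), (1 - (rho f p : ℝ) / p) with hP
  have hPm : ∏ p ∈ (PS z y).filter (fun p => ¬ p ∣ m), (1 - (rho f p : ℝ) / p) = P := by
    rw [hP]
    congr 1
    refine filter_congr fun p hp => ?_
    rw [hdiv p (mem_PS.1 hp).2]
  have hP0 : 0 ≤ P := by
    refine prod_nonneg fun p hp => ?_
    have h1 := mem_PS.1 (mem_filter.1 hp).1
    have h2 := hρ p h1.2 h1.1.1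
    have hp0 : (0 : ℝ) < p := by exact_mod_cast h1.2.pos
    rw [sub_nonneg, div_le_one hp0]
    exact_mod_cast (by omega : rho f p ≤ p)
  have h1 : (S.card : ℝ) ≤ ∑ r ∈ R, (((Icc 1 X).filter (fun t : ℕ => t ≡ r [MOD m] ∧
      ∀ p ∈ PS z y, ¬ p ∣ m → ¬ (p : ℤ) ∣ f.eval (t : ℤ))).card : ℝ) := by
    have hmaps : ∀ t ∈ S, t % m ∈ R := by
      intro t ht
      rw [hS, mem_filter] at ht
      rw [hR, mem_filter, mem_range]
      refine ⟨Nat.mod_lt _ hm1, fun p hp => ?_⟩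
      rw [Nat.mod_mod_of_dvd _ (dvd_prod_of_mem (fun p => p ^ e p) hp)]
      exact ht.2.1 p hp
    rw [card_eq_sum_card_fiberwise hmaps]
    push_cast
    refine sum_le_sum fun r hr => ?_
    have h2 : (S.filter (fun t => t % m = r)) ⊆ (Icc 1 X).filter (fun t : ℕ => t ≡ r [MOD m] ∧
      ∀ p ∈ PS z y, ¬ p ∣ m → ¬ (p : ℤ) ∣ f.eval (t : ℤ)) := by
      intro t ht
      rw [mem_filter, hS, mem_filter] at ht
      rw [mem_filter]
      refine ⟨ht.1.1, ?_, fun p hp hpm => ht.1.2.2 p hp fun h3 => hpm ?_⟩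
      · have h3 : r < m := mem_range.1 (mem_filter.1 hr).1
        show t % m = r % m
        rw [ht.2, Nat.mod_eq_of_lt h3]
      · exact (hdiv p (mem_PS.1 hp).2).2 h3
    exact_mod_cast card_le_card h2
  have h2 : ∀ r ∈ R, (((Icc 1 X).filter (fun t : ℕ => t ≡ r [MOD m] ∧
      ∀ p ∈ PS z y, ¬ p ∣ m → ¬ (p : ℤ) ∣ f.eval (t : ℤ))).card : ℝ) ≤ C * (X / m) * P := by
    intro r _
    have h3 := h X y hy hzy hyX m r hm1 hX4
    rwa [hPm] at h3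
  have h3 : (R.card : ℝ) ≤ ∏ p ∈ T, ((Ω p).card : ℝ) := by
    exact_mod_cast card_crt T e Ω hT
  have hmr : (0 : ℝ) < m := by exact_mod_cast hm1
  calc (S.card : ℝ) ≤ ∑ _r ∈ R, C * (X / m) * P := h1.trans (sum_le_sum h2)
    _ = R.card * (C * (X / m) * P) := by rw [sum_const, nsmul_eq_mul]
    _ ≤ (∏ p ∈ T, ((Ω p).card : ℝ)) * (C * (X / m) * P) := by gcongr
    _ = C * X * (∏ p ∈ T, ((Ω p).card : ℝ) / (p : ℝ) ^ e p) * P := by
        rw [prod_div_distrib, hm]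
        push_cast
        ring

end Pool.Agent.H64.PM
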