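import Mathlib
import Pool.Graph.R_seed8.W372.RK2.CNT4
import Pool.Agent.H64.PM.CQ1
import Pool.Agent.H64.PM.NQ2
import Pool.Agent.H64.PM.AG1

/-!
# The number of `t` in the cells
-/

set_option autoImplicit false

namespace Pool.Agent.H64.PM

open Finset Pool.Agent.W262.RK Polynomial

/-- the type of `t` at `p`: the residue and the sign of the quotient -/
noncomputable def ty (f : ℤ[X]) (p : ℕ) (t : ℕ) : ℕ × Bool :=
  (t % p, decide (jacobiSym (f.eval (t : ℤ) / p) p = -1))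

/-- simple roots -/
def Smp (f : ℤ[X]) (z : ℕ) : Prop := ∀ p : ℕ, p.Prime → z < p → ∀ x : ℤ, (p : ℤ) ∣ f.eval x →
  ¬ (p : ℤ) ∣ f.derivative.eval x

/-- the residues of a given type -/
noncomputable def Om (f : ℤ[X]) (p : ℕ) (τ : ℕ × Bool) : Finset ℕ :=
  (range (p ^ 2)).filter (fun r : ℕ => (p : ℤ) ∣ f.eval (r : ℤ) ∧ ¬ (p : ℤ) ^ 2 ∣ f.eval (r : ℤ) ∧
    ty f p r = τ)

/-- the residues with `p ^ 2 ∣ f` -/
noncomputable def Om2 (f : ℤ[X]) (p : ℕ) : Finset ℕ :=
  (range (p ^ 2)).filter (fun r : ℕ => (p : ℤ) ^ 2 ∣ f.eval (r : ℤ))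

lemma lift_inj {f : ℤ[X]} {z p : ℕ} (hf : Smp f z) (hp : p.Prime) (hz : z < p) {r r' : ℕ}
    (hr : r < p ^ 2) (hr' : r' < p ^ 2) (h1 : (p : ℤ) ∣ f.eval (r : ℤ)) (hm : r % p = r' % p)
    (h2 : (p : ℤ) ^ 2 ∣ f.eval (r' : ℤ) - f.eval (r : ℤ)) : r = r' := by
  have hpi : Prime (p : ℤ) := Nat.prime_iff_prime_int.1 hp
  obtain ⟨k, hk⟩ := Polynomial.binomExpansion f (r : ℤ) ((r' : ℤ) - r)
  have hd : (p : ℤ) ∣ (r' : ℤ) - r := by
    have h3 : r ≡ r' [MOD p] := hm
    exact Nat.modEq_iff_dvd.1 h3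
  obtain ⟨h, hh⟩ := hd
  have e1 : (r : ℤ) + ((r' : ℤ) - r) = r' := by ring
  rw [e1] at hk
  have h3 : (p : ℤ) ^ 2 ∣ f.derivative.eval (r : ℤ) * ((r' : ℤ) - r) := by
    have h4 : f.derivative.eval (r : ℤ) * ((r' : ℤ) - r) =
        (f.eval (r' : ℤ) - f.eval (r : ℤ)) - k * ((r' : ℤ) - r) ^ 2 := by
      linear_combination -hk
    rw [h4]
    refine dvd_sub h2 ?_
    rw [hh, mul_pow]
    exact (dvd_mul_right _ _).mul_left _
  have h5 : IsCoprime ((p : ℤ) ^ 2) (f.derivative.eval (r : ℤ)) :=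
    IsCoprime.pow_left ((Prime.coprime_iff_not_dvd hpi).2 (hf p hp hz _ h1))
  have h6 : (p : ℤ) ^ 2 ∣ (r' : ℤ) - r := h5.dvd_of_dvd_mul_left h3
  have h7 : r ≡ r' [MOD p ^ 2] := by
    apply Nat.modEq_iff_dvd.2
    exact_mod_cast h6
  exact Nat.ModEq.eq_of_lt_of_lt h7 hr hr'

lemma card_Om {f : ℤ[X]} {z p : ℕ} (hf : Smp f z) (hp : p.Prime) (hz : z < p) (hp2 : p ≠ 2)
    (τ : ℕ × Bool) : 2 * (Om f p τ).card ≤ p - 1 := by
  classical
  have hpi : Prime (p : ℤ) := Nat.prime_iff_prime_int.1 hp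
  have hp0 : (p : ℤ) ≠ 0 := hpi.ne_zero
  have hppos : (0 : ℤ) < p := by exact_mod_cast hp.pos
  set e : ℤ := if τ.2 = true then -1 else 1 with he
  have he' : e = 1 ∨ e = -1 := by
    rw [he]
    split_ifs
    · exact Or.inr rfl
    · exact Or.inl rfl
  rw [← Pool.Agent.W372.RK2.card_W hp hp2 e he']
  refine Nat.mul_le_mul_left 2 ?_
  refine card_le_card_of_injOn (fun r : ℕ => ((f.eval (r : ℤ) / p) % p).toNat) ?_ ?_
  · intro r hr
    rw [mem_coe, Om, mem_filter] at hr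
    obtain ⟨_, h1, h2, h3⟩ := hr
    rw [mem_coe, mem_filter, mem_range]
    have h4 : 0 ≤ (f.eval (r : ℤ) / p) % p := Int.emod_nonneg _ hp0
    have h5 : (f.eval (r : ℤ) / p) % p < p := Int.emod_lt_of_pos _ hppos
    refine ⟨by show ((f.eval (r : ℤ) / p) % p).toNat < p; omega, ?_⟩
    show jacobiSym (((((f.eval (r : ℤ) / p) % p).toNat : ℕ) : ℤ)) p = e
    rw [Int.toNat_of_nonneg h4, ← jacobiSym.mod_left]
    have h6 : decide (jacobiSym (f.eval (r : ℤ) / p) p = -1) = τ.2 := congrArg Prod.snd h3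
    by_cases h7 : jacobiSym (f.eval (r : ℤ) / p) p = -1
    · rw [h7] at h6 ⊢
      rw [he, if_pos]
      rw [← h6]
      rfl
    · have h8 : τ.2 = false := by
        rw [← h6]
        exact decide_eq_false h7
      have h9 : (f.eval (r : ℤ) / p).gcd p = 1 := by
        rw [← Int.isCoprime_iff_gcd_eq_one]
        refine IsCoprime.symm ((Prime.coprime_iff_not_dvd hpi).2 fun h8 => h2 ?_)
        obtain ⟨q, hq⟩ := h1
        rw [hq, Int.mul_ediv_cancel_left _ hp0] at h8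
        rw [hq, pow_two]
        exact mul_dvd_mul_left _ h8
      rw [he, if_neg (by rw [h8]; decide)]
      exact (jacobiSym.eq_one_or_neg_one h9).resolve_right h7
  · intro r hr r' hr' hrr
    rw [mem_coe, Om, mem_filter, mem_range] at hr hr'
    obtain ⟨h0, h1, h2, h3⟩ := hr
    obtain ⟨h0', h1', h2', h3'⟩ := hr'
    have h4 : 0 ≤ (f.eval (r : ℤ) / p) % p := Int.emod_nonneg _ hp0
    have h4' : 0 ≤ (f.eval (r' : ℤ) / p) % p := Int.emod_nonneg _ hp0
    have h5 : (f.eval (r : ℤ) / p) % p = (f.eval (r' : ℤ) / p) % p := by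
      simp only at hrr
      omega
    have hm : r % p = r' % p := by
      have e1 : r % p = τ.1 := congrArg Prod.fst h3
      have e2 : r' % p = τ.1 := congrArg Prod.fst h3'
      rw [e1, e2]
    refine lift_inj hf hp hz h0 h0' h1 hm ?_
    have h6 : (p : ℤ) ∣ f.eval (r' : ℤ) / p - f.eval (r : ℤ) / p := by
      have := Int.emod_emod_of_dvd
      exact Int.ModEq.dvd h5
    obtain ⟨q, hq⟩ := h1
    obtain ⟨q', hq'⟩ := h1'
    rw [hq, hq', Int.mul_ediv_cancel_left _ hp0, Int.mul_ediv_cancel_left _ hp0] at h6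
    rw [hq, hq', ← mul_sub, pow_two]
    exact mul_dvd_mul_left _ h6

lemma card_Om2 {f : ℤ[X]} {z p : ℕ} (hf : Smp f z) (hp : p.Prime) (hz : z < p) :
    (Om2 f p).card ≤ rho f p := by
  unfold rho
  refine card_le_card_of_injOn (fun r => r % p) ?_ ?_
  · intro r hr
    rw [mem_coe, Om2, mem_filter] at hr
    rw [mem_coe, Zr, mem_filter, mem_range]
    refine ⟨Nat.mod_lt _ hp.pos, ?_⟩
    have h1 : (p : ℤ) ∣ f.eval (r : ℤ) := (dvd_pow_self (p : ℤ) two_ne_zero).trans hr.2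
    refine (dvd_congr f ?_).1 h1
    have h2 : ((r % p : ℕ) : ℤ) = (r : ℤ) - p * (r / p : ℕ) := by
      have := Nat.mod_add_div r p
      zify at this ⊢
      linarith
    show (p : ℤ) ∣ (r : ℤ) - ((r % p : ℕ) : ℤ)
    rw [h2]
    exact ⟨(r / p : ℕ), by ring⟩
  · intro r hr r' hr' hrr
    rw [mem_coe, Om2, mem_filter, mem_range] at hr hr'
    exact lift_inj hf hp hz hr.1 hr'.1 ((dvd_pow_self (p : ℤ) two_ne_zero).trans hr.2) hrr
      (dvd_sub hr'.2 hr.2)

/-- the weight of the types -/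
noncomputable def Wt2 (f : ℤ[X]) (p : ℕ) : ℝ := 1 / (2 * ((p : ℝ) - rho f p))

lemma rho_half {f : ℤ[X]} {n z p : ℕ} (hn : 2 * n + 2 ≤ z)
    (hρ : ∀ p : ℕ, p.Prime → z < p → rho f p ≤ n) (hp : p.Prime) (hz : z < p) :
    (0 : ℝ) < p ∧ (rho f p : ℝ) ≤ n ∧ 1 / 2 ≤ 1 - (rho f p : ℝ) / p := by
  have hp0 : (0 : ℝ) < p := by exact_mod_cast hp.pos
  have h1 : (rho f p : ℝ) ≤ n := by exact_mod_cast hρ p hp hz
  refine ⟨hp0, h1, ?_⟩
  have h2 : (2 : ℝ) * n ≤ p := by exact_mod_cast (by omega : 2 * n ≤ p)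
  have h3 : (rho f p : ℝ) / p ≤ 1 / 2 := by
    rw [div_le_div_iff₀ hp0 (by norm_num)]
    linarith
  linarith

lemma prod_le_K {f : ℤ[X]} {n z y : ℕ} (hn : 2 * n + 2 ≤ z)
    (hρ : ∀ p : ℕ, p.Prime → z < p → rho f p ≤ n) :
    ∏ p ∈ PS z y, (1 - (rho f p : ℝ) / p) ≤ 1 / Lam (fun p => (rho f p : ℝ) / p) z y := by
  have h1 : ∏ p ∈ PS z y, (1 - (rho f p : ℝ) / p) ≤
      ∏ p ∈ PS z y, Real.exp (-((rho f p : ℝ) / p)) := by
    refine prod_le_prod (fun p hp => ?_) fun p hp => ?_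
    · have h := mem_PS.1 hp
      have := (rho_half hn hρ h.2 h.1.1).2.2
      linarith
    · have := Real.add_one_le_exp (-((rho f p : ℝ) / p))
      linarith
  refine h1.trans (le_of_eq ?_)
  rw [← Real.exp_sum, sum_neg_distrib, Real.exp_neg, one_div]
  rfl

lemma q1_prime {z y p : ℕ} {N : ℤ} (hp : p.Prime) :
    p ∣ q1 z y N ↔ p ∈ PS z y ∧ (p : ℤ) ∣ N ∧ ¬ (p : ℤ) ^ 2 ∣ N := by
  unfold q1
  rw [prime_dvd_prodS (fun p hp => (mem_PS.1 (mem_filter.1 hp).1).2) hp, mem_filter]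

lemma q2_prime {z y p : ℕ} {N : ℤ} (hp : p.Prime) :
    p ∣ q2 z y N ↔ p ∈ PS z y ∧ (p : ℤ) ^ 2 ∣ N := by
  unfold q2
  rw [prime_dvd_prodS (fun p hp => (mem_PS.1 (mem_filter.1 hp).1).2) hp, mem_filter]

/-- the number of `t` in the cells with given types -/
theorem cells (f : ℤ[X]) (n z : ℕ) (hn : 2 * n + 2 ≤ z)
    (hρ : ∀ p : ℕ, p.Prime → z < p → rho f p ≤ n) (hf : Smp f z) :
    ∃ (C : ℝ) (K y0 : ℕ), 0 ≤ C ∧ 1 ≤ K ∧ ∀ X y Y : ℕ, y0 ≤ y → z < y → y ^ K ≤ X →
    ∀ s ∈ (PP z y).divisors, ∀ v ∈ (PP z y).divisors, ∀ u ∈ (PP y Y).divisors,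
    (s * v * u) ^ 8 ≤ X → ∀ ε : ℕ → ℕ × Bool,
    (((Icc 1 X).filter (fun t : ℕ => q1 z y (f.eval (t : ℤ)) = s ∧
      q2 z y (f.eval (t : ℤ)) = v ∧ (u : ℤ) ∣ f.eval (t : ℤ) ∧
      ∀ p ∈ s.primeFactors, ty f p t = ε p)).card : ℝ) ≤
      C * X * (∏ p ∈ s.primeFactors, Wt2 f p) * bw (2 * n) 2 v * bw n 1 u /
        Lam (fun p => (rho f p : ℝ) / p) z y := by
  classical
  obtain ⟨C, K, y0, hC, hK, h⟩ := cntq f n z hn hρ
  refine ⟨C, K, y0, hC, hK, fun X y Y hy hzy hyX s hs v hv u hu h8 ε => ?_⟩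
  set S := (Icc 1 X).filter (fun t : ℕ => q1 z y (f.eval (t : ℤ)) = s ∧
      q2 z y (f.eval (t : ℤ)) = v ∧ (u : ℤ) ∣ f.eval (t : ℤ) ∧
      ∀ p ∈ s.primeFactors, ty f p t = ε p) with hS
  have hLam : 0 < Lam (fun p => (rho f p : ℝ) / p) z y := Real.exp_pos _
  have hs0 := dv_ne_zero hs
  have hv0 := dv_ne_zero hv
  have hu0 := dv_ne_zero hu
  have hsz : ∀ p ∈ s.primeFactors, p.Prime ∧ z < p ∧ p ≤ y := fun p hp =>
    ⟨Nat.prime_of_mem_primeFactors hp, dv_prime hs (Nat.prime_of_mem_primeFactors hp)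
      (Nat.dvd_of_mem_primeFactors hp)⟩
  have hvz : ∀ p ∈ v.primeFactors, p.Prime ∧ z < p ∧ p ≤ y := fun p hp =>
    ⟨Nat.prime_of_mem_primeFactors hp, dv_prime hv (Nat.prime_of_mem_primeFactors hp)
      (Nat.dvd_of_mem_primeFactors hp)⟩
  have huz : ∀ p ∈ u.primeFactors, p.Prime ∧ y < p ∧ p ≤ Y := fun p hp =>
    ⟨Nat.prime_of_mem_primeFactors hp, dv_prime hu (Nat.prime_of_mem_primeFactors hp)
      (Nat.dvd_of_mem_primeFactors hp)⟩
  have hWpos : ∀ p ∈ s.primeFactors, 0 ≤ Wt2 f p := by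
    intro p hp
    obtain ⟨hp1, hp2, _⟩ := hsz p hp
    obtain ⟨h0, h1, h2⟩ := rho_half hn hρ hp1 hp2
    have h3 : 0 < 1 - (rho f p : ℝ) / p := by linarith
    rw [sub_pos, div_lt_one h0] at h3
    unfold Wt2
    have : 0 < (p : ℝ) - rho f p := by linarith
    positivity
  have hRHS : 0 ≤ C * X * (∏ p ∈ s.primeFactors, Wt2 f p) * bw (2 * n) 2 v * bw n 1 u /
        Lam (fun p => (rho f p : ℝ) / p) z y := by
    have h1 : 0 ≤ ∏ p ∈ s.primeFactors, Wt2 f p := prod_nonneg hWpos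
    have h2 : 0 ≤ bw (2 * n) 2 v := by unfold bw; positivity
    have h3 : 0 ≤ bw n 1 u := by unfold bw; positivity
    positivity
  by_cases hne : S.Nonempty
  swap
  · rw [not_nonempty_iff_eq_empty] at hne
    rw [hne, card_empty, Nat.cast_zero]
    exact hRHS
  obtain ⟨t0, ht0⟩ := hne
  rw [hS, mem_filter] at ht0
  have hdisj : Disjoint s.primeFactors v.primeFactors := by
    rw [disjoint_left]
    intro p hp hp'
    have h1 := Nat.prime_of_mem_primeFactors hp
    have h2 := (q1_prime h1).1 (by rw [ht0.2.1]; exact Nat.dvd_of_mem_primeFactors hp)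
    have h3 := (q2_prime h1).1 (by rw [ht0.2.2.1]; exact Nat.dvd_of_mem_primeFactors hp')
    exact h2.2.2 h3.2
  have hdisj2 : Disjoint (s.primeFactors ∪ v.primeFactors) u.primeFactors := by
    rw [disjoint_left]
    intro p hp hp'
    have h1 := (huz p hp').2.1
    rcases mem_union.1 hp with h2 | h2
    · have := (hsz p h2).2.2
      omega
    · have := (hvz p h2).2.2
      omega
  set T := s.primeFactors ∪ v.primeFactors ∪ u.primeFactors with hT
  set e : ℕ → ℕ := fun p => if p ∈ s.primeFactors ∪ v.primeFactors then 2 else 1 with he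
  set Ω : ℕ → Finset ℕ := fun p => if p ∈ s.primeFactors then Om f p (ε p) else
    if p ∈ v.primeFactors then Om2 f p else Zr f p with hΩ
  have hTp : ∀ p ∈ T, p.Prime := by
    intro p hp
    rw [hT, mem_union, mem_union] at hp
    rcases hp with (hp | hp) | hp
    · exact (hsz p hp).1
    · exact (hvz p hp).1
    · exact (huz p hp).1
  have he1 : ∀ p ∈ T, 1 ≤ e p := by
    intro p _
    simp only [he]
    split_ifs <;> norm_num
  have hsplit : ∀ F : ℕ → ℝ, ∏ p ∈ T, F p = (∏ p ∈ s.primeFactors, F p) *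
      (∏ p ∈ v.primeFactors, F p) * ∏ p ∈ u.primeFactors, F p := by
    intro F
    rw [hT, prod_union hdisj2, prod_union hdisj]
  have hM : (∏ p ∈ T, p ^ e p) ^ 4 ≤ X := by
    refine le_trans ?_ h8
    have h1 : ∏ p ∈ T, p ^ e p ≤ (s * v * u) ^ 2 := by
      have h2 : ∏ p ∈ T, p ^ e p ≤ ∏ p ∈ T, p ^ 2 := by
        refine prod_le_prod' fun p hp => ?_
        refine Nat.pow_le_pow_right (hTp p hp).pos ?_
        simp only [he]
        split_ifs <;> norm_num
      refine h2.trans ?_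
      rw [prod_pow]
      refine Nat.pow_le_pow_left ?_ 2
      rw [hT, prod_union hdisj2, prod_union hdisj,
        Nat.prod_primeFactors_of_squarefree (dv_squarefree hs),
        Nat.prod_primeFactors_of_squarefree (dv_squarefree hv),
        Nat.prod_primeFactors_of_squarefree (dv_squarefree hu)]
    calc (∏ p ∈ T, p ^ e p) ^ 4 ≤ ((s * v * u) ^ 2) ^ 4 := Nat.pow_le_pow_left h1 4
      _ = (s * v * u) ^ 8 := by rw [← pow_mul]
  have hcnt := h X y hy hzy hyX T e Ω hTp he1 hM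
  have hmodsq : ∀ (t p : ℕ), ((t % p ^ 2 : ℕ) : ℤ) = (t : ℤ) - (p : ℤ) ^ 2 * (t / p ^ 2 : ℕ) := by
    intro t p
    have := Nat.mod_add_div t (p ^ 2)
    zify at this ⊢
    linarith
  have hdv2 : ∀ (t p : ℕ), (p : ℤ) ^ 2 ∣ (t : ℤ) - ((t % p ^ 2 : ℕ) : ℤ) := by
    intro t p
    rw [hmodsq]
    exact ⟨(t / p ^ 2 : ℕ), by ring⟩
  have hdv1 : ∀ (t p : ℕ), (p : ℤ) ∣ (t : ℤ) - ((t % p ^ 2 : ℕ) : ℤ) := fun t p =>
    (dvd_pow_self (p : ℤ) two_ne_zero).trans (hdv2 t p)
  have hsub : S ⊆ (Icc 1 X).filter (fun t : ℕ => (∀ p ∈ T, t % p ^ e p ∈ Ω p) ∧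
      ∀ p ∈ PS z y, p ∉ T → ¬ (p : ℤ) ∣ f.eval (t : ℤ)) := by
    intro t ht
    rw [hS, mem_filter] at ht
    obtain ⟨ht1, hts, htv, htu, htε⟩ := ht
    rw [mem_filter]
    refine ⟨ht1, fun p hp => ?_, fun p hp hpT hpf => ?_⟩
    · have hpp := hTp p hp
      have hpi : Prime (p : ℤ) := Nat.prime_iff_prime_int.1 hpp
      by_cases h1 : p ∈ s.primeFactors
      · have e1 : e p = 2 := by
          simp only [he]
          rw [if_pos (mem_union_left _ h1)]
        have e2 : Ω p = Om f p (ε p) := by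
          simp only [hΩ]
          rw [if_pos h1]
        have h2 := (q1_prime hpp).1 (by rw [hts]; exact Nat.dvd_of_mem_primeFactors h1)
        rw [e1, e2, Om, mem_filter, mem_range]
        refine ⟨Nat.mod_lt _ (pow_pos hpp.pos 2), (dvd_congr f (hdv1 t p)).1 h2.2.1,
          fun h3 => h2.2.2 ((dvd_congr f (hdv2 t p)).2 h3), ?_⟩
        rw [← htε p h1]
        unfold ty
        refine Prod.ext ?_ ?_
        · show t % p ^ 2 % p = t % p
          exact Nat.mod_mod_of_dvd _ (dvd_pow_self p two_ne_zero)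
        · show decide (jacobiSym (f.eval ((t % p ^ 2 : ℕ) : ℤ) / p) p = -1) =
            decide (jacobiSym (f.eval (t : ℤ) / p) p = -1)
          have h3 : f.eval ((t % p ^ 2 : ℕ) : ℤ) / p ≡ f.eval (t : ℤ) / p [ZMOD p] := by
            rw [Int.modEq_iff_dvd]
            have h4 : (p : ℤ) ^ 2 ∣ f.eval (t : ℤ) - f.eval ((t % p ^ 2 : ℕ) : ℤ) :=
              (hdv2 t p).trans (Polynomial.sub_dvd_eval_sub _ _ f)
            have h5 := (dvd_congr f (hdv1 t p)).1 h2.2.1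
            obtain ⟨a, ha⟩ := h2.2.1
            obtain ⟨b, hb⟩ := h5
            rw [ha, hb, Int.mul_ediv_cancel_left _ hpi.ne_zero,
              Int.mul_ediv_cancel_left _ hpi.ne_zero]
            rw [ha, hb, ← mul_sub, pow_two] at h4
            exact (mul_dvd_mul_iff_left hpi.ne_zero).1 h4
          rw [jacobiSym.mod_left' h3]
      · by_cases h2 : p ∈ v.primeFactors
        · have e1 : e p = 2 := by
            simp only [he]
            rw [if_pos (mem_union_right _ h2)]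
          have e2 : Ω p = Om2 f p := by
            simp only [hΩ]
            rw [if_neg h1, if_pos h2]
          have h3 := (q2_prime hpp).1 (by rw [htv]; exact Nat.dvd_of_mem_primeFactors h2)
          rw [e1, e2, Om2, mem_filter, mem_range]
          exact ⟨Nat.mod_lt _ (pow_pos hpp.pos 2), (dvd_congr f (hdv2 t p)).1 h3.2⟩
        · have e1 : e p = 1 := by
            simp only [he]
            rw [if_neg]
            rw [mem_union]
            rintro (h3 | h3)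
            · exact h1 h3
            · exact h2 h3
          have e2 : Ω p = Zr f p := by
            simp only [hΩ]
            rw [if_neg h1, if_neg h2]
          have h3 : p ∈ u.primeFactors := by
            rw [hT, mem_union, mem_union] at hp
            rcases hp with (hp | hp) | hp
            · exact absurd hp h1
            · exact absurd hp h2
            · exact hp
          have h4 : (p : ℤ) ∣ f.eval (t : ℤ) :=
            (Int.natCast_dvd_natCast.2 (Nat.dvd_of_mem_primeFactors h3)).trans htu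
          rw [e1, e2, pow_one, Zr, mem_filter, mem_range]
          refine ⟨Nat.mod_lt _ hpp.pos, (dvd_congr f ?_).1 h4⟩
          have h5 : ((t % p : ℕ) : ℤ) = (t : ℤ) - p * (t / p : ℕ) := by
            have := Nat.mod_add_div t p
            zify at this ⊢
            linarith
          rw [h5]
          exact ⟨(t / p : ℕ), by ring⟩
    · have hpp := (mem_PS.1 hp).2
      apply hpT
      rw [hT, mem_union, mem_union]
      left
      by_cases h1 : (p : ℤ) ^ 2 ∣ f.eval (t : ℤ)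
      · right
        rw [← htv]
        exact Nat.mem_primeFactors.2 ⟨hpp, (q2_prime hpp).2 ⟨hp, h1⟩, by rw [htv]; exact hv0⟩
      · left
        rw [← hts]
        exact Nat.mem_primeFactors.2 ⟨hpp, (q1_prime hpp).2 ⟨hp, hpf, h1⟩, by rw [hts]; exact hs0⟩
  have hcard : (S.card : ℝ) ≤ _ := (by exact_mod_cast card_le_card hsub : (S.card : ℝ) ≤ _).trans hcnt
  refine hcard.trans ?_
  -- the products
  have hfac : ∀ p : ℕ, p.Prime → z < p → 0 < 1 - (rho f p : ℝ) / p := by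
    intro p hp hz
    have := (rho_half hn hρ hp hz).2.2
    linarith
  have hPS : (∏ p ∈ s.primeFactors, (1 - (rho f p : ℝ) / p)) *
      (∏ p ∈ v.primeFactors, (1 - (rho f p : ℝ) / p)) *
      ∏ p ∈ (PS z y).filter (fun p => p ∉ T), (1 - (rho f p : ℝ) / p) =
      ∏ p ∈ PS z y, (1 - (rho f p : ℝ) / p) := by
    rw [← prod_union hdisj]
    have h1 : s.primeFactors ∪ v.primeFactors = (PS z y).filter (fun p => ¬ p ∉ T) := by
      ext p
      rw [mem_filter, not_not, hT]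
      constructor
      · intro hp
        refine ⟨?_, mem_union_left _ hp⟩
        rcases mem_union.1 hp with h2 | h2
        · exact mem_PS.2 ⟨(hsz p h2).2, (hsz p h2).1⟩
        · exact mem_PS.2 ⟨(hvz p h2).2, (hvz p h2).1⟩
      · rintro ⟨h2, h3⟩
        rcases mem_union.1 h3 with h4 | h4
        · exact h4
        · exfalso
          have h5 := (huz p h4).2.1
          have h6 := (mem_PS.1 h2).1.2
          omega
    rw [h1, mul_comm]
    exact prod_filter_mul_prod_filter_not _ _ _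
  have hS1 : ∏ p ∈ s.primeFactors, ((Ω p).card : ℝ) / (p : ℝ) ^ e p ≤
      (∏ p ∈ s.primeFactors, Wt2 f p) * ∏ p ∈ s.primeFactors, (1 - (rho f p : ℝ) / p) := by
    rw [← prod_mul_distrib]
    refine prod_le_prod (fun p _ => by positivity) fun p hp => ?_
    obtain ⟨hp1, hp2, _⟩ := hsz p hp
    obtain ⟨h0, h1, h2⟩ := rho_half hn hρ hp1 hp2
    have e1 : e p = 2 := by
      simp only [he]
      rw [if_pos (mem_union_left _ hp)]
    have e2 : Ω p = Om f p (ε p) := by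
      simp only [hΩ]
      rw [if_pos hp]
    rw [e1, e2]
    have h3 : 2 * (Om f p (ε p)).card ≤ p - 1 := card_Om hf hp1 hp2 (by omega) _
    have h4 : (2 : ℝ) * (Om f p (ε p)).card ≤ p := by
      exact_mod_cast (by omega : 2 * (Om f p (ε p)).card ≤ p)
    have h5 : 0 < (p : ℝ) - rho f p := by
      have := hfac p hp1 hp2
      rw [sub_pos, div_lt_one h0] at this
      linarith
    have h6 : Wt2 f p * (1 - (rho f p : ℝ) / p) = 1 / (2 * p) := by
      unfold Wt2
      field_simp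
    rw [h6, div_le_div_iff₀ (by positivity) (by positivity)]
    nlinarith
  have hV1 : ∏ p ∈ v.primeFactors, ((Ω p).card : ℝ) / (p : ℝ) ^ e p ≤
      bw (2 * n) 2 v * ∏ p ∈ v.primeFactors, (1 - (rho f p : ℝ) / p) := by
    have h1 : bw (2 * n) 2 v = ∏ p ∈ v.primeFactors, (2 * (n : ℝ)) / (p : ℝ) ^ 2 := by
      rw [bw_eq (A := 2 * (n : ℝ)) 2 (dv_squarefree hv)]
    rw [h1, ← prod_mul_distrib]
    refine prod_le_prod (fun p _ => by positivity) fun p hp => ?_
    obtain ⟨hp1, hp2, _⟩ := hvz p hp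
    obtain ⟨h0, h1, h2⟩ := rho_half hn hρ hp1 hp2
    have hns : p ∉ s.primeFactors := fun h => disjoint_left.1 hdisj h hp
    have e1 : e p = 2 := by
      simp only [he]
      rw [if_pos (mem_union_right _ hp)]
    have e2 : Ω p = Om2 f p := by
      simp only [hΩ]
      rw [if_neg hns, if_pos hp]
    rw [e1, e2]
    have h3 : ((Om2 f p).card : ℝ) ≤ n :=
      le_trans (by exact_mod_cast card_Om2 hf hp1 hp2) h1
    have h4 : (n : ℝ) ≤ 2 * n * (1 - (rho f p : ℝ) / p) := by nlinarith [Nat.cast_nonneg (α := ℝ) n]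
    calc ((Om2 f p).card : ℝ) / (p : ℝ) ^ 2 ≤ (2 * n * (1 - (rho f p : ℝ) / p)) / (p : ℝ) ^ 2 := by
          gcongr
          exact h3.trans h4
      _ = _ := by ring
  have hU1 : ∏ p ∈ u.primeFactors, ((Ω p).card : ℝ) / (p : ℝ) ^ e p ≤ bw n 1 u := by
    have h1 : bw n 1 u = ∏ p ∈ u.primeFactors, (n : ℝ) / (p : ℝ) ^ 1 := by
      rw [bw_eq (A := (n : ℝ)) 1 (dv_squarefree hu)]
    rw [h1]
    refine prod_le_prod (fun p _ => by positivity) fun p hp => ?_
    obtain ⟨hp1, hp2, _⟩ := huz p hp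
    obtain ⟨h0, h1, h2⟩ := rho_half hn hρ hp1 (hzy.trans hp2)
    have hns : p ∉ s.primeFactors ∪ v.primeFactors := fun h => disjoint_left.1 hdisj2 h hp
    have hns1 : p ∉ s.primeFactors := fun h => hns (mem_union_left _ h)
    have hns2 : p ∉ v.primeFactors := fun h => hns (mem_union_right _ h)
    have e1 : e p = 1 := by
      simp only [he]
      rw [if_neg hns]
    have e2 : Ω p = Zr f p := by
      simp only [hΩ]
      rw [if_neg hns1, if_neg hns2]
    rw [e1, e2]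
    have h3 : ((Zr f p).card : ℝ) ≤ n := h1
    gcongr
  have hs1 : 0 ≤ ∏ p ∈ s.primeFactors, (1 - (rho f p : ℝ) / p) :=
    prod_nonneg fun p hp => (hfac p (hsz p hp).1 (hsz p hp).2.1).le
  have hv1 : 0 ≤ ∏ p ∈ v.primeFactors, (1 - (rho f p : ℝ) / p) :=
    prod_nonneg fun p hp => (hfac p (hvz p hp).1 (hvz p hp).2.1).le
  have hPT : 0 ≤ ∏ p ∈ (PS z y).filter (fun p => p ∉ T), (1 - (rho f p : ℝ) / p) :=
    prod_nonneg fun p hp => by
      have h1 := mem_PS.1 (mem_filter.1 hp).1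
      exact (hfac p h1.2 h1.1.1).le
  have hW0 : 0 ≤ ∏ p ∈ s.primeFactors, Wt2 f p := prod_nonneg hWpos
  have hb2 : 0 ≤ bw (2 * n) 2 v := by unfold bw; positivity
  have hb1 : 0 ≤ bw n 1 u := by unfold bw; positivity
  calc C * X * (∏ p ∈ T, ((Ω p).card : ℝ) / (p : ℝ) ^ e p) *
        ∏ p ∈ (PS z y).filter (fun p => p ∉ T), (1 - (rho f p : ℝ) / p)
      ≤ C * X * (((∏ p ∈ s.primeFactors, Wt2 f p) *
          ∏ p ∈ s.primeFactors, (1 - (rho f p : ℝ) / p)) *
          (bw (2 * n) 2 v * ∏ p ∈ v.primeFactors, (1 - (rho f p : ℝ) / p)) * bw n 1 u) *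
        ∏ p ∈ (PS z y).filter (fun p => p ∉ T), (1 - (rho f p : ℝ) / p) := by
        rw [hsplit]
        refine mul_le_mul_of_nonneg_right (mul_le_mul_of_nonneg_left ?_ (by positivity)) hPT
        refine mul_le_mul (mul_le_mul hS1 hV1 (prod_nonneg fun _ _ => by positivity)
          (by positivity)) hU1 (prod_nonneg fun _ _ => by positivity) (by positivity)
    _ = C * X * (∏ p ∈ s.primeFactors, Wt2 f p) * bw (2 * n) 2 v * bw n 1 u *
          ∏ p ∈ PS z y, (1 - (rho f p : ℝ) / p) := by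
        rw [← hPS]
        ring
    _ ≤ C * X * (∏ p ∈ s.primeFactors, Wt2 f p) * bw (2 * n) 2 v * bw n 1 u *
          (1 / Lam (fun p => (rho f p : ℝ) / p) z y) := by
        refine mul_le_mul_of_nonneg_left (prod_le_K hn hρ) (by positivity)
    _ = _ := by ring

end Pool.Agent.H64.PM
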