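import Mathlib
import Pool.Graph.R_seed8.W262.RK.F4c
import Pool.Agent.H64.PM.CQ2
import Pool.Agent.H64.PM.GRQ

/-!
# The local conditions and the bound for the rank for polynomial families
-/

set_option autoImplicit false

namespace Pool.Agent.H64.PM

open Finset Pool.Agent.W262.RK Pool.Agent.W762.RK2 Polynomial

/-- the total polynomial -/
noncomputable def fT (A B D : ℤ[X]) : ℤ[X] := A * B * (A - B) * D

/-- the class -/
noncomputable def clq (A B : ℤ[X]) (p : ℕ) (x : ℤ) : Fin 4 :=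
  if (p : ℤ) ∣ A.eval x then 0 else if (p : ℤ) ∣ B.eval x then 1
    else if (p : ℤ) ∣ (A - B).eval x then 2 else 3

/-- the constants -/
noncomputable def kpq (A B D : ℤ[X]) (p : ℕ) (x : ℤ) : Fin 3 → ℤ :=
  if (p : ℤ) ∣ A.eval x then fun _ => -((B * D).eval x) else
    if (p : ℤ) ∣ B.eval x then fun _ => -((A * D).eval x) else
      if (p : ℤ) ∣ (A - B).eval x then fun _ => (A * D).eval x else
        ![(B * (A - B)).eval x, (A * (A - B)).eval x, (A * B).eval x]

/-- the local conditions -/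
noncomputable def LcQ (A B D : ℤ[X]) : LCt := fun p τ =>
  LL (clq A B p (τ.1 : ℤ)) (kpq A B D p (τ.1 : ℤ)) τ.2 p

lemma two_div {f a b : ℤ[X]} {z p : ℕ} (hf : Smp f z) (hp : p.Prime) (hz : z < p) (h : f = a * b)
    {x : ℤ} (ha : (p : ℤ) ∣ a.eval x) : ¬ (p : ℤ) ∣ b.eval x := by
  intro hb
  apply hf p hp hz x
  · rw [h, eval_mul]
    exact ha.mul_right _
  · rw [h, derivative_mul, eval_add, eval_mul, eval_mul]
    exact dvd_add (hb.mul_left _) (ha.mul_right _)

variable {A B D : ℤ[X]} {z : ℕ}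

lemma kpq_ne (hf : Smp (fT A B D) z) {p : ℕ} (hp : p.Prime) (hz : z < p) (x : ℤ) (k : Fin 3) :
    ¬ (p : ℤ) ∣ kpq A B D p x k := by
  have hpi : Prime (p : ℤ) := Nat.prime_iff_prime_int.1 hp
  unfold kpq
  split_ifs with h0 h1 h2
  · have h3 := two_div hf hp hz (a := A) (b := (A - B) * (B * D)) (by unfold fT; ring) h0
    intro h4
    apply h3
    rw [eval_mul]
    exact ((dvd_neg).1 h4).mul_left _
  · have h3 := two_div hf hp hz (a := B) (b := (A - B) * (A * D)) (by unfold fT; ring) h1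
    intro h4
    apply h3
    rw [eval_mul]
    exact ((dvd_neg).1 h4).mul_left _
  · have h3 := two_div hf hp hz (a := A - B) (b := B * (A * D)) (by unfold fT; ring) h2
    intro h4
    apply h3
    rw [eval_mul]
    exact h4.mul_left _
  · have hm : ∀ a b : ℤ[X], ¬ (p : ℤ) ∣ a.eval x → ¬ (p : ℤ) ∣ b.eval x →
        ¬ (p : ℤ) ∣ (a * b).eval x := by
      intro a b ha hb h
      rw [eval_mul] at h
      rcases hpi.dvd_or_dvd h with h' | h'
      · exact ha h'
      · exact hb h'
    fin_cases k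
    · exact hm _ _ h1 h2
    · exact hm _ _ h0 h2
    · exact hm _ _ h0 h1

lemma XC_LcQ (hf : Smp (fT A B D) z) (hz2 : 2 ≤ z) {p : ℕ} (hp : p.Prime) (hz : z < p)
    (τ : ℕ × Bool) : XC (LcQ A B D p τ) :=
  Pool.Agent.W342.RK2.xcl _ _ _ p hp (by omega) (kpq_ne hf hp hz _)

lemma sq_jac {p : ℕ} (hp : p.Prime) {a b : ℤ} (h : a ≡ b [ZMOD p]) (hb : ¬ (p : ℤ) ∣ b) :
    jacobiSym (a * b) p = 1 := by
  have hpi : Prime (p : ℤ) := Nat.prime_iff_prime_int.1 hp
  have h1 : a * b ≡ b ^ 2 [ZMOD p] := by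
    rw [pow_two]
    exact h.mul_right _
  rw [jacobiSym.mod_left' h1]
  apply jacobiSym.sq_one'
  rw [← Int.isCoprime_iff_gcd_eq_one]
  exact IsCoprime.symm ((Prime.coprime_iff_not_dvd hpi).2 hb)

lemma eval_congr (g : ℤ[X]) {p t x : ℤ} (h : p ∣ t - x) : g.eval x ≡ g.eval t [ZMOD p] := by
  rw [Int.modEq_iff_dvd]
  exact h.trans (Polynomial.sub_dvd_eval_sub _ _ g)

lemma nsq {p : ℕ} {a b : ℤ} (h : ¬ (p : ℤ) ^ 2 ∣ a * b) (hb : (p : ℤ) ∣ a) :
    ¬ (p : ℤ) ∣ b := by
  intro hb'
  apply h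
  rw [pow_two]
  exact mul_dvd_mul hb hb'

/-- the local hypotheses hold -/
lemma locHQ {p : ℕ} (hp : p.Prime) {t x : ℤ} (htx : (p : ℤ) ∣ t - x)
    (h1 : (p : ℤ) ∣ (fT A B D).eval t) (h2 : ¬ (p : ℤ) ^ 2 ∣ (fT A B D).eval t) {neg : Bool}
    (hneg : neg = decide (jacobiSym ((fT A B D).eval t / p) p = -1)) :
    LocH (clq A B p x) (kpq A B D p x) neg p ((A * D).eval t) ((B * D).eval t) := by
  have hpi : Prime (p : ℤ) := Nat.prime_iff_prime_int.1 hp
  have hp0 : (p : ℤ) ≠ 0 := hpi.ne_zero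
  have hfe : (fT A B D).eval t = A.eval t * (B.eval t * ((A - B).eval t * D.eval t)) := by
    unfold fT
    simp only [eval_mul]
    ring
  have hfe1 : (fT A B D).eval t = B.eval t * (A.eval t * ((A - B).eval t * D.eval t)) := by
    rw [hfe]; ring
  have hfe2 : (fT A B D).eval t = (A - B).eval t * (A.eval t * (B.eval t * D.eval t)) := by
    rw [hfe]; ring
  have hfe3 : (fT A B D).eval t = D.eval t * (A.eval t * (B.eval t * (A - B).eval t)) := by
    rw [hfe]; ring
  have hA : (p : ℤ) ∣ A.eval x ↔ (p : ℤ) ∣ A.eval t := (dvd_congr A htx).symm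
  have hB : (p : ℤ) ∣ B.eval x ↔ (p : ℤ) ∣ B.eval t := (dvd_congr B htx).symm
  have hC : (p : ℤ) ∣ (A - B).eval x ↔ (p : ℤ) ∣ (A - B).eval t := (dvd_congr (A - B) htx).symm
  have hAB : (A * D).eval t - (B * D).eval t = (A - B).eval t * D.eval t := by
    simp only [eval_mul, eval_sub]
    ring
  unfold clq kpq
  by_cases a0 : (p : ℤ) ∣ A.eval x
  · rw [if_pos a0, if_pos a0]
    have a1 := hA.1 a0
    have n1 := nsq (hfe ▸ h2) a1
    have nB : ¬ (p : ℤ) ∣ (B * D).eval t := by
      intro h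
      apply n1
      rw [eval_mul] at h
      have : B.eval t * ((A - B).eval t * D.eval t) = (A - B).eval t * (B.eval t * D.eval t) := by
        ring
      rw [this]
      exact h.mul_left _
    unfold LocH
    rw [if_pos rfl]
    refine ⟨?_, ?_, nB, ?_⟩
    · rw [eval_mul]
      exact a1.mul_right _
    · intro h
      apply h2
      rw [hfe]
      have : A.eval t * (B.eval t * ((A - B).eval t * D.eval t)) =
          (A * D).eval t * (B.eval t * (A - B).eval t) := by
        rw [eval_mul]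
        ring
      rw [this]
      exact h.mul_right _
    · exact sq_jac hp ((eval_congr (B * D) htx).neg) (fun h => nB ((dvd_neg).1 h))
  rw [if_neg a0, if_neg a0]
  by_cases b0 : (p : ℤ) ∣ B.eval x
  · rw [if_pos b0, if_pos b0]
    have a1 := hB.1 b0
    have n1 := nsq (hfe1 ▸ h2) a1
    have nA : ¬ (p : ℤ) ∣ (A * D).eval t := by
      intro h
      apply n1
      rw [eval_mul] at h
      have : A.eval t * ((A - B).eval t * D.eval t) = (A - B).eval t * (A.eval t * D.eval t) := by
        ring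
      rw [this]
      exact h.mul_left _
    unfold LocH
    rw [if_neg (by decide), if_pos rfl]
    refine ⟨?_, ?_, nA, ?_⟩
    · rw [eval_mul]
      exact a1.mul_right _
    · intro h
      apply h2
      rw [hfe1]
      have : B.eval t * (A.eval t * ((A - B).eval t * D.eval t)) =
          (B * D).eval t * (A.eval t * (A - B).eval t) := by
        rw [eval_mul]
        ring
      rw [this]
      exact h.mul_right _
    · exact sq_jac hp ((eval_congr (A * D) htx).neg) (fun h => nA ((dvd_neg).1 h))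
  rw [if_neg b0, if_neg b0]
  by_cases c0 : (p : ℤ) ∣ (A - B).eval x
  · rw [if_pos c0, if_pos c0]
    have a1 := hC.1 c0
    have n1 := nsq (hfe2 ▸ h2) a1
    have nA : ¬ (p : ℤ) ∣ (A * D).eval t := by
      intro h
      apply n1
      rw [eval_mul] at h
      have : A.eval t * (B.eval t * D.eval t) = B.eval t * (A.eval t * D.eval t) := by
        ring
      rw [this]
      exact h.mul_left _
    unfold LocH
    rw [if_neg (by decide), if_neg (by decide), if_pos rfl, hAB]
    refine ⟨a1.mul_right _, ?_, nA, ?_⟩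
    · intro h
      apply h2
      rw [hfe2]
      have : (A - B).eval t * (A.eval t * (B.eval t * D.eval t)) =
          (A - B).eval t * D.eval t * (A.eval t * B.eval t) := by
        ring
      rw [this]
      exact h.mul_right _
    · exact sq_jac hp (eval_congr (A * D) htx) nA
  rw [if_neg c0, if_neg c0]
  have nA : ¬ (p : ℤ) ∣ A.eval t := fun h => a0 (hA.2 h)
  have nB : ¬ (p : ℤ) ∣ B.eval t := fun h => b0 (hB.2 h)
  have nC : ¬ (p : ℤ) ∣ (A - B).eval t := fun h => c0 (hC.2 h)
  have hD : (p : ℤ) ∣ D.eval t := by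
    rw [hfe] at h1
    rcases hpi.dvd_or_dvd h1 with h | h
    · exact absurd h nA
    · rcases hpi.dvd_or_dvd h with h | h
      · exact absurd h nB
      · exact (hpi.dvd_or_dvd h).resolve_left nC
  obtain ⟨q, hq⟩ := hD
  have eq : (fT A B D).eval t / p = q * (A.eval t * (B.eval t * (A - B).eval t)) := by
    rw [hfe3, hq, mul_assoc, Int.mul_ediv_cancel_left _ hp0]
  have e0 : (A * D).eval t / p = q * A.eval t := by
    rw [eval_mul, hq]
    have : A.eval t * ((p : ℤ) * q) = p * (q * A.eval t) := by ring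
    rw [this, Int.mul_ediv_cancel_left _ hp0]
  have e1 : (B * D).eval t / p = q * B.eval t := by
    rw [eval_mul, hq]
    have : B.eval t * ((p : ℤ) * q) = p * (q * B.eval t) := by ring
    rw [this, Int.mul_ediv_cancel_left _ hp0]
  have e2 : (A - B).eval t * D.eval t / p = q * (A - B).eval t := by
    rw [hq]
    have : (A - B).eval t * ((p : ℤ) * q) = p * (q * (A - B).eval t) := by ring
    rw [this, Int.mul_ediv_cancel_left _ hp0]
  have hJ : jacobiSym ((fT A B D).eval t / p) p = if neg = true then -1 else 1 := by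
    by_cases h3 : jacobiSym ((fT A B D).eval t / p) p = -1
    · rw [hneg, h3]
      rfl
    · have h4 : neg = false := by
        rw [hneg]
        exact decide_eq_false h3
      rw [h4, if_neg (by decide)]
      have h5 : ((fT A B D).eval t / p).gcd p = 1 := by
        rw [← Int.isCoprime_iff_gcd_eq_one]
        refine IsCoprime.symm ((Prime.coprime_iff_not_dvd hpi).2 fun h8 => h2 ?_)
        obtain ⟨r, hr⟩ := h1
        rw [hr, Int.mul_ediv_cancel_left _ hp0] at h8
        rw [hr, pow_two]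
        exact mul_dvd_mul_left _ h8
      exact (jacobiSym.eq_one_or_neg_one h5).resolve_right h3
  have hnsq : ∀ a b : ℤ, (fT A B D).eval t = a * b → ¬ (p : ℤ) ^ 2 ∣ a := by
    intro a b hab h
    apply h2
    rw [hab]
    exact h.mul_right _
  unfold LocH
  rw [if_neg (by decide), if_neg (by decide), if_neg (by decide), hAB, e0, e1, e2]
  refine ⟨?_, ?_, ?_, ?_, ?_, ?_, ?_, ?_⟩
  · rw [eval_mul, hq]
    exact ⟨A.eval t * q, by ring⟩
  · rw [eval_mul, hq]
    exact ⟨B.eval t * q, by ring⟩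
  · refine hnsq _ (B.eval t * (A - B).eval t) ?_
    rw [hfe, eval_mul]
    ring
  · refine hnsq _ (A.eval t * (A - B).eval t) ?_
    rw [hfe, eval_mul]
    ring
  · refine hnsq _ (A.eval t * B.eval t) ?_
    rw [hfe]
    ring
  · rw [← hJ, eq]
    apply jacobiSym.mod_left'
    show ((B * (A - B)).eval x) * (q * A.eval t) ≡ _ [ZMOD p]
    have h3 := (eval_congr (B * (A - B)) htx).mul_right (q * A.eval t)
    rw [eval_mul] at h3 ⊢
    rw [eval_mul] at h3
    exact h3.trans (congrArg (fun u => u % (p : ℤ)) (by ring))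
  · rw [← hJ, eq]
    apply jacobiSym.mod_left'
    show ((A * (A - B)).eval x) * (q * B.eval t) ≡ _ [ZMOD p]
    have h3 := (eval_congr (A * (A - B)) htx).mul_right (q * B.eval t)
    rw [eval_mul] at h3 ⊢
    rw [eval_mul] at h3
    exact h3.trans (congrArg (fun u => u % (p : ℤ)) (by ring))
  · rw [← hJ, eq]
    apply jacobiSym.mod_left'
    show ((A * B).eval x) * (q * (A - B).eval t) ≡ _ [ZMOD p]
    have h3 := (eval_congr (A * B) htx).mul_right (q * (A - B).eval t)
    rw [eval_mul] at h3 ⊢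
    rw [eval_mul] at h3
    exact h3.trans (congrArg (fun u => u % (p : ℤ)) (by ring))

/-- the number of the primes outside `q1` -/
lemma badQ {N : ℤ} {z y X K m : ℕ} {M : ℤ} (hz2 : 2 ≤ z) (hy : 1 ≤ y) (hm : 1 ≤ m) (h0 : N ≠ 0)
    (hb : N.natAbs ≤ X ^ m) (hK : X < (y + 1) ^ K)
    (hM : ∀ q : ℕ, q.Prime → (q : ℤ) ∣ M → (q : ℤ) ∣ N) :
    ((2 * M).natAbs.primeFactors.filter (fun q => ¬ q ∣ q1 z y N)).card ≤
      z + m * K + (q2 z y N).primeFactors.card := by
  have hsub : ((2 * M).natAbs.primeFactors.filter (fun q => ¬ q ∣ q1 z y N)) ⊆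
      ((Icc 1 z) ∪ (N.natAbs.primeFactors.filter (y < ·))) ∪ (q2 z y N).primeFactors := by
    intro q hq
    rw [mem_filter] at hq
    have hp := Nat.prime_of_mem_primeFactors hq.1
    have hdv := Nat.dvd_of_mem_primeFactors hq.1
    rw [mem_union, mem_union, mem_Icc]
    rcases Nat.lt_or_ge z q with h | h
    swap
    · exact Or.inl (Or.inl ⟨hp.one_lt.le, h⟩)
    · have hqi : Prime (q : ℤ) := Nat.prime_iff_prime_int.1 hp
      have hdv2 : (q : ℤ) ∣ 2 * M := Int.natCast_dvd.2 hdv
      have hN : (q : ℤ) ∣ N := by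
        rcases hqi.dvd_or_dvd hdv2 with h1 | h1
        · exfalso
          have h4 : q ∣ 2 := by exact_mod_cast h1
          have h5 := Nat.le_of_dvd (by norm_num) h4
          omega
        · exact hM q hp h1
      rcases Nat.lt_or_ge y q with hyq | hyq
      · left; right
        rw [mem_filter, Nat.mem_primeFactors]
        exact ⟨⟨hp, Int.natCast_dvd.1 hN, Int.natAbs_ne_zero.2 h0⟩, hyq⟩
      · right
        have hPS : q ∈ PS z y := mem_PS.2 ⟨⟨h, hyq⟩, hp⟩
        have hsq : (q : ℤ) ^ 2 ∣ N := by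
          by_contra hcon
          exact hq.2 ((q1_prime hp).2 ⟨hPS, hN, hcon⟩)
        rw [Nat.mem_primeFactors]
        exact ⟨hp, (q2_prime hp).2 ⟨hPS, hsq⟩, dv_ne_zero (q2_mem z y N)⟩
  have hone : (N.natAbs.primeFactors.filter (y < ·)).card ≤ m * K := by
    set S := N.natAbs.primeFactors.filter (y < ·) with hS
    have h1 : (y + 1) ^ S.card ≤ ∏ q ∈ S, q :=
      Finset.pow_card_le_prod _ _ _ (fun q hq => by
        have := (mem_filter.1 hq).2
        omega)
    have h2 : ∏ q ∈ S, q ∣ N.natAbs :=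
      (prod_dvd_prod_of_subset _ _ _ (filter_subset _ _)).trans (Nat.prod_primeFactors_dvd _)
    have h3 : ∏ q ∈ S, q ≤ N.natAbs :=
      Nat.le_of_dvd (Nat.pos_of_ne_zero (Int.natAbs_ne_zero.2 h0)) h2
    have h4 : (y + 1) ^ S.card < (y + 1) ^ (m * K) := by
      calc (y + 1) ^ S.card ≤ X ^ m := h1.trans (h3.trans hb)
        _ < ((y + 1) ^ K) ^ m := Nat.pow_lt_pow_left hK (by omega)
        _ = (y + 1) ^ (m * K) := by rw [← pow_mul, mul_comm]
    exact ((Nat.pow_lt_pow_iff_right (by omega)).1 h4).le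
  refine (card_le_card hsub).trans ((card_union_le _ _).trans (add_le_add
    ((card_union_le _ _).trans (add_le_add ?_ hone)) le_rfl))
  simp

/-- the rank is bounded by the local count -/
lemma rankQ {y X k m : ℕ} (hf : Smp (fT A B D) z) (hz2 : 2 ≤ z) (hy : 1 ≤ y) (hm : 1 ≤ m)
    {t : ℕ} (h0 : (fT A B D).eval (t : ℤ) ≠ 0) (hb : ((fT A B D).eval (t : ℤ)).natAbs ≤ X ^ m)
    (hk : X < (y + 1) ^ k) :
    2 ^ Module.finrank ℤ (EAB ((A * D).eval (t : ℤ)) ((B * D).eval (t : ℤ))).toAffine.Point ≤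
      4 ^ (z + 2) * (4 ^ m) ^ k * 4 ^ (q2 z y ((fT A B D).eval (t : ℤ))).primeFactors.card *
        NL (q1 z y ((fT A B D).eval (t : ℤ))) (fun p => LcQ A B D p (ty (fT A B D) p t)) := by
  set N := (fT A B D).eval (t : ℤ) with hN
  set a := (A * D).eval (t : ℤ) with ha
  set b := (B * D).eval (t : ℤ) with hb'
  have hab : a - b = (A - B).eval (t : ℤ) * D.eval (t : ℤ) := by
    rw [ha, hb']
    simp only [eval_mul, eval_sub]
    ring
  have hNe : N = A.eval (t : ℤ) * B.eval (t : ℤ) * (A - B).eval (t : ℤ) * D.eval (t : ℤ) := by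
    rw [hN]
    unfold fT
    simp only [eval_mul]
  have hA0 : A.eval (t : ℤ) ≠ 0 := fun h => h0 (by rw [hNe, h]; ring)
  have hB0 : B.eval (t : ℤ) ≠ 0 := fun h => h0 (by rw [hNe, h]; ring)
  have hC0 : (A - B).eval (t : ℤ) ≠ 0 := fun h => h0 (by rw [hNe, h]; ring)
  have hD0 : D.eval (t : ℤ) ≠ 0 := fun h => h0 (by rw [hNe, h]; ring)
  have ha0 : a ≠ 0 := by
    rw [ha, eval_mul]
    exact mul_ne_zero hA0 hD0
  have hb0 : b ≠ 0 := by
    rw [hb', eval_mul]
    exact mul_ne_zero hB0 hD0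
  have hab0 : a - b ≠ 0 := by
    rw [hab]
    exact mul_ne_zero hC0 hD0
  set s := q1 z y N with hs
  have hmem : s ∈ (PP z y).divisors := q1_mem z y N
  have hmd : s ∣ PP z y := Nat.dvd_of_mem_divisors hmem
  have hodd : ∀ p : ℕ, p.Prime → p ∣ s → z < p ∧ p ≠ 2 := by
    intro p hp h
    have h1 := (dv_prime hmem hp h).1
    omega
  have hd := Pool.Agent.W214.RK2.desc4 s (fun p => LcQ A B D p (ty (fT A B D) p t)) a b ha0 hb0
    (fun h => hab0 (by rw [h, sub_self]))
    (by
      rw [← Nat.not_even_iff_odd, even_iff_two_dvd]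
      intro h
      exact (hodd 2 Nat.prime_two h).2 rfl)
    (dv_squarefree hmem)
    (fun p hp hpd => XC_LcQ hf hz2 hp (hodd p hp hpd).1 _)
    (fun p hp hpd x x' hx' hcurve e1 e2 he1 he2 hsq1 hsq2 => by
      have hpp : p.Prime := Fact.out
      have hjs := (q1_prime hpp).1 hpd
      have hzp := (hodd p hpp hpd).1
      refine Pool.Agent.W342.RK2.locl (clq A B p ((ty (fT A B D) p t).1 : ℤ))
        (kpq A B D p ((ty (fT A B D) p t).1 : ℤ)) (ty (fT A B D) p t).2 p _ _
        (hodd p hpp hpd).2 (kpq_ne hf hpp hzp _)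
        (locHQ hpp ?_ hjs.2.1 hjs.2.2 rfl) x x' hx' hcurve e1 e2 he1 he2 hsq1 hsq2
      show (p : ℤ) ∣ (t : ℤ) - ((t % p : ℕ) : ℤ)
      have h5 : ((t % p : ℕ) : ℤ) = (t : ℤ) - p * (t / p : ℕ) := by
        have := Nat.mod_add_div t p
        zify at this ⊢
        linarith
      rw [h5]
      exact ⟨(t / p : ℕ), by ring⟩)
  refine hd.trans (Nat.mul_le_mul_right _ ?_)
  have hM : ∀ q : ℕ, q.Prime → (q : ℤ) ∣ a * b * (a - b) → (q : ℤ) ∣ N := by
    intro q hq h
    have hqi : Prime (q : ℤ) := Nat.prime_iff_prime_int.1 hq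
    have hDN : (q : ℤ) ∣ D.eval (t : ℤ) → (q : ℤ) ∣ N := by
      intro h
      rw [hNe]
      exact h.mul_left _
    rcases hqi.dvd_or_dvd h with h1 | h1
    · rcases hqi.dvd_or_dvd h1 with h2 | h2
      · rw [ha, eval_mul] at h2
        rcases hqi.dvd_or_dvd h2 with h3 | h3
        · rw [hNe]
          exact ((h3.mul_right _).mul_right _).mul_right _
        · exact hDN h3
      · rw [hb', eval_mul] at h2
        rcases hqi.dvd_or_dvd h2 with h3 | h3
        · rw [hNe]
          exact ((h3.mul_left _).mul_right _).mul_right _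
        · exact hDN h3
    · rw [hab] at h1
      rcases hqi.dvd_or_dvd h1 with h3 | h3
      · rw [hNe]
        exact (h3.mul_left _).mul_right _
      · exact hDN h3
  have hc := badQ (z := z) (y := y) (K := k) hz2 hy hm h0 hb hk hM
  have e1 : 2 * a * b * (a - b) = 2 * (a * b * (a - b)) := by ring
  rw [e1]
  rw [← hs] at hc
  calc 4 ^ (((2 * (a * b * (a - b))).natAbs.primeFactors.filter (fun q => ¬ q ∣ s)).card + 2)
      ≤ 4 ^ ((z + 2) + m * k + (q2 z y N).primeFactors.card) :=
        Nat.pow_le_pow_right (by norm_num) (by omega)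
    _ = _ := by
        rw [pow_add, pow_add]
        congr 2
        rw [← pow_mul]

end Pool.Agent.H64.PM
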