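import Mathlib
import Pool.Agent.H64.PM.RKQ

/-!
# The moments of `2 ^ rank` from the average of the local counts
-/

set_option autoImplicit false

namespace Pool.Agent.H64.PM

open Finset Pool.Agent.W262.RK Pool.Agent.W762.RK2 Polynomial

/-- the types -/
noncomputable def TyF (f : ℤ[X]) (p : ℕ) : Finset (ℕ × Bool) := Zr f p ×ˢ univ

lemma card_TyF (f : ℤ[X]) (p : ℕ) : (TyF f p).card = 2 * rho f p := by
  unfold TyF rho
  rw [card_product, card_univ, Fintype.card_bool, mul_comm]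

lemma Wt2_facts {f : ℤ[X]} {n z p : ℕ} (hn : 2 * n + 2 ≤ z)
    (hρ : ∀ p : ℕ, p.Prime → z < p → rho f p ≤ n) (hp : p.Prime) (hz : z < p) :
    0 ≤ Wt2 f p ∧ ((TyF f p).card : ℝ) * Wt2 f p ≤ 2 * n / p := by
  obtain ⟨h0, h1, h2⟩ := rho_half hn hρ hp hz
  have h3 : 0 < 1 - (rho f p : ℝ) / p := by linarith
  have h4 : (p : ℝ) / 2 ≤ (p : ℝ) - rho f p := by
    have h5 : (rho f p : ℝ) / p ≤ 1 / 2 := by linarith
    rw [div_le_iff₀ h0] at h5
    linarith
  have h5 : 0 < (p : ℝ) - rho f p := by linarith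
  constructor
  · unfold Wt2
    positivity
  · rw [card_TyF]
    unfold Wt2
    push_cast
    rw [mul_one_div, div_le_div_iff₀ (by positivity) h0]
    have h6 : (0 : ℝ) ≤ rho f p := Nat.cast_nonneg _
    have h7 : (0 : ℝ) ≤ n := Nat.cast_nonneg _
    nlinarith

lemma eval_bound (f : ℤ[X]) (X t : ℕ) (hX : 1 ≤ X) (ht : t ≤ X)
    (hc : ∑ i ∈ range (f.natDegree + 1), (f.coeff i).natAbs ≤ X) :
    (f.eval (t : ℤ)).natAbs ≤ X ^ (f.natDegree + 1) := by
  rw [eval_eq_sum_range]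
  refine (Int.natAbs_sum_le _ _).trans ?_
  have h1 : ∀ i ∈ range (f.natDegree + 1), (f.coeff i * (t : ℤ) ^ i).natAbs ≤
      (f.coeff i).natAbs * X ^ f.natDegree := by
    intro i hi
    rw [Int.natAbs_mul, Int.natAbs_pow, Int.natAbs_natCast]
    refine Nat.mul_le_mul_left _ ?_
    refine (Nat.pow_le_pow_left ht i).trans (Nat.pow_le_pow_right hX ?_)
    have := mem_range.1 hi
    omega
  refine (sum_le_sum h1).trans ?_
  rw [← sum_mul, pow_succ, mul_comm]
  exact Nat.mul_le_mul_left _ hc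

/-- the moments -/
theorem mainq (k : ℕ) (A B D : ℤ[X]) (n z : ℕ) (hn : 2 * n + 2 ≤ z) (hn1 : 1 ≤ n)
    (hρ : ∀ p : ℕ, p.Prime → z < p → rho (fT A B D) p ≤ n) (hf : Smp (fT A B D) z) (C' : ℝ)
    (havg : ∀ y, z < y → ∑ s ∈ (PP z y).divisors,
      Gs (PhG k (TyF (fT A B D)) (Wt2 (fT A B D)) (LcQ A B D)) s ≤
      C' * Lam (fun p => (rho (fT A B D) p : ℝ) / p) z y) :
    ∃ C : ℝ, ∀ X : ℕ, ∑ t ∈ (Icc 1 X).filter (fun t : ℕ => (fT A B D).eval (t : ℤ) ≠ 0),
      ((2 : ℝ) ^ Module.finrank ℤ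
        (EAB ((A * D).eval (t : ℤ)) ((B * D).eval (t : ℤ))).toAffine.Point) ^ k ≤ C * X := by
  classical
  set f := fT A B D with hfd
  obtain ⟨C, K1, y0, hC, hK1, hcell⟩ := cells f n z hn hρ hf
  have hz2 : 2 ≤ z := by omega
  set m := f.natDegree + 1 with hm
  set A0 : ℝ := 4 ^ k * (2 * n) with hA0
  have hnr : (1 : ℝ) ≤ n := by exact_mod_cast hn1
  have h4k : (1 : ℝ) ≤ 4 ^ k := one_le_pow₀ (by norm_num)
  have hA1 : 1 ≤ A0 := by
    rw [hA0]
    nlinarith
  set PG : LF k := PhG k (TyF f) (Wt2 f) (LcQ A B D) with hPG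
  have hw : ∀ p : ℕ, p.Prime → z < p → 0 ≤ Wt2 f p := fun p hp hz =>
    (Wt2_facts hn hρ hp hz).1
  have hGnn : ∀ y, ∀ s ∈ (PP z y).divisors, |Gs PG s| = Gs PG s := fun y s hs =>
    abs_of_nonneg (Gs_nonneg hs hw)
  set csum := ∑ i ∈ range (f.natDegree + 1), (f.coeff i).natAbs with hcsum
  refine antq (fun t => f.eval (t : ℤ)) z (fun s => |Gs PG s|)
    (fun t => ((2 : ℝ) ^ Module.finrank ℤ
        (EAB ((A * D).eval (t : ℤ)) ((B * D).eval (t : ℤ))).toAffine.Point) ^ k)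
    (Lam (fun p => (rho f p : ℝ) / p) z) (C * (4 ^ (z + 2)) ^ k) C' ((4 ^ m) ^ k) A0 (K1 + 1)
    (y0 + csum + 1) hz2 hA1 (fun s => abs_nonneg _) (fun t => by positivity) (by positivity)
    (one_le_pow₀ (one_le_pow₀ (by norm_num))) (fun y _ => Real.exp_pos _)
    (fun y hy s e hse => ?_) (fun y hy => ?_) ?_
  · have hm1 : s * e ∈ (PP z y).divisors := Nat.mem_divisors.2 ⟨hse, PP_ne_zero z y⟩
    have hsm : s ∈ (PP z y).divisors :=
      Nat.mem_divisors.2 ⟨(Dvd.intro _ rfl).trans hse, PP_ne_zero z y⟩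
    show |Gs PG (s * e)| ≤ bw A0 1 e * |Gs PG s|
    rw [hGnn y _ hm1, hGnn y _ hsm]
    refine Gs_growth hse hw (fun p hp hzp => ?_) (fun p hp hzp τ => XC_LcQ hf hz2 hp hzp τ)
    have h1 := (Wt2_facts hn hρ hp hzp).2
    rw [hA0, mul_div_assoc]
    exact mul_le_mul_of_nonneg_left h1 (by positivity)
  · refine le_trans (le_of_eq (sum_congr rfl fun s hs => ?_)) (havg y hy)
    exact hGnn y s hs
  intro X y Y κ hy0 hzy hyK hXk s hs v hv u hu h8
  have hy1 : 1 ≤ y := by omega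
  have hyX : y ≤ X := le_trans (Nat.le_self_pow (by omega) y) hyK
  have hX1 : 1 ≤ X := by omega
  have hyK' : y ^ K1 ≤ X := le_trans (Nat.pow_le_pow_right hy1 (Nat.le_succ _)) hyK
  set S := (Icc 1 X).filter (fun t : ℕ => f.eval (t : ℤ) ≠ 0 ∧ q1 z y (f.eval (t : ℤ)) = s ∧
      q2 z y (f.eval (t : ℤ)) = v ∧ (u : ℤ) ∣ f.eval (t : ℤ)) with hS
  set c : ℝ := 4 ^ (z + 2) * (4 ^ m) ^ κ * 4 ^ v.primeFactors.card with hc
  have hc0 : 0 ≤ c := by positivity
  set N : (Pr z y → ℕ × Bool) → ℝ := fun ε => (NL s (fun p => LcQ A B D p (exq ε p)) : ℝ) ^ k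
    with hNdef
  have hN0 : ∀ ε, 0 ≤ N ε := fun ε => by positivity
  set et : ℕ → (Pr z y → ℕ × Bool) := fun t p => if (p : ℕ) ∣ s then ty f p t else (0, false)
    with het
  have hsp : ∀ t ∈ S, ∀ p ∈ s.primeFactors, (p : ℤ) ∣ f.eval (t : ℤ) := by
    intro t ht p hp
    rw [hS, mem_filter] at ht
    have hpp := Nat.prime_of_mem_primeFactors hp
    exact ((q1_prime hpp).1 (by rw [ht.2.2.1]; exact Nat.dvd_of_mem_primeFactors hp)).2.1
  have h1 : ∀ t ∈ S, ((2 : ℝ) ^ Module.finrank ℤ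
      (EAB ((A * D).eval (t : ℤ)) ((B * D).eval (t : ℤ))).toAffine.Point) ^ k ≤
      c ^ k * N (et t) := by
    intro t ht
    have ht' := ht
    rw [hS, mem_filter] at ht'
    obtain ⟨ht1, ht0, hts, htv, _⟩ := ht'
    have hr := rankQ (A := A) (B := B) (D := D) (y := y) (X := X) (k := κ) (m := m) hf hz2 hy1
      (by omega) (t := t) ht0 (eval_bound f X t hX1 (mem_Icc.1 ht1).2 (by omega)) hXk
    rw [← hfd, hts, htv] at hr
    have hcong : NL s (fun p => LcQ A B D p (ty f p t)) =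
        NL s (fun p => LcQ A B D p (exq (et t) p)) := by
      refine Pool.Agent.W125.RK2.NL_congr fun p hp => ?_
      have hpp := Nat.prime_of_mem_primeFactors hp
      have hps := Nat.dvd_of_mem_primeFactors hp
      have hPS : p ∈ PS z y := mem_PS.2 ⟨dv_prime hs hpp hps, hpp⟩
      have : exq (et t) p = ty f p t := by
        unfold exq
        rw [dif_pos hPS]
        simp only [het]
        rw [if_pos hps]
      rw [this]
    rw [hcong] at hr
    simp only [hNdef]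
    rw [← mul_pow]
    refine pow_le_pow_left₀ (by positivity) ?_ k
    rw [hc]
    exact_mod_cast hr
  have hmaps : ∀ t ∈ S, et t ∈ CH (TyF f) z y s := by
    intro t ht
    unfold CH
    rw [Fintype.mem_piFinset]
    intro p
    simp only [het]
    by_cases hps : (p : ℕ) ∣ s
    · rw [if_pos hps, if_pos hps]
      unfold TyF ty Zr
      have hpp := (mem_PS.1 p.2).2
      rw [mem_product, mem_filter, mem_range]
      refine ⟨⟨Nat.mod_lt _ hpp.pos, ?_⟩, mem_univ _⟩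
      have h2 := hsp t ht p (Nat.mem_primeFactors.2 ⟨hpp, hps, dv_ne_zero hs⟩)
      refine (dvd_congr f ?_).1 h2
      have h5 : ((t % p : ℕ) : ℤ) = (t : ℤ) - p * (t / p : ℕ) := by
        have := Nat.mod_add_div t p
        zify at this ⊢
        linarith
      show ((p : ℕ) : ℤ) ∣ (t : ℤ) - ((t % p : ℕ) : ℤ)
      rw [h5]
      exact ⟨(t / p : ℕ), by ring⟩
    · rw [if_neg hps, if_neg hps]
      exact mem_singleton_self _
  set Q : ℝ := C * X * (∏ p ∈ s.primeFactors, Wt2 f p) * bw (2 * n) 2 v * bw n 1 u /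
        Lam (fun p => (rho f p : ℝ) / p) z y with hQ
  have h2 : ∀ ε ∈ CH (TyF f) z y s, ((S.filter (fun t : ℕ => et t = ε)).card : ℝ) ≤ Q := by
    intro ε _
    refine le_trans ?_ (hcell X y Y (by omega) hzy hyK' s hs v hv u hu h8 (exq ε))
    have h3 : S.filter (fun t : ℕ => et t = ε) ⊆ (Icc 1 X).filter (fun t : ℕ =>
        q1 z y (f.eval (t : ℤ)) = s ∧ q2 z y (f.eval (t : ℤ)) = v ∧ (u : ℤ) ∣ f.eval (t : ℤ) ∧
        ∀ p ∈ s.primeFactors, ty f p t = exq ε p) := by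
      intro t ht
      rw [mem_filter, hS, mem_filter] at ht
      rw [mem_filter]
      refine ⟨ht.1.1, ht.1.2.2.1, ht.1.2.2.2.1, ht.1.2.2.2.2, fun p hp => ?_⟩
      have hpp := Nat.prime_of_mem_primeFactors hp
      have hps := Nat.dvd_of_mem_primeFactors hp
      have hPS : p ∈ PS z y := mem_PS.2 ⟨dv_prime hs hpp hps, hpp⟩
      rw [← ht.2]
      unfold exq
      rw [dif_pos hPS]
      simp only [het]
      rw [if_pos hps]
    exact_mod_cast card_le_card h3
  have h3 : ∑ t ∈ S, N (et t) ≤ ∑ ε ∈ CH (TyF f) z y s, Q * N ε := by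
    rw [← sum_fiberwise_of_maps_to hmaps]
    refine sum_le_sum fun ε hε => ?_
    have h4 : ∑ t ∈ S.filter (fun t : ℕ => et t = ε), N (et t) =
        (S.filter (fun t : ℕ => et t = ε)).card * N ε := by
      rw [← nsmul_eq_mul, ← sum_const]
      refine sum_congr rfl fun t ht => ?_
      rw [(mem_filter.1 ht).2]
    rw [h4]
    exact mul_le_mul_of_nonneg_right (h2 ε hε) (hN0 ε)
  have hG : |Gs PG s| = ∑ ε ∈ CH (TyF f) z y s, (∏ p ∈ s.primeFactors, Wt2 f p) * N ε := by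
    rw [hGnn y s hs, hPG, Gs_eq hs]
  have hbu : bw n 1 u ≤ bw A0 1 u := by
    unfold bw
    refine div_le_div_of_nonneg_right (pow_le_pow_left₀ (by linarith) ?_ _) (by positivity)
    rw [hA0]
    nlinarith
  have hbv : (4 ^ v.primeFactors.card) ^ k * bw (2 * n) 2 v = bw A0 2 v := by
    unfold bw
    rw [hA0, mul_pow (4 ^ k : ℝ), pow_right_comm (4 : ℝ) k]
    ring
  have hbv0 : 0 ≤ bw (2 * n) 2 v := by unfold bw; positivity
  have hbA0 : 0 ≤ bw A0 2 v := by unfold bw; positivity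
  have hbu0 : 0 ≤ bw n 1 u := by unfold bw; positivity
  have hLam : 0 < Lam (fun p => (rho f p : ℝ) / p) z y := Real.exp_pos _
  calc ∑ t ∈ S, ((2 : ℝ) ^ Module.finrank ℤ
          (EAB ((A * D).eval (t : ℤ)) ((B * D).eval (t : ℤ))).toAffine.Point) ^ k
      ≤ ∑ t ∈ S, c ^ k * N (et t) := sum_le_sum h1
    _ ≤ c ^ k * ∑ ε ∈ CH (TyF f) z y s, Q * N ε := by
        rw [← mul_sum]
        exact mul_le_mul_of_nonneg_left h3 (by positivity)
    _ = (4 ^ (z + 2)) ^ k * ((4 ^ m) ^ k) ^ κ * (C * X) * |Gs PG s| * bw A0 2 v * bw n 1 u /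
          Lam (fun p => (rho f p : ℝ) / p) z y := by
        rw [hG, ← hbv, hc, hQ, mul_pow, mul_pow, pow_right_comm (4 ^ m : ℝ) κ k]
        rw [mul_sum, mul_sum, sum_mul, sum_mul, sum_div]
        refine sum_congr rfl fun ε _ => ?_
        ring
    _ ≤ (4 ^ (z + 2)) ^ k * ((4 ^ m) ^ k) ^ κ * (C * X) * |Gs PG s| * bw A0 2 v * bw A0 1 u /
          Lam (fun p => (rho f p : ℝ) / p) z y := by
        refine div_le_div_of_nonneg_right (mul_le_mul_of_nonneg_left hbu ?_) hLam.le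
        have := abs_nonneg (Gs PG s)
        positivity
    _ = _ := by ring

end Pool.Agent.H64.PM
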