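import Mathlib
import Pool.Graph.R_seed8.H474R2.PG.MertensF
import Pool.Agent.H64.MM.COMBk
import Pool.Agent.H64.PM.MNQ

/-!
# The average for the twists of one curve
-/

set_option autoImplicit false

namespace Pool.Agent.H64.PM

open Finset Pool.Agent.W262.RK Pool.Agent.W762.RK2 Polynomial
open Pool.Agent.H64.MM (Vk par Ik Lk sx Kc lock combk)

/-- the sum of the inverse squares -/
lemma sum_inv_sq : ∃ C : ℝ, 0 ≤ C ∧ ∀ z y : ℕ, ∑ p ∈ PS z y, 1 / (p : ℝ) ^ 2 ≤ C := by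
  have h : Summable (fun n : ℕ => 1 / (n : ℝ) ^ 2) :=
    Real.summable_one_div_nat_pow.2 (by norm_num)
  exact ⟨∑' n : ℕ, 1 / (n : ℝ) ^ 2, tsum_nonneg fun n => by positivity,
    fun z y => h.sum_le_tsum _ fun n _ => by positivity⟩

/-- simple roots modulo the large primes -/
lemma smp_of (f : ℤ[X]) (hf : Squarefree (f.map (Int.castRingHom ℚ))) : ∃ z0 : ℕ, Smp f z0 := by
  have hsep : (f.map (Int.castRingHom ℚ)).Separable := PerfectField.separable_iff_squarefree.2 hf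
  obtain ⟨u, v, huv⟩ := hsep
  have hclear : ∀ q : ℚ[X], ∃ (N : ℤ) (Q : ℤ[X]), N ≠ 0 ∧
      Q.map (Int.castRingHom ℚ) = C (N : ℚ) * q := by
    intro q
    obtain ⟨b, hbM, hb⟩ := IsLocalization.integerNormalization_spec (nonZeroDivisors ℤ) q
    refine ⟨b, IsLocalization.integerNormalization (nonZeroDivisors ℤ) q,
      nonZeroDivisors.ne_zero hbM, ?_⟩
    have h1 : (algebraMap ℤ ℚ) = Int.castRingHom ℚ := rfl
    rw [← h1, hb]
    ext i
    simp
  obtain ⟨N1, U, hN1, hU⟩ := hclear u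
  obtain ⟨N2, V, hN2, hV⟩ := hclear v
  have hinj : Function.Injective (Int.castRingHom ℚ) := Int.cast_injective
  have key : C N2 * U * f + C N1 * V * derivative f = C (N1 * N2) := by
    apply Polynomial.map_injective _ hinj
    simp only [Polynomial.map_add, Polynomial.map_mul, Polynomial.map_C, hU, hV,
      ← Polynomial.derivative_map]
    have e1 : (Int.castRingHom ℚ) N2 = (N2 : ℚ) := rfl
    have e2 : (Int.castRingHom ℚ) N1 = (N1 : ℚ) := rfl
    rw [e1, e2]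
    have e3 : (Int.castRingHom ℚ) (N1 * N2) = (N1 : ℚ) * N2 := by simp
    rw [e3, C_mul]
    linear_combination (C (N1 : ℚ) * C (N2 : ℚ)) * huv
  refine ⟨(N1 * N2).natAbs, fun p hp hz x h1 h2 => ?_⟩
  have h3 : (p : ℤ) ∣ N1 * N2 := by
    have h4 := congrArg (fun g : ℤ[X] => g.eval x) key
    simp only [eval_add, eval_mul, eval_C] at h4
    rw [← h4]
    exact dvd_add (h1.mul_left _) (h2.mul_left _)
  have h4 := Nat.le_of_dvd (Int.natAbs_pos.2 (mul_ne_zero hN1 hN2)) (Int.natCast_dvd.1 h3)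
  omega

/-- lower bound in Mertens' theorem -/
lemma mert_low (f h : ℤ[X]) (hh : Irreducible h) (hd : 0 < h.natDegree) (hf : h ∣ f) (z : ℕ) :
    ∃ C : ℝ, ∀ x : ℕ, 3 ≤ x →
      Real.log (Real.log x) - C ≤ ∑ p ∈ PS z x, (rho f p : ℝ) / p := by
  obtain ⟨C, hC⟩ := Pool.Agent.H474R2.PG.mertens_lower h hh hd
  refine ⟨C + ∑ p ∈ range (z + 1), (Pool.Agent.H474R2.PG.rho h p : ℝ) / p, fun x hx => ?_⟩
  have h1 := hC x (by exact_mod_cast hx)
  have h2 : Pool.Agent.H474R2.PG.Sg (Pool.Agent.H474R2.PG.rho h) (x : ℝ) ≤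
      ∑ p ∈ range (z + 1), (Pool.Agent.H474R2.PG.rho h p : ℝ) / p +
        ∑ p ∈ PS z x, (rho f p : ℝ) / p := by
    unfold Pool.Agent.H474R2.PG.Sg Pool.Agent.H474R2.PG.PR
    rw [Nat.floor_natCast, ← sum_filter_add_sum_filter_not _ (fun p => p ≤ z)]
    refine add_le_add ?_ ?_
    · refine sum_le_sum_of_subset_of_nonneg ?_ fun _ _ _ => by positivity
      intro p hp
      rw [mem_filter] at hp
      exact mem_range.2 (by omega)
    · have h3 : ((Icc 1 x).filter Nat.Prime).filter (fun p => ¬ p ≤ z) = PS z x := by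
        ext p
        rw [mem_filter, mem_filter, mem_Icc, mem_PS]
        constructor
        · rintro ⟨⟨⟨a1, a2⟩, a3⟩, a4⟩
          exact ⟨⟨by omega, a2⟩, a3⟩
        · rintro ⟨⟨a1, a2⟩, a3⟩
          exact ⟨⟨⟨a3.one_lt.le, a2⟩, a3⟩, by omega⟩
      rw [h3]
      refine sum_le_sum fun p hp => ?_
      have h4 : Pool.Agent.H474R2.PG.rho h p ≤ rho f p := by
        unfold Pool.Agent.H474R2.PG.rho rho Zr
        refine card_le_card fun a ha => ?_
        rw [mem_filter] at ha ⊢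
        refine ⟨ha.1, ha.2.trans ?_⟩
        obtain ⟨g, hg⟩ := hf
        rw [hg, eval_mul]
        exact Dvd.intro _ rfl
      have h5 : (Pool.Agent.H474R2.PG.rho h p : ℝ) ≤ rho f p := by exact_mod_cast h4
      exact div_le_div_of_nonneg_right h5 (Nat.cast_nonneg _)
  linarith

/-- the average -/
theorem avg_pm (k : ℕ) (a b : ℤ) (ha : a ≠ 0) (hb : b ≠ 0) (hab : a - b ≠ 0) (D : ℤ[X]) (n : ℕ)
    (hn1 : 1 ≤ n) (z1 : ℕ)
    (hρ : ∀ p : ℕ, p.Prime → z1 < p → rho (fT (C a) (C b) D) p ≤ n)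
    (h : ℤ[X]) (hh : Irreducible h) (hd : 0 < h.natDegree) (hhD : h ∣ D) :
    ∃ z0 : ℕ, ∀ z, z0 ≤ z → ∃ C' : ℝ, ∀ y, z < y → ∑ s ∈ (PP z y).divisors,
      Gs (PhG k (TyF (fT (C a) (C b) D)) (Wt2 (fT (C a) (C b) D)) (LcQ (C a) (C b) D)) s ≤
      C' * Lam (fun p => (rho (fT (C a) (C b) D) p : ℝ) / p) z y := by
  classical
  set f := fT (C a) (C b) D with hf
  have hδ : (0 : ℝ) < (1 / 4) ^ k := by positivity
  obtain ⟨z0, hz0⟩ := avq k (2 * n) ((1 / 4) ^ k) hδ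
  obtain ⟨CS, hCS0, hCS⟩ := sum_inv_sq
  refine ⟨z0 + z1 + (2 * n + 2) + a.natAbs + b.natAbs + (a - b).natAbs, fun z hz => ?_⟩
  have hn : 2 * n + 2 ≤ z := by omega
  have hρ' : ∀ p : ℕ, p.Prime → z < p → rho f p ≤ n := fun p hp hzp => hρ p hp (by omega)
  have hnd : ∀ c : ℤ, c ≠ 0 → c.natAbs ≤ z → ∀ p : ℕ, p.Prime → z < p → ¬ (p : ℤ) ∣ c := by
    intro c hc hcz p _ hzp h1
    have := Nat.le_of_dvd (Int.natAbs_pos.2 hc) (Int.natCast_dvd.1 h1)
    omega
  have hna := hnd a ha (by omega)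
  have hnb := hnd b hb (by omega)
  have hnab := hnd (a - b) hab (by omega)
  set κ : Fin 3 → ℤ := ![b * (a - b), a * (a - b), a * b] with hκ
  have hκp : ∀ p : ℕ, p.Prime → z < p → ∀ i, ¬ (p : ℤ) ∣ κ i := by
    intro p hp hzp i hd
    have hpi : Prime (p : ℤ) := Nat.prime_iff_prime_int.1 hp
    fin_cases i
    · rcases hpi.dvd_or_dvd hd with h1 | h1
      · exact hnb p hp hzp h1
      · exact hnab p hp hzp h1
    · rcases hpi.dvd_or_dvd hd with h1 | h1
      · exact hna p hp hzp h1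
      · exact hnab p hp hzp h1
    · rcases hpi.dvd_or_dvd hd with h1 | h1
      · exact hna p hp hzp h1
      · exact hnb p hp hzp h1
  have hfacts : ∀ p : ℕ, p.Prime → z < p → (0 : ℝ) < p ∧ 0 < (p : ℝ) - rho f p ∧
      0 ≤ (rho f p : ℝ) / (p - rho f p) ∧ (rho f p : ℝ) / (p - rho f p) ≤ 2 * n / p ∧
      (rho f p : ℝ) / p ≤ (rho f p : ℝ) / (p - rho f p) ∧
      (rho f p : ℝ) / (p - rho f p) ≤ (rho f p : ℝ) / p + 2 * n ^ 2 * (1 / (p : ℝ) ^ 2) := by
    intro p hp hzp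
    obtain ⟨h0, h1, h2⟩ := rho_half hn hρ' hp hzp
    have h4 : (p : ℝ) / 2 ≤ (p : ℝ) - rho f p := by
      have h5 : (rho f p : ℝ) / p ≤ 1 / 2 := by linarith
      rw [div_le_iff₀ h0] at h5
      linarith
    have h5 : 0 < (p : ℝ) - rho f p := by linarith
    have h6 : (0 : ℝ) ≤ rho f p := Nat.cast_nonneg _
    have h7 : (0 : ℝ) ≤ n := Nat.cast_nonneg _
    refine ⟨h0, h5, by positivity, ?_, ?_, ?_⟩
    · rw [div_le_div_iff₀ h5 h0]
      nlinarith
    · exact div_le_div_of_nonneg_left h6 h5 (by linarith)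
    · have e1 : (rho f p : ℝ) / (p - rho f p) - (rho f p : ℝ) / p =
          (rho f p : ℝ) ^ 2 / (p * (p - rho f p)) := by
        field_simp
        ring
      have e2 : (rho f p : ℝ) ^ 2 / (p * (p - rho f p)) ≤ 2 * n ^ 2 * (1 / (p : ℝ) ^ 2) := by
        rw [mul_one_div, div_le_div_iff₀ (by positivity) (by positivity)]
        have e3 : (rho f p : ℝ) ^ 2 ≤ (n : ℝ) ^ 2 := pow_le_pow_left₀ h6 h1 2
        calc (rho f p : ℝ) ^ 2 * (p : ℝ) ^ 2 ≤ (n : ℝ) ^ 2 * (p : ℝ) ^ 2 := by gcongr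
          _ = 2 * (n : ℝ) ^ 2 * (p * (p / 2)) := by ring
          _ ≤ 2 * (n : ℝ) ^ 2 * (p * (p - rho f p)) := by gcongr
      linarith
  set g : Ik Unit k → ℕ → ℝ := fun _ p => (1 / 4) ^ k * ((rho f p : ℝ) / (p - rho f p)) with hg
  have h4k1 : ((1 : ℝ) / 4) ^ k ≤ 1 := pow_le_one₀ (by norm_num) (by norm_num)
  refine hz0 z (by omega) (PhG k (TyF f) (Wt2 f) (LcQ (C a) (C b) D))
    (fun p v x => (1 / 4) ^ k * ((rho f p : ℝ) / (p - rho f p)) *
      Jr (∏ l, Kc κ (v l) (x l)) p) g (Lam (fun p => (rho f p : ℝ) / p) z)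
    (fun i p hp hzp => ⟨?_, ?_⟩) (fun i => ?_) (fun y => (Real.exp_pos _).le) (fun U hU => ?_)
    (fun p hp hzp v hs hs' => ?_)
  · obtain ⟨f0, f1, f2, f3, f4, f5⟩ := hfacts p hp hzp
    show |(1 / 4) ^ k * ((rho f p : ℝ) / (p - rho f p)) * Jr _ p| ≤
      (1 / 4) ^ k * ((rho f p : ℝ) / (p - rho f p))
    rw [abs_mul, abs_of_nonneg (by positivity : (0 : ℝ) ≤ (1 / 4) ^ k *
      ((rho f p : ℝ) / (p - rho f p)))]
    refine mul_le_of_le_one_right (by positivity) ?_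
    exact abs_Jr_le _ _
  · obtain ⟨f0, f1, f2, f3, f4, f5⟩ := hfacts p hp hzp
    show (1 / 4) ^ k * ((rho f p : ℝ) / (p - rho f p)) ≤ 2 * n / p
    exact (mul_le_of_le_one_left f2 h4k1).trans f3
  · obtain ⟨C0, hC0⟩ := mert_low f h hh hd (hhD.trans (by rw [hf]; exact Dvd.intro_left _ rfl)) z
    refine ⟨(1 / 4) ^ k * C0, fun x hx => ?_⟩
    rw [← mul_sub]
    simp only [hg]
    rw [← mul_sum]
    refine mul_le_mul_of_nonneg_left ((hC0 x hx).trans (sum_le_sum fun p hp => ?_)) hδ.le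
    exact (hfacts p (mem_PS.1 hp).2 (mem_PS.1 hp).1.1).2.2.2.2.1
  · refine ⟨Real.exp (2 * n ^ 2 * CS), fun y hy => ?_⟩
    unfold Lam
    rw [← Real.exp_sum, ← Real.exp_add]
    apply Real.exp_le_exp.2
    have h1 : ∑ i ∈ U, ∑ p ∈ PS z y, g i p =
        (∑ _i ∈ U, ((1 / 4) ^ k : ℝ)) * ∑ p ∈ PS z y, (rho f p : ℝ) / (p - rho f p) := by
      rw [sum_mul]
      refine sum_congr rfl fun i _ => ?_
      simp only [hg]
      rw [← mul_sum]
    have h2 : ∑ _i ∈ U, ((1 / 4) ^ k : ℝ) ≤ 1 := by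
      have := combk k Unit U hU
      simpa using this
    have h3 : 0 ≤ ∑ p ∈ PS z y, (rho f p : ℝ) / (p - rho f p) :=
      sum_nonneg fun p hp => (hfacts p (mem_PS.1 hp).2 (mem_PS.1 hp).1.1).2.2.1
    rw [h1]
    refine (mul_le_of_le_one_left h3 h2).trans ?_
    have h4 : ∑ p ∈ PS z y, (rho f p : ℝ) / (p - rho f p) ≤
        ∑ p ∈ PS z y, ((rho f p : ℝ) / p + 2 * n ^ 2 * (1 / (p : ℝ) ^ 2)) :=
      sum_le_sum fun p hp => (hfacts p (mem_PS.1 hp).2 (mem_PS.1 hp).1.1).2.2.2.2.2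
    rw [sum_add_distrib, ← mul_sum] at h4
    have h5 := mul_le_mul_of_nonneg_left (hCS z y) (by positivity : (0 : ℝ) ≤ 2 * n ^ 2)
    linarith
  · -- the local function
    have hcl : ∀ x : ℤ, clq (C a) (C b) p x = 3 := by
      intro x
      unfold clq
      rw [if_neg (by rw [eval_C]; exact hna p hp hzp), if_neg (by rw [eval_C]; exact hnb p hp hzp),
        if_neg (by rw [eval_sub, eval_C, eval_C]; exact hnab p hp hzp)]
    have hkp : ∀ x : ℤ, kpq (C a) (C b) D p x = κ := by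
      intro x
      unfold kpq
      rw [if_neg (by rw [eval_C]; exact hna p hp hzp), if_neg (by rw [eval_C]; exact hnb p hp hzp),
        if_neg (by rw [eval_sub, eval_C, eval_C]; exact hnab p hp hzp), hκ]
      simp only [eval_mul, eval_sub, eval_C]
    have hl := lock κ hp (hκp p hp hzp) v hs hs'
    unfold PhG TyF LcQ
    simp only [hcl, hkp]
    rw [sum_product]
    simp only [Fintype.sum_bool, sum_const, nsmul_eq_mul]
    have h1 : ((Zr f p).card : ℝ) = rho f p := rfl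
    rw [h1]
    have h2 : (rho f p : ℝ) * (Wt2 f p * ∏ l, ind (LL 3 κ true p (v l).1 (v l).2 (hs l) (hs' l)) +
        Wt2 f p * ∏ l, ind (LL 3 κ false p (v l).1 (v l).2 (hs l) (hs' l))) =
        (rho f p : ℝ) / (p - rho f p) *
        ((∏ l, ind (LL 3 κ true p (v l).1 (v l).2 (hs l) (hs' l)) +
          ∏ l, ind (LL 3 κ false p (v l).1 (v l).2 (hs l) (hs' l))) / 2) := by
      unfold Wt2
      have := (hfacts p hp hzp).2.1
      field_simp
    rw [h2, hl, mul_sum]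
    refine sum_congr rfl fun x _ => ?_
    split_ifs
    · ring
    · simp

end Pool.Agent.H64.PM
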