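import Mathlib
import Pool.Agent.H64.MM.Fin
import Pool.Agent.H64.PM.PMA

/-!
# All moments: twists of one curve by the values of an arbitrary polynomial
-/

set_option autoImplicit false

namespace Pool.Agent.H64.PM

open Finset Pool.Agent.W262.RK Polynomial
open Pool.Agent.H64.MM (Tw rk rk_scale)

/-- integral version -/
theorem pm_int (k : ℕ) (a b : ℤ) (ha : a ≠ 0) (hb : b ≠ 0) (hab : a - b ≠ 0) (D : ℤ[X])
    (hD : Squarefree (D.map (Int.castRingHom ℚ))) (hd : 0 < D.natDegree) :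
    ∃ C0 : ℝ, ∀ X : ℕ, ∑ t ∈ (Icc 1 X).filter (fun t : ℕ => D.eval (t : ℤ) ≠ 0),
      ((2 : ℝ) ^ Module.finrank ℤ
        (EAB (a * D.eval (t : ℤ)) (b * D.eval (t : ℤ))).toAffine.Point) ^ k ≤ C0 * X := by
  classical
  set f := fT (C a) (C b) D with hf
  have hD0 : D ≠ 0 := by
    rintro rfl
    simp at hd
  have hfe : f = C (a * b * (a - b)) * D := by
    rw [hf]
    unfold fT
    simp only [C_mul, C_sub]
  have hc0 : a * b * (a - b) ≠ 0 := mul_ne_zero (mul_ne_zero ha hb) hab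
  have hf0 : f ≠ 0 := by
    rw [hfe]
    exact mul_ne_zero (C_ne_zero.2 hc0) hD0
  have hsq : Squarefree (f.map (Int.castRingHom ℚ)) := by
    rw [hfe, Polynomial.map_mul, Polynomial.map_C]
    have hu : IsUnit (C ((Int.castRingHom ℚ) (a * b * (a - b)))) := by
      rw [isUnit_C, isUnit_iff_ne_zero]
      have h1 : ((a * b * (a - b) : ℤ) : ℚ) ≠ 0 := by exact_mod_cast hc0
      exact h1
    have hass : Associated (D.map (Int.castRingHom ℚ))
        (C ((Int.castRingHom ℚ) (a * b * (a - b))) * D.map (Int.castRingHom ℚ)) :=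
      (associated_isUnit_mul_left_iff hu).2 (Associated.refl _) |>.symm
    exact hass.squarefree_iff.1 hD
  obtain ⟨z1, hz1⟩ := smp_of f hsq
  obtain ⟨z2, hz2⟩ := Pool.Agent.H474R2.PG.rho_le f hf0
  set n := f.natDegree + 1 with hn
  have hρ : ∀ p : ℕ, p.Prime → z2 < p → rho f p ≤ n := fun p hp hzp =>
    (hz2 p hp hzp).trans (Nat.le_succ _)
  -- an irreducible factor
  obtain ⟨h, hh, hhd, hhD⟩ : ∃ h : ℤ[X], Irreducible h ∧ 0 < h.natDegree ∧ h ∣ D := by
    by_contra hcon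
    push Not at hcon
    have key : ∀ g : ℤ[X], g ≠ 0 → g ∣ D → g.natDegree = 0 := by
      intro g
      refine WfDvdMonoid.induction_on_irreducible (motive := fun g => g ≠ 0 → g ∣ D →
        g.natDegree = 0) g ?_ ?_ ?_
      · intro h0
        exact absurd rfl h0
      · intro u hu _ _
        exact natDegree_eq_zero_of_isUnit hu
      · intro g i hg0 hi ih _ hd
        have h1 : i ∣ D := (Dvd.intro _ rfl).trans hd
        have h2 : g ∣ D := (Dvd.intro_left _ rfl).trans hd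
        have h3 : i.natDegree = 0 := by
          by_contra h4
          exact hcon i hi (Nat.pos_of_ne_zero h4) h1
        rw [natDegree_mul hi.ne_zero hg0, h3, ih hg0 h2]
    have := key D hD0 (dvd_refl D)
    omega
  obtain ⟨z3, hz3⟩ := avg_pm k a b ha hb hab D n (by omega) z2 hρ h hh hhd hhD
  set z := z1 + z2 + z3 + (2 * n + 2) with hz
  obtain ⟨C', hC'⟩ := hz3 z (by omega)
  obtain ⟨C0, hC0⟩ := mainq k (C a) (C b) D n z (by omega) (by omega)
    (fun p hp hzp => hρ p hp (by omega)) (fun p hp hzp => hz1 p hp (by omega)) C' hC'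
  refine ⟨C0, fun X => le_trans (le_of_eq ?_) (hC0 X)⟩
  have h1 : (Icc 1 X).filter (fun t : ℕ => D.eval (t : ℤ) ≠ 0) =
      (Icc 1 X).filter (fun t : ℕ => (fT (C a) (C b) D).eval (t : ℤ) ≠ 0) := by
    refine filter_congr fun t _ => ?_
    rw [← hf, hfe, eval_mul, eval_C]
    exact ⟨fun h => mul_ne_zero hc0 h, fun h => right_ne_zero_of_mul h⟩
  rw [h1]
  refine sum_congr rfl fun t _ => ?_
  rw [eval_mul, eval_mul, eval_C, eval_C]

/-- the squarefree part -/
lemma sqf_part (D : ℚ[X]) (hD : D ≠ 0) : ∃ s r : ℚ[X], Squarefree s ∧ D = s * r ^ 2 := by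
  obtain ⟨m, hm⟩ : ∃ m, D.natDegree = m := ⟨_, rfl⟩
  induction m using Nat.strong_induction_on generalizing D with
  | _ m ih =>
    by_cases h : Squarefree D
    · exact ⟨D, 1, h, by ring⟩
    · unfold Squarefree at h
      push Not at h
      obtain ⟨r, ⟨s, hs⟩, hr⟩ := h
      have hs0 : s ≠ 0 := by
        rintro rfl
        exact hD (by rw [hs, mul_zero])
      have hr0 : r ≠ 0 := by
        rintro rfl
        exact hD (by rw [hs]; ring)
      have hrd : 0 < r.natDegree := by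
        rw [Nat.pos_iff_ne_zero]
        intro h0
        apply hr
        rw [eq_C_of_natDegree_eq_zero h0, isUnit_C, isUnit_iff_ne_zero]
        intro h1
        apply hr0
        rw [eq_C_of_natDegree_eq_zero h0, h1, C_0]
      have hdeg : D.natDegree = 2 * r.natDegree + s.natDegree := by
        rw [hs, natDegree_mul (mul_ne_zero hr0 hr0) hs0, natDegree_mul hr0 hr0]
        ring
      obtain ⟨s', r', h1, h2⟩ := ih s.natDegree (by omega) s hs0 rfl
      exact ⟨s', r' * r, h1, by rw [hs, h2]; ring⟩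

/-- integral squarefree part -/
lemma int_part (D : ℚ[X]) (hD : D ≠ 0) : ∃ (S : ℤ[X]) (q : ℚ) (r : ℚ[X]), q ≠ 0 ∧
    Squarefree (S.map (Int.castRingHom ℚ)) ∧
    ∀ t : ℚ, D.eval t = q * (S.map (Int.castRingHom ℚ)).eval t * (r.eval t) ^ 2 := by
  obtain ⟨s, r, hs, hD'⟩ := sqf_part D hD
  obtain ⟨b, hbM, hb⟩ := IsLocalization.integerNormalization_spec (nonZeroDivisors ℤ) s
  set S := IsLocalization.integerNormalization (nonZeroDivisors ℤ) s with hS
  have hb0 : b ≠ 0 := nonZeroDivisors.ne_zero hbM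
  have hbq : (b : ℚ) ≠ 0 := by exact_mod_cast hb0
  have h1 : S.map (Int.castRingHom ℚ) = C (b : ℚ) * s := by
    have h2 : (algebraMap ℤ ℚ) = Int.castRingHom ℚ := rfl
    rw [← h2, hb]
    ext i
    simp
  refine ⟨S, (b : ℚ)⁻¹, r, inv_ne_zero hbq, ?_, fun t => ?_⟩
  · rw [h1]
    have hu : IsUnit (C (b : ℚ)) := by
      rw [isUnit_C, isUnit_iff_ne_zero]
      exact hbq
    have hass : Associated s (C (b : ℚ) * s) :=
      (associated_isUnit_mul_left_iff hu).2 (Associated.refl _) |>.symm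
    exact hass.squarefree_iff.1 hs
  · rw [h1, hD', eval_mul, eval_mul, eval_C, eval_pow]
    field_simp

/-- one sign of `t` -/
theorem pm_one (k : ℕ) (a b : ℚ) (ha : a ≠ 0) (hb : b ≠ 0) (hab : a ≠ b)
    (D : ℚ[X]) (hD : D ≠ 0) : ∃ C0 : ℝ, 0 ≤ C0 ∧ ∀ X : ℕ,
      ∑ t ∈ (Icc 1 X).filter (fun t : ℕ => D.eval (t : ℚ) ≠ 0),
        ((2 : ℝ) ^ rk (Tw a b (D.eval (t : ℚ)))) ^ k ≤ C0 * X := by
  classical
  obtain ⟨S, q, r, hq, hS, hDe⟩ := int_part D hD
  set x : ℚ := a * q with hx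
  set y : ℚ := b * q with hy
  have hx0 : x ≠ 0 := mul_ne_zero ha hq
  have hy0 : y ≠ 0 := mul_ne_zero hb hq
  have hxy : x ≠ y := fun h => hab (mul_right_cancel₀ hq h)
  set N : ℚ := (x.den : ℚ) * y.den with hN
  have hxd : (x.den : ℚ) ≠ 0 := by exact_mod_cast x.den_ne_zero
  have hyd : (y.den : ℚ) ≠ 0 := by exact_mod_cast y.den_ne_zero
  have hN0 : N ≠ 0 := mul_ne_zero hxd hyd
  set A : ℤ := x.num * x.den * y.den ^ 2 with hA
  set B : ℤ := y.num * y.den * x.den ^ 2 with hB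
  have hAx : (A : ℚ) = x * N ^ 2 := by
    rw [hA, hN]
    push_cast
    have h1 := Rat.mul_den_eq_num x
    linear_combination (-(x.den : ℚ) * y.den ^ 2) * h1
  have hBy : (B : ℚ) = y * N ^ 2 := by
    rw [hB, hN]
    push_cast
    have h1 := Rat.mul_den_eq_num y
    linear_combination (-(y.den : ℚ) * x.den ^ 2) * h1
  have hA0 : A ≠ 0 := by
    intro h
    have : (A : ℚ) = 0 := by exact_mod_cast h
    rw [hAx] at this
    exact mul_ne_zero hx0 (pow_ne_zero _ hN0) this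
  have hB0 : B ≠ 0 := by
    intro h
    have : (B : ℚ) = 0 := by exact_mod_cast h
    rw [hBy] at this
    exact mul_ne_zero hy0 (pow_ne_zero _ hN0) this
  have hAB : A - B ≠ 0 := by
    intro h
    have h1 : (A : ℚ) = B := by exact_mod_cast (sub_eq_zero.1 h)
    rw [hAx, hBy] at h1
    exact hxy (mul_right_cancel₀ (pow_ne_zero _ hN0) h1)
  have hSe : ∀ t : ℕ, (S.map (Int.castRingHom ℚ)).eval (t : ℚ) = ((S.eval (t : ℤ) : ℤ) : ℚ) := by
    intro t
    have h1 : (t : ℚ) = ((t : ℤ) : ℚ) := by push_cast; rfl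
    rw [h1, eval_intCast_map]
    rfl
  have hDt : ∀ t : ℕ, D.eval (t : ℚ) = q * (S.eval (t : ℤ) : ℤ) * (r.eval (t : ℚ)) ^ 2 := by
    intro t
    rw [hDe, hSe]
  have hne : ∀ t : ℕ, D.eval (t : ℚ) ≠ 0 → S.eval (t : ℤ) ≠ 0 ∧ r.eval (t : ℚ) ≠ 0 := by
    intro t ht
    constructor
    · intro h
      apply ht
      rw [hDt, h]
      simp
    · intro h
      apply ht
      rw [hDt, h]
      simp
  have hrk : ∀ t : ℕ, D.eval (t : ℚ) ≠ 0 → rk (Tw a b (D.eval (t : ℚ))) =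
      Module.finrank ℤ (EAB (A * S.eval (t : ℤ)) (B * S.eval (t : ℤ))).toAffine.Point := by
    intro t ht
    obtain ⟨hG0, hGe⟩ := hne t ht
    refine rk_scale _ _ a b _ (r.eval (t : ℚ) / N) (div_ne_zero hGe hN0) ?_ ?_
    · rw [hDt]
      push_cast
      rw [hAx, hx]
      field_simp
    · rw [hDt]
      push_cast
      rw [hBy, hy]
      field_simp
  rcases Nat.eq_zero_or_pos S.natDegree with hdeg | hdeg
  · -- constant squarefree part
    obtain ⟨c, hc⟩ : ∃ c : ℤ, S = C c := ⟨_, eq_C_of_natDegree_eq_zero hdeg⟩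
    refine ⟨((2 : ℝ) ^ Module.finrank ℤ (EAB (A * c) (B * c)).toAffine.Point) ^ k, by positivity,
      fun X => ?_⟩
    have h1 : ∀ t ∈ (Icc 1 X).filter (fun t : ℕ => D.eval (t : ℚ) ≠ 0),
        ((2 : ℝ) ^ rk (Tw a b (D.eval (t : ℚ)))) ^ k ≤
        ((2 : ℝ) ^ Module.finrank ℤ (EAB (A * c) (B * c)).toAffine.Point) ^ k := by
      intro t ht
      rw [hrk t (mem_filter.1 ht).2, hc, eval_C]
    refine (sum_le_card_nsmul _ _ _ h1).trans ?_
    rw [nsmul_eq_mul, mul_comm]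
    refine mul_le_mul_of_nonneg_left ?_ (by positivity)
    have h2 := card_filter_le (Icc 1 X) (fun t : ℕ => D.eval (t : ℚ) ≠ 0)
    rw [Nat.card_Icc, Nat.add_sub_cancel] at h2
    exact_mod_cast h2
  · obtain ⟨C0, hC0⟩ := pm_int k A B hA0 hB0 hAB S hS hdeg
    refine ⟨max C0 0, le_max_right _ _, fun X => ?_⟩
    have h2 : C0 * (X : ℝ) ≤ max C0 0 * X :=
      mul_le_mul_of_nonneg_right (le_max_left _ _) (Nat.cast_nonneg _)
    refine le_trans ?_ ((hC0 X).trans h2)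
    calc ∑ t ∈ (Icc 1 X).filter (fun t : ℕ => D.eval (t : ℚ) ≠ 0),
          ((2 : ℝ) ^ rk (Tw a b (D.eval (t : ℚ)))) ^ k
        = ∑ t ∈ (Icc 1 X).filter (fun t : ℕ => D.eval (t : ℚ) ≠ 0), ((2 : ℝ) ^ Module.finrank ℤ
            (EAB (A * S.eval (t : ℤ)) (B * S.eval (t : ℤ))).toAffine.Point) ^ k := by
          refine sum_congr rfl fun t ht => ?_
          rw [hrk t (mem_filter.1 ht).2]
      _ ≤ _ := by
          refine sum_le_sum_of_subset_of_nonneg ?_ fun _ _ _ => by positivity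
          intro t ht
          rw [mem_filter] at ht ⊢
          exact ⟨ht.1, (hne t ht.2).1⟩

/-- **All moments.** -/
theorem pm_all (k : ℕ) (a b : ℚ) (ha : a ≠ 0) (hb : b ≠ 0) (hab : a ≠ b)
    (D : ℚ[X]) (hD : D ≠ 0) : ∃ C0 : ℝ, 0 ≤ C0 ∧ ∀ X : ℕ, 1 ≤ X →
      ∑ t ∈ (Icc (-(X : ℤ)) X).filter (fun t : ℤ => D.eval (t : ℚ) ≠ 0),
        ((2 : ℝ) ^ rk (Tw a b (D.eval (t : ℚ)))) ^ k ≤ C0 * X := by
  classical
  obtain ⟨C1, hC10, hC1⟩ := pm_one k a b ha hb hab D hD
  have hcomp : ∀ t : ℚ, (D.comp (-X)).eval t = D.eval (-t) := by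
    intro t
    rw [eval_comp]
    simp
  have hD' : D.comp (-X) ≠ 0 := by
    intro h
    apply hD
    have h1 : (D.comp (-X)).comp (-X) = D := by
      rw [comp_assoc]
      simp
    rw [← h1, h, zero_comp]
  obtain ⟨C2, hC20, hC2⟩ := pm_one k a b ha hb hab (D.comp (-X)) hD'
  set P : ℤ → ℝ := fun t => if D.eval (t : ℚ) ≠ 0 then
    ((2 : ℝ) ^ rk (Tw a b (D.eval (t : ℚ)))) ^ k else 0 with hP
  have hP0 : ∀ t, 0 ≤ P t := fun t => by
    simp only [hP]
    split_ifs <;> positivity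
  refine ⟨C1 + C2 + P 0, add_nonneg (add_nonneg hC10 hC20) (hP0 0), fun X hX => ?_⟩
  have hXr : (1 : ℝ) ≤ X := by exact_mod_cast hX
  have e1 : ∑ t ∈ Icc 1 X, P (t : ℤ) ≤ C1 * X := by
    have h := hC1 X
    rw [sum_filter] at h
    refine le_trans (le_of_eq ?_) h
    refine sum_congr rfl fun t _ => ?_
    simp only [hP]
    push_cast
    rfl
  have e2 : ∑ t ∈ Icc 1 X, P (-(t : ℤ)) ≤ C2 * X := by
    have h := hC2 X
    rw [sum_filter] at h
    refine le_trans (le_of_eq ?_) h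
    refine sum_congr rfl fun t _ => ?_
    simp only [hP, hcomp]
    push_cast
    rfl
  have hsub : Icc (-(X : ℤ)) X ⊆ ((Icc 1 X).image (fun t : ℕ => (t : ℤ)) ∪
      (Icc 1 X).image (fun t : ℕ => -(t : ℤ))) ∪ {0} := by
    intro t ht
    rw [mem_Icc] at ht
    rw [mem_union, mem_union, mem_image, mem_image, mem_singleton]
    rcases lt_trichotomy t 0 with h | h | h
    · left; right
      exact ⟨t.natAbs, mem_Icc.2 (by omega), by omega⟩
    · right; exact h
    · left; left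
      exact ⟨t.natAbs, mem_Icc.2 (by omega), by omega⟩
  have hun : ∀ S T : Finset ℤ, ∑ t ∈ S ∪ T, P t ≤ ∑ t ∈ S, P t + ∑ t ∈ T, P t := by
    intro S T
    rw [← sum_union_inter]
    exact le_add_of_nonneg_right (sum_nonneg fun t _ => hP0 t)
  have e3 : ∑ t ∈ (Icc 1 X).image (fun t : ℕ => (t : ℤ)), P t = ∑ t ∈ Icc 1 X, P (t : ℤ) :=
    sum_image (fun i _ j _ hij => by exact_mod_cast hij)
  have e4 : ∑ t ∈ (Icc 1 X).image (fun t : ℕ => -(t : ℤ)), P t = ∑ t ∈ Icc 1 X, P (-(t : ℤ)) :=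
    sum_image (fun i _ j _ hij => by simpa using hij)
  rw [sum_filter]
  show ∑ t ∈ Icc (-(X : ℤ)) X, P t ≤ (C1 + C2 + P 0) * X
  have h5 := (sum_le_sum_of_subset_of_nonneg hsub (fun t _ _ => hP0 t)).trans
    ((hun _ _).trans (add_le_add (hun _ _) le_rfl))
  rw [e3, e4, sum_singleton] at h5
  have h6 : P 0 ≤ P 0 * X := le_mul_of_one_le_right (hP0 0) hXr
  linarith

end Pool.Agent.H64.PM
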