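import Pool.Graph.R_seed8.H474R2.PG.MertensF

/-!
# Upper bound in Mertens' theorem for the roots of an irreducible polynomial
-/

set_option autoImplicit false

namespace Pool.Agent.H64.PM.MTU

open Polynomial Finset NumberField Filter Topology
open Pool.Agent.H921R2.TatePole
open Pool.Agent.H474R2.PG (PR Sg P1_floor P2_ne_zero)

theorem homs_upper (K : Type) [Field K] [NumberField K] : ∃ C : ℝ, ∀ w : ℝ, 3 ≤ w →
    ∑ p ∈ PR w, (Nat.card (𝓞 K →+* ZMod p) : ℝ) / (p : ℝ) ≤ Real.log (Real.log w) + C := by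
  obtain ⟨CR, hCR⟩ := sum_R_bdd (K := K)
  obtain ⟨CW, hCW⟩ := W_sub_Lam_bdd
  obtain ⟨M1, hM1⟩ := Pool.Agent.Helper256.KM.mertens_log
  have hM10 : 0 ≤ M1 := (abs_nonneg _).trans (hM1 1 le_rfl)
  have hboth := hCR.and hCW
  obtain ⟨u, hu1, hu⟩ := mem_nhdsGT_iff_exists_Ioo_subset.1 hboth
  simp only [Set.mem_Ioi] at hu1
  set n : ℝ := (Module.finrank ℚ K : ℝ) with hn
  have hn0 : 0 ≤ n := by positivity
  set S0 : ℝ := ∑ p ∈ PR (Real.exp (1 / (u - 1))), (Nat.card (𝓞 K →+* ZMod p) : ℝ) / (p : ℝ)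
    with hS0
  refine ⟨max (CR + CW + n * (M1 + 1)) S0, fun w hw => ?_⟩
  have hlog1 : 1 ≤ Real.log w := by
    have h1 : Real.exp 1 ≤ w := by
      have := Real.exp_one_lt_d9
      linarith
    have := Real.log_le_log (Real.exp_pos 1) h1
    rwa [Real.log_exp] at this
  have hlog0 : 0 < Real.log w := by linarith
  have hll : 0 ≤ Real.log (Real.log w) := Real.log_nonneg hlog1
  have hw0 : 0 < w := by linarith
  by_cases hsm : Real.log w ≤ 1 / (u - 1)
  · have h1 : w ≤ Real.exp (1 / (u - 1)) := by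
      rw [← Real.log_le_iff_le_exp hw0]
      exact hsm
    have h2 : PR w ⊆ PR (Real.exp (1 / (u - 1))) := by
      intro p hp
      unfold PR at hp ⊢
      rw [mem_filter, mem_Icc] at hp ⊢
      exact ⟨⟨hp.1.1, hp.1.2.trans (Nat.floor_le_floor h1)⟩, hp.2⟩
    have h3 : ∑ p ∈ PR w, (Nat.card (𝓞 K →+* ZMod p) : ℝ) / (p : ℝ) ≤ S0 :=
      sum_le_sum_of_subset_of_nonneg h2 fun _ _ _ => by positivity
    have h4 := le_max_right (CR + CW + n * (M1 + 1)) S0
    linarith
  push Not at hsm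
  have hu0 : 0 < u - 1 := by linarith
  set x : ℝ := 1 + 1 / Real.log w with hx
  have hx1 : 1 < x := by rw [hx]; linarith [show (0 : ℝ) < 1 / Real.log w by positivity]
  have hxu : x < u := by
    have : 1 / Real.log w < u - 1 := by
      rw [div_lt_iff₀ hlog0]
      rw [div_lt_iff₀ hu0] at hsm
      linarith
    rw [hx]; linarith
  obtain ⟨hA, hB⟩ := hu ⟨hx1, hxu⟩
  rw [abs_le] at hA hB
  simp only at hA hB
  have hLam : Lam x = Real.log (Real.log w) := by
    unfold Lam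
    rw [hx]
    congr 1
    field_simp
    ring
  rw [hLam] at hB
  obtain ⟨hN3, hNlow, hNlog⟩ := P1_floor hw
  set N := ⌊w⌋₊ with hNdef
  set s : Finset Nat.Primes := Finset.subtype Nat.Prime (Finset.Icc 1 N) with hs
  have htrans : ∀ f : ℕ → ℝ, ∑ p ∈ s, f p = ∑ p ∈ PR w, f p := by
    intro f
    exact Finset.sum_subtype_eq_sum_filter (s := Finset.Icc 1 N) (p := Nat.Prime) f
  have hwsum := w_summable hx1
  have hRsum : Summable (fun p : Nat.Primes => (R K p : ℝ) * Pool.Agent.H921R2.TatePole.w x p) :=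
    bddmul_summable hx1 (C := Module.finrank ℚ K) fun p => by
      rw [abs_of_nonneg (by positivity)]; exact_mod_cast R_le p
  have hSR : ∑' p : Nat.Primes, ((R K p : ℝ) - 1) * Pool.Agent.H921R2.TatePole.w x p =
      ∑' p : Nat.Primes, (R K p : ℝ) * Pool.Agent.H921R2.TatePole.w x p - W x := by
    have e : ∀ p : Nat.Primes, ((R K p : ℝ) - 1) * Pool.Agent.H921R2.TatePole.w x p =
      (R K p : ℝ) * Pool.Agent.H921R2.TatePole.w x p - Pool.Agent.H921R2.TatePole.w x p :=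
      fun p => by ring
    rw [tsum_congr e, Summable.tsum_sub hRsum hwsum]
    rfl
  rw [hSR] at hA
  -- the comparison
  have h1 : ∑ p ∈ s, (R K p : ℝ) * Pool.Agent.H921R2.TatePole.w x p ≤
      ∑' p : Nat.Primes, (R K p : ℝ) * Pool.Agent.H921R2.TatePole.w x p :=
    hRsum.sum_le_tsum s fun p _ => mul_nonneg (Nat.cast_nonneg _) (w_nonneg x p)
  have h2 : ∑ p ∈ s, ((R K p : ℝ) / ((p : ℕ) : ℝ) - (R K p : ℝ) *
      Pool.Agent.H921R2.TatePole.w x p) ≤ ∑ p ∈ s, n * ((Real.log (p : ℕ) / (p : ℕ)) /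
        Real.log w) := by
    refine sum_le_sum fun p _ => ?_
    have hp0 : (0 : ℝ) < ((p : ℕ) : ℝ) := by exact_mod_cast p.2.pos
    have hp1 : (1 : ℝ) ≤ ((p : ℕ) : ℝ) := by exact_mod_cast p.2.one_lt.le
    have e1 : Pool.Agent.H921R2.TatePole.w x p =
        (1 / ((p : ℕ) : ℝ)) * Real.exp (-(Real.log (p : ℕ) / Real.log w)) := by
      unfold Pool.Agent.H921R2.TatePole.w
      rw [Real.rpow_def_of_pos hp0, hx,
        show Real.log (p : ℕ) * -(1 + 1 / Real.log w) =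
          -Real.log (p : ℕ) + -(Real.log (p : ℕ) / Real.log w) by ring,
        Real.exp_add, Real.exp_neg, Real.exp_log hp0]
      simp
    have h3 := Real.add_one_le_exp (-(Real.log (p : ℕ) / Real.log w))
    have h4 : (0 : ℝ) ≤ 1 / ((p : ℕ) : ℝ) := by positivity
    have h5 := mul_le_mul_of_nonneg_left h3 h4
    have h6 : 1 / ((p : ℕ) : ℝ) - Pool.Agent.H921R2.TatePole.w x p ≤
        (Real.log (p : ℕ) / (p : ℕ)) / Real.log w := by
      rw [e1]
      have e2 : 1 / ((p : ℕ) : ℝ) * (-(Real.log (p : ℕ) / Real.log w) + 1) =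
          1 / ((p : ℕ) : ℝ) - (Real.log (p : ℕ) / (p : ℕ)) / Real.log w := by ring
      rw [e2] at h5
      linarith
    have h7 : (R K p : ℝ) ≤ n := by rw [hn]; exact_mod_cast R_le p
    have h8 : 0 ≤ Real.log (p : ℕ) := Real.log_nonneg hp1
    have h9 : 0 ≤ (Real.log (p : ℕ) / (p : ℕ)) / Real.log w := by positivity
    have h10 : (0 : ℝ) ≤ R K p := Nat.cast_nonneg _
    calc (R K p : ℝ) / ((p : ℕ) : ℝ) - (R K p : ℝ) * Pool.Agent.H921R2.TatePole.w x p
        = (R K p : ℝ) * (1 / ((p : ℕ) : ℝ) - Pool.Agent.H921R2.TatePole.w x p) := by ring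
      _ ≤ (R K p : ℝ) * ((Real.log (p : ℕ) / (p : ℕ)) / Real.log w) :=
          mul_le_mul_of_nonneg_left h6 h10
      _ ≤ n * ((Real.log (p : ℕ) / (p : ℕ)) / Real.log w) := mul_le_mul_of_nonneg_right h7 h9
  have h3 : ∑ p ∈ s, n * ((Real.log (p : ℕ) / (p : ℕ)) / Real.log w) ≤ n * (M1 + 1) := by
    rw [← mul_sum]
    refine mul_le_mul_of_nonneg_left ?_ hn0
    rw [htrans (fun p => (Real.log p / p) / Real.log w), ← sum_div, div_le_iff₀ hlog0]
    have h4 := (abs_le.1 (hM1 N (by omega))).2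
    have e4 : ∑ p ∈ PR w, Real.log p / p = ∑ p ∈ (Finset.Icc 1 N).filter Nat.Prime, Real.log p / p :=
      rfl
    rw [← e4] at h4
    nlinarith
  have h4 : ∑ p ∈ PR w, (Nat.card (𝓞 K →+* ZMod p) : ℝ) / (p : ℝ) =
      ∑ p ∈ s, (R K p : ℝ) / ((p : ℕ) : ℝ) := by
    rw [← htrans (fun p => (Nat.card (𝓞 K →+* ZMod p) : ℝ) / (p : ℝ))]
    refine sum_congr rfl fun p _ => ?_
    rw [R_eq_hc]
    rfl
  rw [sum_sub_distrib] at h2
  have hmax := le_max_left (CR + CW + n * (M1 + 1)) S0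
  rw [h4]
  linarith [hA.2, hB.2]

theorem rho_core (K : Type) [Field K] [NumberField K] (f : ℤ[X]) (hprim : f.IsPrimitive) (α : K)
    (hαf : ∀ P : ℤ[X], eval₂ (Int.castRingHom K) α P = 0 →
      f.map (Int.castRingHom ℚ) ∣ P.map (Int.castRingHom ℚ))
    (hadj : ∀ x : K, ∃ q : ℚ[X], eval₂ (Rat.castHom K) α q = x) :
    ∃ B : ℕ, ∀ p : ℕ, p.Prime → B < p → Pool.Agent.H474R2.PG.rho f p ≤
      Nat.card (𝓞 K →+* ZMod p) := by
  classical
  obtain ⟨N0, hN0, b, hb⟩ := Pool.Agent.H921R2.TatePole.exists_int_mul (K := K) α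
  have hN0K : (N0 : K) ≠ 0 := by exact_mod_cast hN0
  have htop : Algebra.adjoin ℚ {(b : K)} = ⊤ := by
    rw [eq_top_iff]
    intro x _
    obtain ⟨q, hq⟩ := hadj x
    have hα : α ∈ Algebra.adjoin ℚ {(b : K)} := by
      have h2 : α = ((1 / (N0 : ℚ) : ℚ)) • (b : K) := by
        have h5 : algebraMap ℚ K (1 / (N0 : ℚ)) = 1 / (N0 : K) := by
          rw [map_div₀, map_one, map_intCast]
        rw [hb, Algebra.smul_def, h5]
        field_simp
      rw [h2]
      exact Subalgebra.smul_mem _ (Algebra.subset_adjoin (Set.mem_singleton _)) _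
    have h3 : x = aeval α q := by
      rw [← hq, aeval_def]
      congr 1
    rw [h3]
    have h4 := Polynomial.aeval_mem_adjoin_singleton ℚ (p := q) α
    exact (Algebra.adjoin_le (S := Algebra.adjoin ℚ {(b : K)}) (by
      intro y hy
      rw [Set.mem_singleton_iff] at hy
      rw [hy]
      exact hα)) h4
  obtain ⟨N1, hN1, hind⟩ := Pool.Agent.H921R2.TatePole.exists_index (K := K) htop
  refine ⟨N0.natAbs + N1.natAbs, fun p hp hpB => ?_⟩
  have : Fact p.Prime := ⟨hp⟩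
  have h0p : ((N0 : ℤ) : ZMod p) ≠ 0 := P2_ne_zero hN0 (by omega)
  have h1p : ¬ (p : ℤ) ∣ N1 := fun h => P2_ne_zero hN1 (by omega)
    ((ZMod.intCast_zmod_eq_zero_iff_dvd _ _).2 h)
  -- a polynomial that vanishes at `b` vanishes at `N0 * a` modulo `p`
  have key : ∀ a : ℕ, (p : ℤ) ∣ f.eval (a : ℤ) → ∀ P : ℤ[X], aeval b P = 0 →
      eval₂ (Int.castRingHom (ZMod p)) ((N0 : ZMod p) * (a : ZMod p)) P = 0 := by
    intro a ha P hP
    have h1 : eval₂ (Int.castRingHom K) α (P.comp (C N0 * X)) = 0 := by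
      rw [eval₂_comp]
      have h2 : eval₂ (Int.castRingHom K) α (C N0 * X) = (b : K) := by
        rw [eval₂_mul, eval₂_C, eval₂_X, hb]
        rfl
      rw [h2]
      have h3 : ((aeval b P : 𝓞 K) : K) = aeval (b : K) P :=
        (Polynomial.aeval_algebraMap_apply K b P).symm
      rw [hP] at h3
      rw [aeval_def] at h3
      have h4 : algebraMap ℤ K = Int.castRingHom K := rfl
      rw [h4] at h3
      rw [← h3]
      simp
    have h2 := hαf _ h1
    have h3 : f ∣ P.comp (C N0 * X) :=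
      (IsPrimitive.Int.dvd_iff_map_cast_dvd_map_cast _ _ hprim).2 h2
    obtain ⟨Q, hQ⟩ := h3
    have h4 : (p : ℤ) ∣ (P.comp (C N0 * X)).eval (a : ℤ) := by
      rw [hQ, eval_mul]
      exact ha.mul_right _
    rw [eval_comp, eval_mul, eval_C, eval_X] at h4
    rw [← ZMod.intCast_zmod_eq_zero_iff_dvd] at h4
    have h5 := Polynomial.eval_intCast_map (Int.castRingHom (ZMod p)) P (N0 * (a : ℤ))
    rw [eval₂_eq_eval_map]
    have h6 : (((N0 * (a : ℤ) : ℤ)) : ZMod p) = (N0 : ZMod p) * (a : ZMod p) := by push_cast; rfl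
    rw [h6] at h5
    rw [h5]
    exact h4
  have hext : ∀ a : {a : ℕ // a ∈ (Finset.range p).filter (fun a : ℕ => (p : ℤ) ∣ f.eval (a : ℤ))},
      ∃ ψ : 𝓞 K →+* ZMod p, ψ b = (N0 : ZMod p) * (a.1 : ZMod p) := by
    intro a
    obtain ⟨ψ, hψ⟩ := extend_hom (A := ℤ[X]) (B := 𝓞 K) ((aeval b : ℤ[X] →ₐ[ℤ] 𝓞 K) : ℤ[X] →+* 𝓞 K)
      (N := N1) (fun x => by
        obtain ⟨A, hA⟩ := hind x
        exact ⟨A, hA.symm⟩) h1p
      (eval₂RingHom (Int.castRingHom (ZMod p)) ((N0 : ZMod p) * (a.1 : ZMod p)))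
      (fun P hP => by
        rw [RingHom.mem_ker] at hP ⊢
        exact key a.1 (mem_filter.1 a.2).2 P hP)
    refine ⟨ψ, ?_⟩
    have h1 := RingHom.congr_fun hψ X
    simpa using h1
  choose ψ hψ using hext
  have hinj : Function.Injective ψ := by
    intro a a' h
    have h1 := hψ a
    rw [h, hψ a'] at h1
    have h2 := mul_left_cancel₀ h0p h1
    have h3 := (ZMod.natCast_eq_natCast_iff' a'.1 a.1 p).1 h2
    rw [Nat.mod_eq_of_lt (mem_range.1 (mem_filter.1 a.2).1),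
      Nat.mod_eq_of_lt (mem_range.1 (mem_filter.1 a'.2).1)] at h3
    exact Subtype.ext h3.symm
  have hfin : Finite (𝓞 K →+* ZMod p) := hom_finite (K := K) ⟨p, hp⟩
  have := Nat.card_le_card_of_injective _ hinj
  rw [Nat.card_eq_fintype_card (α := {a : ℕ // a ∈ (Finset.range p).filter
        (fun a : ℕ => (p : ℤ) ∣ f.eval (a : ℤ))}), Fintype.card_coe] at this
  exact this

theorem rho_le_homs (f : ℤ[X]) (hf : Irreducible f) (hd : 0 < f.natDegree) :
    ∃ (K : Type) (_ : Field K) (_ : NumberField K), ∃ B : ℕ, ∀ p : ℕ, p.Prime → B < p →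
      Pool.Agent.H474R2.PG.rho f p ≤ Nat.card (𝓞 K →+* ZMod p) := by
  have hprim : f.IsPrimitive := hf.isPrimitive hd.ne'
  have hF : Irreducible (f.map (Int.castRingHom ℚ)) :=
    (IsPrimitive.Int.irreducible_iff_irreducible_map_cast hprim).1 hf
  have hfact : Fact (Irreducible (f.map (Int.castRingHom ℚ))) := ⟨hF⟩
  refine ⟨AdjoinRoot (f.map (Int.castRingHom ℚ)), inferInstance, inferInstance, ?_⟩
  refine rho_core _ f hprim (AdjoinRoot.root (f.map (Int.castRingHom ℚ))) ?_ ?_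
  · intro P hP
    have h2 : (AdjoinRoot.of (f.map (Int.castRingHom ℚ))).comp (Int.castRingHom ℚ) =
        Int.castRingHom (AdjoinRoot (f.map (Int.castRingHom ℚ))) := RingHom.ext_int _ _
    rw [← h2, ← eval₂_map] at hP
    rw [← AdjoinRoot.mk_eq_zero]
    rw [← AdjoinRoot.aeval_eq, aeval_def]
    exact hP
  · intro x
    obtain ⟨q, rfl⟩ := AdjoinRoot.mk_surjective x
    refine ⟨q, ?_⟩
    have h2 : Rat.castHom (AdjoinRoot (f.map (Int.castRingHom ℚ))) =
        AdjoinRoot.of (f.map (Int.castRingHom ℚ)) := Subsingleton.elim _ _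
    rw [h2]
    have h3 := AdjoinRoot.aeval_eq (f := f.map (Int.castRingHom ℚ)) q
    rw [← h3]
    rfl

/-- upper bound in Mertens' theorem for the roots of `f` -/
theorem mertens_upper (f : ℤ[X]) (hf : Irreducible f) (hd : 0 < f.natDegree) :
    ∃ C : ℝ, ∀ w : ℝ, 3 ≤ w → Sg (Pool.Agent.H474R2.PG.rho f) w ≤ Real.log (Real.log w) + C := by
  obtain ⟨K, iF, iN, B, hB⟩ := rho_le_homs f hf hd
  obtain ⟨C, hC⟩ := homs_upper K
  refine ⟨C + ∑ p ∈ PR B, (Pool.Agent.H474R2.PG.rho f p : ℝ) / (p : ℝ), fun w hw => ?_⟩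
  have h1 := hC w hw
  have h2 : Sg (Pool.Agent.H474R2.PG.rho f) w ≤
      ∑ p ∈ PR B, (Pool.Agent.H474R2.PG.rho f p : ℝ) / (p : ℝ) +
        ∑ p ∈ PR w, (Nat.card (𝓞 K →+* ZMod p) : ℝ) / (p : ℝ) := by
    unfold Sg
    rw [← Finset.sum_filter_add_sum_filter_not (PR w) (fun p => p ≤ B)]
    apply add_le_add
    · apply Finset.sum_le_sum_of_subset_of_nonneg
      · intro p hp
        rw [Finset.mem_filter, PR, Finset.mem_filter, Finset.mem_Icc] at hp
        rw [PR, Finset.mem_filter, Finset.mem_Icc, Nat.floor_natCast]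
        exact ⟨⟨hp.1.1.1, hp.2⟩, hp.1.2⟩
      · intro p _ _
        positivity
    · calc ∑ p ∈ (PR w).filter (fun p => ¬ p ≤ B), (Pool.Agent.H474R2.PG.rho f p : ℝ) / (p : ℝ)
          ≤ ∑ p ∈ (PR w).filter (fun p => ¬ p ≤ B),
              (Nat.card (𝓞 K →+* ZMod p) : ℝ) / (p : ℝ) := by
            apply Finset.sum_le_sum
            intro p hp
            rw [Finset.mem_filter] at hp
            have hpp : p.Prime := (Finset.mem_filter.1 hp.1).2
            have h3 : (Pool.Agent.H474R2.PG.rho f p : ℝ) ≤ Nat.card (𝓞 K →+* ZMod p) := by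
              exact_mod_cast hB p hpp (not_le.1 hp.2)
            exact div_le_div_of_nonneg_right h3 (by positivity)
        _ ≤ ∑ p ∈ PR w, (Nat.card (𝓞 K →+* ZMod p) : ℝ) / (p : ℝ) := by
            apply Finset.sum_le_sum_of_subset_of_nonneg (Finset.filter_subset _ _)
            intro p _ _
            positivity
  linarith

end Pool.Agent.H64.PM.MTU
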