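import Mathlib
import Pool.Agent.H64.PM.MTU
import Pool.Agent.H64.PM.PMA

/-!
# Mertens' theorem for the roots of a squarefree polynomial
-/

set_option autoImplicit false

namespace Pool.Agent.H64.PM

open Finset Pool.Agent.W262.RK Polynomial UniqueFactorizationMonoid

/-- the number of the irreducible factors over the rational numbers -/
noncomputable def nf (G : ℤ[X]) : ℕ :=
  Multiset.card (normalizedFactors (G.map (Int.castRingHom ℚ)))

/-- functions that agree for the large primes -/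
lemma sum_agree (u v : ℕ → ℝ) (z1 : ℕ) (h : ∀ p : ℕ, p.Prime → z1 < p → u p = v p) (z y : ℕ) :
    |∑ p ∈ PS z y, u p - ∑ p ∈ PS z y, v p| ≤ ∑ p ∈ range (z1 + 1), |u p - v p| := by
  rw [← sum_sub_distrib]
  refine (abs_sum_le_sum_abs _ _).trans ?_
  have h1 : ∑ p ∈ PS z y, |u p - v p| = ∑ p ∈ (PS z y).filter (fun p => p ≤ z1), |u p - v p| := by
    rw [sum_filter]
    refine sum_congr rfl fun p hp => ?_
    split_ifs with h2
    · rfl
    · rw [h p (mem_PS.1 hp).2 (by omega), sub_self, abs_zero]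
  rw [h1]
  refine sum_le_sum_of_subset_of_nonneg ?_ fun _ _ _ => abs_nonneg _
  intro p hp
  exact mem_range.2 (by have := (mem_filter.1 hp).2; omega)

lemma rho_eq (h : ℤ[X]) (p : ℕ) : Pool.Agent.H474R2.PG.rho h p = rho h p := rfl

lemma Sg_eq (u : ℕ → ℝ) (z y : ℕ) : |∑ p ∈ Pool.Agent.H474R2.PG.PR (y : ℝ), u p -
    ∑ p ∈ PS z y, u p| ≤ ∑ p ∈ range (z + 1), |u p| := by
  unfold Pool.Agent.H474R2.PG.PR
  rw [Nat.floor_natCast, ← sum_filter_add_sum_filter_not _ (fun p => p ≤ z)]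
  have h3 : ((Icc 1 y).filter Nat.Prime).filter (fun p => ¬ p ≤ z) = PS z y := by
    ext p
    rw [mem_filter, mem_filter, mem_Icc, mem_PS]
    constructor
    · rintro ⟨⟨⟨a1, a2⟩, a3⟩, a4⟩
      exact ⟨⟨by omega, a2⟩, a3⟩
    · rintro ⟨⟨a1, a2⟩, a3⟩
      exact ⟨⟨⟨a3.one_lt.le, a2⟩, a3⟩, by omega⟩
  rw [h3, add_sub_cancel_right]
  refine (abs_sum_le_sum_abs _ _).trans (sum_le_sum_of_subset_of_nonneg ?_ fun _ _ _ =>
    abs_nonneg _)
  intro p hp
  exact mem_range.2 (by have := (mem_filter.1 hp).2; omega)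

lemma nf_unit {G : ℤ[X]} (h : IsUnit (G.map (Int.castRingHom ℚ))) : nf G = 0 := by
  unfold nf
  rw [normalizedFactors_of_isUnit h, Multiset.card_zero]

lemma map_ne {G : ℤ[X]} (h : G ≠ 0) : G.map (Int.castRingHom ℚ) ≠ 0 :=
  (Polynomial.map_ne_zero_iff (RingHom.injective_int (Int.castRingHom ℚ))).2 h

lemma nf_mul {G H : ℤ[X]} (hG : G ≠ 0) (hH : H ≠ 0) : nf (G * H) = nf G + nf H := by
  unfold nf
  rw [Polynomial.map_mul, normalizedFactors_mul (map_ne hG) (map_ne hH), Multiset.card_add]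

/-- constants -/
lemma mert_const (c : ℤ) (hc : c ≠ 0) (z : ℕ) : ∃ C0 : ℝ, ∀ y : ℕ, 3 ≤ y →
    |∑ p ∈ PS z y, (rho (C c) p : ℝ) / p - (nf (C c) : ℝ) * Real.log (Real.log y)| ≤ C0 := by
  have h0 : nf (C c) = 0 := by
    apply nf_unit
    rw [map_C, isUnit_C, isUnit_iff_ne_zero]
    simpa using hc
  have h1 : ∀ p : ℕ, p.Prime → c.natAbs < p → (rho (C c) p : ℝ) / p = (0 : ℝ) := by
    intro p _ hp
    have h2 : rho (C c) p = 0 := by
      unfold rho Zr
      rw [card_eq_zero, filter_eq_empty_iff]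
      intro x _ hx
      rw [eval_C] at hx
      have := Nat.le_of_dvd (Int.natAbs_pos.2 hc) (Int.natCast_dvd.1 hx)
      omega
    rw [h2]
    simp
  refine ⟨∑ p ∈ range (c.natAbs + 1), |(rho (C c) p : ℝ) / p - 0|, fun y _ => ?_⟩
  have h2 := sum_agree (fun p => (rho (C c) p : ℝ) / p) (fun _ => 0) c.natAbs h1 z y
  rw [sum_const_zero] at h2
  rw [h0, Nat.cast_zero, zero_mul]
  exact h2

/-- irreducible polynomials -/
lemma mert_irr (h : ℤ[X]) (hh : Irreducible h) (z : ℕ) : ∃ C0 : ℝ, ∀ y : ℕ, 3 ≤ y →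
    |∑ p ∈ PS z y, (rho h p : ℝ) / p - (nf h : ℝ) * Real.log (Real.log y)| ≤ C0 := by
  rcases Nat.eq_zero_or_pos h.natDegree with hd | hd
  · obtain ⟨c, hc⟩ : ∃ c : ℤ, h = C c := ⟨_, eq_C_of_natDegree_eq_zero hd⟩
    have hc0 : c ≠ 0 := by
      rintro rfl
      exact hh.ne_zero (by rw [hc, C_0])
    rw [hc]
    exact mert_const c hc0 z
  · obtain ⟨C1, hC1⟩ := Pool.Agent.H474R2.PG.mertens_lower h hh hd
    obtain ⟨C2, hC2⟩ := MTU.mertens_upper h hh hd
    have hprim : h.IsPrimitive := hh.isPrimitive hd.ne'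
    have hF : Irreducible (h.map (Int.castRingHom ℚ)) :=
      (IsPrimitive.Int.irreducible_iff_irreducible_map_cast hprim).1 hh
    have h1 : nf h = 1 := by
      unfold nf
      rw [normalizedFactors_irreducible hF, Multiset.card_singleton]
    refine ⟨|C1| + |C2| + ∑ p ∈ range (z + 1), |(rho h p : ℝ) / p|, fun y hy => ?_⟩
    have hyr : (3 : ℝ) ≤ y := by exact_mod_cast hy
    have a1 := hC1 y hyr
    have a2 := hC2 y hyr
    have a3 := Sg_eq (fun p => (rho h p : ℝ) / p) z y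
    have a4 : Pool.Agent.H474R2.PG.Sg (Pool.Agent.H474R2.PG.rho h) (y : ℝ) =
        ∑ p ∈ Pool.Agent.H474R2.PG.PR (y : ℝ), (rho h p : ℝ) / p := rfl
    rw [a4] at a1 a2
    rw [h1, Nat.cast_one, one_mul, abs_le]
    rw [abs_le] at a3
    have b1 := le_abs_self C1
    have b2 := le_abs_self C2
    have b3 := abs_nonneg C1
    have b4 := abs_nonneg C2
    constructor <;> linarith [a3.1, a3.2]

/-- **Mertens' theorem** -/
theorem mert_two (G : ℤ[X]) (hG : G ≠ 0) (hsq : Squarefree (G.map (Int.castRingHom ℚ))) (z : ℕ) :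
    ∃ C0 : ℝ, ∀ y : ℕ, 3 ≤ y →
    |∑ p ∈ PS z y, (rho G p : ℝ) / p - (nf G : ℝ) * Real.log (Real.log y)| ≤ C0 := by
  revert hG hsq
  refine WfDvdMonoid.induction_on_irreducible (motive := fun G => G ≠ 0 →
    Squarefree (G.map (Int.castRingHom ℚ)) → ∃ C0 : ℝ, ∀ y : ℕ, 3 ≤ y →
    |∑ p ∈ PS z y, (rho G p : ℝ) / p - (nf G : ℝ) * Real.log (Real.log y)| ≤ C0) G ?_ ?_ ?_
  · intro h0
    exact absurd rfl h0
  · intro u hu _ _
    obtain ⟨c, hc, rfl⟩ := Polynomial.isUnit_iff.1 hu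
    exact mert_const c hc.ne_zero z
  · intro a i ha hi ih h0 hsq
    have hsa : Squarefree (a.map (Int.castRingHom ℚ)) := by
      rw [Polynomial.map_mul] at hsq
      exact hsq.squarefree_of_dvd (Dvd.intro_left _ rfl)
    obtain ⟨C1, hC1⟩ := ih ha hsa
    obtain ⟨C2, hC2⟩ := mert_irr i hi z
    obtain ⟨z1, hz1⟩ := smp_of (i * a) hsq
    have hagree : ∀ p : ℕ, p.Prime → z1 < p → (rho (i * a) p : ℝ) / p =
        (rho i p : ℝ) / p + (rho a p : ℝ) / p := by
      intro p hp hzp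
      have hpi : Prime (p : ℤ) := Nat.prime_iff_prime_int.1 hp
      have h1 : rho (i * a) p = rho i p + rho a p := by
        unfold rho Zr
        rw [← card_union_of_disjoint]
        · congr 1
          ext x
          rw [mem_union, mem_filter, mem_filter, mem_filter, eval_mul]
          constructor
          · rintro ⟨h1, h2⟩
            rcases hpi.dvd_or_dvd h2 with h3 | h3
            · exact Or.inl ⟨h1, h3⟩
            · exact Or.inr ⟨h1, h3⟩
          · rintro (⟨h1, h2⟩ | ⟨h1, h2⟩)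
            · exact ⟨h1, h2.mul_right _⟩
            · exact ⟨h1, h2.mul_left _⟩
        · rw [disjoint_left]
          intro x hx hx'
          exact two_div hz1 hp hzp rfl (mem_filter.1 hx).2 (mem_filter.1 hx').2
      rw [h1]
      push_cast
      ring
    refine ⟨C1 + C2 + ∑ p ∈ range (z1 + 1), |(rho (i * a) p : ℝ) / p -
        ((rho i p : ℝ) / p + (rho a p : ℝ) / p)|, fun y hy => ?_⟩
    have h1 := hC1 y hy
    have h2 := hC2 y hy
    have h3 := sum_agree _ _ z1 hagree z y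
    rw [sum_add_distrib] at h3
    rw [nf_mul hi.ne_zero ha]
    push_cast
    rw [abs_le] at h1 h2 h3 ⊢
    constructor <;> linarith [h1.1, h1.2, h2.1, h2.2, h3.1, h3.2]

end Pool.Agent.H64.PM
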