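import Mathlib
import Pool.Agent.H64.PM.MTG

/-!
# The average for general families
-/

set_option autoImplicit false

namespace Pool.Agent.H64.PM

open Finset Pool.Agent.W262.RK Pool.Agent.W762.RK2 Polynomial
open Pool.Agent.H64.MM (Vk par dot Ik Lk sx)

/-- the factor of the class `c` -/
noncomputable def Fc (A B D : ℤ[X]) (c : Fin 4) : ℤ[X] :=
  if c = 0 then A else if c = 1 then B else if c = 2 then A - B else D

variable {A B D : ℤ[X]} {z : ℕ}

lemma Fc_dvd (c : Fin 4) : ∃ E : ℤ[X], fT A B D = Fc A B D c * E := by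
  unfold Fc fT
  split_ifs
  · exact ⟨B * (A - B) * D, by ring⟩
  · exact ⟨A * (A - B) * D, by ring⟩
  · exact ⟨A * B * D, by ring⟩
  · exact ⟨A * B * (A - B), by ring⟩

/-- the roots of the class `c` -/
lemma Zr_class (hf : Smp (fT A B D) z) {p : ℕ} (hp : p.Prime) (hz : z < p) (c : Fin 4) :
    (Zr (fT A B D) p).filter (fun x : ℕ => clq A B p (x : ℤ) = c) = Zr (Fc A B D c) p := by
  have hpi : Prime (p : ℤ) := Nat.prime_iff_prime_int.1 hp
  ext x
  rw [mem_filter, Zr, Zr, mem_filter, mem_filter, mem_range]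
  have hA : (p : ℤ) ∣ A.eval (x : ℤ) → ¬ (p : ℤ) ∣ (B * (A - B) * D).eval (x : ℤ) :=
    two_div hf hp hz (by unfold fT; ring)
  have hB : (p : ℤ) ∣ B.eval (x : ℤ) → ¬ (p : ℤ) ∣ (A * (A - B) * D).eval (x : ℤ) :=
    two_div hf hp hz (by unfold fT; ring)
  have hC : (p : ℤ) ∣ (A - B).eval (x : ℤ) → ¬ (p : ℤ) ∣ (A * B * D).eval (x : ℤ) :=
    two_div hf hp hz (by unfold fT; ring)
  have hfe : (fT A B D).eval (x : ℤ) =
      A.eval (x : ℤ) * (B.eval (x : ℤ) * ((A - B).eval (x : ℤ) * D.eval (x : ℤ))) := by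
    unfold fT
    simp only [eval_mul]
    ring
  simp only [eval_mul] at hA hB hC
  rw [hfe]
  unfold clq Fc
  by_cases a0 : (p : ℤ) ∣ A.eval (x : ℤ)
  · rw [if_pos a0]
    constructor
    · rintro ⟨⟨h1, h2⟩, h3⟩
      rw [if_pos h3.symm]
      exact ⟨h1, a0⟩
    · rintro ⟨h1, h2⟩
      by_cases c0 : c = 0
      · exact ⟨⟨h1, a0.mul_right _⟩, c0.symm⟩
      · exfalso
        apply hA a0
        rw [if_neg c0] at h2
        split_ifs at h2
        · exact (h2.mul_right _).mul_right _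
        · exact (h2.mul_left _).mul_right _
        · exact h2.mul_left _
  rw [if_neg a0]
  by_cases b0 : (p : ℤ) ∣ B.eval (x : ℤ)
  · rw [if_pos b0]
    constructor
    · rintro ⟨⟨h1, h2⟩, h3⟩
      rw [← h3, if_neg (by decide), if_pos rfl]
      exact ⟨h1, b0⟩
    · rintro ⟨h1, h2⟩
      by_cases c1 : c = 1
      · exact ⟨⟨h1, (b0.mul_right _).mul_left _⟩, c1.symm⟩
      · exfalso
        apply hB b0
        split_ifs at h2 with c0 c2
        · exact (h2.mul_right _).mul_right _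
        · exact (h2.mul_left _).mul_right _
        · exact h2.mul_left _
  rw [if_neg b0]
  by_cases d0 : (p : ℤ) ∣ (A - B).eval (x : ℤ)
  · rw [if_pos d0]
    constructor
    · rintro ⟨⟨h1, h2⟩, h3⟩
      rw [← h3, if_neg (by decide), if_neg (by decide), if_pos rfl]
      exact ⟨h1, d0⟩
    · rintro ⟨h1, h2⟩
      by_cases c2 : c = 2
      · exact ⟨⟨h1, ((d0.mul_right _).mul_left _).mul_left _⟩, c2.symm⟩
      · exfalso
        split_ifs at h2 with c0 c1
        · exact a0 h2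
        · exact b0 h2
        · exact hC d0 (h2.mul_left _)
  rw [if_neg d0]
  constructor
  · rintro ⟨⟨h1, h2⟩, h3⟩
    rw [← h3, if_neg (by decide), if_neg (by decide), if_neg (by decide)]
    refine ⟨h1, ?_⟩
    rcases hpi.dvd_or_dvd h2 with h | h
    · exact absurd h a0
    · rcases hpi.dvd_or_dvd h with h | h
      · exact absurd h b0
      · exact (hpi.dvd_or_dvd h).resolve_left d0
  · rintro ⟨h1, h2⟩
    split_ifs at h2 with c0 c1 c2
    · exact absurd h2 a0
    · exact absurd h2 b0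
    · exact absurd h2 d0
    · refine ⟨⟨h1, ((h2.mul_left _).mul_left _).mul_left _⟩, ?_⟩
      revert c0 c1 c2
      revert c
      decide

/-- sums over the roots -/
lemma sum_class (hf : Smp (fT A B D) z) {p : ℕ} (hp : p.Prime) (hz : z < p) (F : Fin 4 → ℝ) :
    ∑ x ∈ Zr (fT A B D) p, F (clq A B p (x : ℤ)) =
      ∑ c : Fin 4, (rho (Fc A B D c) p : ℝ) * F c := by
  rw [← sum_fiberwise (Zr (fT A B D) p) (fun x : ℕ => clq A B p (x : ℤ))]
  refine sum_congr rfl fun c _ => ?_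
  rw [Zr_class hf hp hz c]
  unfold rho
  rw [← nsmul_eq_mul, ← sum_const]
  refine sum_congr rfl fun x hx => ?_
  rw [← Zr_class hf hp hz c] at hx
  rw [(mem_filter.1 hx).2]

lemma rho_sum (hf : Smp (fT A B D) z) {p : ℕ} (hp : p.Prime) (hz : z < p) :
    (rho (fT A B D) p : ℝ) = ∑ c : Fin 4, (rho (Fc A B D c) p : ℝ) := by
  have h := sum_class hf hp hz (fun _ => 1)
  simp only [sum_const, nsmul_eq_mul, mul_one] at h
  exact h

/-- the indicator of the class -/
noncomputable def ia (c : Fin 4) (i : Ik Unit 1) : ℝ :=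
  if Al c (i.1.2.1 0) (i.1.2.2 0) = true then wc c else 0

lemma par_one (v x : Vk 1) : par v x = dot (v 0) (x 0) := by
  unfold par
  rw [Fin.prod_univ_one]
  cases dot (v 0) (x 0) <;> rfl

lemma al3 : ∀ v x : Bool × Bool, dot v x = false → Al 3 v x = true := by decide

lemma al_dot : ∀ (c : Fin 4) (v x : Bool × Bool), Al c v x = true → dot v x = false := by decide

lemma al_ex : ∀ v x : Bool × Bool, dot v x = false → ∃ c : Fin 4, c ≠ 3 ∧ Al c v x = true := by
  decide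

/-- the numbers of the classes -/
def cnt3 (v x : Bool × Bool) : ℕ :=
  (if Al 0 v x = true then 1 else 0) + (if Al 1 v x = true then 1 else 0) +
    (if Al 2 v x = true then 1 else 0)

lemma cnt3_le : ∀ v x : Bool × Bool, cnt3 v x ≤
    1 + (if v = (false, false) ∧ x = (false, false) then 2 else 0) := by decide

lemma ia_nonneg (c : Fin 4) (i : Ik Unit 1) : 0 ≤ ia c i := by
  unfold ia wc
  split_ifs <;> norm_num

lemma ia_le (c : Fin 4) (i : Ik Unit 1) : ia c i ≤ 1 := by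
  unfold ia wc
  split_ifs <;> norm_num

/-- unlinked sets have at most four elements -/
lemma unl_card (U : Finset (Ik Unit 1)) (hU : Unl Lk U) : U.card ≤ 4 := by
  have h1 := Pool.Agent.H64.MM.combk 1 Unit U hU
  rw [sum_const, nsmul_eq_mul, Fintype.card_unit, pow_one] at h1
  have h2 : (U.card : ℝ) ≤ 4 := by
    push_cast at h1
    linarith
  exact_mod_cast h2

/-- the total weights of an unlinked set -/
lemma unl_w3 (U : Finset (Ik Unit 1)) (hU : Unl Lk U) : ∑ i ∈ U, ia 3 i ≤ 1 := by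
  have h1 : ∀ i ∈ U, ia 3 i = 1 / 4 := by
    intro i _
    unfold ia wc
    rw [if_pos (al3 _ _ ?_), if_pos rfl]
    rw [← par_one]
    exact i.2
  rw [sum_congr rfl h1, sum_const, nsmul_eq_mul]
  have h2 : (U.card : ℝ) ≤ 4 := by exact_mod_cast unl_card U hU
  linarith

lemma unl_w012 (U : Finset (Ik Unit 1)) (hU : Unl Lk U) :
    ∑ i ∈ U, ia 0 i + ∑ i ∈ U, ia 1 i + ∑ i ∈ U, ia 2 i ≤ 3 := by
  classical
  have h1 : ∀ i : Ik Unit 1, ia 0 i + ia 1 i + ia 2 i = 1 / 2 * (cnt3 (i.1.2.1 0) (i.1.2.2 0) : ℝ) := by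
    intro i
    have e0 : wc 0 = 1 / 2 := if_neg (by decide)
    have e1 : wc 1 = 1 / 2 := if_neg (by decide)
    have e2 : wc 2 = 1 / 2 := if_neg (by decide)
    unfold ia cnt3
    rw [e0, e1, e2]
    push_cast
    split_ifs <;> norm_num
  rw [← sum_add_distrib, ← sum_add_distrib, sum_congr rfl fun i _ => h1 i, ← mul_sum]
  have h2 : ∑ i ∈ U, cnt3 (i.1.2.1 0) (i.1.2.2 0) ≤ U.card + 2 := by
    refine (sum_le_sum fun i _ => cnt3_le _ _).trans ?_
    rw [sum_add_distrib, sum_const, smul_eq_mul, mul_one]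
    refine Nat.add_le_add_left ?_ _
    rw [← sum_filter, sum_const, smul_eq_mul]
    have h3 : (U.filter (fun i : Ik Unit 1 => i.1.2.1 0 = (false, false) ∧
        i.1.2.2 0 = (false, false))).card ≤ 1 := by
      rw [card_le_one]
      intro a ha b hb
      rw [mem_filter] at ha hb
      apply Subtype.ext
      refine Prod.ext (Subsingleton.elim _ _) (Prod.ext ?_ ?_)
      · funext l
        rw [Subsingleton.elim l 0, ha.2.1, hb.2.1]
      · funext l
        rw [Subsingleton.elim l 0, ha.2.2, hb.2.2]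
    omega
  have h4 : U.card ≤ 4 := unl_card U hU
  have h5 : ∑ i ∈ U, cnt3 (i.1.2.1 0) (i.1.2.2 0) ≤ 6 := by omega
  have h6 : (∑ i ∈ U, (cnt3 (i.1.2.1 0) (i.1.2.2 0) : ℝ)) ≤ 6 := by exact_mod_cast h5
  linarith

/-- **The average for general families.** -/
theorem avg_fam (A B D : ℤ[X]) (n z1 m : ℕ) (hm : 1 ≤ m)
    (hρ : ∀ p : ℕ, p.Prime → z1 < p → rho (fT A B D) p ≤ n) (hf : Smp (fT A B D) z1)
    (hM : ∀ c : Fin 4, c ≠ 3 → ∀ z : ℕ, ∃ C0 : ℝ, ∀ y : ℕ, 3 ≤ y →
      |∑ p ∈ PS z y, (rho (Fc A B D c) p : ℝ) / p - (m : ℝ) * Real.log (Real.log y)| ≤ C0) :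
    ∃ z0 : ℕ, ∀ z, z0 ≤ z → ∃ C' : ℝ, ∀ y, z < y → ∑ s ∈ (PP z y).divisors,
      Gs (PhG 1 (TyF (fT A B D)) (Wt2 (fT A B D)) (LcQ A B D)) s ≤
      C' * Lam (fun p => (rho (fT A B D) p : ℝ) / p) z y := by
  classical
  set f := fT A B D with hfd
  obtain ⟨z0, hz0⟩ := avq 1 (2 * n) (1 / 2) (by norm_num)
  obtain ⟨CS, hCS0, hCS⟩ := sum_inv_sq
  refine ⟨z0 + z1 + (2 * n + 2) + 3, fun z hz => ?_⟩
  have hn : 2 * n + 2 ≤ z := by omega
  have hρ' : ∀ p : ℕ, p.Prime → z < p → rho f p ≤ n := fun p hp hzp => hρ p hp (by omega)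
  have hf' : Smp f z := fun p hp hzp => hf p hp (by omega)
  have hfacts : ∀ p : ℕ, p.Prime → z < p → (0 : ℝ) < p ∧ 0 < (p : ℝ) - rho f p ∧
      (p : ℝ) / 2 ≤ (p : ℝ) - rho f p ∧ (rho f p : ℝ) ≤ n := by
    intro p hp hzp
    obtain ⟨h0, h1, h2⟩ := rho_half hn hρ' hp hzp
    have h4 : (p : ℝ) / 2 ≤ (p : ℝ) - rho f p := by
      have h5 : (rho f p : ℝ) / p ≤ 1 / 2 := by linarith
      rw [div_le_iff₀ h0] at h5
      linarith
    exact ⟨h0, by linarith, h4, h1⟩
  set g : Ik Unit 1 → ℕ → ℝ := fun i p =>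
    (1 / ((p : ℝ) - rho f p)) * ∑ c : Fin 4, (rho (Fc A B D c) p : ℝ) * ia c i with hg
  have hgs : ∀ i : Ik Unit 1, ∀ p : ℕ, p.Prime → z < p →
      0 ≤ ∑ c : Fin 4, (rho (Fc A B D c) p : ℝ) * ia c i ∧
      ∑ c : Fin 4, (rho (Fc A B D c) p : ℝ) * ia c i ≤ rho f p := by
    intro i p hp hzp
    constructor
    · exact sum_nonneg fun c _ => mul_nonneg (Nat.cast_nonneg _) (ia_nonneg c i)
    · rw [hfd, rho_sum hf' hp hzp]
      exact sum_le_sum fun c _ => mul_le_of_le_one_right (Nat.cast_nonneg _) (ia_le c i)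
  set Cf : ℕ → Vk 1 → Vk 1 → ℝ := fun p v x => ∑ r ∈ Zr f p, (1 / ((p : ℝ) - rho f p)) *
    (if Al (clq A B p (r : ℤ)) (v 0) (x 0) = true then wc (clq A B p (r : ℤ)) *
      Jr (kc (clq A B p (r : ℤ)) (kpq A B D p (r : ℤ)) (v 0) (x 0)) p else 0) with hCf
  refine hz0 z (by omega) (PhG 1 (TyF f) (Wt2 f) (LcQ A B D)) Cf g
    (Lam (fun p => (rho f p : ℝ) / p) z)
    (fun i p hp hzp => ⟨?_, ?_⟩) (fun i => ?_) (fun y => (Real.exp_pos _).le) (fun U hU => ?_)
    (fun p hp hzp v hs hs' => ?_)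
  · obtain ⟨f0, f1, f2, f3⟩ := hfacts p hp hzp
    simp only [hCf, hg]
    refine (abs_sum_le_sum_abs _ _).trans ?_
    rw [← sum_class hf' hp hzp (fun c => ia c i), mul_sum]
    refine sum_le_sum fun r _ => ?_
    rw [abs_mul, abs_of_pos (by positivity : (0 : ℝ) < 1 / ((p : ℝ) - rho f p))]
    refine mul_le_mul_of_nonneg_left ?_ (by positivity)
    unfold ia
    split_ifs with h
    · rw [abs_mul, abs_of_nonneg (by unfold wc; split_ifs <;> norm_num)]
      exact mul_le_of_le_one_right (by unfold wc; split_ifs <;> norm_num) (abs_Jr_le _ _)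
    · simp
  · obtain ⟨f0, f1, f2, f3⟩ := hfacts p hp hzp
    obtain ⟨g0, g1⟩ := hgs i p hp hzp
    simp only [hg]
    rw [one_div_mul_eq_div, div_le_div_iff₀ f1 f0]
    have h7 : (0 : ℝ) ≤ n := Nat.cast_nonneg _
    nlinarith
  · obtain ⟨c, hc3, hc⟩ := al_ex (i.1.2.1 0) (i.1.2.2 0) (by rw [← par_one]; exact i.2)
    obtain ⟨C0, hC0⟩ := hM c hc3 z
    refine ⟨1 / 2 * C0, fun x hx => ?_⟩
    have h1 := (abs_le.1 (hC0 x hx)).1
    have hxr : (3 : ℝ) ≤ x := by exact_mod_cast hx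
    have hl1 : 1 ≤ Real.log x := by
      rw [Real.le_log_iff_exp_le (by linarith)]
      have := Real.exp_one_lt_d9
      linarith
    have hll : 0 ≤ Real.log (Real.log x) := Real.log_nonneg hl1
    have hm' : (1 : ℝ) ≤ m := by exact_mod_cast hm
    have h2 : Real.log (Real.log x) ≤ m * Real.log (Real.log x) := le_mul_of_one_le_left hll hm'
    have h3 : 1 / 2 * ∑ p ∈ PS z x, (rho (Fc A B D c) p : ℝ) / p ≤ ∑ p ∈ PS z x, g i p := by
      rw [mul_sum]
      refine sum_le_sum fun p hp => ?_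
      obtain ⟨f0, f1, f2, f3⟩ := hfacts p (mem_PS.1 hp).2 (mem_PS.1 hp).1.1
      have h4 : (rho (Fc A B D c) p : ℝ) * ia c i ≤
          ∑ c : Fin 4, (rho (Fc A B D c) p : ℝ) * ia c i :=
        single_le_sum (f := fun c => (rho (Fc A B D c) p : ℝ) * ia c i)
          (fun c _ => mul_nonneg (Nat.cast_nonneg _) (ia_nonneg c i)) (mem_univ c)
      have h5 : ia c i = 1 / 2 := by
        unfold ia wc
        rw [if_pos hc, if_neg hc3]
      rw [h5] at h4
      have h6 : (0 : ℝ) ≤ rho f p := Nat.cast_nonneg _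
      have h7 : (0 : ℝ) ≤ rho (Fc A B D c) p := Nat.cast_nonneg _
      calc 1 / 2 * ((rho (Fc A B D c) p : ℝ) / p) = ((rho (Fc A B D c) p : ℝ) * (1 / 2)) / p := by
            ring
        _ ≤ ((rho (Fc A B D c) p : ℝ) * (1 / 2)) / ((p : ℝ) - rho f p) :=
            div_le_div_of_nonneg_left (by positivity) f1 (by linarith)
        _ ≤ (∑ c : Fin 4, (rho (Fc A B D c) p : ℝ) * ia c i) / ((p : ℝ) - rho f p) :=
            div_le_div_of_nonneg_right h4 f1.le
        _ = g i p := by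
            simp only [hg]
            ring
    linarith
  · -- the unlinked sets
    choose M0 hM0 using fun c : Fin 3 => hM c.castSucc (by
      intro h
      have := congrArg Fin.val h
      rw [Fin.val_castSucc] at this
      have := c.2
      simp at *
      omega) z
    set a : Fin 4 → ℝ := fun c => ∑ i ∈ U, ia c i with ha
    have ha0 : ∀ c, 0 ≤ a c := fun c => sum_nonneg fun i _ => ia_nonneg c i
    have ha3 : a 3 ≤ 1 := unl_w3 U hU
    have ha012 : a 0 + a 1 + a 2 ≤ 3 := unl_w012 U hU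
    have haU : ∀ c, a c ≤ 4 := by
      intro c
      have h1 : a c ≤ ∑ _i ∈ U, (1 : ℝ) := sum_le_sum fun i _ => ia_le c i
      rw [sum_const, nsmul_eq_mul, mul_one] at h1
      have h2 : (U.card : ℝ) ≤ 4 := by exact_mod_cast unl_card U hU
      linarith
    set T : ℝ := 10 * (|M0 0| + |M0 1| + |M0 2|) with hT
    refine ⟨Real.exp (T + 8 * n ^ 2 * CS), fun y hy => ?_⟩
    have hy3 : 3 ≤ y := by omega
    unfold Lam
    rw [← Real.exp_sum, ← Real.exp_add]
    apply Real.exp_le_exp.2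
    set S : Fin 4 → ℝ := fun c => ∑ p ∈ PS z y, (rho (Fc A B D c) p : ℝ) / p with hS
    -- the sum of the weights
    have h1 : ∑ i ∈ U, ∑ p ∈ PS z y, g i p ≤ ∑ p ∈ PS z y,
        (∑ c : Fin 4, ((rho (Fc A B D c) p : ℝ) / p) * a c + 8 * n ^ 2 * (1 / (p : ℝ) ^ 2)) := by
      rw [sum_comm]
      refine sum_le_sum fun p hp => ?_
      obtain ⟨f0, f1, f2, f3⟩ := hfacts p (mem_PS.1 hp).2 (mem_PS.1 hp).1.1
      have e1 : ∑ i ∈ U, g i p = (1 / ((p : ℝ) - rho f p)) *
          ∑ c : Fin 4, (rho (Fc A B D c) p : ℝ) * a c := by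
        simp only [hg, ha]
        rw [← mul_sum, sum_comm]
        congr 1
        refine sum_congr rfl fun c _ => ?_
        rw [mul_sum]
      set R : ℝ := ∑ c : Fin 4, (rho (Fc A B D c) p : ℝ) * a c with hR
      have e2 : ∑ c : Fin 4, ((rho (Fc A B D c) p : ℝ) / p) * a c = R / p := by
        rw [hR, sum_div]
        refine sum_congr rfl fun c _ => ?_
        ring
      have hR0 : 0 ≤ R := sum_nonneg fun c _ => mul_nonneg (Nat.cast_nonneg _) (ha0 c)
      have hR4 : R ≤ 4 * n := by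
        have h2 : R ≤ ∑ c : Fin 4, (rho (Fc A B D c) p : ℝ) * 4 :=
          sum_le_sum fun c _ => mul_le_mul_of_nonneg_left (haU c) (Nat.cast_nonneg _)
        rw [← sum_mul, ← rho_sum hf' (mem_PS.1 hp).2 (mem_PS.1 hp).1.1, ← hfd] at h2
        linarith
      rw [e1, e2]
      have h6 : (0 : ℝ) ≤ rho f p := Nat.cast_nonneg _
      have e3 : (1 / ((p : ℝ) - rho f p)) * R - R / p =
          R * rho f p / (p * (p - rho f p)) := by
        field_simp
        ring
      have e4 : R * rho f p / (p * (p - rho f p)) ≤ 8 * n ^ 2 * (1 / (p : ℝ) ^ 2) := by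
        rw [mul_one_div, div_le_div_iff₀ (by positivity) (by positivity)]
        have h7 : (0 : ℝ) ≤ n := Nat.cast_nonneg _
        calc R * rho f p * (p : ℝ) ^ 2 ≤ (4 * n) * n * (p : ℝ) ^ 2 := by gcongr
          _ = 8 * (n : ℝ) ^ 2 * (p * (p / 2)) := by ring
          _ ≤ 8 * (n : ℝ) ^ 2 * (p * (p - rho f p)) := by gcongr
      linarith
    have h2 : ∑ p ∈ PS z y, (∑ c : Fin 4, ((rho (Fc A B D c) p : ℝ) / p) * a c +
        8 * n ^ 2 * (1 / (p : ℝ) ^ 2)) ≤ ∑ c : Fin 4, S c * a c + 8 * n ^ 2 * CS := by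
      rw [sum_add_distrib, sum_comm]
      refine add_le_add (le_of_eq (sum_congr rfl fun c _ => ?_)) ?_
      · simp only [hS]
        rw [sum_mul]
      · rw [← mul_sum]
        exact mul_le_mul_of_nonneg_left (hCS z y) (by positivity)
    have h3 : ∑ p ∈ PS z y, (rho f p : ℝ) / p = ∑ c : Fin 4, S c := by
      simp only [hS]
      rw [sum_comm]
      refine sum_congr rfl fun p hp => ?_
      rw [hfd, rho_sum hf' (mem_PS.1 hp).2 (mem_PS.1 hp).1.1, sum_div]
    have h4 : ∑ c : Fin 4, S c * a c ≤ ∑ c : Fin 4, S c + T := by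
      have b0 := abs_le.1 (hM0 0 y hy3)
      have b1 := abs_le.1 (hM0 1 y hy3)
      have b2 := abs_le.1 (hM0 2 y hy3)
      have hS3 : 0 ≤ S 3 := sum_nonneg fun p _ => by positivity
      set L : ℝ := (m : ℝ) * Real.log (Real.log y) with hL
      have hL0 : 0 ≤ L := by
        have hyr : (3 : ℝ) ≤ y := by exact_mod_cast hy3
        have hl1 : 1 ≤ Real.log y := by
          rw [Real.le_log_iff_exp_le (by linarith)]
          have := Real.exp_one_lt_d9
          linarith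
        exact mul_nonneg (Nat.cast_nonneg _) (Real.log_nonneg hl1)
      have c0 : |S 0 - L| ≤ |M0 0| := (hM0 0 y hy3).trans (le_abs_self _)
      have c1 : |S 1 - L| ≤ |M0 1| := (hM0 1 y hy3).trans (le_abs_self _)
      have c2 : |S 2 - L| ≤ |M0 2| := (hM0 2 y hy3).trans (le_abs_self _)
      rw [abs_le] at c0 c1 c2
      rw [Fin.sum_univ_four, Fin.sum_univ_four]
      have d0 : S 0 * a 0 ≤ L * a 0 + 4 * |M0 0| := by
        have := mul_le_mul_of_nonneg_right (show S 0 ≤ L + |M0 0| by linarith [c0.2]) (ha0 0)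
        nlinarith [haU 0, abs_nonneg (M0 0)]
      have d1 : S 1 * a 1 ≤ L * a 1 + 4 * |M0 1| := by
        have := mul_le_mul_of_nonneg_right (show S 1 ≤ L + |M0 1| by linarith [c1.2]) (ha0 1)
        nlinarith [haU 1, abs_nonneg (M0 1)]
      have d2 : S 2 * a 2 ≤ L * a 2 + 4 * |M0 2| := by
        have := mul_le_mul_of_nonneg_right (show S 2 ≤ L + |M0 2| by linarith [c2.2]) (ha0 2)
        nlinarith [haU 2, abs_nonneg (M0 2)]
      have d3 : S 3 * a 3 ≤ S 3 := mul_le_of_le_one_right hS3 ha3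
      have d4 : L * (a 0 + a 1 + a 2) ≤ L * 3 := mul_le_mul_of_nonneg_left ha012 hL0
      rw [hT]
      nlinarith [c0.1, c1.1, c2.1, abs_nonneg (M0 0), abs_nonneg (M0 1), abs_nonneg (M0 2)]
    rw [h3]
    linarith
  · -- the local function
    obtain ⟨f0, f1, f2, f3⟩ := hfacts p hp hzp
    have hl : ∀ r : ℕ, (ind (LL (clq A B p (r : ℤ)) (kpq A B D p (r : ℤ)) true p (v 0).1 (v 0).2
        (hs 0) (hs' 0)) + ind (LL (clq A B p (r : ℤ)) (kpq A B D p (r : ℤ)) false p (v 0).1 (v 0).2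
        (hs 0) (hs' 0))) / 2 = ∑ x : Vk 1, if Al (clq A B p (r : ℤ)) (v 0) (x 0) = true then
        wc (clq A B p (r : ℤ)) * Jr (kc (clq A B p (r : ℤ)) (kpq A B D p (r : ℤ)) (v 0) (x 0)) p *
          (sx (x 0).1 (hs 0) * sx (x 0).2 (hs' 0)) else 0 := by
      intro r
      rw [loc_id _ _ hp (kpq_ne hf' hp hzp _)]
      refine Fintype.sum_equiv (Equiv.funUnique (Fin 1) (Bool × Bool)).symm _ _ fun x => ?_
      rfl
    unfold PhG TyF LcQ
    rw [sum_product]
    simp only [Fintype.sum_bool, Fin.prod_univ_one, Fin.isValue]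
    have h2 : ∀ r : ℕ, Wt2 f p * ind (LL (clq A B p (r : ℤ)) (kpq A B D p (r : ℤ)) true p (v 0).1
        (v 0).2 (hs 0) (hs' 0)) + Wt2 f p * ind (LL (clq A B p (r : ℤ)) (kpq A B D p (r : ℤ)) false
        p (v 0).1 (v 0).2 (hs 0) (hs' 0)) = (1 / ((p : ℝ) - rho f p)) *
        ((ind (LL (clq A B p (r : ℤ)) (kpq A B D p (r : ℤ)) true p (v 0).1 (v 0).2
        (hs 0) (hs' 0)) + ind (LL (clq A B p (r : ℤ)) (kpq A B D p (r : ℤ)) false p (v 0).1 (v 0).2
        (hs 0) (hs' 0))) / 2) := by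
      intro r
      unfold Wt2
      field_simp
    rw [sum_congr rfl fun r _ => h2 r]
    rw [sum_congr rfl fun r _ => by rw [hl r, mul_sum]]
    rw [sum_comm]
    refine sum_congr rfl fun x _ => ?_
    simp only [hCf]
    by_cases hpx : par v x = false
    · rw [if_pos hpx, sum_mul]
      refine sum_congr rfl fun r _ => ?_
      split_ifs <;> ring
    · rw [if_neg hpx]
      refine sum_eq_zero fun r _ => ?_
      rw [if_neg, mul_zero]
      intro h
      exact hpx (by rw [par_one]; exact al_dot _ _ _ h)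

end Pool.Agent.H64.PM
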