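import Mathlib
import Pool.Agent.H64.PM.FMA
import Pool.Agent.H64.PM.PMF

/-!
# The average of `2 ^ rank` in general families with full 2-torsion
-/

set_option autoImplicit false

namespace Pool.Agent.H64.PM

open Finset Pool.Agent.W262.RK Polynomial UniqueFactorizationMonoid
open Pool.Agent.H64.MM (Tw rk rk_scale)

/-- the Mertens type hypothesis -/
def MH (A B D : ℤ[X]) (m : ℕ) : Prop := ∀ c : Fin 4, c ≠ 3 → ∀ z : ℕ, ∃ C0 : ℝ, ∀ y : ℕ, 3 ≤ y →
  |∑ p ∈ PS z y, (rho (Fc A B D c) p : ℝ) / p - (m : ℝ) * Real.log (Real.log y)| ≤ C0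

/-- integral version -/
theorem fam_int (A B D : ℤ[X]) (hf0 : fT A B D ≠ 0) (z1 m : ℕ) (hm : 1 ≤ m)
    (hsm : Smp (fT A B D) z1) (hM : MH A B D m) :
    ∃ C0 : ℝ, 0 ≤ C0 ∧ ∀ X : ℕ, ∑ t ∈ (Icc 1 X).filter (fun t : ℕ => (fT A B D).eval (t : ℤ) ≠ 0),
      (2 : ℝ) ^ Module.finrank ℤ
        (EAB ((A * D).eval (t : ℤ)) ((B * D).eval (t : ℤ))).toAffine.Point ≤ C0 * X := by
  classical
  obtain ⟨z2, hz2⟩ := Pool.Agent.H474R2.PG.rho_le (fT A B D) hf0
  set n := (fT A B D).natDegree + 1 with hn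
  have hρ : ∀ p : ℕ, p.Prime → z1 + z2 < p → rho (fT A B D) p ≤ n := fun p hp hzp =>
    (hz2 p hp (by omega)).trans (Nat.le_succ _)
  obtain ⟨z3, hz3⟩ := avg_fam A B D n (z1 + z2) m hm hρ (fun p hp hzp => hsm p hp (by omega)) hM
  set z := z1 + z2 + z3 + (2 * n + 2) with hz
  obtain ⟨C', hC'⟩ := hz3 z (by omega)
  obtain ⟨C0, hC0⟩ := mainq 1 A B D n z (by omega) (by omega)
    (fun p hp hzp => hρ p hp (by omega)) (fun p hp hzp => hsm p hp (by omega)) C' hC'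
  refine ⟨max C0 0, le_max_right _ _, fun X => ?_⟩
  have h2 : C0 * (X : ℝ) ≤ max C0 0 * X :=
    mul_le_mul_of_nonneg_right (le_max_left _ _) (Nat.cast_nonneg _)
  have h1 := (hC0 X).trans h2
  simp only [pow_one] at h1
  exact h1

section neg

/-- the reflection -/
noncomputable def ng (G : ℤ[X]) : ℤ[X] := G.comp (-X)

lemma ng_eval (G : ℤ[X]) (x : ℤ) : (ng G).eval x = G.eval (-x) := by
  unfold ng
  rw [eval_comp]
  simp

lemma ng_mul (G H : ℤ[X]) : ng (G * H) = ng G * ng H := mul_comp _ _ _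

lemma ng_sub (G H : ℤ[X]) : ng (G - H) = ng G - ng H := sub_comp

lemma ng_ng (G : ℤ[X]) : ng (ng G) = G := by
  unfold ng
  rw [comp_assoc]
  simp

lemma ng_fT (A B D : ℤ[X]) : fT (ng A) (ng B) (ng D) = ng (fT A B D) := by
  unfold fT
  rw [ng_mul, ng_mul, ng_mul, ng_sub]

lemma ng_Fc (A B D : ℤ[X]) (c : Fin 4) : Fc (ng A) (ng B) (ng D) c = ng (Fc A B D c) := by
  unfold Fc
  split_ifs
  · rfl
  · rfl
  · rw [ng_sub]
  · rfl

lemma rho_ng (G : ℤ[X]) {p : ℕ} (hp : p.Prime) : rho (ng G) p = rho G p := by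
  have key : ∀ H : ℤ[X], rho (ng H) p ≤ rho H p := by
    intro H
    unfold rho Zr
    refine card_le_card_of_injOn (fun x => (p - x) % p) ?_ ?_
    · intro x hx
      rw [mem_coe, mem_filter, mem_range] at hx
      rw [mem_coe, mem_filter, mem_range]
      refine ⟨Nat.mod_lt _ hp.pos, ?_⟩
      rw [ng_eval] at hx
      refine (dvd_congr H ?_).1 hx.2
      have h1 : ((((p - x) % p : ℕ)) : ℤ) = ((p : ℤ) - x) - p * ((p - x) / p : ℕ) := by
        have h2 := Nat.mod_add_div (p - x) p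
        have h3 : ((p - x : ℕ) : ℤ) = (p : ℤ) - x := by
          rw [Nat.cast_sub hx.1.le]
        rw [← h3]
        zify at h2 ⊢
        linarith
      show (p : ℤ) ∣ -(x : ℤ) - (((p - x) % p : ℕ) : ℤ)
      rw [h1]
      exact ⟨((p - x) / p : ℕ) - 1, by ring⟩
    · intro x hx x' hx' h
      rw [mem_coe, mem_filter, mem_range] at hx hx'
      simp only at h
      have hx1 := hx.1
      have hx2 := hx'.1
      rcases Nat.eq_zero_or_pos x with h0 | h0 <;> rcases Nat.eq_zero_or_pos x' with h0' | h0'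
      · omega
      · rw [h0, Nat.sub_zero, Nat.mod_self, Nat.mod_eq_of_lt (by omega)] at h
        omega
      · rw [h0', Nat.sub_zero, Nat.mod_self, Nat.mod_eq_of_lt (by omega)] at h
        omega
      · rw [Nat.mod_eq_of_lt (by omega), Nat.mod_eq_of_lt (by omega)] at h
        omega
  refine le_antisymm (key G) ?_
  have h1 := key (ng G)
  rwa [ng_ng] at h1

lemma MH_ng {A B D : ℤ[X]} {m : ℕ} (h : MH A B D m) : MH (ng A) (ng B) (ng D) m := by
  intro c hc z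
  obtain ⟨C0, hC0⟩ := h c hc z
  refine ⟨C0, fun y hy => ?_⟩
  have h1 : ∑ p ∈ PS z y, (rho (Fc (ng A) (ng B) (ng D) c) p : ℝ) / p =
      ∑ p ∈ PS z y, (rho (Fc A B D c) p : ℝ) / p := by
    refine sum_congr rfl fun p hp => ?_
    rw [ng_Fc, rho_ng _ (mem_PS.1 hp).2]
  rw [h1]
  exact hC0 y hy

lemma Smp_ng {f : ℤ[X]} {z : ℕ} (h : Smp f z) : Smp (ng f) z := by
  intro p hp hz x hx
  rw [ng_eval] at hx
  have h1 := h p hp hz _ hx
  unfold ng
  rw [derivative_comp, eval_mul, eval_comp]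
  simpa using h1

end neg

/-- rational version, both signs -/
theorem fam_all (A B D : ℚ[X]) (hsq : Squarefree (A * B * (A - B))) (hD : D ≠ 0)
    (hco : IsCoprime D (A * B * (A - B)))
    (h1 : Multiset.card (normalizedFactors A) = Multiset.card (normalizedFactors B))
    (h2 : Multiset.card (normalizedFactors B) = Multiset.card (normalizedFactors (A - B))) :
    ∃ C0 : ℝ, ∀ X : ℕ, 1 ≤ X →
      ∑ t ∈ (Icc (-(X : ℤ)) X).filter (fun t : ℤ => (A * B * (A - B) * D).eval (t : ℚ) ≠ 0),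
        (2 : ℝ) ^ rk (Tw (A.eval (t : ℚ)) (B.eval (t : ℚ)) (D.eval (t : ℚ))) ≤ C0 * X := by
  classical
  have hABC0 : A * B * (A - B) ≠ 0 := hsq.ne_zero
  have hA0 : A ≠ 0 := left_ne_zero_of_mul (left_ne_zero_of_mul hABC0)
  have hB0 : B ≠ 0 := right_ne_zero_of_mul (left_ne_zero_of_mul hABC0)
  have hAB0 : A - B ≠ 0 := right_ne_zero_of_mul hABC0
  rcases Nat.eq_zero_or_pos (Multiset.card (normalizedFactors A)) with hc | hc
  · -- constant polynomials
    have hunit : ∀ G : ℚ[X], G ≠ 0 → Multiset.card (normalizedFactors G) = 0 →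
        ∃ c : ℚ, c ≠ 0 ∧ G = C c := by
      intro G hG h
      have h3 : IsUnit G := by
        have h4 := prod_normalizedFactors hG
        rw [Multiset.card_eq_zero.1 h, Multiset.prod_zero] at h4
        exact (associated_one_iff_isUnit).1 h4.symm
      obtain ⟨c, hc, hc2⟩ := Polynomial.isUnit_iff.1 h3
      exact ⟨c, hc.ne_zero, hc2.symm⟩
    obtain ⟨a, ha, rfl⟩ := hunit A hA0 hc
    obtain ⟨b, hb, rfl⟩ := hunit B hB0 (by rw [← h1]; exact hc)
    have hab : a ≠ b := by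
      rintro rfl
      exact hAB0 (sub_self _)
    obtain ⟨C0, _, hC0⟩ := pm_all 1 a b ha hb hab D hD
    refine ⟨C0, fun X hX => le_trans (le_of_eq ?_) (hC0 X hX)⟩
    have h3 : (Icc (-(X : ℤ)) X).filter (fun t : ℤ => (C a * C b * (C a - C b) * D).eval (t : ℚ) ≠ 0)
        = (Icc (-(X : ℤ)) X).filter (fun t : ℤ => D.eval (t : ℚ) ≠ 0) := by
      refine filter_congr fun t _ => ?_
      simp only [eval_mul, eval_sub, eval_C]
      exact ⟨fun h => right_ne_zero_of_mul h, fun h => mul_ne_zero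
        (mul_ne_zero (mul_ne_zero ha hb) (sub_ne_zero.2 hab)) h⟩
    rw [h3]
    refine sum_congr rfl fun t _ => ?_
    rw [pow_one, eval_C, eval_C]
  -- clearing the denominators
  obtain ⟨s, r, hs, hDs⟩ := sqf_part D hD
  have hs0 : s ≠ 0 := hs.ne_zero
  have hr0 : r ≠ 0 := by
    rintro rfl
    exact hD (by rw [hDs]; ring)
  have hclear : ∀ q : ℚ[X], ∃ (N : ℤ) (Q : ℤ[X]), N ≠ 0 ∧
      Q.map (Int.castRingHom ℚ) = C (N : ℚ) * q := by
    intro q
    obtain ⟨b, hbM, hb⟩ := IsLocalization.integerNormalization_spec (nonZeroDivisors ℤ) q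
    refine ⟨b, IsLocalization.integerNormalization (nonZeroDivisors ℤ) q,
      nonZeroDivisors.ne_zero hbM, ?_⟩
    have h1 : (algebraMap ℤ ℚ) = Int.castRingHom ℚ := rfl
    rw [← h1, hb]
    ext i
    simp
  obtain ⟨N1, QA, hN1, hQA⟩ := hclear A
  obtain ⟨N2, QB, hN2, hQB⟩ := hclear B
  obtain ⟨N3, QS, hN3, hQS⟩ := hclear s
  have hN1q : (N1 : ℚ) ≠ 0 := by exact_mod_cast hN1
  have hN2q : (N2 : ℚ) ≠ 0 := by exact_mod_cast hN2
  have hN3q : (N3 : ℚ) ≠ 0 := by exact_mod_cast hN3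
  set N : ℤ := N1 * N2 with hN
  have hNq : (N : ℚ) ≠ 0 := by
    rw [hN]
    push_cast
    exact mul_ne_zero hN1q hN2q
  set A1 : ℤ[X] := C (N1 * N2 ^ 2) * QA with hA1
  set B1 : ℤ[X] := C (N1 ^ 2 * N2) * QB with hB1
  set D1 : ℤ[X] := C N3 * QS with hD1
  have hcast : ∀ c : ℤ, (Int.castRingHom ℚ) c = (c : ℚ) := fun c => rfl
  have hA1m : A1.map (Int.castRingHom ℚ) = C ((N : ℚ) ^ 2) * A := by
    rw [hA1, Polynomial.map_mul, map_C, hQA, hcast, ← mul_assoc, ← C_mul, hN]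
    congr 2
    push_cast
    ring
  have hB1m : B1.map (Int.castRingHom ℚ) = C ((N : ℚ) ^ 2) * B := by
    rw [hB1, Polynomial.map_mul, map_C, hQB, hcast, ← mul_assoc, ← C_mul, hN]
    congr 2
    push_cast
    ring
  have hC1m : (A1 - B1).map (Int.castRingHom ℚ) = C ((N : ℚ) ^ 2) * (A - B) := by
    rw [Polynomial.map_sub, hA1m, hB1m]
    ring
  have hD1m : D1.map (Int.castRingHom ℚ) = C ((N3 : ℚ) ^ 2) * s := by
    rw [hD1, Polynomial.map_mul, map_C, hQS, hcast, ← mul_assoc, ← C_mul]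
    congr 2
    ring
  have hfm : (fT A1 B1 D1).map (Int.castRingHom ℚ) =
      C ((N : ℚ) ^ 6 * (N3 : ℚ) ^ 2) * (A * B * (A - B) * s) := by
    unfold fT
    rw [Polynomial.map_mul, Polynomial.map_mul, Polynomial.map_mul, hA1m, hB1m, hC1m, hD1m]
    simp only [C_mul, C_pow]
    ring
  have hc0 : (N : ℚ) ^ 6 * (N3 : ℚ) ^ 2 ≠ 0 := mul_ne_zero (pow_ne_zero _ hNq) (pow_ne_zero _ hN3q)
  have hsqs : Squarefree (A * B * (A - B) * s) := by
    have hco' : IsCoprime (A * B * (A - B)) s := by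
      rw [hDs] at hco
      exact (IsCoprime.of_mul_left_left hco).symm
    exact (squarefree_mul_iff).2 ⟨hco'.isRelPrime, hsq, hs⟩
  have hsqf : Squarefree ((fT A1 B1 D1).map (Int.castRingHom ℚ)) := by
    rw [hfm]
    have hu : IsUnit (C ((N : ℚ) ^ 6 * (N3 : ℚ) ^ 2)) := by
      rw [isUnit_C, isUnit_iff_ne_zero]
      exact hc0
    have hass : Associated (A * B * (A - B) * s)
        (C ((N : ℚ) ^ 6 * (N3 : ℚ) ^ 2) * (A * B * (A - B) * s)) :=
      (associated_isUnit_mul_left_iff hu).2 (Associated.refl _) |>.symm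
    exact hass.squarefree_iff.1 hsqs
  have hf0 : fT A1 B1 D1 ≠ 0 := by
    intro h
    rw [h, Polynomial.map_zero] at hsqf
    exact hsqf.ne_zero rfl
  obtain ⟨z1, hz1⟩ := smp_of _ hsqf
  set m := Multiset.card (normalizedFactors A) with hm
  have hnf : ∀ (G : ℚ[X]) (G1 : ℤ[X]), G ≠ 0 → G1.map (Int.castRingHom ℚ) = C ((N : ℚ) ^ 2) * G →
      nf G1 = Multiset.card (normalizedFactors G) := by
    intro G G1 hG h
    unfold nf
    have hu : IsUnit (C ((N : ℚ) ^ 2)) := by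
      rw [isUnit_C, isUnit_iff_ne_zero]
      exact pow_ne_zero _ hNq
    rw [h, normalizedFactors_mul hu.ne_zero hG, normalizedFactors_of_isUnit hu, zero_add]
  have hMH : MH A1 B1 D1 m := by
    intro c hc3 z
    have hmem : ∃ G : ℚ[X], G ≠ 0 ∧ (Fc A1 B1 D1 c).map (Int.castRingHom ℚ) = C ((N : ℚ) ^ 2) * G ∧
        Multiset.card (normalizedFactors G) = m := by
      unfold Fc
      split_ifs with c0 c1 c2
      · exact ⟨A, hA0, hA1m, rfl⟩
      · exact ⟨B, hB0, hB1m, h1.symm⟩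
      · exact ⟨A - B, hAB0, hC1m, (h1.trans h2).symm⟩
      · exfalso
        revert c0 c1 c2 hc3
        revert c
        decide
    obtain ⟨G, hG0, hG, hGm⟩ := hmem
    have hne : Fc A1 B1 D1 c ≠ 0 := by
      intro h
      rw [h, Polynomial.map_zero] at hG
      exact mul_ne_zero (C_ne_zero.2 (pow_ne_zero 2 hNq)) hG0 hG.symm
    have hsqc : Squarefree ((Fc A1 B1 D1 c).map (Int.castRingHom ℚ)) := by
      obtain ⟨E, hE⟩ := Fc_dvd (A := A1) (B := B1) (D := D1) c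
      rw [hE, Polynomial.map_mul] at hsqf
      exact hsqf.squarefree_of_dvd (Dvd.intro _ rfl)
    obtain ⟨C0, hC0⟩ := mert_two _ hne hsqc z
    refine ⟨C0, fun y hy => ?_⟩
    have := hC0 y hy
    rwa [hnf G _ hG0 hG, hGm] at this
  obtain ⟨C1, hC10, hC1⟩ := fam_int A1 B1 D1 hf0 z1 m hc hz1 hMH
  obtain ⟨C2, hC20, hC2⟩ := fam_int (ng A1) (ng B1) (ng D1) (by
    rw [ng_fT]
    intro h
    apply hf0
    rw [← ng_ng (fT A1 B1 D1), h]
    unfold ng
    exact zero_comp) z1 m hc (by rw [ng_fT]; exact Smp_ng hz1) (MH_ng hMH)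
  -- the evaluations
  have hev : ∀ (G : ℤ[X]) (t : ℤ), (G.map (Int.castRingHom ℚ)).eval (t : ℚ) = ((G.eval t : ℤ) : ℚ) := by
    intro G t
    rw [eval_intCast_map]
    rfl
  have hAe : ∀ t : ℤ, ((A1.eval t : ℤ) : ℚ) = (N : ℚ) ^ 2 * A.eval (t : ℚ) := by
    intro t
    rw [← hev, hA1m, eval_mul, eval_C]
  have hBe : ∀ t : ℤ, ((B1.eval t : ℤ) : ℚ) = (N : ℚ) ^ 2 * B.eval (t : ℚ) := by
    intro t
    rw [← hev, hB1m, eval_mul, eval_C]
  have hDe : ∀ t : ℤ, ((D1.eval t : ℤ) : ℚ) = (N3 : ℚ) ^ 2 * s.eval (t : ℚ) := by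
    intro t
    rw [← hev, hD1m, eval_mul, eval_C]
  have hfe : ∀ t : ℤ, (((fT A1 B1 D1).eval t : ℤ) : ℚ) =
      (N : ℚ) ^ 6 * (N3 : ℚ) ^ 2 * (A * B * (A - B) * s).eval (t : ℚ) := by
    intro t
    rw [← hev, hfm, eval_mul, eval_C]
  set Q : ℤ → ℝ := fun t => if (fT A1 B1 D1).eval t ≠ 0 then (2 : ℝ) ^ Module.finrank ℤ
        (EAB ((A1 * D1).eval t) ((B1 * D1).eval t)).toAffine.Point else 0 with hQ
  have hQ0 : ∀ t, 0 ≤ Q t := fun t => by
    simp only [hQ]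
    split_ifs <;> positivity
  have hterm : ∀ t : ℤ, (A * B * (A - B) * D).eval (t : ℚ) ≠ 0 →
      (2 : ℝ) ^ rk (Tw (A.eval (t : ℚ)) (B.eval (t : ℚ)) (D.eval (t : ℚ))) ≤ Q t := by
    intro t ht
    have hDt : D.eval (t : ℚ) = s.eval (t : ℚ) * (r.eval (t : ℚ)) ^ 2 := by
      rw [hDs, eval_mul, eval_pow]
    rw [eval_mul, hDt] at ht
    have ht1 := left_ne_zero_of_mul ht
    have ht2 := left_ne_zero_of_mul (right_ne_zero_of_mul ht)
    have ht3 : r.eval (t : ℚ) ≠ 0 := by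
      intro h
      exact (right_ne_zero_of_mul (right_ne_zero_of_mul ht)) (by rw [h]; ring)
    have hne : (fT A1 B1 D1).eval t ≠ 0 := by
      intro h
      have h3 := hfe t
      rw [h, eval_mul] at h3
      exact (mul_ne_zero hc0 (mul_ne_zero ht1 ht2)) (by simpa using h3.symm)
    simp only [hQ]
    rw [if_pos hne]
    apply le_of_eq
    congr 1
    refine rk_scale _ _ _ _ _ (r.eval (t : ℚ) / (N * N3))
      (div_ne_zero ht3 (mul_ne_zero hNq hN3q)) ?_ ?_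
    · rw [eval_mul]
      push_cast
      rw [hAe, hDe, hDt]
      field_simp
    · rw [eval_mul]
      push_cast
      rw [hBe, hDe, hDt]
      field_simp
  refine ⟨C1 + C2 + Q 0, fun X hX => ?_⟩
  have hXr : (1 : ℝ) ≤ X := by exact_mod_cast hX
  have e1 : ∑ t ∈ Icc 1 X, Q (t : ℤ) ≤ C1 * X := by
    have h := hC1 X
    rw [sum_filter] at h
    exact h
  have e2 : ∑ t ∈ Icc 1 X, Q (-(t : ℤ)) ≤ C2 * X := by
    have h := hC2 X
    rw [sum_filter] at h
    refine le_trans (le_of_eq ?_) h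
    refine sum_congr rfl fun t _ => ?_
    have a1 : (ng A1 * ng D1).eval (t : ℤ) = (A1 * D1).eval (-(t : ℤ)) := by
      rw [← ng_mul, ng_eval]
    have a2 : (ng B1 * ng D1).eval (t : ℤ) = (B1 * D1).eval (-(t : ℤ)) := by
      rw [← ng_mul, ng_eval]
    simp only [hQ, ng_fT, ng_eval]
    rw [a1, a2]
  have hsub : Icc (-(X : ℤ)) X ⊆ ((Icc 1 X).image (fun t : ℕ => (t : ℤ)) ∪
      (Icc 1 X).image (fun t : ℕ => -(t : ℤ))) ∪ {0} := by
    intro t ht
    rw [mem_Icc] at ht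
    rw [mem_union, mem_union, mem_image, mem_image, mem_singleton]
    rcases lt_trichotomy t 0 with h | h | h
    · left; right
      exact ⟨t.natAbs, mem_Icc.2 (by omega), by omega⟩
    · right; exact h
    · left; left
      exact ⟨t.natAbs, mem_Icc.2 (by omega), by omega⟩
  have hun : ∀ S T : Finset ℤ, ∑ t ∈ S ∪ T, Q t ≤ ∑ t ∈ S, Q t + ∑ t ∈ T, Q t := by
    intro S T
    rw [← sum_union_inter]
    exact le_add_of_nonneg_right (sum_nonneg fun t _ => hQ0 t)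
  have e3 : ∑ t ∈ (Icc 1 X).image (fun t : ℕ => (t : ℤ)), Q t = ∑ t ∈ Icc 1 X, Q (t : ℤ) :=
    sum_image (fun i _ j _ hij => by exact_mod_cast hij)
  have e4 : ∑ t ∈ (Icc 1 X).image (fun t : ℕ => -(t : ℤ)), Q t = ∑ t ∈ Icc 1 X, Q (-(t : ℤ)) :=
    sum_image (fun i _ j _ hij => by simpa using hij)
  have h5 := (sum_le_sum_of_subset_of_nonneg hsub (fun t _ _ => hQ0 t)).trans
    ((hun _ _).trans (add_le_add (hun _ _) le_rfl))
  rw [e3, e4, sum_singleton] at h5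
  have h6 : Q 0 ≤ Q 0 * X := le_mul_of_one_le_right (hQ0 0) hXr
  calc ∑ t ∈ (Icc (-(X : ℤ)) X).filter (fun t : ℤ => (A * B * (A - B) * D).eval (t : ℚ) ≠ 0),
        (2 : ℝ) ^ rk (Tw (A.eval (t : ℚ)) (B.eval (t : ℚ)) (D.eval (t : ℚ)))
      ≤ ∑ t ∈ (Icc (-(X : ℤ)) X).filter (fun t : ℤ => (A * B * (A - B) * D).eval (t : ℚ) ≠ 0),
        Q t := sum_le_sum fun t ht => hterm t (mem_filter.1 ht).2
    _ ≤ ∑ t ∈ Icc (-(X : ℤ)) X, Q t :=
        sum_le_sum_of_subset_of_nonneg (filter_subset _ _) fun t _ _ => hQ0 t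
    _ ≤ (C1 + C2 + Q 0) * X := by linarith

end Pool.Agent.H64.PM
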